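import Pool.Agent.N643.TD.Spec

set_option autoImplicit false

/-! Task BASE3 (helper803, port of W875/TS): the base family. -/

namespace Pool.Agent.N643.TD

open Set
open Pool.Agent.H899R2.VP
open Pool.Agent.H533R2.VO (iso_trans0 iso_symm0)

theorem zip2_left {x0 z0 x z : ℕ} {us0 us : List ℕ} :
    (x0, x) ∈ zipSet (x0 :: z0 :: us0) (x :: z :: us) := by
  rw [zipSet_cons]
  exact mem_insert _ _

theorem zip2_right {x0 z0 x z : ℕ} {us0 us : List ℕ} :
    (z0, z) ∈ zipSet (x0 :: z0 :: us0) (x :: z :: us) := by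
  rw [zipSet_cons, zipSet_cons]
  exact mem_insert_of_mem _ (mem_insert _ _)

theorem zip2_sub {x0 z0 x z : ℕ} {us0 us : List ℕ} :
    zipSet us0 us ⊆ zipSet (x0 :: z0 :: us0) (x :: z :: us) := by
  rw [zipSet_cons, zipSet_cons]
  exact (subset_insert _ _).trans (subset_insert _ _)

/-- Labelled cones with the same code are equivalent. -/
theorem zip2_bf {M0 M : T} {x0 z0 x z : ℕ} {us0 us : List ℕ} {α : Ordinal.{0}}
    (ho : Ordinal.omega0 ≤ α) (hl : us0.length = us.length)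
    (h0 : Rp (pc M0 univ (Cn M0 x0 z0)) (Cn M0 x0 z0) us0)
    (h1 : Rp (pc M univ (Cn M x z)) (Cn M x z) us)
    (hb : BF M0 M univ univ α (zipSet (x0 :: z0 :: us0) (x :: z :: us))) :
    BF (od (pc M0 univ (Cn M0 x0 z0)) us0) (od (pc M univ (Cn M x z)) us)
      (Cn M0 x0 z0) (Cn M x z) α ∅ :=
  resOdCn ho zip2_left zip2_right hl zip2_sub h0.sub h1.sub hb

theorem t_BASE3 (h1 : S_LAB3) (h2 : S_GENC) : S_BASE3 := by
  intro n α K hK
  obtain ⟨c, hc⟩ := h1 n α K hK α hK.lt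
  classical
  -- the choice of the functions
  have hg : ∀ κ len : ℕ, ∃ g : ℕ → T × Set ℕ,
      (∃ M ∈ K, ∃ x z us, c M (x :: z :: us) = κ ∧ us.length = len ∧
        Rp (pc M univ (Cn M x z)) (Cn M x z) us ∧
        ¬ Big α (pc M univ (Cn M x z)) (Cn M x z) us) →
      ∃ M ∈ K, ∃ x z us, c M (x :: z :: us) = κ ∧ us.length = len ∧
        Rp (pc M univ (Cn M x z)) (Cn M x z) us ∧
        ∀ (N : T) (Y : Set ℕ), BF (od (pc M univ (Cn M x z)) us) N (Cn M x z) Y α ∅ →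
          ∃ n, IsoOn (g n).1 (pc N Y Y) (g n).2 Y ∅ := by
    intro κ len
    by_cases h : ∃ M ∈ K, ∃ x z us, c M (x :: z :: us) = κ ∧ us.length = len ∧
        Rp (pc M univ (Cn M x z)) (Cn M x z) us ∧
        ¬ Big α (pc M univ (Cn M x z)) (Cn M x z) us
    · obtain ⟨M, hM, x, z, us, hκ, hl, hr, hb⟩ := h
      obtain ⟨g, hg⟩ := not_not.1 fun h3 => hb ⟨hr, h3⟩
      exact ⟨g, fun _ => ⟨M, hM, x, z, us, hκ, hl, hr, hg⟩⟩
    · exact ⟨fun _ => (((fun _ _ => false, fun _ _ => false) : T), ∅), fun h' => absurd h' h⟩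
  choose g hg using hg
  obtain ⟨S, hS, hSf⟩ := h2 (fun m => g m.unpair.1.unpair.1 m.unpair.1.unpair.2 m.unpair.2)
  have hSg : ∀ κ len m, g κ len m ∈ S := by
    intro κ len m
    have := hSf (Nat.pair (Nat.pair κ len) m)
    simpa using this
  refine ⟨S, hS, ?_⟩
  intro M hM x z hxz hnot
  obtain ⟨us, hus, -⟩ := (hK.cs M hM).exRp hxz
  refine ⟨us, ?_⟩
  by_contra hsm
  obtain ⟨M0, hM0, x0, z0, us0, hκ, hl, hr0, hM0g⟩ := hg (c M (x :: z :: us)) us.length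
    ⟨M, hM, x, z, us, rfl, rfl, hus, hsm⟩
  have hbf := hc M0 hM0 M hM (x0 :: z0 :: us0) (x :: z :: us) (by simp [hl]) hκ
  obtain ⟨m, hm⟩ := hM0g _ (Cn M x z) (zip2_bf hK.om hl hr0 hus hbf)
  have h3 := pc_od (hK.cs M hM).eqv hus (subset_univ _) (Subset.rfl : Cn M x z ⊆ Cn M x z)
  exact hnot (hS.iso _ _ _ _ (hSg _ _ m) (iso_trans0 hm (h3.mono (empty_subset _))))

end Pool.Agent.N643.TD
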