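import Pool.Agent.N643.TD.Spec

set_option autoImplicit false

/-! CTF (helper803, port of W875/TS): a point centre. -/

namespace Pool.Agent.N643.TD

open Set
open Pool.Agent.H899R2.VP

theorem t_CTF : S_CTF := by
  intro n S N v _ hN0 hS
  have hN := hN0.cr
  refine ⟨hN0, ?_, ?_, ?_, ?_⟩
  · intro x y hxy
    change D N v x y at hxy
    refine ⟨hN.ne' hxy, fun x' => ?_⟩
    change D N v x' y ↔ D N x x' y
    exact ⟨fun h => hN.trans (hN.symm _ _ _ hxy) h, fun h => hN.trans hxy h⟩
  · rintro y y' ⟨x, hx⟩ ⟨x', hx'⟩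
    change D N v x y at hx
    change D N v x' y' at hx'
    exact ⟨v, hN.refl v y (hN.ne hx), hN.refl v y' (hN.ne hx')⟩
  · intro v0 h0 y hy
    have hv : v0 = v := by
      by_contra hne
      exact h0 ⟨v, hN.refl v v0 (fun h => hne h.symm)⟩
    subst hv
    exact hN.refl v0 y (fun h => hy h.symm)
  · intro x y hxy
    change D N v x y at hxy
    have h1 := hN.ceq hxy
    rw [← h1]
    exact hS y (fun h => hN.ne hxy h.symm)

end Pool.Agent.N643.TD
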