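import Pool.Agent.N643.TD.Spec

set_option autoImplicit false

/-! CTT (helper803, port of W875/TS): an end as centre. -/

namespace Pool.Agent.N643.TD

open Set
open Pool.Agent.H899R2.VP

theorem t_CTT : S_CTT := by
  intro n S N v _ hN0 hex hdis
  have hN := hN0.cr
  refine ⟨hN0, ?_, ?_, ?_, ?_⟩
  · rintro x y ⟨hxy, hb⟩
    refine ⟨hxy, fun x' => ⟨?_, ?_⟩⟩
    · rintro ⟨hx'y, hb'⟩
      by_contra hD
      have hd : Disjoint (Cn N x y) (Cn N x' y) := by
        rw [Set.disjoint_left]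
        intro z hz hz'
        exact hD (hN.trans hz (hN.symm _ _ _ hz'))
      rcases hdis x y x' y hxy hx'y hd with h | h
      · exact hb h
      · exact hb' h
    · intro hD
      refine ⟨hN.ne' hD, ?_⟩
      rw [← hN.Cn_eq hD]
      exact hb
  · rintro y y' ⟨x, hx, hb⟩ ⟨x', hx', hb'⟩
    have hd : ¬ Disjoint (Cn N x y) (Cn N x' y') := by
      intro hd
      rcases hdis x y x' y' hx hx' hd with h | h
      · exact hb h
      · exact hb' h
    obtain ⟨p, hp, hp'⟩ := Set.not_disjoint_iff.1 hd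
    refine ⟨p, ⟨hN.ne' hp, ?_⟩, ⟨hN.ne' hp', ?_⟩⟩
    · rw [← hN.Cn_eq hp]
      exact hb
    · rw [← hN.Cn_eq hp']
      exact hb'
  · intro v0 h0 y _
    obtain ⟨x, hx, hb⟩ := hex v0
    exact absurd ⟨x, hx, hb⟩ h0
  · rintro x y ⟨hxy, hb⟩
    have hd : Disjoint (Cn N y x) (Cn N x y) := by
      rw [Set.disjoint_left]
      intro z hz hz'
      exact hN.c2 _ _ _ (hN.symm _ _ _ hz) (hN.symm _ _ _ hz')
    rcases hdis y x x y (fun h => hxy h.symm) hxy hd with h | h
    · exact h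
    · exact absurd h hb

end Pool.Agent.N643.TD
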