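import Pool.Agent.N643.TD.Spec

set_option autoImplicit false

/-! Decoding D. -/

namespace Pool.Agent.N643.TD

open Set
open Pool.Agent.H899R2.VP
open Pool.Agent.H533R2.VO (iso_symm0 iso_trans0)

theorem dd_aux (h1 : S_DSF) (h2 : S_DC) (h3 : S_STG) {n : ℕ} {α : Ordinal.{0}} {M : T}
    {x z : ℕ → ℕ} {us : ℕ → List ℕ} {t : ℕ → T} (hSU : SU n α M x z us t) (σ τ : ℕ → Bool)
    (e : Equiv.Perm ℕ) (he : Is (DS n M x z us t σ) (DS n M x z us t τ) e) (k : ℕ)
    (hσ : σ k = false) (hτ : τ k = true) : False := by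
  obtain ⟨-, -, hCτ, -, hIτ⟩ := h1 n α M x z us t hSU τ
  have hne : x k ≠ z k := hSU.cb.ne k
  -- the preimage of `X k`
  have hC : e.symm '' Cn M (x k) (z k) =
      Cn (DS n M x z us t σ) (e.symm (x k)) (e.symm (z k)) := by
    rw [← hCτ k]
    exact he.symm.image_Cn (x k) (z k)
  have hJ := h2 n α M x z us t hSU σ τ e he (k + 1)
  have hdis : Disjoint (Cn (DS n M x z us t σ) (e.symm (x k)) (e.symm (z k)))
      (Nd M (x (k + 1)) (x (k + 1 + 1))) := by
    rw [← hC, Set.disjoint_left]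
    rintro _ ⟨w, hw, rfl⟩ hw2
    have h4 : e (e.symm w) ∈ e '' Nd M (x (k + 1)) (x (k + 1 + 1)) := mem_image_of_mem e hw2
    rw [hJ, e.apply_symm_apply] at h4
    exact Set.disjoint_left.1 (hSU.cb.XJd k) hw h4
  obtain ⟨P, hP, hPi⟩ := h3 n α M x z us t hSU σ (k + 1) (2 * k + 1) (by
    intro j hj
    rcases Nat.lt_succ_iff_lt_or_eq.1 hj with hj | hj
    · have : (σ j).toNat ≤ 1 := by cases σ j <;> simp
      omega
    · subst hj
      rw [hσ]
      simp) (e.symm (x k)) (e.symm (z k)) (fun h => hne (e.symm.injective h)) hdis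
  have h4 : IsoOn (pc (DS n M x z us t σ) univ
        (Cn (DS n M x z us t σ) (e.symm (x k)) (e.symm (z k))))
      (pc (DS n M x z us t τ) univ (Cn M (x k) (z k)))
      (Cn (DS n M x z us t σ) (e.symm (x k)) (e.symm (z k))) (Cn M (x k) (z k)) ∅ := by
    have h5 := he.isoPc (Cn (DS n M x z us t σ) (e.symm (x k)) (e.symm (z k)))
    rw [← hC] at h5 ⊢
    have h6 : e '' (e.symm '' Cn M (x k) (z k)) = Cn M (x k) (z k) := by
      rw [← Set.image_comp]
      simp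
    rwa [h6] at h5
  have h5 := hIτ k
  rw [hτ] at h5
  have h6 : IsoOn (pc (t (2 * k + 1)) (Cn M (x k) (z k)) (Cn M (x k) (z k)))
      (pc (DS n M x z us t τ) univ (Cn M (x k) (z k))) (Cn M (x k) (z k)) (Cn M (x k) (z k)) ∅ :=
    h5
  have h7 := iso_trans0 (iso_trans0 hPi h4) (iso_symm0 h6)
  have h8 := (hSU.gt (2 * k + 1)).2 P hP
  have h9 : (2 * k + 1) / 2 = k := by omega
  rw [h9] at h8
  exact h8 h7

theorem t_DD (h1 : S_DSF) (h2 : S_DC) (h3 : S_STG) : S_DD := by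
  intro n α M x z us t hSU σ τ e he
  funext k
  cases hσ : σ k <;> cases hτ : τ k
  · rfl
  · exact (dd_aux h1 h2 h3 hSU σ τ e he k hσ hτ).elim
  · exact (dd_aux h1 h2 h3 hSU τ σ e.symm he.symm k hτ hσ).elim
  · rfl

end Pool.Agent.N643.TD
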