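import Pool.Agent.N643.TD.Spec

set_option autoImplicit false

/-! Facts on the filled structures (helper46, after W875/TS/DSF). -/

namespace Pool.Agent.N643.TD

open Set
open Pool.Agent.H899R2.VP

theorem dsf_div (k : ℕ) (b : Bool) : (2 * k + b.toNat) / 2 = k := by
  cases b <;> simp
  omega

/-- the assumptions of gluing for the fillings of a comb -/
theorem dsf_ga {n : ℕ} {α : Ordinal.{0}} {M : T} {x z : ℕ → ℕ} {us : ℕ → List ℕ} {t : ℕ → T}
    (hSU : SU n α M x z us t) (σ : ℕ → Bool) :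
    GA n α M x z us (fun k => t (2 * k + (σ k).toNat)) := by
  have hcb := hSU.cb
  refine ⟨hSU.om, hcb.cs, hcb.ne, fun i j hij => hcb.dj i j hij, fun j => (hcb.big j).1, ?_⟩
  intro k
  have := (hSU.gt (2 * k + (σ k).toNat)).1
  rwa [dsf_div] at this

theorem t_DSF (h1 : S_GLB3) (h2 : S_GLF3) (h3 : S_CSBF) : S_DSF := by
  intro n α M x z us t hSU σ
  have hcb := hSU.cb
  have hM : Cr M := hcb.cs.cr
  have hga := dsf_ga hSU σ
  have hB : BF M (DS n M x z us t σ) univ univ α ∅ := h1 n ℕ α M x z us _ hga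
  obtain ⟨g1, g2, g3⟩ := h2 n ℕ α M x z us _ hga
  refine ⟨hB, h3 n α M _ univ univ hSU.om hcb.cs hB, g1, ?_, fun k => (g2 k).mono (empty_subset _)⟩
  intro k
  ext w
  have hkk : ∀ j, x k ∈ Cn M (x j) (z j) → x (k + 1) ∈ Cn M (x j) (z j) →
      w ∉ Cn M (x j) (z j) := by
    intro j hj hj'
    exfalso
    have e1 : j = k := by
      by_contra hne
      exact Set.disjoint_left.1 (hcb.dj j k hne) hj (hM.self_mem (hcb.ne k))
    have e2 : j = k + 1 := by
      by_contra hne
      exact Set.disjoint_left.1 (hcb.dj j (k + 1) hne) hj' (hM.self_mem (hcb.ne (k + 1)))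
    omega
  exact not_congr (g3 (x k) (x (k + 1)) w hkk)

end Pool.Agent.N643.TD
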