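import Pool.Agent.N643.TD.Spec
import Pool.Agent.H533R2.VO.FIN

set_option autoImplicit false

/-! Task FINC (helper803, port of W875/TS): finite cones. -/

namespace Pool.Agent.N643.TD

open Set
open Pool.Agent.H899R2.VP

theorem t_FINC (h1 : S_LAB3) : S_FINC := by
  intro n α K hG
  have hω : Ordinal.omega0 < Ordinal.omega.{0} 1 := by
    rw [← Ordinal.omega_zero]; exact Ordinal.omega_lt_omega.2 one_pos
  obtain ⟨c, hc⟩ := h1 n α K hG Ordinal.omega0 hω
  classical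
  let R : ℕ → (T × Set ℕ) → Prop := fun k P =>
    ∃ (M : T) (x z : ℕ), M ∈ K ∧ P = (pc M univ (Cn M x z), Cn M x z) ∧ (Cn M x z).Finite ∧
      c M [x, z] = k
  let h : ℕ → T × Set ℕ := fun k =>
    if hn : ∃ P, R k P then hn.choose else (((fun _ _ => false, fun _ _ => false) : T), ∅)
  refine ⟨h, fun M hM x z _ hfin => ⟨c M [x, z], ?_⟩⟩
  have hex : ∃ P, R (c M [x, z]) P := ⟨_, M, x, z, hM, rfl, hfin, rfl⟩
  have hh : h (c M [x, z]) = hex.choose := dif_pos hex
  obtain ⟨M0, x0, z0, hM0, he, hf0, hlab⟩ := hex.choose_spec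
  rw [hh, he]
  have hb := hc M0 hM0 M hM [x0, z0] [x, z] rfl hlab
  have hb' := resPcCn0 (x := x0) (z := z0) (x' := x) (z' := z) le_rfl
    (show (x0, x) ∈ zipSet [x0, z0] [x, z] by simp [zipSet])
    (show (z0, z) ∈ zipSet [x0, z0] [x, z] by simp [zipSet]) hb
  exact Pool.Agent.H533R2.VO.t_FIN aT _ _ _ _ hf0 hb'

end Pool.Agent.N643.TD
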