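import Pool.Agent.N643.TD.Spec

set_option autoImplicit false

/-! Task GENC (helper803, port of W875/TS): the family generated by countably many pieces. -/

namespace Pool.Agent.N643.TD

open Set
open Pool.Agent.H899R2.VP
open Pool.Agent.H533R2.VO (iso_trans0 iso_symm0 iso_refl0)

/-- Iterated subpieces of a piece. -/
noncomputable def gencPiece (P : T × Set ℕ) : List (ℕ × ℕ) → T × Set ℕ
  | [] => P
  | u :: L => (pc (gencPiece P L).1 (gencPiece P L).2
      ((gencPiece P L).2 ∩ Cn (gencPiece P L).1 u.1 u.2),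
      (gencPiece P L).2 ∩ Cn (gencPiece P L).1 u.1 u.2)

/-- The family generated by the pieces `f n`. -/
def gencS (f : ℕ → T × Set ℕ) : Set (T × Set ℕ) :=
  {P | ∃ (n : ℕ) (L : List (ℕ × ℕ)), IsoOn (gencPiece (f n) L).1 P.1 (gencPiece (f n) L).2 P.2 ∅}

theorem t_GENC : S_GENC := by
  intro f
  refine ⟨gencS f, ⟨?_, ?_, ?_⟩, fun n => ⟨n, [], iso_refl0⟩⟩
  · rintro M X N Y ⟨n, L, h⟩ hi
    exact ⟨n, L, iso_trans0 h hi⟩
  · obtain ⟨e, he⟩ := exists_surjective_nat (ℕ × List (ℕ × ℕ))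
    refine ⟨fun k => gencPiece (f (e k).1) (e k).2, ?_⟩
    rintro M X ⟨n, L, h⟩
    obtain ⟨k, hk⟩ := he (n, L)
    refine ⟨k, ?_⟩
    simp only [hk]
    exact h
  · rintro M X ⟨n, L, q, h0, h1, h2, h3, h4⟩ x hx z hz
    obtain ⟨x1, hx1⟩ := h4 x hx
    obtain ⟨z1, hz1⟩ := h4 z hz
    have hb : IsoOn (gencPiece (f n) L).1 M (gencPiece (f n) L).2 X q :=
      ⟨q, Subset.rfl, h1, h2, h3, h4⟩
    exact ⟨n, (x1, z1) :: L, (resIsoCn hx1 hz1 hb).mono (empty_subset _)⟩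

end Pool.Agent.N643.TD
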