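import Pool.Agent.N643.TD.Spec

set_option autoImplicit false

/-! GLB3: the glued structure is equivalent. -/

namespace Pool.Agent.N643.TD

open Set
open Pool.Agent.H899R2.VP

namespace Glue

/-- the value of `D` does not change when entries are replaced inside their cones -/
theorem mix_three {ι : Type} {M : T} {x z : ι → ℕ} (h : Cr M) (a b c a' b' c' : ℕ)
    (ha : ∀ j, a ∈ Cn M (x j) (z j) ↔ a' ∈ Cn M (x j) (z j))
    (hb : ∀ j, b ∈ Cn M (x j) (z j) ↔ b' ∈ Cn M (x j) (z j))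
    (hc : ∀ j, c ∈ Cn M (x j) (z j) ↔ c' ∈ Cn M (x j) (z j))
    (ha0 : (∀ j, a ∉ Cn M (x j) (z j)) → a = a')
    (hb0 : (∀ j, b ∉ Cn M (x j) (z j)) → b = b')
    (hc0 : (∀ j, c ∉ Cn M (x j) (z j)) → c = c')
    (hn : ¬ ∃ j, a ∈ Cn M (x j) (z j) ∧ b ∈ Cn M (x j) (z j) ∧ c ∈ Cn M (x j) (z j)) :
    D M a b c ↔ D M a' b' c' := by
  by_cases h1 : ∃ j, a ∈ Cn M (x j) (z j) ∧ b ∈ Cn M (x j) (z j)
  · obtain ⟨j, h1, h2⟩ := h1
    have h3 : c ∉ Cn M (x j) (z j) := fun h3 => hn ⟨j, h1, h2, h3⟩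
    have h3' : c' ∉ Cn M (x j) (z j) := fun h4 => h3 ((hc j).2 h4)
    exact ⟨fun _ => h.cin ((ha j).1 h1) ((hb j).1 h2) h3', fun _ => h.cin h1 h2 h3⟩
  by_cases h4 : ∃ j, a ∈ Cn M (x j) (z j) ∧ c ∈ Cn M (x j) (z j)
  · obtain ⟨j, h4, h5⟩ := h4
    have h6 : b ∉ Cn M (x j) (z j) := fun h6 => hn ⟨j, h4, h6, h5⟩
    have h6' : b' ∉ Cn M (x j) (z j) := fun h7 => h6 ((hb j).2 h7)
    exact ⟨fun h7 => absurd h7 (h.cout h4 h5 h6),
      fun h7 => absurd h7 (h.cout ((ha j).1 h4) ((hc j).1 h5) h6')⟩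
  by_cases h7 : ∃ j, b ∈ Cn M (x j) (z j) ∧ c ∈ Cn M (x j) (z j)
  · obtain ⟨j, h7, h8⟩ := h7
    have h9 : a ∉ Cn M (x j) (z j) := fun h9 => hn ⟨j, h9, h7, h8⟩
    have h9' : a' ∉ Cn M (x j) (z j) := fun h10 => h9 ((ha j).2 h10)
    exact ⟨fun h10 => absurd h10 (h.cout' h7 h8 h9),
      fun h10 => absurd h10 (h.cout' ((hb j).1 h7) ((hc j).1 h8) h9')⟩
  have e1 : D M a b c ↔ D M a' b c := by
    by_cases hj : ∃ j, a ∈ Cn M (x j) (z j)
    · obtain ⟨j, hj⟩ := hj
      exact h.csw hj ((ha j).1 hj) fun hcj => h4 ⟨j, hj, hcj⟩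
    · push Not at hj
      rw [← ha0 hj]
  have e2 : D M a' b c ↔ D M a' b' c := by
    by_cases hj : ∃ j, b ∈ Cn M (x j) (z j)
    · obtain ⟨j, hj⟩ := hj
      have h5 := h.csw (w := a') hj ((hb j).1 hj) fun hcj => h7 ⟨j, hj, hcj⟩
      exact ⟨fun h6 => h.symm _ _ _ (h5.1 (h.symm _ _ _ h6)),
        fun h6 => h.symm _ _ _ (h5.2 (h.symm _ _ _ h6))⟩
    · push Not at hj
      rw [← hb0 hj]
  have e3 : D M a' b' c ↔ D M a' b' c' := by
    by_cases hj : ∃ j, c ∈ Cn M (x j) (z j)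
    · obtain ⟨j, hj⟩ := hj
      exact h.csw' hj ((hc j).1 hj) fun hbj => h7 ⟨j, (hb j).2 hbj, hj⟩
    · push Not at hj
      rw [← hc0 hj]
  rw [e1, e2, e3]

section values

variable {n : ℕ} {ι : Type} {M : T} {J : ι → Set ℕ} {us : ι → List ℕ} {t : ι → T} {u v w : ℕ}

theorem rho_in (hJ : ∀ i j, i ≠ j → Disjoint (J i) (J j)) {j : ι} (hu : u ∈ J j) :
    rho n J us t u = (us j).getD (lbl n (t j) u) u := by
  have hex : ∃ j, u ∈ J j := ⟨j, hu⟩
  have hj : hex.choose = j := by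
    by_contra hne
    exact Set.disjoint_left.1 (hJ _ _ hne) hex.choose_spec hu
  have e : rho n J us t u = (us hex.choose).getD (lbl n (t hex.choose) u) u := dif_pos hex
  rw [e, hj]

theorem rho_out (hu : ∀ j, u ∉ J j) : rho n J us t u = u :=
  dif_neg fun ⟨j, hj⟩ => hu j hj

theorem Gl_D (hJ : ∀ i j, i ≠ j → Disjoint (J i) (J j)) {j : ι} (hu : u ∈ J j) (hv : v ∈ J j)
    (hw : w ∈ J j) : D (Gl n M J us t) u v w ↔ D (t j) u v w := by
  have hex : ∃ j, ∀ k, (![u, v, w] : Fin 3 → ℕ) k ∈ J j := ⟨j, fun k => by fin_cases k <;> assumption⟩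
  have hj : hex.choose = j := by
    by_contra hne
    exact Set.disjoint_left.1 (hJ _ _ hne) (hex.choose_spec 0) hu
  have e : (Gl n M J us t).2 0 ![u, v, w] = (t hex.choose).2 0 ![u, v, w] := dif_pos hex
  unfold D
  rw [e, hj]

theorem Gl_D' (h : ¬ ∃ j, u ∈ J j ∧ v ∈ J j ∧ w ∈ J j) :
    D (Gl n M J us t) u v w ↔ D M u v w := by
  have hex : ¬ ∃ j, ∀ k, (![u, v, w] : Fin 3 → ℕ) k ∈ J j :=
    fun ⟨j, hj⟩ => h ⟨j, hj 0, hj 1, hj 2⟩
  have e : (Gl n M J us t).2 0 ![u, v, w] = M.2 0 ![u, v, w] := dif_neg hex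
  unfold D
  rw [e]

theorem Gl_lb (l : ℕ) : lb (Gl n M J us t) l u = lb M l (rho n J us t u) := by
  show (if (2 * l) % 2 = 0 then decide (u = u) && lb M (2 * l / 2) (rho n J us t u) else _) = _
  rw [if_pos (by omega), show 2 * l / 2 = l by omega]
  simp

theorem Gl_fl (l : ℕ) (h : u ≠ v) : (Gl n M J us t).2 (2 * l + 1) ![u, v] = false := by
  show (if (2 * l) % 2 = 0 then decide (u = v) && lb M (2 * l / 2) (rho n J us t u) else _) = _
  rw [if_pos (by omega)]
  simp [h]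

theorem Gl_R (hJ : ∀ i j, i ≠ j → Disjoint (J i) (J j)) {j : ι} (hu : u ∈ J j) (hv : v ∈ J j)
    (i : ℕ) : R (Gl n M J us t) i u v = R (t j) i u v := by
  have hex : ∃ j, ∀ k, (![u, v] : Fin 2 → ℕ) k ∈ J j := ⟨j, fun k => by fin_cases k <;> assumption⟩
  have hj : hex.choose = j := by
    by_contra hne
    exact Set.disjoint_left.1 (hJ _ _ hne) (hex.choose_spec 0) hu
  have e0 : ¬ (2 * i + 1) % 2 = 0 := by omega
  have e : (Gl n M J us t).2 (2 * i + 1 + 1) ![u, v] = (t hex.choose).2 (2 * i + 1 + 1) ![u, v] :=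
    (if_neg e0).trans (dif_pos hex)
  unfold R
  rw [e, hj]

theorem Gl_R' (h : ¬ ∃ j, u ∈ J j ∧ v ∈ J j) (i : ℕ) :
    R (Gl n M J us t) i u v = R M i (rho n J us t u) (rho n J us t v) := by
  have hex : ¬ ∃ j, ∀ k, (![u, v] : Fin 2 → ℕ) k ∈ J j := fun ⟨j, hj⟩ => h ⟨j, hj 0, hj 1⟩
  have e0 : ¬ (2 * i + 1) % 2 = 0 := by omega
  have e : (Gl n M J us t).2 (2 * i + 1 + 1) ![u, v] =
      M.2 (2 * i + 1 + 1) (fun k => rho n J us t ((![u, v] : Fin 2 → ℕ) k)) :=
    (if_neg e0).trans (dif_neg hex)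
  unfold R
  rw [e]
  exact congrArg (M.2 (2 * i + 1 + 1)) (vec2 (fun k => rho n J us t ((![u, v] : Fin 2 → ℕ) k)))

end values

section ga

variable {n : ℕ} {ι : Type} {α : Ordinal.{0}} {M : T} {x z : ι → ℕ} {us : ι → List ℕ} {t : ι → T}
  {u v w : ℕ}

/-- the labels in the pieces -/
theorem lab (h : GA n α M x z us t) {j : ι} (hu : u ∈ Cn M (x j) (z j)) :
    ∃ hm : lbl n (t j) u < (us j).length, (∀ l, lb (t j) l u = decide (lbl n (t j) u = l)) ∧
      rho n (fun j => Cn M (x j) (z j)) us t u = (us j)[lbl n (t j) u] := by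
  have h0 : (0 : Ordinal.{0}) < α := lt_of_lt_of_le Ordinal.omega0_pos h.om
  obtain ⟨u', hu', hb⟩ := (h.bf j).back h0 hu
  have hl : ∀ l, decide (ix (pc M univ (Cn M (x j) (z j))) (us j) u' = l) = lb (t j) l u := by
    intro l
    rw [← lb_od]
    exact PIso_lb hb.piso l (mem_insert _ _)
  have hlt := (h.rp j).ix_lt hu'
  have hle := h.cs.rp_le (h.ne j) (h.rp j)
  set m := ix (pc M univ (Cn M (x j) (z j))) (us j) u' with hm
  have e : lbl n (t j) u = m := by
    have hmn : m < n := by omega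
    unfold lbl
    rw [List.findIdx_eq (by simpa using hmn)]
    constructor
    · rw [List.getElem_range, ← hl m]
      simp
    · intro k hk
      rw [List.getElem_range, ← hl k]
      simp
      omega
  rw [e]
  refine ⟨hlt, fun l => (hl l).symm, ?_⟩
  rw [rho_in h.dj hu, e, List.getD_eq_getElem _ _ hlt]

/-- the representative of `u` has the row of every partner of `u` -/
theorem row (h : GA n α M x z us t) {j : ι} {q : Set (ℕ × ℕ)}
    (hq : PIso (od (pc M univ (Cn M (x j) (z j))) (us j)) (t j) q) (huv : (v, u) ∈ q)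
    (hu : u ∈ Cn M (x j) (z j)) (hv : v ∈ Cn M (x j) (z j)) :
    er M univ (Cn M (x j) (z j)) (rho n (fun j => Cn M (x j) (z j)) us t u) v := by
  obtain ⟨hm, h1, h2⟩ := lab h hu
  have h3 := PIso_lb hq (lbl n (t j) u) huv
  rw [h1, lb_od] at h3
  have h4 : ix (pc M univ (Cn M (x j) (z j))) (us j) v = lbl n (t j) u := by
    rw [decide_eq_true (rfl : lbl n (t j) u = lbl n (t j) u)] at h3
    exact of_decide_eq_true h3
  have h5 := (h.rp j).ix_spec hv
  rw [pc1] at h5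
  rw [h2]
  simp only [h4] at h5
  exact h5

theorem rho_mem (h : GA n α M x z us t) (j : ι) :
    rho n (fun j => Cn M (x j) (z j)) us t u ∈ Cn M (x j) (z j) ↔ u ∈ Cn M (x j) (z j) := by
  by_cases hc : ∃ k, u ∈ Cn M (x k) (z k)
  · obtain ⟨k, hk⟩ := hc
    obtain ⟨hm, -, h2⟩ := lab h hk
    have h3 : rho n (fun j => Cn M (x j) (z j)) us t u ∈ Cn M (x k) (z k) := by
      rw [h2]
      exact (h.rp k).mem hm
    by_cases hjk : j = k
    · subst hjk
      exact ⟨fun _ => hk, fun _ => h3⟩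
    · have hd := h.dj j k hjk
      exact ⟨fun h4 => absurd h3 (Set.disjoint_left.1 hd h4),
        fun h4 => absurd hk (Set.disjoint_left.1 hd h4)⟩
  · push Not at hc
    rw [rho_out hc]

/-- isomorphisms between sets of points -/
theorem piso (h : GA n α M x z us t)
    {p : Set (ℕ × ℕ)} (ha : ∀ w ∈ p, ∀ j, (w.1 ∈ Cn M (x j) (z j) ↔ w.2 ∈ Cn M (x j) (z j)))
    (ha2 : ∀ w ∈ p, (∀ j, w.1 ∉ Cn M (x j) (z j)) → w.1 = w.2)
    (hb : ∀ j, PIso (od (pc M univ (Cn M (x j) (z j))) (us j)) (t j)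
      {w | w ∈ p ∧ w.1 ∈ Cn M (x j) (z j)}) :
    PIso M (Gl n M (fun j => Cn M (x j) (z j)) us t) p := by
  have hd := h.dj
  -- rows
  have hrow : ∀ u ∈ p, ∀ j, u.1 ∈ Cn M (x j) (z j) →
      er M univ (Cn M (x j) (z j)) (rho n (fun j => Cn M (x j) (z j)) us t u.2) u.1 := by
    intro u hu j hj
    exact row h (hb j) (v := u.1) (u := u.2) ⟨hu, hj⟩ ((ha u hu j).1 hj) hj
  refine PIso_mk ?_ ?_ ?_ ?_ ?_ ?_ ?_
  · intro u hu v hv
    by_cases hc : ∃ j, u.1 ∈ Cn M (x j) (z j) ∧ v.1 ∈ Cn M (x j) (z j)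
    · obtain ⟨j, h1, h2⟩ := hc
      exact (hb j).1 u ⟨hu, h1⟩ v ⟨hv, h2⟩
    · constructor
      · intro e
        have hu' : ∀ j, u.1 ∉ Cn M (x j) (z j) := fun j hj => hc ⟨j, hj, e ▸ hj⟩
        have hv' : ∀ j, v.1 ∉ Cn M (x j) (z j) := fun j hj => hu' j (e ▸ hj)
        rw [← ha2 u hu hu', ← ha2 v hv hv', e]
      · intro e
        have hu' : ∀ j, u.1 ∉ Cn M (x j) (z j) := fun j hj =>
          hc ⟨j, hj, (ha v hv j).2 (e ▸ (ha u hu j).1 hj)⟩
        have hv' : ∀ j, v.1 ∉ Cn M (x j) (z j) := fun j hj =>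
          hu' j ((ha u hu j).2 (e ▸ (ha v hv j).1 hj))
        rw [ha2 u hu hu', ha2 v hv hv', e]
  · intro u _ v _
    exact h.cs.one _ (mem_univ _) _ (mem_univ _)
  · intro u hu v hv w hw
    by_cases hc : ∃ j, u.1 ∈ Cn M (x j) (z j) ∧ v.1 ∈ Cn M (x j) (z j) ∧ w.1 ∈ Cn M (x j) (z j)
    · obtain ⟨j, h1, h2, h3⟩ := hc
      have e1 := PIso_D (hb j) (x := u.1) (x' := u.2) (y := v.1) (y' := v.2) (z := w.1) (z' := w.2)
        ⟨hu, h1⟩ ⟨hv, h2⟩ ⟨hw, h3⟩
      have e2 := Gl_D (n := n) (M := M) (us := us) (t := t) hd ((ha u hu j).1 h1)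
        ((ha v hv j).1 h2) ((ha w hw j).1 h3)
      rw [e2, ← e1]
      exact Iff.rfl
    · have e2 := Gl_D' (n := n) (M := M) (J := fun j => Cn M (x j) (z j)) (us := us) (t := t)
        (u := u.2) (v := v.2) (w := w.2)
        (fun ⟨j, h1, h2, h3⟩ => hc ⟨j, (ha u hu j).2 h1, (ha v hv j).2 h2, (ha w hw j).2 h3⟩)
      rw [e2]
      exact mix_three (x := x) (z := z) h.cs.cr _ _ _ _ _ _ (ha u hu) (ha v hv) (ha w hw)
        (ha2 u hu) (ha2 v hv) (ha2 w hw) hc
  · intro l u hu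
    rw [Gl_lb]
    by_cases hc : ∃ j, u.1 ∈ Cn M (x j) (z j)
    · obtain ⟨j, hj⟩ := hc
      exact ((hrow u hu j hj).2.1 l).symm
    · push Not at hc
      have e0 := ha2 u hu hc
      rw [← e0, rho_out hc]
  · intro l u _ v _ hne
    exact h.cs.flat l _ (mem_univ _) _ (mem_univ _) hne
  · intro l u _ v _ hne
    exact Gl_fl l hne
  · intro i u hu v hv
    by_cases hc : ∃ j, u.1 ∈ Cn M (x j) (z j) ∧ v.1 ∈ Cn M (x j) (z j)
    · obtain ⟨j, h1, h2⟩ := hc
      have e1 := PIso_R (hb j) i (x := u.1) (x' := u.2) (y := v.1) (y' := v.2) ⟨hu, h1⟩ ⟨hv, h2⟩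
      rw [Gl_R hd ((ha u hu j).1 h1) ((ha v hv j).1 h2), ← e1, R_od, R_pc]
    · rw [Gl_R' (fun ⟨j, h1, h2⟩ => hc ⟨j, (ha u hu j).2 h1, (ha v hv j).2 h2⟩)]
      have e1 : R M i (rho n (fun j => Cn M (x j) (z j)) us t u.2)
          (rho n (fun j => Cn M (x j) (z j)) us t v.2) =
          R M i u.1 (rho n (fun j => Cn M (x j) (z j)) us t v.2) := by
        by_cases hu' : ∃ j, u.1 ∈ Cn M (x j) (z j)
        · obtain ⟨j, hj⟩ := hu'
          refine ((hrow u hu j hj).2.2 _ (mem_univ _) ?_ i).1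
          rw [rho_mem h]
          exact fun h4 => hc ⟨j, hj, (ha v hv j).2 h4⟩
        · push Not at hu'
          rw [← ha2 u hu hu', rho_out hu']
      have e2 : R M i u.1 (rho n (fun j => Cn M (x j) (z j)) us t v.2) = R M i u.1 v.1 := by
        by_cases hv' : ∃ j, v.1 ∈ Cn M (x j) (z j)
        · obtain ⟨j, hj⟩ := hv'
          exact ((hrow v hv j hj).2.2 _ (mem_univ _) (fun h4 => hc ⟨j, h4, hj⟩) i).2
        · push Not at hv'
          rw [← ha2 v hv hv', rho_out hv']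
      rw [e1, e2]

end ga

end Glue

open Glue

theorem t_GLB3 : S_GLB3 := by
  intro n ι α M x z us t hG
  have hd := hG.dj
  have key : ∀ (o : Ordinal.{0}) (p : Set (ℕ × ℕ)),
      (∀ w ∈ p, ∀ j, (w.1 ∈ Cn M (x j) (z j) ↔ w.2 ∈ Cn M (x j) (z j))) →
      (∀ w ∈ p, (∀ j, w.1 ∉ Cn M (x j) (z j)) → w.1 = w.2) →
      (∀ j, BF (od (pc M univ (Cn M (x j) (z j))) (us j)) (t j) (Cn M (x j) (z j))
        (Cn M (x j) (z j)) o {w | w ∈ p ∧ w.1 ∈ Cn M (x j) (z j)}) →
      BF M (Gl n M (fun j => Cn M (x j) (z j)) us t) univ univ o p := by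
    intro o
    induction o using WellFoundedLT.induction with
    | ind o ih =>
      intro p ha ha2 hb
      have hins : ∀ (a b : ℕ) (j : ι), a ∈ Cn M (x j) (z j) →
          {w | w ∈ insert (a, b) p ∧ w.1 ∈ Cn M (x j) (z j)} =
            insert (a, b) {w | w ∈ p ∧ w.1 ∈ Cn M (x j) (z j)} := by
        intro a b j hj
        ext u
        constructor
        · rintro ⟨hu | hu, hu'⟩
          · exact Or.inl hu
          · exact Or.inr ⟨hu, hu'⟩
        · rintro (hu | hu)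
          · refine ⟨Or.inl hu, ?_⟩
            rw [hu]
            exact hj
          · exact ⟨Or.inr hu.1, hu.2⟩
      have hout : ∀ (a b : ℕ) (j : ι), a ∉ Cn M (x j) (z j) →
          {w | w ∈ insert (a, b) p ∧ w.1 ∈ Cn M (x j) (z j)} =
            {w | w ∈ p ∧ w.1 ∈ Cn M (x j) (z j)} := by
        intro a b j hj
        ext u
        constructor
        · rintro ⟨hu | hu, hu'⟩
          · exfalso
            rw [hu] at hu'
            exact hj hu'
          · exact ⟨hu, hu'⟩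
        · exact fun hu => ⟨Or.inr hu.1, hu.2⟩
      -- one step, inside a cone
      have hstep1 : ∀ o' < o, ∀ (j : ι) (a b : ℕ), a ∈ Cn M (x j) (z j) →
          b ∈ Cn M (x j) (z j) →
          BF (od (pc M univ (Cn M (x j) (z j))) (us j)) (t j) (Cn M (x j) (z j))
            (Cn M (x j) (z j)) o' (insert (a, b) {w | w ∈ p ∧ w.1 ∈ Cn M (x j) (z j)}) →
          BF M (Gl n M (fun j => Cn M (x j) (z j)) us t) univ univ o' (insert (a, b) p) := by
        intro o' ho' j a b haj hbj hbf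
        have huniq : ∀ i (c : ℕ), c ∈ Cn M (x j) (z j) → c ∈ Cn M (x i) (z i) → i = j := by
          intro i c h1 h2
          by_contra hne
          exact Set.disjoint_left.1 (hd i j hne) h2 h1
        refine ih o' ho' _ ?_ ?_ ?_
        · rintro u (hu | hu) i
          · rw [hu]
            constructor
            · intro h1
              rw [huniq i a haj h1]
              exact hbj
            · intro h1
              rw [huniq i b hbj h1]
              exact haj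
          · exact ha u hu i
        · rintro u (hu | hu) h1
          · rw [hu] at h1
            exact absurd haj (h1 j)
          · exact ha2 u hu h1
        · intro i
          by_cases hi : a ∈ Cn M (x i) (z i)
          · have e := huniq i a haj hi
            subst e
            rw [hins a b i hi]
            exact hbf
          · rw [hout a b i hi]
            exact (hb i).mono ho'.le
      -- one step, outside
      have hstep2 : ∀ o' < o, ∀ a : ℕ, (∀ j, a ∉ Cn M (x j) (z j)) →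
          BF M (Gl n M (fun j => Cn M (x j) (z j)) us t) univ univ o' (insert (a, a) p) := by
        intro o' ho' a haj
        refine ih o' ho' _ ?_ ?_ ?_
        · rintro u (hu | hu) i
          · rw [hu]
          · exact ha u hu i
        · rintro u (hu | hu) h1
          · rw [hu]
          · exact ha2 u hu h1
        · intro i
          rw [hout a a i (haj i)]
          exact (hb i).mono ho'.le
      rw [BF_iff]
      refine ⟨piso hG ha ha2 fun j => (hb j).piso, fun o' ho' =>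
        ⟨fun a _ => ?_, fun b _ => ?_⟩⟩
      · by_cases hc : ∃ j, a ∈ Cn M (x j) (z j)
        · obtain ⟨j, hj⟩ := hc
          obtain ⟨b, hbj, hbf⟩ := (hb j).forth ho' hj
          exact ⟨b, mem_univ _, hstep1 o' ho' j a b hj hbj hbf⟩
        · push Not at hc
          exact ⟨a, mem_univ _, hstep2 o' ho' a hc⟩
      · by_cases hc : ∃ j, b ∈ Cn M (x j) (z j)
        · obtain ⟨j, hj⟩ := hc
          obtain ⟨a, haj, hbf⟩ := (hb j).back ho' hj
          exact ⟨a, mem_univ _, hstep1 o' ho' j a b haj hj hbf⟩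
        · push Not at hc
          exact ⟨b, mem_univ _, hstep2 o' ho' b hc⟩
  refine key α ∅ (fun w hw => hw.elim) (fun w hw => hw.elim) fun j => ?_
  have e : {w : ℕ × ℕ | w ∈ (∅ : Set (ℕ × ℕ)) ∧ w.1 ∈ Cn M (x j) (z j)} = ∅ := by
    ext w
    simp
  rw [e]
  exact hG.bf j

end Pool.Agent.N643.TD
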