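import Pool.Agent.N643.TD.CSBF
import Pool.Agent.H533R2.VO.MEAS1
import Pool.Agent.H899R2.VP.Few

set_option autoImplicit false

/-! KCONE: the class of variations of a cone. -/

namespace Pool.Agent.N643.TD

open Set
open Pool.Agent.H899R2.VP
open Pool.Agent.H533R2.VO (Lev bf_comp0 t_MEAS1)

namespace KCa

theorem exists_enum {X : Set ℕ} (hX : X.Infinite) :
    ∃ e : ℕ → ℕ, Function.Injective e ∧ range e = X := by
  have hX' : (Set.ofPred (· ∈ X)).Infinite := hX
  exact ⟨Nat.nth (· ∈ X), Nat.nth_injective hX', Nat.range_nth_of_infinite hX'⟩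

/-- Transport of a structure by `e`. -/
noncomputable def tr (e : ℕ → ℕ) (N : T) : T :=
  (fun u v => N.1 (Function.invFun e u) (Function.invFun e v),
    fun i t => N.2 i (fun k => Function.invFun e (t k)))

theorem tr_iso {N : T} {e : ℕ → ℕ} (he : Function.Injective e) {X : Set ℕ} (hr : range e = X) :
    IsoOn N (tr e N) univ X {w | w.2 = e w.1} := by
  have hi : ∀ u, Function.invFun e (e u) = u := Function.leftInverse_invFun he
  refine ⟨{w | w.2 = e w.1}, Subset.rfl, ?_, ⟨?_, ?_, ?_⟩, ?_, ?_⟩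
  · rintro ⟨x, y⟩ h
    have h1 : y = e x := h
    exact ⟨mem_univ _, hr ▸ ⟨x, h1.symm⟩⟩
  · rintro ⟨x, y⟩ h ⟨x', y'⟩ h'
    have h1 : y = e x := h
    have h2 : y' = e x' := h'
    subst h1 h2
    exact ⟨fun h => congrArg e h, fun h => he h⟩
  · rintro ⟨x, y⟩ h ⟨x', y'⟩ h'
    have h1 : y = e x := h
    have h2 : y' = e x' := h'
    subst h1 h2
    show N.1 x x' = N.1 (Function.invFun e (e x)) (Function.invFun e (e x'))
    rw [hi, hi]
  · intro i t ht
    have h2 : (fun k => (t k).1) = fun k => Function.invFun e (t k).2 := by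
      funext k
      have h1 : (t k).2 = e (t k).1 := ht k
      rw [h1, hi]
    exact congrArg (N.2 i) h2
  · intro x _
    exact ⟨e x, rfl⟩
  · intro y hy
    rw [← hr] at hy
    obtain ⟨x, rfl⟩ := hy
    exact ⟨x, rfl⟩

theorem tr_cont (e : ℕ → ℕ) : Continuous (tr e) := by
  refine Continuous.prodMk ?_ ?_
  · refine continuous_pi fun u => continuous_pi fun v => ?_
    exact (continuous_apply _).comp ((continuous_apply _).comp continuous_fst)
  · refine continuous_pi fun i => continuous_pi fun t => ?_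
    exact (continuous_apply _).comp ((continuous_apply i).comp continuous_snd)

theorem lbl_eq {n : ℕ} {t : T} {u l : ℕ} (hl : l < n) (h1 : lb t l u = true)
    (h2 : ∀ j, lb t j u = true → j = l) : lbl n t u = l := by
  unfold lbl
  rw [List.findIdx_eq (by simpa using hl)]
  refine ⟨by simpa using h1, fun j hj => ?_⟩
  rw [List.getElem_range]
  by_contra h3
  have := h2 j (by simpa using h3)
  omega

open Classical in
theorem Gl_in {ι : Type} {n i : ℕ} {M : T} {J : ι → Set ℕ} {us : ι → List ℕ} {t : ι → T}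
    {s : Fin 2 → ℕ} (hi : ¬ i % 2 = 0) (h : ∃ j, ∀ k, s k ∈ J j) :
    (Gl n M J us t).2 (i + 1) s = (t h.choose).2 (i + 1) s := by
  show (if i % 2 = 0 then decide (s (0 : Fin 2) = s (1 : Fin 2)) &&
      lb M (i / 2) (rho n J us t (s (0 : Fin 2)))
    else if h : ∃ j, ∀ k, s k ∈ J j then (t h.choose).2 (i + 1) s
    else M.2 (i + 1) (fun k => rho n J us t (s k))) = _
  rw [if_neg hi, dif_pos h]

open Classical in
theorem Gl_out {ι : Type} {n i : ℕ} {M : T} {J : ι → Set ℕ} {us : ι → List ℕ} {t : ι → T}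
    {s : Fin 2 → ℕ} (hi : ¬ i % 2 = 0) (h : ¬ ∃ j, ∀ k, s k ∈ J j) :
    (Gl n M J us t).2 (i + 1) s =
      M.2 (i + 1) ![rho n J us t (s 0), rho n J us t (s 1)] := by
  show (if i % 2 = 0 then decide (s (0 : Fin 2) = s (1 : Fin 2)) &&
      lb M (i / 2) (rho n J us t (s (0 : Fin 2)))
    else if h : ∃ j, ∀ k, s k ∈ J j then (t h.choose).2 (i + 1) s
    else M.2 (i + 1) (fun k => rho n J us t (s k))) = _
  rw [if_neg hi, dif_neg h]
  exact congrArg (M.2 (i + 1)) (vec2 fun k => rho n J us t (s k))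

section

variable {n : ℕ} {M t : T} {X : Set ℕ} {us : List ℕ} {u w : ℕ}

theorem rho_in (hu : u ∈ X) : rho n (fun _ : Unit => X) (fun _ => us) (fun _ => t) u =
    us.getD (lbl n t u) u := dif_pos ⟨(), hu⟩

theorem rho_out (hu : u ∉ X) : rho n (fun _ : Unit => X) (fun _ => us) (fun _ => t) u = u :=
  dif_neg (fun ⟨_, h⟩ => hu h)

theorem G_lb (j : ℕ) : lb (Gl n M (fun _ : Unit => X) (fun _ => us) (fun _ => t)) j u =
    lb M j (rho n (fun _ : Unit => X) (fun _ => us) (fun _ => t) u) := by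
  show (if (2 * j) % 2 = 0 then decide (u = u) && lb M (2 * j / 2)
    (rho n (fun _ : Unit => X) (fun _ => us) (fun _ => t) u) else _) = _
  rw [if_pos (by omega), show 2 * j / 2 = j by omega]
  simp

theorem G_R (i : ℕ) (hw : w ∉ X) :
    R (Gl n M (fun _ : Unit => X) (fun _ => us) (fun _ => t)) i u w =
      R M i (rho n (fun _ : Unit => X) (fun _ => us) (fun _ => t) u) w := by
  have h := Gl_out (n := n) (M := M) (J := fun _ : Unit => X) (us := fun _ => us)
    (t := fun _ => t) (i := 2 * i + 1) (s := ![u, w]) (by omega) (fun ⟨_, h⟩ => hw (h 1))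
  have h' : R (Gl n M (fun _ : Unit => X) (fun _ => us) (fun _ => t)) i u w =
    M.2 (2 * i + 1 + 1) ![rho n (fun _ : Unit => X) (fun _ => us) (fun _ => t) u,
      rho n (fun _ : Unit => X) (fun _ => us) (fun _ => t) w] := h
  rw [h', rho_out hw]
  rfl

theorem G_R' (i : ℕ) (hw : w ∉ X) :
    R (Gl n M (fun _ : Unit => X) (fun _ => us) (fun _ => t)) i w u =
      R M i w (rho n (fun _ : Unit => X) (fun _ => us) (fun _ => t) u) := by
  have h := Gl_out (n := n) (M := M) (J := fun _ : Unit => X) (us := fun _ => us)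
    (t := fun _ => t) (i := 2 * i + 1) (s := ![w, u]) (by omega) (fun ⟨_, h⟩ => hw (h 0))
  have h' : R (Gl n M (fun _ : Unit => X) (fun _ => us) (fun _ => t)) i w u =
    M.2 (2 * i + 1 + 1) ![rho n (fun _ : Unit => X) (fun _ => us) (fun _ => t) w,
      rho n (fun _ : Unit => X) (fun _ => us) (fun _ => t) u] := h
  rw [h', rho_out hw]
  rfl

end

/-- The labels depend continuously on the structure. -/
theorem lbl_cont (n u : ℕ) : Continuous fun t : T => lbl n t u := by
  have h : ∀ l : List ℕ, Continuous fun t : T => l.findIdx (fun j => lb t j u) := by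
    intro l
    induction l with
    | nil => exact continuous_const
    | cons a l ih =>
      have h1 : (fun t : T => (a :: l).findIdx (fun j => lb t j u)) =
          (fun p : Bool × ℕ => bif p.1 then 0 else p.2 + 1) ∘
            fun t : T => (lb t a u, l.findIdx (fun j => lb t j u)) := by
        funext t
        rw [List.findIdx_cons]
        rfl
      rw [h1]
      refine continuous_of_discreteTopology.comp (Continuous.prodMk ?_ ih)
      exact (continuous_apply _).comp ((continuous_apply _).comp continuous_snd)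
  exact h _

theorem rho_cont (n : ℕ) (X : Set ℕ) (us : List ℕ) (u : ℕ) :
    Continuous fun t : T => rho n (fun _ : Unit => X) (fun _ => us) (fun _ => t) u := by
  by_cases hu : u ∈ X
  · simp only [rho_in hu]
    exact (continuous_of_discreteTopology (f := fun l : ℕ => us.getD l u)).comp (lbl_cont n u)
  · simp only [rho_out hu]
    exact continuous_const

open Classical in
theorem Gl_cont (n : ℕ) (M : T) (X : Set ℕ) (us : List ℕ) :
    Continuous fun t : T => Gl n M (fun _ : Unit => X) (fun _ => us) (fun _ => t) := by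
  refine Continuous.prodMk continuous_const ?_
  refine continuous_pi fun i => continuous_pi fun s => ?_
  match i, s with
  | 0, s =>
    by_cases h : ∃ j : Unit, ∀ k : Fin (aT 0), s k ∈ (fun _ : Unit => X) j
    · have e : (fun t : T => (Gl n M (fun _ : Unit => X) (fun _ => us) (fun _ => t)).2 0 s) =
          fun t : T => t.2 0 s := by
        funext t
        exact dif_pos h
      show Continuous (fun t : T => (Gl n M (fun _ : Unit => X) (fun _ => us) (fun _ => t)).2 0 s)
      rw [e]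
      exact (continuous_apply s).comp ((continuous_apply 0).comp continuous_snd)
    · have e : (fun t : T => (Gl n M (fun _ : Unit => X) (fun _ => us) (fun _ => t)).2 0 s) =
          fun _ : T => M.2 0 s := by
        funext t
        exact dif_neg h
      show Continuous (fun t : T => (Gl n M (fun _ : Unit => X) (fun _ => us) (fun _ => t)).2 0 s)
      rw [e]
      exact continuous_const
  | i + 1, s =>
    show Continuous (fun t : T =>
      (Gl n M (fun _ : Unit => X) (fun _ => us) (fun _ => t)).2 (i + 1) s)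
    by_cases hi : i % 2 = 0
    · have e : (fun t : T => (Gl n M (fun _ : Unit => X) (fun _ => us) (fun _ => t)).2 (i + 1) s) =
          (fun v : ℕ => decide (s (0 : Fin 2) = s (1 : Fin 2)) && lb M (i / 2) v) ∘
            fun t : T => rho n (fun _ : Unit => X) (fun _ => us) (fun _ => t) (s (0 : Fin 2)) := by
        funext t
        show (if i % 2 = 0 then decide (s (0 : Fin 2) = s (1 : Fin 2)) && lb M (i / 2)
          (rho n (fun _ : Unit => X) (fun _ => us) (fun _ => t) (s (0 : Fin 2))) else _) = _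
        rw [if_pos hi]
        rfl
      rw [e]
      exact continuous_of_discreteTopology.comp (rho_cont n X us _)
    · by_cases h : ∃ j : Unit, ∀ k : Fin 2, s k ∈ (fun _ : Unit => X) j
      · have e : (fun t : T => (Gl n M (fun _ : Unit => X) (fun _ => us) (fun _ => t)).2 (i + 1) s) =
            fun t : T => t.2 (i + 1) s := by
          funext t
          exact Gl_in hi h
        rw [e]
        exact (continuous_apply s).comp ((continuous_apply (i + 1)).comp continuous_snd)
      · have e : (fun t : T => (Gl n M (fun _ : Unit => X) (fun _ => us) (fun _ => t)).2 (i + 1) s) =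
            (fun p : ℕ × ℕ => M.2 (i + 1) ![p.1, p.2]) ∘ fun t : T =>
              (rho n (fun _ : Unit => X) (fun _ => us) (fun _ => t) (s (0 : Fin 2)),
                rho n (fun _ : Unit => X) (fun _ => us) (fun _ => t) (s (1 : Fin 2))) := by
          funext t
          exact Gl_out hi h
        rw [e]
        exact continuous_of_discreteTopology.comp
          (Continuous.prodMk (rho_cont n X us _) (rho_cont n X us _))

/-- Facts on the replaced structure. -/
theorem facts (h0 : S_CSBF) (h1 : S_CSOD) (h2 : S_GLB3) (h3 : S_GLF3) {n : ℕ} {α : Ordinal.{0}}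
    {K : Set T} (hK : GC n α K) {M : T} (hMK : M ∈ K) {x z : ℕ} (hxz : x ≠ z) {us : List ℕ}
    (hr : Rp (pc M univ (Cn M x z)) (Cn M x z) us) {t : T}
    (ht : BF (od (pc M univ (Cn M x z)) us) t (Cn M x z) (Cn M x z) α ∅) :
    Gl n M (fun _ : Unit => Cn M x z) (fun _ => us) (fun _ => t) ∈ K ∧
    Cn (Gl n M (fun _ : Unit => Cn M x z) (fun _ => us) (fun _ => t)) x z = Cn M x z ∧
    IsoOn (pc t (Cn M x z) (Cn M x z))
      (pc (Gl n M (fun _ : Unit => Cn M x z) (fun _ => us) (fun _ => t)) univ (Cn M x z))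
      (Cn M x z) (Cn M x z) (idOn (Cn M x z)) ∧
    CsOn n t (Cn M x z) ∧
    ∀ u ∈ Cn M x z, ∃ (l : ℕ) (hl : l < us.length), lb t l u = true ∧
      (∀ j, lb t j u = true → j = l) ∧
      rho n (fun _ : Unit => Cn M x z) (fun _ => us) (fun _ => t) u = us[l] := by
  have hM : CsOn n M univ := hK.cs M hMK
  have hga : GA n α M (fun _ : Unit => x) (fun _ => z) (fun _ => us) (fun _ => t) :=
    ⟨hK.om, hM, fun _ => hxz, fun a b hab => absurd (Subsingleton.elim a b) hab, fun _ => hr,
      fun _ => ht⟩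
  have g1 := h2 n Unit α M _ _ _ _ hga
  have g2 := h3 n Unit α M _ _ _ _ hga
  have hod := h1 n M x z us hM hxz hr
  have hcs : CsOn n t (Cn M x z) := h0 n α _ t _ _ hK.om hod ht
  refine ⟨hK.closed M hMK _ g1, g2.1 (), g2.2.1 (), hcs, fun u hu => ?_⟩
  have h0' : (0 : Ordinal.{0}) < α := lt_of_lt_of_le Ordinal.omega0_pos hK.om
  obtain ⟨v, hv, hb⟩ := ht.back h0' hu
  have hp := hb.piso
  have e1 : ∀ j, lb (od (pc M univ (Cn M x z)) us) j v = lb t j u :=
    fun j => PIso_lb hp j (mem_insert _ _)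
  obtain ⟨l', -, -, h5⟩ := hcs.lab u hu
  have e2 : lb t (ix (pc M univ (Cn M x z)) us v) u = true := by
    rw [← e1, lb_od]
    simp
  have e3 := h5 _ e2
  have hlt := hr.ix_lt hv
  rw [e3] at hlt e2
  refine ⟨l', hlt, e2, h5, ?_⟩
  rw [rho_in hu, lbl_eq (lt_of_lt_of_le hlt (hM.rp_le hxz hr)) e2 h5,
    List.getD_eq_getElem _ _ hlt]

/-- An isomorphism of the replaced structures over suitable points gives an isomorphism of the
pieces. -/
theorem iso_of (h0 : S_CSBF) (h1 : S_CSOD) (h2 : S_GLB3) (h3 : S_GLF3) {n : ℕ} {α : Ordinal.{0}}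
    {K : Set T} (hK : GC n α K) {M : T} (hMK : M ∈ K) {x z : ℕ} (hxz : x ≠ z) {us : List ℕ}
    (hr : Rp (pc M univ (Cn M x z)) (Cn M x z) us) {W : ℕ → ℕ → ℕ}
    (hW : ∀ a b, W a b ∉ Cn M x z ∧ (¬ er M univ (Cn M x z) a b → (∃ j, lb M j a ≠ lb M j b) ∨
      ∃ i, ¬ (R M i a (W a b) = R M i b (W a b) ∧ R M i (W a b) a = R M i (W a b) b)))
    {F : Set ℕ} (hxF : x ∈ F) (hzF : z ∈ F) (hWF : ∀ a ∈ us, ∀ b ∈ us, W a b ∈ F)
    {t t' : T} (ht : BF (od (pc M univ (Cn M x z)) us) t (Cn M x z) (Cn M x z) α ∅)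
    (ht' : BF (od (pc M univ (Cn M x z)) us) t' (Cn M x z) (Cn M x z) α ∅)
    (hi : IsoOn (Gl n M (fun _ : Unit => Cn M x z) (fun _ => us) (fun _ => t))
      (Gl n M (fun _ : Unit => Cn M x z) (fun _ => us) (fun _ => t')) univ univ (idOn F)) :
    IsoOn t t' (Cn M x z) (Cn M x z) ∅ := by
  obtain ⟨-, c2, c3, c4, c5⟩ := facts h0 h1 h2 h3 hK hMK hxz hr ht
  obtain ⟨-, d2, d3, d4, d5⟩ := facts h0 h1 h2 h3 hK hMK hxz hr ht'
  set X := Cn M x z with hX
  set G := Gl n M (fun _ : Unit => X) (fun _ => us) (fun _ => t) with hG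
  set G' := Gl n M (fun _ : Unit => X) (fun _ => us) (fun _ => t') with hG'
  obtain ⟨q, hq1, -, hq3, hq4, hq5⟩ := hi
  have hF : ∀ w ∈ F, (w, w) ∈ q := fun w hw => hq1 (idOn_self hw)
  have hXX : ∀ u v, (u, v) ∈ q → (u ∈ X ↔ v ∈ X) := by
    intro u v huv
    exact (Set.ext_iff.1 c2 u).symm.trans
      ((PIso_D hq3 (hF x hxF) huv (hF z hzF)).trans (Set.ext_iff.1 d2 v))
  -- values of `D` and `R`
  obtain ⟨p, hp1, -, hp3, -, -⟩ := c3
  obtain ⟨p', hp1', -, hp3', -, -⟩ := d3
  have cD : ∀ u ∈ X, ∀ v ∈ X, ∀ w ∈ X, (D t u v w ↔ D G u v w) := by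
    intro u hu v hv w hw
    have h : D (pc t X X) u v w ↔ D (pc G univ X) u v w :=
      PIso_D hp3 (hp1 (idOn_self hu)) (hp1 (idOn_self hv)) (hp1 (idOn_self hw))
    exact h
  have dD : ∀ u ∈ X, ∀ v ∈ X, ∀ w ∈ X, (D t' u v w ↔ D G' u v w) := by
    intro u hu v hv w hw
    have h : D (pc t' X X) u v w ↔ D (pc G' univ X) u v w :=
      PIso_D hp3' (hp1' (idOn_self hu)) (hp1' (idOn_self hv)) (hp1' (idOn_self hw))
    exact h
  have cR : ∀ i, ∀ u ∈ X, ∀ v ∈ X, R t i u v = R G i u v := by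
    intro i u hu v hv
    have h := PIso_R hp3 i (hp1 (idOn_self hu)) (hp1 (idOn_self hv))
    rwa [R_pc, R_pc] at h
  have dR : ∀ i, ∀ u ∈ X, ∀ v ∈ X, R t' i u v = R G' i u v := by
    intro i u hu v hv
    have h := PIso_R hp3' i (hp1' (idOn_self hu)) (hp1' (idOn_self hv))
    rwa [R_pc, R_pc] at h
  -- labels
  have hlab : ∀ u v, (u, v) ∈ q → u ∈ X → v ∈ X → ∀ j, lb t j u = lb t' j v := by
    intro u v huv hu hv j
    obtain ⟨l, hl, e1, e2, e3⟩ := c5 u hu
    obtain ⟨l', hl', f1, f2, f3⟩ := d5 v hv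
    have hll : l = l' := by
      by_contra hne
      have hM : CsOn n M univ := hK.cs M hMK
      have hner : ¬ er M univ X us[l] us[l'] := by
        intro h
        exact hne (hr.sep' (eqv_pc hM.eqv (subset_univ _)) hl hl' (pc1.2 h))
      obtain ⟨hWX, hW2⟩ := hW us[l] us[l']
      have hWq := hF _ (hWF _ (List.getElem_mem hl) _ (List.getElem_mem hl'))
      rcases hW2 hner with ⟨k, hk⟩ | ⟨i, hi⟩
      · apply hk
        have g1 := PIso_lb hq3 k huv
        rw [hG, hG', G_lb, G_lb, e3, f3] at g1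
        exact g1
      · apply hi
        constructor
        · have g1 := PIso_R hq3 i huv hWq
          rw [hG, hG', G_R i hWX, G_R i hWX, e3, f3] at g1
          exact g1
        · have g1 := PIso_R hq3 i hWq huv
          rw [hG, hG', G_R' i hWX, G_R' i hWX, e3, f3] at g1
          exact g1
    subst hll
    by_cases hj : j = l
    · subst hj
      rw [e1, f1]
    · have g1 : lb t j u = false := by
        by_contra h
        exact hj (e2 j (by simpa using h))
      have g2 : lb t' j v = false := by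
        by_contra h
        exact hj (f2 j (by simpa using h))
      rw [g1, g2]
  refine ⟨{u | u ∈ q ∧ u.1 ∈ X}, empty_subset _, ?_, ?_, ?_, ?_⟩
  · rintro ⟨u, v⟩ ⟨huv, hu⟩
    exact ⟨hu, (hXX u v huv).1 hu⟩
  · have hv : ∀ u ∈ {u | u ∈ q ∧ u.1 ∈ X}, u.2 ∈ X := fun u hu => (hXX u.1 u.2 hu.1).1 hu.2
    refine PIso_mk ?_ ?_ ?_ ?_ ?_ ?_ ?_
    · intro u hu v hv
      exact hq3.1 u hu.1 v hv.1
    · intro u hu v hv'
      rw [c4.one _ hu.2 _ hv'.2, d4.one _ (hv u hu) _ (hv v hv')]
    · intro u hu v hv' w hw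
      rw [cD _ hu.2 _ hv'.2 _ hw.2, dD _ (hv u hu) _ (hv v hv') _ (hv w hw)]
      exact PIso_D hq3 hu.1 hv'.1 hw.1
    · intro j u hu
      exact hlab u.1 u.2 hu.1 hu.2 (hv u hu) j
    · intro j u hu v hv' huv
      exact c4.flat j _ hu.2 _ hv'.2 huv
    · intro j u hu v hv' huv
      exact d4.flat j _ (hv u hu) _ (hv v hv') huv
    · intro i u hu v hv'
      rw [cR i _ hu.2 _ hv'.2, dR i _ (hv u hu) _ (hv v hv')]
      exact PIso_R hq3 i hu.1 hv'.1
  · intro u hu
    obtain ⟨v, hv⟩ := hq4 u (mem_univ u)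
    exact ⟨v, hv, hu⟩
  · intro v hv
    obtain ⟨u, hu⟩ := hq5 v (mem_univ v)
    exact ⟨u, hu, (hXX u v hu).2 hv⟩

end KCa

open KCa

theorem t_KCONE (h0 : S_CSBF) (h1 : S_CSOD) (h2 : S_GLB3) (h3 : S_GLF3) : S_KCONE := by
  classical
  intro n α K hK M hM x z hxz hinf us hr
  have hMcs := hK.cs M hM
  have hod := h1 n M x z us hMcs hxz hr
  obtain ⟨e, he, hre⟩ := exists_enum hinf
  refine ⟨?_, hK.lt, hK.om, ?_, ?_, ?_⟩
  · exact t_MEAS1 aT (od (pc M univ (Cn M x z)) us) (Cn M x z) (fun _ => univ)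
      (fun _ => by simp) α hK.lt ∅
  · intro M' hM' N hN
    exact bf_comp0 hM' hN
  · intro N hN
    exact h0 n α _ N (Cn M x z) univ hK.om hod hN
  · rintro ⟨g, hg, hgK, hinj⟩
    have ht : ∀ c, BF (od (pc M univ (Cn M x z)) us) (tr e (g c)) (Cn M x z) (Cn M x z) α ∅ :=
      fun c => bf_comp0 (hgK c) (((tr_iso he hre).mono (empty_subset _)).bf α)
    -- separating points
    have hW : ∀ a b, ∃ w, w ∉ Cn M x z ∧ (¬ er M univ (Cn M x z) a b →
        (∃ j, lb M j a ≠ lb M j b) ∨
        ∃ i, ¬ (R M i a w = R M i b w ∧ R M i w a = R M i w b)) := by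
      intro a b
      by_cases hab : er M univ (Cn M x z) a b
      · exact ⟨z, hMcs.cr.not_mem, fun h => absurd hab h⟩
      by_cases hl : ∃ j, lb M j a ≠ lb M j b
      · exact ⟨z, hMcs.cr.not_mem, fun _ => Or.inl hl⟩
      push Not at hl
      by_contra hcon
      push Not at hcon
      apply hab
      refine ⟨hMcs.one a (mem_univ _) b (mem_univ _), hl, fun w _ hw i => ?_⟩
      exact (hcon w hw).2.2 i
    choose W hW using hW
    have hfin : ({x, z} ∪ (fun p : ℕ × ℕ => W p.1 p.2) '' {p | p.1 ∈ us ∧ p.2 ∈ us}).Finite := by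
      refine (Set.toFinite _).union (Set.Finite.image _ ?_)
      refine (us.toFinset ×ˢ us.toFinset).finite_toSet.subset ?_
      rintro ⟨a, b⟩ ⟨ha, hb⟩
      simpa using ⟨ha, hb⟩
    refine few_base hK.meas hK.few hfin
      (fun c => Gl n M (fun _ : Unit => Cn M x z) (fun _ => us) (fun _ => tr e (g c))) ?_
      (fun c => (facts h0 h1 h2 h3 hK hM hxz hr (ht c)).1) ?_
    · exact (Gl_cont n M (Cn M x z) us).comp ((tr_cont e).comp hg)
    · intro c d hcd
      have h4 := iso_of h0 h1 h2 h3 hK hM hxz hr hW (Or.inl (Or.inl rfl)) (Or.inl (Or.inr rfl))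
        (fun a ha b hb => Or.inr ⟨(a, b), ⟨ha, hb⟩, rfl⟩) (ht c) (ht d) hcd
      have h5 := ((tr_iso (N := g c) he hre).trans h4).trans (tr_iso (N := g d) he hre).symm
      exact hinj c d (h5.mono (empty_subset _))

end Pool.Agent.N643.TD
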