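import Pool.Agent.N643.TD.Spec
import Pool.Agent.H899R2.VP.Dst

set_option autoImplicit false

/-!
# LAB3 (helper803, port of W875/TS): labels
-/

namespace Pool.Agent.N643.TD

open Set
open Pool.Agent.H899R2.VP

theorem t_LAB3 : S_LAB3 := by
  intro n α K hK β hβ
  exact labels hK.meas hK.few β hβ

end Pool.Agent.N643.TD
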