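import Pool.Agent.N643.TD.Spec
import Pool.Agent.H533R2.VO.MEAS1

set_option autoImplicit false

/-! MS: measurability of membership in a family and of types. -/

namespace Pool.Agent.N643.TD

open Set

open Pool.Agent.H899R2.VP
open Pool.Agent.H533R2.VO (Lev t_MEAS1)

private theorem ms_eq {α : Type} [MeasurableSpace α] {f g : α → Bool} (hf : Measurable f)
    (hg : Measurable g) : MeasurableSet {a | f a = g a} := by
  have e : {a | f a = g a} = (f ⁻¹' {true} ∩ g ⁻¹' {true}) ∪ (f ⁻¹' {false} ∩ g ⁻¹' {false}) := by
    ext a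
    simp only [Set.mem_ofPred_eq, mem_union, mem_inter_iff, mem_preimage, mem_singleton_iff]
    cases f a <;> cases g a <;> simp
  rw [e]
  exact ((hf (measurableSet_singleton true)).inter (hg (measurableSet_singleton true))).union
    ((hf (measurableSet_singleton false)).inter (hg (measurableSet_singleton false)))

private theorem ms_val (i : ℕ) (t : Fin (aT i) → ℕ) : Measurable fun M : T => M.2 i t :=
  (measurable_pi_apply t).comp ((measurable_pi_apply i).comp measurable_snd)

private theorem ms_val1 (u v : ℕ) : Measurable fun M : T => M.1 u v :=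
  (measurable_pi_apply v).comp ((measurable_pi_apply u).comp measurable_fst)

private theorem ms_R (i u v : ℕ) : Measurable fun M : T => R M i u v :=
  ms_val (2 * i + 1 + 1) ![u, v]

private theorem ms_lb (j u : ℕ) : Measurable fun M : T => lb M j u :=
  ms_val (2 * j + 1) ![u, u]

theorem ms_D (x y z : ℕ) : MeasurableSet {M : T | D M x y z} :=
  (ms_val 0 ![x, y, z]) (measurableSet_singleton true)

theorem ms_er (x z u v : ℕ) : MeasurableSet {M : T | er M univ (Cn M x z) u v} := by
  have e : {M : T | er M univ (Cn M x z) u v} = {M : T | M.1 u v = true} ∩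
      ((⋂ j : ℕ, {M : T | lb M j u = lb M j v}) ∩ ⋂ w : ℕ, ({M : T | D M x w z} ∪
        ⋂ i : ℕ, ({M : T | R M i u w = R M i v w} ∩ {M : T | R M i w u = R M i w v}))) := by
    ext M
    simp only [er, Set.mem_ofPred_eq, mem_inter_iff, mem_iInter, mem_union, mem_univ,
      forall_const]
    refine and_congr Iff.rfl (and_congr Iff.rfl (forall_congr' fun w => ?_))
    constructor
    · intro h
      by_cases hw : D M x w z
      · exact Or.inl hw
      · exact Or.inr (h hw)
    · rintro (h | h) hw
      · exact absurd h hw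
      · exact h
  rw [e]
  exact ((ms_val1 u v) (measurableSet_singleton true)).inter
    ((MeasurableSet.iInter fun j => ms_eq (ms_lb j u) (ms_lb j v)).inter
      (MeasurableSet.iInter fun w => (ms_D x w z).union (MeasurableSet.iInter fun i =>
        (ms_eq (ms_R i u w) (ms_R i v w)).inter (ms_eq (ms_R i w u) (ms_R i w v)))))

private theorem ms_er0 (i : ℕ) (t : Fin (aT i) → ℕ) : Measurable fun M : T => er0 M i t := by
  match i, t with
  | 0, t => exact ms_val 0 t
  | i + 1, t =>
    show Measurable fun M : T => if i % 2 = 0 then false else M.2 (i + 1) t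
    split_ifs
    · exact measurable_const
    · exact ms_val (i + 1) t

/-- The piece depends measurably on the structure. -/
theorem ms_pc (x z : ℕ) : Measurable fun M : T => pc M univ (Cn M x z) := by
  classical
  refine Measurable.prodMk ?_ ?_
  · refine measurable_pi_iff.2 fun u => measurable_pi_iff.2 fun v => ?_
    refine measurable_to_bool ?_
    have e : (fun M : T => decide (er M univ (Cn M x z) u v)) ⁻¹' {true} =
        {M : T | er M univ (Cn M x z) u v} := by
      ext M
      simp
    rw [e]
    exact ms_er x z u v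
  · refine measurable_pi_iff.2 fun i => measurable_pi_iff.2 fun t => ?_
    exact ms_er0 i t

theorem t_MS : S_MS := by
  intro S l hS hl hlt
  have h2 : ∀ P ∈ S, ∀ x z,
      MeasurableSet {M : T | IsoOn P.1 (pc M univ (Cn M x z)) P.2 (Cn M x z) ∅} := by
    intro P hP x z
    have h3 : {M : T | IsoOn P.1 (pc M univ (Cn M x z)) P.2 (Cn M x z) ∅} =
        (fun M : T => pc M univ (Cn M x z)) ⁻¹' {N : T | BF P.1 N P.2 (Cn N x z) l ∅} := by
      ext M
      constructor
      · intro h
        exact IsoOn.bf h l
      · intro h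
        exact hl P.1 P.2 (pc M univ (Cn M x z)) (Cn M x z) ∅ hP finite_empty (empty_subset _) h
    rw [h3]
    exact ms_pc x z (t_MEAS1 aT P.1 P.2 (fun M => Cn M x z) (fun y => ms_D x y z) l hlt ∅)
  refine ⟨fun x z => ?_, h2⟩
  obtain ⟨f, hf⟩ := hS.enu
  have h4 : {M : T | Pc M (Cn M x z) ∈ S} =
      ⋃ n : ℕ, ⋃ _ : f n ∈ S,
        {M : T | IsoOn (f n).1 (pc M univ (Cn M x z)) (f n).2 (Cn M x z) ∅} := by
    ext M
    constructor
    · intro h
      obtain ⟨n, hn1, hn2⟩ := hf (pc M univ (Cn M x z)) (Cn M x z) h
      exact mem_iUnion.2 ⟨n, mem_iUnion.2 ⟨hn1, hn2⟩⟩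
    · intro h
      obtain ⟨n, hn⟩ := mem_iUnion.1 h
      obtain ⟨hn1, hn2⟩ := mem_iUnion.1 hn
      exact (hS.iso' hn2).1 hn1
  rw [h4]
  exact MeasurableSet.iUnion fun n => MeasurableSet.iUnion fun hn => h2 _ hn x z

end Pool.Agent.N643.TD
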