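import Pool.Agent.N643.TD.BASE3

set_option autoImplicit false

/-! SIM3 (helper803, port of W875/TS): one step. -/

namespace Pool.Agent.N643.TD

open Set
open Pool.Agent.H899R2.VP
open Pool.Agent.H533R2.VO (iso_refl0 iso_symm0 iso_trans0 bf_comp0 bf_symm0)

/-- The representatives for one label. -/
private theorem sim3_label (h5 : S_INFC) {n : ℕ} {α : Ordinal.{0}} {K : Set T}
    {S : Set (T × Set ℕ)} (hK : GC n α K) (hS : CF S) (c : T → List ℕ → ℕ)
    (hc : ∀ M ∈ K, ∀ N ∈ K, ∀ s t : List ℕ, s.length = t.length → c M s = c N t →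
      BF M N univ univ α (zipSet s t)) (κ len : ℕ) :
    ∃ h : ℕ → T, ∀ M ∈ K, ∀ x z, x ≠ z → (Cn M x z).Infinite → ∀ us,
      Rp (pc M univ (Cn M x z)) (Cn M x z) us → us.length = len → c M (x :: z :: us) = κ →
      ∀ N : T, BF (od (pc M univ (Cn M x z)) us) N (Cn M x z) univ α ∅ →
      (∀ x z x' z', x ≠ z → x' ≠ z' → Disjoint (Cn N x z) (Cn N x' z') →
        Pc N (Cn N x z) ∈ S ∨ Pc N (Cn N x' z') ∈ S) → ∃ m, IsoOn (h m) N univ univ ∅ := by
  by_cases hex : ∃ M0 ∈ K, ∃ x0 z0, x0 ≠ z0 ∧ (Cn M0 x0 z0).Infinite ∧ ∃ us0,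
      Rp (pc M0 univ (Cn M0 x0 z0)) (Cn M0 x0 z0) us0 ∧ us0.length = len ∧
      c M0 (x0 :: z0 :: us0) = κ
  · obtain ⟨M0, hM0, x0, z0, hne, hinf, us0, hr0, hl0, hκ⟩ := hex
    obtain ⟨h, hh⟩ := h5 n α K S hK hS M0 hM0 x0 z0 hne hinf us0 hr0
    refine ⟨h, ?_⟩
    intro M hM x z _ _ us hr hl hxz N hN hd
    have h1 := hc M0 hM0 M hM (x0 :: z0 :: us0) (x :: z :: us) (by simp [hl, hl0])
      (hκ.trans hxz.symm)
    exact hh N (bf_comp0 (zip2_bf hK.om (hl0.trans hl.symm) hr0 hr h1) hN) hd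
  · refine ⟨fun _ => (fun _ _ => false, fun _ _ => false), ?_⟩
    intro M hM x z hne hinf us hr hl hxz
    exact absurd ⟨M, hM, x, z, hne, hinf, us, hr, hl, hxz⟩ hex

theorem t_SIM3 (h1 : S_LAB3) (h2 : S_GENC) (h3 : S_GENUC) (h4 : S_FINC) (h5 : S_INFC)
    (h6 : S_TRX) : S_SIM3 := by
  intro n₀ α K S hK hS
  obtain ⟨c, hc⟩ := h1 n₀ α K hK α hK.lt
  choose H hH using sim3_label h5 hK hS c hc
  obtain ⟨S1, hS1, hS1m⟩ := h2 fun m =>
    (pc (H m.unpair.1.unpair.1 m.unpair.1.unpair.2 m.unpair.2) univ univ, univ)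
  obtain ⟨hf, hhf⟩ := h4 n₀ α K hK
  obtain ⟨S2, hS2, hS2m⟩ := h2 hf
  let F : ULift.{1} (Option Bool) → Set (T × Set ℕ) := fun i =>
    match i.down with
    | none => S
    | some true => S1
    | some false => S2
  obtain ⟨S', hS', hS'm⟩ := h3 (ULift.{1} (Option Bool)) F (by
    rintro ⟨_ | _ | _⟩
    · exact hS
    · exact hS2
    · exact hS1)
  have hm0 : S ⊆ S' := hS'm ⟨none⟩
  have hm1 : S1 ⊆ S' := hS'm ⟨some true⟩
  have hm2 : S2 ⊆ S' := hS'm ⟨some false⟩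
  refine ⟨S', hS', hm0, ?_⟩
  intro M hM p hp
  obtain ⟨hpr, hpS⟩ := hp
  by_contra hno
  have hcs := hK.cs M hM
  have hne : p.unpair.1 ≠ p.unpair.2 := hpr
  set x := p.unpair.1 with hx
  set z := p.unpair.2 with hz
  have hCc : Cc M p = Cn M x z := rfl
  -- the cone is infinite
  have hinf : (Cn M x z).Infinite := by
    intro hfin
    obtain ⟨n, hn⟩ := hhf M hM x z hne hfin
    apply hpS
    rw [hCc]
    exact (hS'.iso' hn).1 (hm2 (hS2m n))
  obtain ⟨us, hus, -⟩ := hcs.exRp hne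
  obtain ⟨M1, hM1⟩ : ∃ M1, M1 = od (pc M univ (Cn M x z)) us := ⟨_, rfl⟩
  have hCM1 : ∀ a b, Cn M1 a b = Cn M a b := by
    intro a b
    rw [hM1]
    rfl
  have hpc : ∀ Z, Z ⊆ Cn M x z → IsoOn (pc M1 (Cn M x z) Z) (pc M univ Z) Z Z ∅ := by
    intro Z hZ
    rw [hM1]
    exact (pc_od hcs.eqv hus (subset_univ _) hZ).mono (empty_subset _)
  obtain ⟨N, hN⟩ := h6 M1 (Cn M x z) hinf
  -- no two disjoint cones of `N` outside `S`
  have hd : ∀ u v u' v', u ≠ v → u' ≠ v' → Disjoint (Cn N u v) (Cn N u' v') →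
      Pc N (Cn N u v) ∈ S ∨ Pc N (Cn N u' v') ∈ S := by
    intro u v u' v' huv huv' hdis
    by_contra hcon
    push Not at hcon
    obtain ⟨hn1, hn2⟩ := hcon
    obtain ⟨q0, -, hq1, hq2, hq3, hq4⟩ := hN
    have hN' : IsoOn M1 N (Cn M x z) univ q0 := ⟨q0, Subset.rfl, hq1, hq2, hq3, hq4⟩
    -- the preimage of a cone
    have key : ∀ u v, u ≠ v → Pc N (Cn N u v) ∉ S → ∃ a b, (a, u) ∈ q0 ∧ (b, v) ∈ q0 ∧ a ≠ b ∧
        Cn M a b ⊆ Cn M x z ∧ Pc M (Cn M a b) ∉ S := by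
      intro u v huv hnS
      obtain ⟨a, ha⟩ := hq4 u (mem_univ u)
      obtain ⟨b, hb⟩ := hq4 v (mem_univ v)
      have haC : a ∈ Cn M x z := (hq1 ha).1
      have hbC : b ∈ Cn M x z := (hq1 hb).1
      have hab : a ≠ b := fun e => huv ((hq2.1 (a, u) ha (b, v) hb).1 e)
      have hsub := hcs.cr.csub haC hbC
      refine ⟨a, b, ha, hb, hab, hsub, fun hmem => hnS ?_⟩
      have h7 := resIsoCn ha hb hN'
      rw [hCM1, inter_eq_self_of_subset_right hsub, univ_inter] at h7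
      exact (hS.iso' (h7.mono (empty_subset _))).1 ((hS.iso' (hpc _ hsub)).2 hmem)
    obtain ⟨a, b, ha, hb, hab, hsub, hnS⟩ := key u v huv hn1
    obtain ⟨a', b', ha', hb', hab', hsub', hnS'⟩ := key u' v' huv' hn2
    apply hno
    refine ⟨Nat.pair a b, Nat.pair a' b', ⟨?_, ?_, ?_, ?_, ?_⟩, ⟨?_, ?_⟩, ⟨?_, ?_⟩⟩
    · unfold Pr
      rw [Nat.unpair_pair]
      exact hab
    · unfold Pr
      rw [Nat.unpair_pair]
      exact hab'
    · rw [hCc]
      unfold Cc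
      rw [Nat.unpair_pair]
      exact hsub
    · rw [hCc]
      unfold Cc
      rw [Nat.unpair_pair]
      exact hsub'
    · unfold Cc
      rw [Nat.unpair_pair, Nat.unpair_pair]
      rw [Set.disjoint_left]
      intro w hw hw'
      obtain ⟨w', hww⟩ := hq3 w (hsub hw)
      rw [← hCM1] at hw hw'
      have e1 : D N u w' v := (PIso_D hq2 ha hww hb).1 hw
      have e2 : D N u' w' v' := (PIso_D hq2 ha' hww hb').1 hw'
      exact Set.disjoint_left.1 hdis e1 e2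
    · unfold Pr
      rw [Nat.unpair_pair]
      exact hab
    · unfold Cc
      rw [Nat.unpair_pair]
      exact hnS
    · unfold Pr
      rw [Nat.unpair_pair]
      exact hab'
    · unfold Cc
      rw [Nat.unpair_pair]
      exact hnS'
  obtain ⟨m, hm⟩ := hH (c M (x :: z :: us)) us.length M hM x z hne hinf us hus rfl rfl N
    (by rw [← hM1]; exact hN.bf α) hd
  have h7 : (pc (H (c M (x :: z :: us)) us.length m) univ univ, (univ : Set ℕ)) ∈ S' := by
    have h8 := hm1 (hS1m (Nat.pair (Nat.pair (c M (x :: z :: us)) us.length) m))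
    simpa only [Nat.unpair_pair] using h8
  have h9 : (pc N univ univ, (univ : Set ℕ)) ∈ S' := (hS'.iso' (resIsoU hm)).1 h7
  have h10 : (pc M1 (Cn M x z) (Cn M x z), Cn M x z) ∈ S' := (hS'.iso' (resIsoU hN)).2 h9
  apply hpS
  rw [hCc]
  exact (hS'.iso' (hpc _ Subset.rfl)).1 h10

end Pool.Agent.N643.TD
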