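import Pool.Agent.N643.TD.Spec

set_option autoImplicit false

/-! Cones disjoint from a node of the comb occur at an early stage. -/

namespace Pool.Agent.N643.TD

open Set
open Pool.Agent.H899R2.VP
open Pool.Agent.H533R2.VO (iso_symm0 iso_trans0 iso_refl0)

namespace Stg

theorem bits (σ : ℕ → Bool) (e : ℕ) : ∃ c : ℕ, ∀ m < e, c.testBit m = σ m := by
  refine ⟨Nat.ofBits (fun i : Fin e => σ i), fun m hm => ?_⟩
  rw [Nat.testBit_ofBits_lt _ _ hm]

theorem lbl_eq {n l w : ℕ} {N : T} (h : ∀ j, lb N j w = decide (l = j)) (hl : l < n) :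
    lbl n N w = l := by
  unfold lbl
  rw [List.findIdx_eq (by simpa using hl)]
  refine ⟨by simp [h], fun j hj => ?_⟩
  simp [h]
  omega

section glue

variable {n : ℕ} {ι : Type} {M : T} {J : ι → Set ℕ} {us : ι → List ℕ} {t : ι → T} {u v w : ℕ}

theorem rho_in (hd : ∀ i j, i ≠ j → Disjoint (J i) (J j)) {j : ι} (hu : u ∈ J j) :
    rho n J us t u = (us j).getD (lbl n (t j) u) u := by
  have h : ∃ j, u ∈ J j := ⟨j, hu⟩
  have e : h.choose = j := by
    by_contra hne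
    exact Set.disjoint_left.1 (hd _ _ hne) h.choose_spec hu
  unfold rho
  rw [dif_pos h, e]

theorem rho_out (hu : ¬ ∃ j, u ∈ J j) : rho n J us t u = u := by
  unfold rho
  rw [dif_neg hu]

theorem R_in (hd : ∀ i j, i ≠ j → Disjoint (J i) (J j)) {j : ι} (hu : u ∈ J j) (hv : v ∈ J j)
    (i : ℕ) : R (Gl n M J us t) i u v = R (t j) i u v := by
  classical
  have h : ∃ j, ∀ k : Fin 2, ![u, v] k ∈ J j := ⟨j, fun k => by fin_cases k <;> assumption⟩
  have e : h.choose = j := by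
    by_contra hne
    exact Set.disjoint_left.1 (hd _ _ hne) (h.choose_spec 0) hu
  show (if (2 * i + 1) % 2 = 0 then _ else if h : ∃ j, ∀ k : Fin 2, ![u, v] k ∈ J j then
    (t h.choose).2 (2 * i + 1 + 1) ![u, v] else _) = _
  rw [if_neg (by omega), dif_pos h, e]
  rfl

theorem R_out (h : ¬ ∃ j, u ∈ J j ∧ v ∈ J j) (i : ℕ) :
    R (Gl n M J us t) i u v = R M i (rho n J us t u) (rho n J us t v) := by
  classical
  have h' : ¬ ∃ j, ∀ k : Fin 2, ![u, v] k ∈ J j := fun ⟨j, hj⟩ => h ⟨j, hj 0, hj 1⟩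
  show (if (2 * i + 1) % 2 = 0 then _ else if h : ∃ j, ∀ k : Fin 2, ![u, v] k ∈ J j then _ else
    M.2 (2 * i + 1 + 1) (fun k => rho n J us t (![u, v] k))) = _
  rw [if_neg (by omega), dif_neg h', vec2 (fun k => rho n J us t (![u, v] k))]
  rfl

theorem D_in (hd : ∀ i j, i ≠ j → Disjoint (J i) (J j)) {j : ι} (hu : u ∈ J j) (hv : v ∈ J j)
    (hw : w ∈ J j) : D (Gl n M J us t) u v w ↔ D (t j) u v w := by
  classical
  have h : ∃ j, ∀ k : Fin 3, ![u, v, w] k ∈ J j := ⟨j, fun k => by fin_cases k <;> assumption⟩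
  have e : h.choose = j := by
    by_contra hne
    exact Set.disjoint_left.1 (hd _ _ hne) (h.choose_spec 0) hu
  show (if h : ∃ j, ∀ k : Fin 3, ![u, v, w] k ∈ J j then
    (t h.choose).2 0 ![u, v, w] else _) = true ↔ _
  rw [dif_pos h, e]
  rfl

theorem D_out (h : ¬ ∃ j, u ∈ J j ∧ v ∈ J j ∧ w ∈ J j) :
    D (Gl n M J us t) u v w ↔ D M u v w := by
  classical
  have h' : ¬ ∃ j, ∀ k : Fin 3, ![u, v, w] k ∈ J j := fun ⟨j, hj⟩ => h ⟨j, hj 0, hj 1, hj 2⟩
  show (if h : ∃ j, ∀ k : Fin 3, ![u, v, w] k ∈ J j then _ else M.2 0 ![u, v, w]) = true ↔ _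
  rw [dif_neg h']
  rfl

theorem lb_Gl (j : ℕ) : lb (Gl n M J us t) j u = lb M j (rho n J us t u) := by
  classical
  show (if (2 * j) % 2 = 0 then decide (u = u) && lb M (2 * j / 2) (rho n J us t u) else _) = _
  rw [if_pos (by omega), show 2 * j / 2 = j by omega]
  simp

theorem fl_Gl (j : ℕ) (h : u ≠ v) : (Gl n M J us t).2 (2 * j + 1) ![u, v] = false := by
  classical
  show (if (2 * j) % 2 = 0 then decide (u = v) && lb M (2 * j / 2) (rho n J us t u) else _) = _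
  rw [if_pos (by omega)]
  simp [h]

end glue

/-- the rows outside `Z` in two gluings which agree inside `Z` -/
theorem er_imp {m n : ℕ} {M : T} {J : ℕ → Set ℕ} {us : ℕ → List ℕ} {T0 T1 : ℕ → T} {Z : Set ℕ}
    (hd : ∀ i j, i ≠ j → Disjoint (J i) (J j)) (hZ : ∀ w ∈ Z, ∀ j, w ∈ J j → j < n)
    (hT : ∀ k < n, T1 k = T0 k)
    (hocc : ∀ k, ∀ w ∈ J k, ∃ w' ∈ J k, rho m J us T0 w' = rho m J us T1 w)
    {a b : ℕ} (ha : a ∈ Z) (hb : b ∈ Z) (h : er (Gl m M J us T0) univ Z a b) :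
    er (Gl m M J us T1) univ Z a b := by
  have hrZ : ∀ w, (∀ j, w ∈ J j → j < n) → rho m J us T1 w = rho m J us T0 w := by
    intro w hw
    by_cases hj : ∃ j, w ∈ J j
    · obtain ⟨j, hj⟩ := hj
      rw [rho_in hd hj, rho_in hd hj, hT j (hw j hj)]
    · rw [rho_out hj, rho_out hj]
  -- the case of a point whose cone has not changed
  have same : ∀ w, (∀ j, w ∈ J j → j < n) → ∀ a ∈ Z, ∀ i,
      R (Gl m M J us T1) i a w = R (Gl m M J us T0) i a w ∧
      R (Gl m M J us T1) i w a = R (Gl m M J us T0) i w a := by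
    intro w hw a ha i
    constructor
    · by_cases hj : ∃ j, a ∈ J j ∧ w ∈ J j
      · obtain ⟨j, haj, hwj⟩ := hj
        rw [R_in hd haj hwj, R_in hd haj hwj, hT j (hw j hwj)]
      · rw [R_out hj, R_out hj, hrZ w hw, hrZ a (hZ a ha)]
    · by_cases hj : ∃ j, w ∈ J j ∧ a ∈ J j
      · obtain ⟨j, hwj, haj⟩ := hj
        rw [R_in hd hwj haj, R_in hd hwj haj, hT j (hw j hwj)]
      · rw [R_out hj, R_out hj, hrZ w hw, hrZ a (hZ a ha)]
  have key : ∀ w, w ∉ Z → ∃ w', w' ∉ Z ∧ ∀ a ∈ Z, ∀ i,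
      R (Gl m M J us T1) i a w = R (Gl m M J us T0) i a w' ∧
      R (Gl m M J us T1) i w a = R (Gl m M J us T0) i w' a := by
    intro w hw
    by_cases hall : ∀ j, w ∈ J j → j < n
    · exact ⟨w, hw, same w hall⟩
    · push Not at hall
      obtain ⟨k, hwk, hk⟩ := hall
      obtain ⟨w', hw'k, hw'⟩ := hocc k w hwk
      have hout : ∀ y ∈ J k, ∀ a ∈ Z, ∀ j, ¬ (a ∈ J j ∧ y ∈ J j) := by
        rintro y hy a ha j ⟨haj, hyj⟩
        have hjk : j = k := by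
          by_contra hne
          exact Set.disjoint_left.1 (hd _ _ hne) hyj hy
        have := hZ a ha j haj
        omega
      refine ⟨w', fun hc => absurd (hZ w' hc k hw'k) (by omega), fun a ha i => ?_⟩
      rw [R_out (fun ⟨j, hj⟩ => hout w hwk a ha j hj), R_out (fun ⟨j, hj⟩ => hout w' hw'k a ha j hj),
        R_out (fun ⟨j, hj⟩ => hout w hwk a ha j hj.symm),
        R_out (fun ⟨j, hj⟩ => hout w' hw'k a ha j hj.symm), hw', hrZ a (hZ a ha)]
      exact ⟨rfl, rfl⟩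
  refine ⟨rfl, fun j => ?_, fun w _ hw i => ?_⟩
  · have h1 := h.2.1 j
    rw [lb_Gl, lb_Gl] at h1 ⊢
    rwa [hrZ a (hZ a ha), hrZ b (hZ b hb)]
  · obtain ⟨w', hw', hk⟩ := key w hw
    have h1 := h.2.2 w' (mem_univ _) hw' i
    obtain ⟨k1, k2⟩ := hk a ha i
    obtain ⟨k3, k4⟩ := hk b hb i
    rw [k1, k2, k3, k4]
    exact h1

end Stg

open Stg in
theorem t_STG (h1 : S_DSF) (h2 : S_CBF) : S_STG := by
  intro m α M x z us t hSU σ n s hs u v huv hdis
  obtain ⟨-, hCs, -, -, -⟩ := h1 m α M x z us t hSU σ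
  obtain ⟨-, hXJ, -, -, -⟩ := h2 m α M x z us hSU.cb
  obtain ⟨c, hc⟩ := bits σ n
  obtain ⟨J, hJ⟩ : ∃ J : ℕ → Set ℕ, J = fun k => Cn M (x k) (z k) := ⟨_, rfl⟩
  have hdJ : ∀ i j, i ≠ j → Disjoint (J i) (J j) := by
    intro i j hij
    rw [hJ]
    exact hSU.cb.dj i j hij
  obtain ⟨T0, hT⟩ : ∃ T0 : ℕ → T, T0 = fun k => t (2 * k + (σ k).toNat) := ⟨_, rfl⟩
  obtain ⟨T1, hT1⟩ : ∃ T1 : ℕ → T,
    T1 = fun k => trunc M x z us t s (2 * k + (c.testBit k).toNat) := ⟨_, rfl⟩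
  have hTT : ∀ k : ℕ, k < n → T1 k = T0 k := by
    intro k hk
    rw [hT, hT1]
    simp only
    rw [hc k hk]
    unfold trunc
    rw [if_pos (hs k hk)]
  have hD : DS m M x z us t σ = Gl m M J us T0 := by
    rw [hJ, hT]
    rfl
  have hD1 : DS m M x z us (trunc M x z us t s) (fun j => c.testBit j) = Gl m M J us T1 := by
    rw [hJ, hT1]
    rfl
  have hrp : ∀ k, Rp (pc M univ (J k)) (J k) (us k) := by
    intro k
    rw [hJ]
    exact (hSU.cb.big k).1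
  have hdiv : ∀ (k : ℕ) (b : Bool), (2 * k + b.toNat) / 2 = k := by
    intro k b
    have : b.toNat ≤ 1 := Bool.toNat_le _
    omega
  have hB0 : ∀ k, BF (od (pc M univ (J k)) (us k)) (T0 k) (J k) (J k) α ∅ := by
    intro k
    have h3 := (hSU.gt (2 * k + (σ k).toNat)).1
    rw [hdiv k (σ k)] at h3
    rw [hJ, hT]
    exact h3
  have hB1 : ∀ k, BF (od (pc M univ (J k)) (us k)) (T1 k) (J k) (J k) α ∅ := by
    intro k
    rw [hJ, hT1]
    simp only
    unfold trunc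
    by_cases hlt : 2 * k + (c.testBit k).toNat < s
    · rw [if_pos hlt]
      have h3 := (hSU.gt (2 * k + (c.testBit k).toNat)).1
      rw [hdiv k (c.testBit k)] at h3
      exact h3
    · rw [if_neg hlt, hdiv k (c.testBit k)]
      exact iso_refl0.bf α
  have hlen : ∀ k, (us k).length ≤ m := by
    intro k
    have h3 := hrp k
    rw [hJ] at h3
    exact hSU.cb.cs.rp_le (hSU.cb.ne k) h3
  have heqv : ∀ k, Eqv (pc M univ (J k)) (J k) := fun k => eqv_pc hSU.cb.cs.eqv (subset_univ _)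
  have h0 : (0 : Ordinal.{0}) < α := lt_of_lt_of_le Ordinal.omega0_pos hSU.om
  -- the values of `rho` on a cone
  have F1 : ∀ (T' : ℕ → T), (∀ k, BF (od (pc M univ (J k)) (us k)) (T' k) (J k) (J k) α ∅) →
      ∀ k, ∀ w ∈ J k, ∃ (l : ℕ) (hl : l < (us k).length), rho m J us T' w = (us k)[l] := by
    intro T' hB k w hw
    obtain ⟨a, ha, hb⟩ := (hB k).back h0 hw
    have hl := (hrp k).ix_lt ha
    refine ⟨_, hl, ?_⟩
    rw [rho_in hdJ hw, lbl_eq (fun j => ?_) (lt_of_lt_of_le hl (hlen k)),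
      List.getD_eq_getElem _ _ hl]
    rw [← PIso_lb hb.piso j (mem_insert _ _), lb_od]
  have F2 : ∀ (T' : ℕ → T), (∀ k, BF (od (pc M univ (J k)) (us k)) (T' k) (J k) (J k) α ∅) →
      ∀ k, ∀ (l : ℕ) (hl : l < (us k).length), ∃ w ∈ J k, rho m J us T' w = (us k)[l] := by
    intro T' hB k l hl
    obtain ⟨w, hw, hb⟩ := (hB k).forth h0 ((hrp k).mem hl)
    refine ⟨w, hw, ?_⟩
    rw [rho_in hdJ hw, lbl_eq (l := l) (fun j => ?_) (lt_of_lt_of_le hl (hlen k)),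
      List.getD_eq_getElem _ _ hl]
    rw [← PIso_lb hb.piso j (mem_insert _ _), lb_od, (hrp k).ix_self (heqv k) hl]
  have hocc01 : ∀ k, ∀ w ∈ J k, ∃ w' ∈ J k, rho m J us T0 w' = rho m J us T1 w := by
    intro k w hw
    obtain ⟨l, hl, e⟩ := F1 T1 hB1 k w hw
    obtain ⟨w', hw', e'⟩ := F2 T0 hB0 k l hl
    exact ⟨w', hw', e'.trans e.symm⟩
  have hocc10 : ∀ k, ∀ w ∈ J k, ∃ w' ∈ J k, rho m J us T1 w' = rho m J us T0 w := by
    intro k w hw
    obtain ⟨l, hl, e⟩ := F1 T0 hB0 k w hw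
    obtain ⟨w', hw', e'⟩ := F2 T1 hB1 k l hl
    exact ⟨w', hw', e'.trans e.symm⟩
  rw [hD] at hdis hCs ⊢
  obtain ⟨Z, hZ⟩ : ∃ Z, Z = Cn (Gl m M J us T0) u v := ⟨_, rfl⟩
  have hZn : ∀ w ∈ Z, ∀ j, w ∈ J j → j < n := by
    intro w hw j hwj
    by_contra hge
    rw [hZ] at hw
    refine Set.disjoint_left.1 hdis hw (hXJ n j (not_lt.1 hge) ?_)
    rw [hJ] at hwj
    exact hwj
  have hagrD : ∀ a ∈ Z, ∀ b c, D (Gl m M J us T1) a b c ↔ D (Gl m M J us T0) a b c := by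
    intro a ha b c
    by_cases hj : ∃ j, a ∈ J j ∧ b ∈ J j ∧ c ∈ J j
    · obtain ⟨j, haj, hbj, hcj⟩ := hj
      rw [D_in hdJ haj hbj hcj, D_in hdJ haj hbj hcj, hTT j (hZn a ha j haj)]
    · rw [D_out hj, D_out hj]
  have hrho : ∀ a ∈ Z, rho m J us T1 a = rho m J us T0 a := by
    intro a ha
    by_cases hj : ∃ j, a ∈ J j
    · obtain ⟨j, hj⟩ := hj
      rw [rho_in hdJ hj, rho_in hdJ hj, hTT j (hZn a ha j hj)]
    · rw [rho_out hj, rho_out hj]
  have hagrR : ∀ a ∈ Z, ∀ b ∈ Z, ∀ i, R (Gl m M J us T1) i a b = R (Gl m M J us T0) i a b := by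
    intro a ha b hb i
    by_cases hj : ∃ j, a ∈ J j ∧ b ∈ J j
    · obtain ⟨j, haj, hbj⟩ := hj
      rw [R_in hdJ haj hbj, R_in hdJ haj hbj, hTT j (hZn a ha j haj)]
    · rw [R_out hj, R_out hj, hrho a ha, hrho b hb]
  have huZ : u ∈ Z := by
    rw [hZ]
    exact hCs.cr.self_mem huv
  have hCn : Cn (Gl m M J us T1) u v = Z := by
    rw [hZ]
    ext y
    exact hagrD u huZ y v
  refine ⟨Pc (DS m M x z us (trunc M x z us t s) (fun j => c.testBit j))
    (Cn (DS m M x z us (trunc M x z us t s) (fun j => c.testBit j)) u v),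
    ⟨s, le_rfl, c, u, v, huv, rfl⟩, ?_⟩
  unfold Pc
  simp only
  rw [hD1, hCn, ← hZ]
  refine (agree (fun a ha b hb => ?_) (fun a ha b _ c _ => ?_) (fun j a _ => by
    rw [lb_pc, lb_pc]) (fun j a _ b _ _ => fl_pc j) (fun j a _ b _ _ => fl_pc j)
    (fun i a ha b hb => ?_)).mono (empty_subset _)
  · rw [Bool.eq_iff_iff, pc1, pc1]
    exact ⟨er_imp hdJ hZn (fun k hk => (hTT k hk).symm) hocc10 ha hb,
      er_imp hdJ hZn hTT hocc01 ha hb⟩
  · rw [D_pc, D_pc]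
    exact hagrD a ha b c
  · rw [R_pc, R_pc]
    exact hagrR a ha b hb i

end Pool.Agent.N643.TD
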