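import Pool.Agent.N643.TD.Spec

set_option autoImplicit false

/-! TRX (helper803, port of W875/TS): transport of an infinite piece. -/

namespace Pool.Agent.N643.TD

open Set
open Pool.Agent.H899R2.VP

theorem t_TRX : S_TRX := by
  intro M X hX
  classical
  have hX' : (Set.ofPred (· ∈ X)).Infinite := hX
  have he : Function.Injective (Nat.nth (· ∈ X)) := Nat.nth_injective hX'
  have hr : Set.range (Nat.nth (· ∈ X)) = X := Nat.range_nth_of_infinite hX'
  refine ⟨(fun x y => M.1 (Nat.nth (· ∈ X) x) (Nat.nth (· ∈ X) y),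
    fun i t => M.2 i (fun k => Nat.nth (· ∈ X) (t k))), {w | w.1 = Nat.nth (· ∈ X) w.2},
    empty_subset _, ?_, ⟨?_, ?_, ?_⟩, ?_, ?_⟩
  · rintro ⟨u, v⟩ h
    simp only [Set.mem_ofPred_eq] at h
    refine ⟨?_, mem_univ _⟩
    rw [← hr, h]
    exact mem_range_self v
  · rintro ⟨u, v⟩ h ⟨u', v'⟩ h'
    simp only [Set.mem_ofPred_eq] at h h'
    subst h h'
    exact ⟨fun h => he h, fun h => congrArg (Nat.nth (· ∈ X)) h⟩
  · rintro ⟨u, v⟩ h ⟨u', v'⟩ h'
    simp only [Set.mem_ofPred_eq] at h h'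
    subst h h'
    rfl
  · intro i t ht
    have : (fun k => (t k).1) = fun k => Nat.nth (· ∈ X) (t k).2 := funext fun k => ht k
    rw [this]
  · intro x hx
    rw [← hr] at hx
    obtain ⟨n, hn⟩ := hx
    exact ⟨n, hn.symm⟩
  · intro y _
    exact ⟨Nat.nth (· ∈ X) y, rfl⟩

end Pool.Agent.N643.TD
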