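import Pool.Agent.N643.TD.LEV3
import Pool.Agent.N643.TD.GENC
import Pool.Agent.N643.TD.GENUC
import Pool.Agent.N643.TD.LAB3
import Pool.Agent.N643.TD.MS
import Pool.Agent.N643.TD.TRXb
import Pool.Agent.N643.TD.TRP3
import Pool.Agent.N643.TD.BASE3
import Pool.Agent.N643.TD.GLB3
import Pool.Agent.N643.TD.GLF3
import Pool.Agent.N643.TD.FILL3
import Pool.Agent.N643.TD.SEQ3
import Pool.Agent.N643.TD.CBF
import Pool.Agent.N643.TD.DSF
import Pool.Agent.N643.TD.STG
import Pool.Agent.N643.TD.DA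
import Pool.Agent.N643.TD.DB
import Pool.Agent.N643.TD.DC
import Pool.Agent.N643.TD.DD
import Pool.Agent.N643.TD.CODE3
import Pool.Agent.N643.TD.COMB
import Pool.Agent.N643.TD.MSC
import Pool.Agent.N643.TD.SIM3
import Pool.Agent.N643.TD.CNT3
import Pool.Agent.N643.TD.MAIN3
import Pool.Agent.N643.TD.FINC
import Pool.Agent.N643.TD.INFC
import Pool.Agent.N643.TD.CTF
import Pool.Agent.N643.TD.CTT
import Pool.Agent.N643.TD.CSBF
import Pool.Agent.N643.TD.KCONE
import Pool.Agent.N643.TD.BL3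

set_option autoImplicit false

namespace Pool.Agent.N643.TD

/-- All but the theorem on centred structures. -/
theorem main0 (ct : S_CT) : S_MAIN3 := by
  have glb : S_GLB3 := t_GLB3
  have kcone := t_KCONE t_CSBF t_CSOD glb t_GLF3
  have fill : S_FILL3 := t_FILL3 t_TRP3
  have sq := t_SEQ3 fill
  have dsf := t_DSF glb t_GLF3 t_CSBF
  have stg := t_STG dsf t_CBF
  have da := t_DA dsf stg
  have db := t_DB dsf stg t_CBF
  have dc := t_DC dsf da db t_CBF
  have dd := t_DD dsf dc stg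
  have code := t_CODE3 sq dsf dd
  have finc : S_FINC := t_FINC t_LAB3
  have infc := t_INFC kcone ct t_CTF t_CTT
  have sim := t_SIM3 t_LAB3 t_GENC t_GENUC finc infc t_TRX
  have cnt := t_CNT3 sim t_GENUC
  have base : S_BASE3 := t_BASE3 t_LAB3 t_GENC
  exact t_MAIN3 base t_LEV3 t_MS t_MSC t_BL3 t_COMB code cnt ct t_CTF

end Pool.Agent.N643.TD
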