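import Pool.Agent.N643.TD.CTE
import Pool.Agent.H899R2.VP.Few
import Pool.Agent.W875.TS.COI

set_option autoImplicit false

/-!
# Centred structures: countably many types
-/

namespace Pool.Agent.N643.TD

open Set
open Pool.Agent.H899R2.VP (St PIso BF IsoOn idOn few_base)
open Pool.Agent.N643.MN (XS XI SL LocFin vc_X)

variable {n : ℕ} {S : Set (T × Set ℕ)} {N N' : T} {B B' : ℕ → ℕ → Prop} {σ : Equiv.Perm ℕ}
  {u v w : ℕ} {b : Bool}

theorem Is.mem_S (hS : CF S) (h : Is N N' σ) (X : Set ℕ) : Pc N X ∈ S ↔ Pc N' (σ '' X) ∈ S :=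
  hS.iso' (h.isoPc X)

theorem be_iso (hS : CF S) (h : Is N N' σ) (v u w : ℕ) :
    Be S b N' (σ v) (σ u) (σ w) ↔ Be S b N v u w := by
  cases b with
  | false => exact (h.D_iff v u w).symm
  | true =>
    show (σ u ≠ σ w ∧ Pc N' (Cn N' (σ u) (σ w)) ∉ S) ↔ (u ≠ w ∧ Pc N (Cn N u w) ∉ S)
    rw [σ.injective.ne_iff, h.mem_S hS, h.image_Cn]

theorem Is.csOn (h : Is N N' σ) (hN : CsOn n N univ) (hcs : S_CSBF) : CsOn n N' univ :=
  hcs n Ordinal.omega0 N N' univ univ le_rfl hN ((h.isoOn.mono (empty_subset _)).bf _)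

theorem ctr_iso (hcs : S_CSBF) (hS : CF S) (h : Is N N' σ) (hB : ∀ u v, B' (σ u) (σ v) ↔ B u v)
    (hC : Ctr n S N B) : Ctr n S N' B' := by
  have hB' : ∀ u v, B' u v ↔ B (σ.symm u) (σ.symm v) := by
    intro u v
    rw [← hB, σ.apply_symm_apply, σ.apply_symm_apply]
  have hD' : ∀ u v w, D N' u v w ↔ D N (σ.symm u) (σ.symm v) (σ.symm w) := by
    intro u v w
    rw [h.D_iff, σ.apply_symm_apply, σ.apply_symm_apply, σ.apply_symm_apply]
  refine ⟨h.csOn hC.cs hcs, ?_, ?_, ?_, ?_⟩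
  · intro x y hxy
    rw [hB'] at hxy
    obtain ⟨h1, h2⟩ := hC.cone _ _ hxy
    refine ⟨fun e => h1 (congrArg _ e), fun x' => ?_⟩
    rw [hB', hD']
    exact h2 _
  · rintro y y' ⟨x, hx⟩ ⟨x', hx'⟩
    rw [hB'] at hx hx'
    obtain ⟨z, h1, h2⟩ := hC.cmp _ _ ⟨_, hx⟩ ⟨_, hx'⟩
    refine ⟨σ z, ?_, ?_⟩
    · rw [hB', σ.symm_apply_apply]
      exact h1
    · rw [hB', σ.symm_apply_apply]
      exact h2
  · intro v hv y hy
    rw [hB']
    refine hC.cen _ ?_ _ fun e => hy (σ.symm.injective e)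
    rintro ⟨x, hx⟩
    refine hv ⟨σ x, ?_⟩
    rw [hB', σ.symm_apply_apply]
    exact hx
  · intro x y hxy
    rw [hB'] at hxy
    have h1 := hC.thin _ _ hxy
    rw [h.mem_S hS, h.image_Cn, σ.apply_symm_apply, σ.apply_symm_apply] at h1
    exact h1

theorem sm_iso (h : Is N N' σ) (hB : ∀ u v, B' (σ u) (σ v) ↔ B u v) (u v : ℕ) :
    Sm N' B' (σ u) (σ v) ↔ Sm N B u v := by
  unfold Sm
  rw [σ.injective.eq_iff]
  refine or_congr Iff.rfl ⟨?_, ?_⟩
  · rintro ⟨b, h1, h2⟩
    refine ⟨σ.symm b, ?_, ?_⟩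
    · rw [← hB, σ.apply_symm_apply]
      exact h1
    · rw [h.D_iff, σ.apply_symm_apply]
      exact h2
  · rintro ⟨b, h1, h2⟩
    exact ⟨σ b, (hB _ _).2 h1, (h.D_iff _ _ _).1 h2⟩

theorem lv_iso (hB : ∀ u v, B' (σ u) (σ v) ↔ B u v) (u v : ℕ) :
    Lv B' (σ u) (σ v) ↔ Lv B u v := by
  unfold Lv
  rw [hB, hB]

theorem cl_iso (h : Is N N' σ) (hB : ∀ u v, B' (σ u) (σ v) ↔ B u v) (u v : ℕ) :
    Cl N' B' (σ u) (σ v) ↔ Cl N B u v := by
  have hp : ∀ x : ℕ, (x, σ x) ∈ {w : ℕ × ℕ | w.2 = σ w.1} := fun x => rfl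
  have hP : PIso N N' {w : ℕ × ℕ | w.2 = σ w.1} := h
  have h1 : N.1 u v = N'.1 (σ u) (σ v) := hP.2.1 _ (hp u) _ (hp v)
  unfold Cl er
  rw [lv_iso hB, h1]
  refine and_congr Iff.rfl (and_congr Iff.rfl (and_congr ?_ ?_))
  · refine forall_congr' fun j => ?_
    rw [PIso_lb hP j (hp u), PIso_lb hP j (hp v)]
  · constructor
    · intro h2 w hw hw' i
      have h3 := h2 (σ w) (mem_univ _) (fun h4 => hw' ((lv_iso hB u w).1 h4)) i
      rw [← PIso_R hP i (hp u) (hp w), ← PIso_R hP i (hp v) (hp w),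
        ← PIso_R hP i (hp w) (hp u), ← PIso_R hP i (hp w) (hp v)] at h3
      exact h3
    · intro h2 w hw hw' i
      have h3 := h2 (σ.symm w) (mem_univ _) (fun h4 => hw' (by
        have h5 := (lv_iso hB u (σ.symm w)).2 h4
        rwa [σ.apply_symm_apply] at h5)) i
      rw [PIso_R hP i (hp u) (hp _), PIso_R hP i (hp v) (hp _),
        PIso_R hP i (hp _) (hp u), PIso_R hP i (hp _) (hp v), σ.apply_symm_apply] at h3
      exact h3

/-- The class of the encodings. -/
def VV (n : ℕ) (S : Set (T × Set ℕ)) (b : Bool) (K : Set T) (f : ℕ → T × Set ℕ) : Set Q2 :=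
  {x | Enc n f (Rc n f x) (Bd f x) x (pd n f x) ∧ Rc n f x ∈ K ∧
    (Ctr n S (Rc n f x) (Bd f x) ∧ ∃ v, ∀ u w, Bd f x u w ↔ Be S b (Rc n f x) v u w)}

theorem xi_symm {x x' : Q2} {τ : Equiv.Perm ℕ} (h : XI τ x x') : XI τ.symm x' x := by
  constructor
  · intro u v
    rw [← h.1, τ.apply_symm_apply, τ.apply_symm_apply]
  · intro j t
    rw [← h.2]
    have e : (⇑τ ∘ ⇑τ.symm ∘ t) = t := by
      funext i
      simp
    rw [e]

theorem isoOn_of_is {e : Equiv.Perm ℕ} (h : Is N N' e) : IsoOn N N' univ univ ∅ :=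
  h.isoOn.mono (empty_subset _)

/-- The main properties of the class. -/
theorem key_VV (hcs : S_CSBF) (hT : S_TRN) (hG : S_CHG) (hK : S_KEY) {α : Ordinal.{0}} {K : Set T}
    {f : ℕ → T × Set ℕ} (hGC : GC n α K) (hS : CF S) (hf : ∀ N ∈ K, ∀ B, Ctr n S N B → Ty n f N B)
    (hN : N ∈ K) (hC : Ctr n S N (Be S b N v)) {x : Q2} {π : ℕ → Fin (n + 1) → ℕ}
    (hE : Enc n f N (Be S b N v) x π) : x ∈ VV n S b K f ∧ ∃ σ, Is N (Rc n f x) σ := by
  obtain ⟨σ, h1, h2, h3⟩ := hK n S N _ f x π hC (hf N hN _ hC) hE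
  have hE2 := hT n f N (Rc n f x) _ (Bd f x) x π σ h1 h2 hE
  have hC2 := ctr_iso hcs hS h1 h2 hC
  have hE3 : Enc n f (Rc n f x) (Bd f x) x (pd n f x) := by
    refine hG n S _ _ f x _ _ hC2 hE2 fun q a => hC2.cl_symm ?_
    have h4 := (cl_iso h1 h2 _ _).2 (h3 q a)
    rwa [σ.apply_symm_apply] at h4
  refine ⟨⟨hE3, hGC.iso hN (isoOn_of_is h1), hC2, σ v, fun u w => ?_⟩, σ, h1⟩
  rw [← σ.apply_symm_apply u, ← σ.apply_symm_apply w, h2, be_iso hS h1]

theorem t_CT (hcs : S_CSBF) (hEX : S_EXE) (hU : S_UNQ) (hL : S_LOC) (hT : S_TRN) (hX : S_TRX2)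
    (hG : S_CHG) (hK : S_KEY) (hR : S_MRC) (hM : S_MEN) (hMC : S_MCT) (hY : S_TYP) : S_CT := by
  classical
  intro n α K S b hGC hS
  obtain ⟨f, hf⟩ := hY n α K S hGC hS
  obtain ⟨mR, mB, mp⟩ := hR n f
  have hm : MeasurableSet (VV n S b K f) :=
    (hM n f (Rc n f) (Bd f) (pd n f) mR mB mp).inter
      ((mR hGC.meas).inter (hMC n S (Rc n f) (Bd f) b hS mR mB))
  have hbe : ∀ x ∈ VV n S b K f, ∃ v, Bd f x = Be S b (Rc n f x) v := by
    rintro x ⟨-, -, -, v, hv⟩
    exact ⟨v, funext fun u => funext fun w => propext (hv u w)⟩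
  have hinv : ∀ x ∈ VV n S b K f, ∀ x' τ, XI τ x x' → x' ∈ VV n S b K f := by
    intro x hx x' τ hτ
    obtain ⟨v, hv⟩ := hbe x hx
    obtain ⟨h1, h2, h3, -⟩ := hx
    rw [hv] at h1 h3
    exact (key_VV hcs hT hG hK hGC hS hf h2 h3 (hX n f _ _ x x' _ τ hτ h1)).1
  rcases vc_X 1 (fun _ => le_rfl) (VV n S b K f) hm hinv
    (fun x hx => ⟨hx.1.sl, hL n S _ _ f x _ hx.2.2.1 hx.1⟩) with ⟨g, hg⟩ | ⟨g, hg1, hg2, hg3⟩
  · refine ⟨fun m => Rc n f (g m), fun N hN v hC => ?_⟩
    obtain ⟨x, π, hE⟩ := hEX n S N _ f hC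
    obtain ⟨hx, -⟩ := key_VV hcs hT hG hK hGC hS hf hN hC hE
    obtain ⟨m, τ, hτ⟩ := hg x hx
    refine ⟨m, ?_⟩
    obtain ⟨-, σ, h1⟩ := key_VV hcs hT hG hK hGC hS hf hN hC
      (hX n f _ _ x (g m) _ τ.symm (xi_symm hτ) hE)
    exact isoOn_of_is h1.symm
  · exfalso
    -- the decoded family is continuous on a perfect set
    have hF : Measurable fun c => ((Rc n f (g c), fun u v => decide (Bd f (g c) u v)) :
        T × (ℕ → ℕ → Bool)) := by
      refine (mR.comp hg1.measurable).prodMk (measurable_pi_lambda _ fun u =>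
        measurable_pi_lambda _ fun v => measurable_to_bool ?_)
      have e : (fun c => decide (Bd f (g c) u v)) ⁻¹' {true} = g ⁻¹' {x | Bd f x u v} := by
        ext c
        exact decide_eq_true_iff
      rw [e]
      exact hg1.measurable (mB u v)
    obtain ⟨h, hi, hc⟩ := Pool.Agent.W875.TS.cont_of_meas hF
    have hc1 : Continuous fun c => Rc n f (g (h c)) := continuous_fst.comp hc
    have hc2 : Continuous fun c => (fun u v => decide (Bd f (g (h c)) u v) : ℕ → ℕ → Bool) :=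
      continuous_snd.comp hc
    -- the structure determines the code
    have back : ∀ (c d : ℕ → Bool) (e : Equiv.Perm ℕ), Is (Rc n f (g c)) (Rc n f (g d)) e →
        (∀ u w, Bd f (g d) (e u) (e w) ↔ Bd f (g c) u w) → c = d := by
      intro c d e he hB
      have h1 := (hg2 c).1
      have h2 := (hg2 d).1
      have h3 := hT n f _ _ _ (Bd f (g d)) (g c) _ e he hB h1
      obtain ⟨τ, hτ⟩ := hU n S _ _ f _ _ _ _ (hg2 d).2.2.1 h3 h2
      exact hg3 c d ⟨τ, hτ⟩
    cases b with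
    | true =>
      refine hGC.few ⟨fun c => Rc n f (g (h c)), hc1, fun c => (hg2 _).2.1, fun c d hcd => ?_⟩
      obtain ⟨e, he, -⟩ := exists_is hcd
      obtain ⟨v, hv⟩ := hbe _ (hg2 (h c))
      obtain ⟨v', hv'⟩ := hbe _ (hg2 (h d))
      apply hi
      refine back _ _ e he fun u w => ?_
      rw [hv, hv']
      exact be_iso (b := true) hS he v u w
    | false =>
      have hcl : ∀ v, IsClosed {c | ∀ u w, (decide (Bd f (g (h c)) u w)) =
          (Rc n f (g (h c))).2 0 ![v, u, w]} := by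
        intro v
        have h3 : {c | ∀ u w, (decide (Bd f (g (h c)) u w)) =
            (Rc n f (g (h c))).2 0 ![v, u, w]} =
            ⋂ u : ℕ, ⋂ w : ℕ, {c | decide (Bd f (g (h c)) u w) =
              (Rc n f (g (h c))).2 0 ![v, u, w]} := by
          ext c
          simp only [Set.mem_ofPred_eq, mem_iInter]
        rw [h3]
        refine isClosed_iInter fun u => isClosed_iInter fun w => isClosed_eq ?_ ?_
        · exact (continuous_apply w).comp ((continuous_apply u).comp hc2)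
        · exact (continuous_apply _).comp ((continuous_apply 0).comp (continuous_snd.comp hc1))
      have hcov : ⋃ v, {c | ∀ u w, (decide (Bd f (g (h c)) u w)) =
          (Rc n f (g (h c))).2 0 ![v, u, w]} = univ := by
        rw [eq_univ_iff_forall]
        intro c
        obtain ⟨-, -, -, v, hv⟩ := hg2 (h c)
        refine mem_iUnion.2 ⟨v, fun u w => ?_⟩
        rw [Bool.eq_iff_iff, decide_eq_true_iff]
        exact hv u w
      obtain ⟨v, s, hs⟩ := nonempty_interior_of_iUnion_of_closed hcl hcov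
      obtain ⟨I, O, hI, hIO⟩ := isOpen_pi_iff.1 isOpen_interior s hs
      let m : ℕ := I.sup id + 1
      let k : (ℕ → Bool) → (ℕ → Bool) := fun c i => if i < m then s i else c (i - m)
      have hcont : Continuous k := by
        refine continuous_pi fun i => ?_
        by_cases hi : i < m
        · simp only [k, hi, if_true]
          exact continuous_const
        · simp only [k, hi, if_false]
          exact continuous_apply _
      have hinj : ∀ c d, k c = k d → c = d := by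
        intro c d hcd
        funext i
        have := congrFun hcd (i + m)
        simp only [k, Nat.not_lt.2 (Nat.le_add_left m i), if_false, Nat.add_sub_cancel] at this
        exact this
      have hmem : ∀ c, ∀ u w, Bd f (g (h (k c))) u w ↔ D (Rc n f (g (h (k c)))) v u w := by
        intro c u w
        have h4 : k c ∈ interior {c | ∀ u w, (decide (Bd f (g (h c)) u w)) =
            (Rc n f (g (h c))).2 0 ![v, u, w]} := by
          apply hIO
          intro i hi
          have hin : i < m := Nat.lt_succ_of_le (Finset.le_sup (f := id) hi)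
          have : k c i = s i := by simp only [k, hin, if_true]
          rw [this]
          exact (hI i hi).2
        have h5 := interior_subset h4 u w
        rw [Bool.eq_iff_iff, decide_eq_true_iff] at h5
        exact h5
      refine few_base hGC.meas hGC.few (finite_singleton v) (fun c => Rc n f (g (h (k c))))
        (hc1.comp hcont) (fun c => (hg2 _).2.1) ?_
      intro c d hcd
      apply hinj
      apply hi
      obtain ⟨e, he, hev⟩ := exists_is hcd
      have hv : v = e v := hev (v, v) ⟨rfl, mem_singleton v⟩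
      refine back _ _ e he fun u w => ?_
      rw [hmem c, hmem d, he.D_iff, ← hv]

end Pool.Agent.N643.TD
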