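import Pool.Agent.N643.TD.Spec

set_option autoImplicit false

/-! Levels and children of centred structures. -/

namespace Pool.Agent.N643.TD

open Set
open Pool.Agent.H899R2.VP

/-- Same level. -/
def Lv (B : ℕ → ℕ → Prop) (x y : ℕ) : Prop := ¬ B x y ∧ ¬ B y x

/-- Same child. -/
def Sm (N : T) (B : ℕ → ℕ → Prop) (x y : ℕ) : Prop := x = y ∨ ∃ b, B b x ∧ D N x y b

section ctr

variable {n : ℕ} {S : Set (T × Set ℕ)} {N : T} {B : ℕ → ℕ → Prop} {x y z b b' u w : ℕ}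

theorem Ctr.irr (hC : Ctr n S N B) : ¬ B x x := fun h => (hC.cone x x h).1 rfl

theorem Ctr.tr (hC : Ctr n S N B) (hxy : B x y) (hyz : B y z) : B x z := by
  have hN := hC.cs.cr
  obtain ⟨p, hpy, hpz⟩ := hC.cmp y z ⟨x, hxy⟩ ⟨y, hyz⟩
  have hD1 : D N p y z := ((hC.cone p z hpz).2 y).1 hyz
  have hD2 : D N p x y := ((hC.cone p y hpy).2 x).1 hxy
  refine ((hC.cone p z hpz).2 x).2 ?_
  rcases hN.c3 _ _ _ hD1 x with h | h
  · exact absurd h (hN.c2 _ _ _ hD2)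
  · exact hN.trans hD1 (hN.symm _ _ _ h)

theorem Ctr.wk (hC : Ctr n S N B) (y : ℕ) (hxz : B x z) : B x y ∨ B y z := by
  have hN := hC.cs.cr
  by_cases hyz0 : y = z
  · subst hyz0
    exact Or.inl hxz
  by_cases hyz : B y z
  · exact Or.inr hyz
  by_cases hb : ∃ b, B b y
  · obtain ⟨p, hpy, hpz⟩ := hC.cmp y z hb ⟨x, hxz⟩
    have hD : D N p x z := ((hC.cone p z hpz).2 x).1 hxz
    have hn : y ∉ Cn N p z := fun h => hyz (((hC.cone p z hpz).2 y).2 h)
    exact Or.inl (((hC.cone p y hpy).2 x).2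
      (hN.cin (hN.self_mem (hC.cone p z hpz).1) hD hn))
  · exact absurd (hC.cen y hb z (Ne.symm hyz0)) hyz

theorem Ctr.asy (hC : Ctr n S N B) (h : B x y) : ¬ B y x := fun h' => hC.irr (hC.tr h h')

theorem Lv.symm' (h : Lv B x y) : Lv B y x := ⟨h.2, h.1⟩

theorem Ctr.lv_refl (hC : Ctr n S N B) (x : ℕ) : Lv B x x := ⟨hC.irr, hC.irr⟩

theorem Ctr.lvB (hC : Ctr n S N B) (hl : Lv B x y) : B b x ↔ B b y := by
  constructor
  · intro h1
    rcases hC.wk y h1 with h2 | h2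
    · exact h2
    · exact absurd h2 hl.2
  · intro h1
    rcases hC.wk x h1 with h2 | h2
    · exact h2
    · exact absurd h2 hl.1

theorem Ctr.lvB' (hC : Ctr n S N B) (hl : Lv B x y) : B x b ↔ B y b := by
  constructor
  · intro h1
    rcases hC.wk y h1 with h2 | h2
    · exact absurd h2 hl.1
    · exact h2
  · intro h1
    rcases hC.wk x h1 with h2 | h2
    · exact absurd h2 hl.2
    · exact h2

theorem Ctr.lv_trans (hC : Ctr n S N B) (h : Lv B x y) (h' : Lv B y z) : Lv B x z :=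
  ⟨fun h1 => h'.1 ((hC.lvB' h).1 h1), fun h1 => h.1 (by
    have h2 := (hC.lvB' h').2 h1
    exact absurd h2 (h.symm').1)⟩

theorem Ctr.coneD (hC : Ctr n S N B) (h1 : B x y) (h2 : B b y) : D N x b y :=
  ((hC.cone x y h1).2 b).1 h2

theorem Ctr.ceq (hC : Ctr n S N B) (h1 : B b x) (h2 : B b' x) : Cn N x b = Cn N x b' :=
  hC.cs.cr.ceq (hC.coneD h1 h2)

theorem Ctr.child_lv (hC : Ctr n S N B) (h1 : B b x) (h2 : D N x y b) : Lv B x y := by
  have hcs := hC.cs.cr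
  constructor
  · intro h3
    have h4 : B b y := hC.tr h1 h3
    exact hcs.c2 _ _ _ h2 (hC.coneD h3 h4)
  · intro h3
    have h4 : D N b y x := hC.coneD h1 h3
    exact hcs.c2 _ _ _ (hcs.symm _ _ _ h2) (hcs.symm _ _ _ h4)

theorem Ctr.sm_lv (hC : Ctr n S N B) (h : Sm N B x y) : Lv B x y := by
  rcases h with rfl | ⟨b, h1, h2⟩
  · exact hC.lv_refl _
  · exact hC.child_lv h1 h2

theorem Ctr.sm_iff (hC : Ctr n S N B) (h : B b x) : Sm N B x y ↔ D N x y b := by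
  constructor
  · rintro (rfl | ⟨b', h1, h2⟩)
    · exact hC.cs.cr.refl x b (fun e => hC.irr (e ▸ h))
    · have h3 := hC.ceq h1 h
      have : y ∈ Cn N x b' := h2
      rw [h3] at this
      exact this
  · intro h1
    exact Or.inr ⟨b, h, h1⟩

theorem Sm.rfl' : Sm N B x x := Or.inl rfl

theorem Ctr.sm_symm (hC : Ctr n S N B) (h : Sm N B x y) : Sm N B y x := by
  rcases h with rfl | ⟨b, h1, h2⟩
  · exact Sm.rfl'
  · exact Or.inr ⟨b, (hC.lvB (hC.child_lv h1 h2)).1 h1, hC.cs.cr.symm _ _ _ h2⟩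

theorem Ctr.sm_trans (hC : Ctr n S N B) (h : Sm N B x y) (h' : Sm N B y z) : Sm N B x z := by
  rcases h with rfl | ⟨b, h1, h2⟩
  · exact h'
  · have h3 : B b y := (hC.lvB (hC.child_lv h1 h2)).1 h1
    exact Or.inr ⟨b, h1, hC.cs.cr.trans h2 ((hC.sm_iff h3).1 h')⟩

/-- A point outside a child. -/
theorem Ctr.out (hC : Ctr n S N B) (h : Sm N B x y) (h' : ¬ Sm N B x z) : D N x y z := by
  rcases h with rfl | ⟨b, h1, h2⟩
  · exact hC.cs.cr.refl _ _ (fun e => h' (Or.inl e))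
  · refine hC.cs.cr.cin (x := x) (z := b) (hC.cs.cr.self_mem (fun e => hC.irr (e ▸ h1))) h2 ?_
    exact fun h3 => h' (Or.inr ⟨b, h1, h3⟩)

/-- The description of `D`. -/
theorem Ctr.D_iff (hC : Ctr n S N B) (x y z : ℕ) : D N x y z ↔
    (B x z ∧ B y z) ∨ (Sm N B x y ∧ (¬ Sm N B x z ∨ D N x y z)) := by
  have hcs := hC.cs.cr
  constructor
  · intro hD
    by_cases h : B x z ∧ B y z
    · exact Or.inl h
    refine Or.inr ⟨?_, Or.inr hD⟩
    have hx : ¬ B x z := fun h1 => h ⟨h1, ((hC.cone x z h1).2 y).2 hD⟩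
    have hy : ¬ B y z := fun h1 => h ⟨((hC.cone y z h1).2 x).2 (hcs.symm _ _ _ hD), h1⟩
    have hne : z ≠ x := (hcs.ne hD).symm
    have hb : ∃ b, B b x := by
      by_contra hno
      exact hx (hC.cen x hno z hne)
    obtain ⟨b, hb⟩ := hb
    refine Or.inr ⟨b, hb, ?_⟩
    rcases hcs.c3 _ _ _ hD b with h1 | h1
    · exact h1
    exfalso
    by_cases hzx : B z x
    · have h2 : D N b z x := hC.coneD hb hzx
      have h3 : D N b x z := hcs.trans h1 (hcs.symm _ _ _ hD)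
      exact hcs.c2 _ _ _ h2 h3
    · have hbz : B b z := (hC.lvB (x := x) (y := z) ⟨hx, hzx⟩).1 hb
      exact hy (((hC.cone b z hbz).2 y).2 h1)
  · rintro (⟨h1, h2⟩ | ⟨h1, h2 | h2⟩)
    · exact hC.coneD h1 h2
    · exact hC.out h1 h2
    · exact h2

end ctr


end Pool.Agent.N643.TD
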