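import Pool.Agent.N643.TD.CTA
import Pool.Agent.N643.MN.Row

set_option autoImplicit false

/-!
# Centred structures: encoding into linear orders

The levels of a centred structure are weakly ordered, and a level has at most `n` rows. A point of
the linear order `x` stands for a level together with a list `s : Fin (n + 1) → ℕ` of points of the
level which meets all rows. Each level is replaced by a dense order in which all these lists occur
densely.
-/

namespace Pool.Agent.N643.TD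

open Set
open Pool.Agent.H899R2.VP (St PIso BF IsoOn)
open Pool.Agent.N643.MN (XS XI SL LocFin)

/-- All relations are binary. -/
abbrev a2 : ℕ → ℕ := fun _ => 2

/-- A linear order with binary relations. -/
abbrev Q2 : Type := XS a2

/-- The level of `x`. -/
def Ch (B : ℕ → ℕ → Prop) (x : ℕ) : Set ℕ := {y | Lv B x y}

/-- The node generated by `x` and `b` without the child of `b`. -/
def Se (N : T) (x b : ℕ) : Set ℕ := {w | ¬ D N x b w ∧ ¬ D N b w x}

/-- Same level, and same row outside of the level. -/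
def Cl (N : T) (B : ℕ → ℕ → Prop) (x y : ℕ) : Prop :=
  Lv B x y ∧ er N univ (Ch B x) x y

/-- The level of `x` has a single child. -/
def Sg (N : T) (B : ℕ → ℕ → Prop) (x : ℕ) : Prop := ∀ u v, Lv B x u → Lv B x v → Sm N B u v

/-- The list `s` consists of points of one level and meets all rows of the level. -/
def Cov (n : ℕ) (N : T) (B : ℕ → ℕ → Prop) (s : Fin (n + 1) → ℕ) : Prop :=
  (∀ a b, Lv B (s a) (s b)) ∧ ∀ u, Lv B (s 0) u → ∃ a, Cl N B (s a) u

/-- The lists `s` and `s'` are equivalent. -/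
def Eqs {n : ℕ} (N : T) (B : ℕ → ℕ → Prop) (s s' : Fin (n + 1) → ℕ) : Prop :=
  ∀ a, Cl N B (s a) (s' a)

/-- The level of `s`, with the labels given by `s`. -/
noncomputable def lp {n : ℕ} (N : T) (B : ℕ → ℕ → Prop) (s : Fin (n + 1) → ℕ) : T :=
  od (pc N univ (Ch B (s 0))) (List.ofFn s)

/-- The number of the type of `(M, X)` in the list `f`. -/
noncomputable def tp (f : ℕ → T × Set ℕ) (M : T) (X : Set ℕ) : ℕ :=
  sInf {t | IsoOn (f t).1 M (f t).2 X ∅}

/-- The relation number `r = (k, c)` of the linear order. -/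
def val {n : ℕ} (f : ℕ → T × Set ℕ) (N : T) (B : ℕ → ℕ → Prop) (π : ℕ → Fin (n + 1) → ℕ)
    (r q q' : ℕ) : Prop :=
  match r.unpair.1 with
  | 0 => Lv B (π q 0) (π q' 0)
  | 1 => q = q' ∧ Sg N B (π q 0)
  | 2 => ∃ a b : Fin (n + 1), r.unpair.2 = Nat.pair a b ∧ Cl N B (π q a) (π q' b)
  | 3 => ∃ (i : ℕ) (a b : Fin (n + 1)), r.unpair.2 = Nat.pair i (Nat.pair a b) ∧
      ¬ Lv B (π q 0) (π q' 0) ∧ R N i (π q a) (π q' b) = true
  | 4 => q = q' ∧ tp f (lp N B (π q)) (Ch B (π q 0)) = r.unpair.2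
  | 5 => q = q' ∧ ∃ (j : ℕ) (a : Fin (n + 1)), r.unpair.2 = Nat.pair j a ∧ lb N j (π q a) = true
  | _ => False

/-- The linear order `x` encodes the centred structure `N`; the point `q` stands for the list
`π q`. -/
structure Enc (n : ℕ) (f : ℕ → T × Set ℕ) (N : T) (B : ℕ → ℕ → Prop) (x : Q2)
    (π : ℕ → Fin (n + 1) → ℕ) : Prop where
  sl : SL x.1
  cov : ∀ q, Cov n N B (π q)
  ord : ∀ q q', B (π q 0) (π q' 0) → x.1 q q' = true
  ex : ∀ s, Cov n N B s → ∃ q, Eqs N B (π q) s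
  dn : ∀ q q' s, x.1 q q' = true → Lv B (π q 0) (π q' 0) → Cov n N B s → Lv B (π q 0) (s 0) →
    ∃ r, x.1 q r = true ∧ x.1 r q' = true ∧ Eqs N B (π r) s
  up : ∀ q s, Cov n N B s → Lv B (π q 0) (s 0) → ∃ r, x.1 q r = true ∧ Eqs N B (π r) s
  dw : ∀ q s, Cov n N B s → Lv B (π q 0) (s 0) → ∃ r, x.1 r q = true ∧ Eqs N B (π r) s
  rel : ∀ r q q', x.2 r ![q, q'] = true ↔ val f N B π r q q'

/-- `f` enumerates the types of the levels with labels. -/
def Ty (n : ℕ) (f : ℕ → T × Set ℕ) (N : T) (B : ℕ → ℕ → Prop) : Prop :=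
  ∀ s, Cov n N B s → ∃ t, IsoOn (f t).1 (lp N B s) (f t).2 (Ch B (s 0)) ∅

/-! ### Decoding -/

/-- Relation `(k, c)` of `x`. -/
def rl (x : Q2) (k c q q' : ℕ) : Bool := x.2 (Nat.pair k c) ![q, q']

/-- The least point that stands for the same level. -/
noncomputable def mn (x : Q2) (q : ℕ) : ℕ := sInf {q' | rl x 0 0 q q' = true}

/-- The type of the level with labels. -/
noncomputable def ty (x : Q2) (q : ℕ) : ℕ := sInf {t | rl x 4 t q q = true}

/-- Codes `(c, e)` of the points: `e` is a point of the piece `f (ty x c)`. -/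
def Wn (f : ℕ → T × Set ℕ) (x : Q2) : Set ℕ :=
  {p | mn x p.unpair.1 = p.unpair.1 ∧ p.unpair.2 ∈ (f (ty x p.unpair.1)).2}

/-- The enumeration of the codes. -/
noncomputable def nu (f : ℕ → T × Set ℕ) (x : Q2) (u : ℕ) : ℕ := Nat.nth (· ∈ Wn f x) u

/-- The level of the point `u`. -/
noncomputable def cu (f : ℕ → T × Set ℕ) (x : Q2) (u : ℕ) : ℕ := (nu f x u).unpair.1

/-- The point of the piece. -/
noncomputable def eu (f : ℕ → T × Set ℕ) (x : Q2) (u : ℕ) : ℕ := (nu f x u).unpair.2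

/-- The label of the point `u`. -/
noncomputable def lu (n : ℕ) (f : ℕ → T × Set ℕ) (x : Q2) (u : ℕ) : ℕ :=
  lbl (n + 1) (f (ty x (cu f x u))).1 (eu f x u)

/-- The decoded order. -/
def Bd (f : ℕ → T × Set ℕ) (x : Q2) (u v : ℕ) : Prop :=
  x.1 (cu f x u) (cu f x v) = true ∧ rl x 0 0 (cu f x u) (cu f x v) = false

/-- The decoded relation of being in the same child, for points of one level. -/
def Sd (f : ℕ → T × Set ℕ) (x : Q2) (u v : ℕ) : Prop :=
  rl x 1 0 (cu f x u) (cu f x u) = true ∨ u = v ∨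
    ∃ w ∈ (f (ty x (cu f x u))).2, D (f (ty x (cu f x u))).1 (eu f x u) (eu f x v) w

open Classical in
/-- The decoded structure. -/
noncomputable def Rc (n : ℕ) (f : ℕ → T × Set ℕ) (x : Q2) : T :=
  (fun _ _ => true, fun i => match i with
    | 0 => fun s => decide ((Bd f x (s 0) (s 2) ∧ Bd f x (s 1) (s 2)) ∨
        (cu f x (s 0) = cu f x (s 1) ∧ ((cu f x (s 0) = cu f x (s 2) ∧
          D (f (ty x (cu f x (s 0)))).1 (eu f x (s 0)) (eu f x (s 1)) (eu f x (s 2))) ∨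
            (Bd f x (s 2) (s 0) ∧ Sd f x (s 0) (s 1)))))
    | i + 1 => fun s => if i % 2 = 0 then
        decide (s (0 : Fin 2) = s (1 : Fin 2)) &&
          rl x 5 (Nat.pair (i / 2) (lu n f x (s (0 : Fin 2)))) (cu f x (s (0 : Fin 2)))
            (cu f x (s (0 : Fin 2)))
      else if cu f x (s (0 : Fin 2)) = cu f x (s (1 : Fin 2)) then
        R (f (ty x (cu f x (s (0 : Fin 2))))).1 (i / 2) (eu f x (s (0 : Fin 2)))
          (eu f x (s (1 : Fin 2)))
      else rl x 3 (Nat.pair (i / 2) (Nat.pair (lu n f x (s (0 : Fin 2))) (lu n f x (s (1 : Fin 2)))))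
        (cu f x (s (0 : Fin 2))) (cu f x (s (1 : Fin 2))))

/-- The decoded lists. -/
noncomputable def pd (n : ℕ) (f : ℕ → T × Set ℕ) (x : Q2) (q : ℕ) (a : Fin (n + 1)) : ℕ :=
  sInf {u | cu f x u = mn x q ∧ rl x 2 (Nat.pair (lu n f x u) a) (mn x q) q = true}

/-! ### Statements -/

/-- Existence of encodings. -/
def S_EXE : Prop := ∀ (n : ℕ) (S : Set (T × Set ℕ)) (N : T) (B : ℕ → ℕ → Prop)
  (f : ℕ → T × Set ℕ), Ctr n S N B → ∃ (x : Q2) (π : ℕ → Fin (n + 1) → ℕ), Enc n f N B x π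

/-- Uniqueness of encodings. -/
def S_UNQ : Prop := ∀ (n : ℕ) (S : Set (T × Set ℕ)) (N : T) (B : ℕ → ℕ → Prop)
  (f : ℕ → T × Set ℕ) (x x' : Q2) (π π' : ℕ → Fin (n + 1) → ℕ), Ctr n S N B →
  Enc n f N B x π → Enc n f N B x' π' → ∃ σ, XI σ x x'

/-- Encodings have finitely many rows at each cut. -/
def S_LOC : Prop := ∀ (n : ℕ) (S : Set (T × Set ℕ)) (N : T) (B : ℕ → ℕ → Prop)
  (f : ℕ → T × Set ℕ) (x : Q2) (π : ℕ → Fin (n + 1) → ℕ), Ctr n S N B →
  Enc n f N B x π → LocFin 1 x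

/-- Transport along isomorphisms of the structure. -/
def S_TRN : Prop := ∀ (n : ℕ) (f : ℕ → T × Set ℕ) (N N' : T) (B B' : ℕ → ℕ → Prop) (x : Q2)
  (π : ℕ → Fin (n + 1) → ℕ) (σ : Equiv.Perm ℕ), Is N N' σ → (∀ u v, B' (σ u) (σ v) ↔ B u v) →
  Enc n f N B x π → Enc n f N' B' x (fun q a => σ (π q a))

/-- Transport along isomorphisms of the linear order. -/
def S_TRX2 : Prop := ∀ (n : ℕ) (f : ℕ → T × Set ℕ) (N : T) (B : ℕ → ℕ → Prop) (x x' : Q2)
  (π : ℕ → Fin (n + 1) → ℕ) (τ : Equiv.Perm ℕ), XI τ x x' →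
  Enc n f N B x π → Enc n f N B x' (fun q => π (τ.symm q))

/-- Change of representatives. -/
def S_CHG : Prop := ∀ (n : ℕ) (S : Set (T × Set ℕ)) (N : T) (B : ℕ → ℕ → Prop)
  (f : ℕ → T × Set ℕ) (x : Q2) (π π' : ℕ → Fin (n + 1) → ℕ), Ctr n S N B →
  Enc n f N B x π → (∀ q, Eqs N B (π q) (π' q)) → Enc n f N B x π'

/-- The decoded structure is isomorphic. -/
def S_KEY : Prop := ∀ (n : ℕ) (S : Set (T × Set ℕ)) (N : T) (B : ℕ → ℕ → Prop)
  (f : ℕ → T × Set ℕ) (x : Q2) (π : ℕ → Fin (n + 1) → ℕ), Ctr n S N B → Ty n f N B →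
  Enc n f N B x π → ∃ σ : Equiv.Perm ℕ, Is N (Rc n f x) σ ∧
    (∀ u v, Bd f x (σ u) (σ v) ↔ B u v) ∧ ∀ q a, Cl N B (σ.symm (pd n f x q a)) (π q a)

/-- Measurability of the decoding. -/
def S_MRC : Prop := ∀ (n : ℕ) (f : ℕ → T × Set ℕ), Measurable (Rc n f) ∧
  (∀ u v, MeasurableSet {x | Bd f x u v}) ∧ ∀ q a u, MeasurableSet {x | pd n f x q a = u}

/-- Measurability of the encoding relation: `N`, `B` and `π` may depend on `x` in a measurable way.
There is a countable level for `f`. -/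
def S_MEN : Prop := ∀ (n : ℕ) (f : ℕ → T × Set ℕ) (N : Q2 → T) (B : Q2 → ℕ → ℕ → Prop)
  (π : Q2 → ℕ → Fin (n + 1) → ℕ), Measurable N → (∀ u v, MeasurableSet {x | B x u v}) →
  (∀ q a u, MeasurableSet {x | π x q a = u}) → MeasurableSet {x | Enc n f (N x) (B x) x (π x)}

/-- Measurability of the property of being centred. -/
def S_MCT : Prop := ∀ (n : ℕ) (S : Set (T × Set ℕ)) (N : Q2 → T) (B : Q2 → ℕ → ℕ → Prop) (b : Bool),
  CF S → Measurable N → (∀ u v, MeasurableSet {x | B x u v}) →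
  MeasurableSet {x | Ctr n S (N x) (B x) ∧ ∃ v, ∀ u w, B x u w ↔ Be S b (N x) v u w}

/-- Countably many types of levels with labels. -/
def S_TYP : Prop := ∀ (n : ℕ) (α : Ordinal.{0}) (K : Set T) (S : Set (T × Set ℕ)), GC n α K → CF S →
  ∃ f : ℕ → T × Set ℕ, ∀ N ∈ K, ∀ B, Ctr n S N B → Ty n f N B

end Pool.Agent.N643.TD
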