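import Pool.Agent.N643.TD.Vcu

set_option autoImplicit false

/-!
# Structures with a definable C-relation
-/

namespace Pool.Agent.N643.TD

open Set MeasureTheory
open Pool.Agent.H533R2.VO (RS RIso VC Dich)
open Pool.Agent.H533R2.VS (US UIso UDich VCu Coan Inv act)
open Pool.Agent.TH425.FF (PCanon PExp)

variable {a : ℕ → ℕ} {n : ℕ}

/-- definable relations, with parameters -/
structure DefR (E : List ℕ → RS a → ℕ → ℕ → ℕ → Prop) : Prop where
  meas : ∀ p x y w, MeasurableSet {z | E p z x y w}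
  equi : ∀ p z (σ : Equiv.Perm ℕ) x y w, E (p.map σ) (act σ z) (σ x) (σ y) (σ w) ↔ E p z x y w

open Classical in
/-- expansion by a definable relation -/
noncomputable def cD (E : List ℕ → RS a → ℕ → ℕ → ℕ → Prop) (p : List ℕ) (z : RS a) : RS (tt a) :=
  fun i => match i with
    | 0 => fun v => decide (E p z (v (0 : Fin 3)) (v (1 : Fin 3)) (v (2 : Fin 3)))
    | j + 1 => z j

/-- forget the first relation -/
def dD (_ : List ℕ) (z : RS (tt a)) : RS a := fun j => z (j + 1)

variable {E : List ℕ → RS a → ℕ → ℕ → ℕ → Prop}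

theorem C3_cD (p : List ℕ) (z : RS a) (x y w : ℕ) : C3 (cD E p z) x y w ↔ E p z x y w := by
  classical
  unfold C3
  exact decide_eq_true_iff

theorem pcanon_D (hE : DefR E) : PCanon (cD E) (dD : List ℕ → RS (tt a) → RS a) := by
  classical
  refine ⟨fun p => ?_, fun p => ?_, fun σ p x => ?_, fun σ p z => rfl⟩
  · refine measurable_pi_lambda _ fun i => ?_
    cases i with
    | zero =>
      refine measurable_pi_lambda _ fun v => measurable_to_bool ?_
      have e : (fun x : RS a => cD E p x 0 v) ⁻¹' {true} =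
          {x | E p x (v (0 : Fin 3)) (v (1 : Fin 3)) (v (2 : Fin 3))} := by
        ext x
        exact decide_eq_true_iff
      rw [e]
      exact hE.meas p _ _ _
    | succ j => exact measurable_pi_apply j
  · exact measurable_pi_lambda _ fun j => measurable_pi_apply (j + 1)
  · funext i v
    cases i with
    | zero =>
      show decide (E (p.map σ) (act σ x) (v (0 : Fin 3)) (v (1 : Fin 3)) (v (2 : Fin 3))) =
        decide (E p x (σ.symm (v (0 : Fin 3))) (σ.symm (v (1 : Fin 3))) (σ.symm (v (2 : Fin 3))))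
      refine decide_eq_decide.2 ?_
      rw [← hE.equi p x σ, σ.apply_symm_apply, σ.apply_symm_apply, σ.apply_symm_apply]
    | succ j => rfl

/-- the class -/
def Wk (E : ℕ → List ℕ → RS a → ℕ → ℕ → ℕ → Prop) (x : RS a) : Prop :=
  ∃ i p n, Tk n (cD (E i) p x)

/-- a larger class -/
def Wc (E : ℕ → List ℕ → RS a → ℕ → ℕ → ℕ → Prop) (x : RS a) : Prop :=
  ∃ m : ℕ, PExp (cD (E m.unpair.1)) (dD : List ℕ → RS (tt a) → RS a) (Tk m.unpair.2) x

theorem vcu_Wc (main : S_MAIN3) {E : ℕ → List ℕ → RS a → ℕ → ℕ → ℕ → Prop}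
    (hE : ∀ i, DefR (E i)) (ha : ∀ j, a j ≤ 2) : VCu (Wc E) :=
  Pool.Agent.TH425.FF.cun_vcu _
    (fun m => Pool.Agent.TH425.FF.pexp_vcu (pcanon_D (hE m.unpair.1)) (vcu_Tk main ha) coan_Tk
      inv_Tk)
    (fun m => Pool.Agent.TH425.FF.pexp_coan (pcanon_D (hE m.unpair.1)) coan_Tk)
    (fun m => Pool.Agent.TH425.FF.pexp_inv (pcanon_D (hE m.unpair.1)) inv_Tk)

/-- **The dichotomy.** -/
theorem vc_Wk (main : S_MAIN3) {E : ℕ → List ℕ → RS a → ℕ → ℕ → ℕ → Prop}
    (hE : ∀ i, DefR (E i)) (ha : ∀ j, a j ≤ 2) : VC (Wk E) := by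
  intro B hB hi hV
  refine Pool.Agent.H533R2.VS.vs_plain _ _ (vcu_Wc main hE ha) B hB hi fun x hx => ?_
  obtain ⟨i, p, n, h⟩ := hV x hx
  refine ⟨Nat.pair i n, p, ?_, rfl⟩
  rw [Nat.unpair_pair]
  exact h

end Pool.Agent.N643.TD
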