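import Pool.Agent.H533R2.VO.Spec

set_option autoImplicit false

/-!
# Vaught's conjecture for structures of bounded cut-rank along a C-relation: definitions

Structures `M : T` on `ℕ` have a ternary relation `D x y z` (`x`, `y` are together away from `z`), a
C-relation, labels `lb M j`, and binary relations `R M i` such that there are at most `n` rows at each
union of children of a node.

Ambient structures have `M.1 = true` and labels. The piece `pc M X Y` is the structure without labels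
where `M.1` is the relation `er M X Y` of having the same row over `X \ Y`; the structure `od M us` has
as labels the numbers of the classes of `M.1` in the list `us` of representatives.
-/

namespace Pool.Agent.N643.TD

open Set
open Pool.Agent.H899R2.VP (St Adj PIso BF IsoOn idOn inv comp zipSet)
open Pool.Agent.H533R2.VO (Lev)

/-- Arities: one ternary relation, then binary relations. -/
abbrev aT : ℕ → ℕ
  | 0 => 3
  | _ + 1 => 2

/-- The structures. -/
abbrev T : Type := St aT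

/-- The ternary relation. -/
def D (M : T) (x y z : ℕ) : Prop := M.2 0 ![x, y, z] = true

/-- The labels. -/
def lb (M : T) (j u : ℕ) : Bool := M.2 (2 * j + 1) ![u, u]

/-- The binary relations. -/
def R (M : T) (i u v : ℕ) : Bool := M.2 (2 * i + 1 + 1) ![u, v]

/-- The cone at `x` away from `z`. -/
def Cn (M : T) (x z : ℕ) : Set ℕ := {y | D M x y z}

/-- The node generated by `x` and `y`. -/
def Nd (M : T) (x y : ℕ) : Set ℕ := {z | ¬ D M x y z}

/-- Same row over `X \ Y`. -/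
def er (M : T) (X Y : Set ℕ) (u v : ℕ) : Prop :=
  M.1 u v = true ∧ (∀ j, lb M j u = lb M j v) ∧
    ∀ w ∈ X, w ∉ Y → ∀ i, R M i u w = R M i v w ∧ R M i w u = R M i w v

/-- The relations without the labels. -/
def er0 (M : T) : (i : ℕ) → (Fin (aT i) → ℕ) → Bool
  | 0 => M.2 0
  | i + 1 => fun t => if i % 2 = 0 then false else M.2 (i + 1) t

/-- The relations with the labels `c`. -/
def wl (M : T) (c : ℕ → ℕ) : (i : ℕ) → (Fin (aT i) → ℕ) → Bool
  | 0 => M.2 0
  | i + 1 => fun t => if i % 2 = 0 then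
      decide (t (0 : Fin 2) = t (1 : Fin 2) ∧ c (t (0 : Fin 2)) = i / 2) else M.2 (i + 1) t

open Classical in
/-- The piece `Y` of the piece `X` of `M`. -/
noncomputable def pc (M : T) (X Y : Set ℕ) : T := (fun u v => decide (er M X Y u v), er0 M)

/-- The number of the class of `v`. -/
def ix (M : T) (us : List ℕ) (v : ℕ) : ℕ := us.findIdx (fun u => M.1 u v)

/-- The structure with labels. -/
def od (M : T) (us : List ℕ) : T := (fun _ _ => true, wl M (ix M us))

/-- `us` is a list of representatives of the classes of `M.1` in `X`. -/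
structure Rp (M : T) (X : Set ℕ) (us : List ℕ) : Prop where
  sub : ∀ u ∈ us, u ∈ X
  cov : ∀ v ∈ X, ∃ u ∈ us, M.1 u v = true
  sep : us.Pairwise fun u v => M.1 u v = false

/-- The standing assumptions, relative to `X`. -/
structure CsOn (n : ℕ) (M : T) (X : Set ℕ) : Prop where
  one : ∀ x ∈ X, ∀ y ∈ X, M.1 x y = true
  flat : ∀ j, ∀ x ∈ X, ∀ y ∈ X, x ≠ y → M.2 (2 * j + 1) ![x, y] = false
  lab : ∀ x ∈ X, ∃ j < n, lb M j x = true ∧ ∀ j', lb M j' x = true → j' = j
  refl : ∀ x ∈ X, ∀ z ∈ X, x ≠ z → D M x x z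
  irr : ∀ x ∈ X, ∀ y ∈ X, ¬ D M x y x
  symm : ∀ x ∈ X, ∀ y ∈ X, ∀ z ∈ X, D M x y z → D M y x z
  c2 : ∀ x ∈ X, ∀ y ∈ X, ∀ z ∈ X, D M x y z → ¬ D M x z y
  c3 : ∀ x ∈ X, ∀ y ∈ X, ∀ z ∈ X, D M x y z → ∀ w ∈ X, D M x y w ∨ D M w y z
  sec : ∀ x ∈ X, ∀ y ∈ X, x ≠ y → ∀ e : Fin (n + 1) → ℕ, (∀ i, e i ∈ X ∧ ¬ D M x y (e i)) →
    ∃ i j, i ≠ j ∧ er M X {w | ∃ k, D M (e k) w x ∨ D M (e k) w y} (e i) (e j)
  row : ∀ x ∈ X, ∀ z ∈ X, x ≠ z → ∀ e : Fin (n + 1) → ℕ, (∀ i, e i ∈ X ∧ D M x (e i) z) →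
    ∃ i j, i ≠ j ∧ er M X (Cn M x z) (e i) (e j)

/-- The axioms of C-relations. -/
structure Cr (M : T) : Prop where
  refl : ∀ x z, x ≠ z → D M x x z
  irr : ∀ x y, ¬ D M x y x
  symm : ∀ x y z, D M x y z → D M y x z
  c2 : ∀ x y z, D M x y z → ¬ D M x z y
  c3 : ∀ x y z, D M x y z → ∀ w, D M x y w ∨ D M w y z

/-- Families of (isomorphism types of) pieces, closed under subcones. -/
structure CF (S : Set (T × Set ℕ)) : Prop where
  iso : ∀ M X N Y, (M, X) ∈ S → IsoOn M N X Y ∅ → (N, Y) ∈ S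
  cnt : ∃ f : ℕ → T × Set ℕ, ∀ M X, (M, X) ∈ S → ∃ n, IsoOn (f n).1 M (f n).2 X ∅
  sub : ∀ M X, (M, X) ∈ S → ∀ x ∈ X, ∀ z ∈ X,
    (pc M X (X ∩ Cn M x z), X ∩ Cn M x z) ∈ S

/-- The piece `Y` of the structure `M`. -/
noncomputable def Pc (M : T) (Y : Set ℕ) : T × Set ℕ := (pc M univ Y, Y)

/-- `us` shows that the piece `(M, X)` is big: uncountably many variations of rank `α`. -/
def Big (α : Ordinal.{0}) (M : T) (X : Set ℕ) (us : List ℕ) : Prop :=
  Rp M X us ∧ ¬ ∃ f : ℕ → T × Set ℕ, ∀ (N : T) (Y : Set ℕ), BF (od M us) N X Y α ∅ →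
    ∃ n, IsoOn (f n).1 (pc N Y Y) (f n).2 Y ∅

/-- The standing hypotheses on the class `K`. -/
structure GC (n : ℕ) (α : Ordinal.{0}) (K : Set T) : Prop where
  meas : MeasurableSet K
  lt : α < Ordinal.omega 1
  om : Ordinal.omega0 ≤ α
  closed : ∀ M ∈ K, ∀ N : T, BF M N univ univ α ∅ → N ∈ K
  cs : ∀ M ∈ K, CsOn n M univ
  few : ¬ ∃ g : (ℕ → Bool) → T, Continuous g ∧ (∀ c, g c ∈ K) ∧
    ∀ c d, IsoOn (g c) (g d) univ univ ∅ → c = d

/-- `e` is an isomorphism. -/
def Is (M N : T) (e : Equiv.Perm ℕ) : Prop := PIso M N {w | w.2 = e w.1}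

/-- Cones given by codes. -/
def Cc (M : T) (p : ℕ) : Set ℕ := Cn M p.unpair.1 p.unpair.2

/-- The code is proper. -/
def Pr (p : ℕ) : Prop := p.unpair.1 ≠ p.unpair.2

/-- The cone with code `p` is not in the family. -/
def Bc (S : Set (T × Set ℕ)) (M : T) (p : ℕ) : Prop := Pr p ∧ Pc M (Cc M p) ∉ S

/-- `q` and `r` are disjoint subcones of `p`. -/
def Sc (M : T) (p q r : ℕ) : Prop :=
  Pr q ∧ Pr r ∧ Cc M q ⊆ Cc M p ∧ Cc M r ⊆ Cc M p ∧ Disjoint (Cc M q) (Cc M r)

/-! ### Gluing -/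

/-- The label of `u`, if it is less than `n`. -/
def lbl (n : ℕ) (M : T) (u : ℕ) : ℕ := (List.range n).findIdx (fun j => lb M j u)

open Classical in
/-- The representative of `u` in the old structure. -/
noncomputable def rho (n : ℕ) {ι : Type} (J : ι → Set ℕ) (us : ι → List ℕ) (t : ι → T) (u : ℕ) : ℕ :=
  if h : ∃ j, u ∈ J j then (us h.choose).getD (lbl n (t h.choose) u) u else u

open Classical in
/-- The structure `M` with the cones `J j` replaced by `t j`; the class number `l` of `t j` is glued in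
like the `l`-th member of `us j`. -/
noncomputable def Gl (n : ℕ) {ι : Type} (M : T) (J : ι → Set ℕ) (us : ι → List ℕ) (t : ι → T) : T :=
  (fun _ _ => true, fun i => match i with
    | 0 => fun s => if h : ∃ j, ∀ k, s k ∈ J j then (t h.choose).2 0 s else M.2 0 s
    | i + 1 => fun s => if i % 2 = 0 then
        decide (s (0 : Fin 2) = s (1 : Fin 2)) && lb M (i / 2) (rho n J us t (s (0 : Fin 2)))
      else if h : ∃ j, ∀ k, s k ∈ J j then (t h.choose).2 (i + 1) s
      else M.2 (i + 1) (fun k => rho n J us t (s k)))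

/-! ### Combs -/

/-- A comb: disjoint big cones `X k = Cn M (x k) (z k)` and the descending nodes
`J k = Nd M (x k) (x (k + 1))`. -/
structure Cb (n : ℕ) (α : Ordinal.{0}) (M : T) (x z : ℕ → ℕ) (us : ℕ → List ℕ) : Prop where
  cs : CsOn n M univ
  ne : ∀ k, x k ≠ z k
  dj : ∀ k j, k ≠ j → Disjoint (Cn M (x k) (z k)) (Cn M (x j) (z j))
  XJ : ∀ k, Cn M (x k) (z k) ⊆ Nd M (x k) (x (k + 1))
  JJ : ∀ k, Nd M (x (k + 1)) (x (k + 2)) ⊆ Nd M (x k) (x (k + 1))
  XJd : ∀ k, Disjoint (Cn M (x k) (z k)) (Nd M (x (k + 1)) (x (k + 2)))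
  Jc : ∀ k, ∀ v ∈ Nd M (x (k + 1)) (x (k + 2)), D M v (x (k + 1)) (x k)
  big : ∀ k, Big α (pc M univ (Cn M (x k) (z k))) (Cn M (x k) (z k)) (us k)

/-- The structure with the cones of the comb filled according to the bits of `σ`. -/
noncomputable def DS (n : ℕ) (M : T) (x z : ℕ → ℕ) (us : ℕ → List ℕ) (t : ℕ → T) (σ : ℕ → Bool) : T :=
  Gl n M (fun k => Cn M (x k) (z k)) us (fun k => t (2 * k + (σ k).toNat))

/-- Truncation. -/
noncomputable def trunc (M : T) (x z : ℕ → ℕ) (us : ℕ → List ℕ) (t : ℕ → T) (s : ℕ) : ℕ → T :=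
  fun r => if r < s then t r else
    od (pc M univ (Cn M (x (r / 2)) (z (r / 2)))) (us (r / 2))

/-- The countable set of pieces to be avoided at stage `s`. -/
def FF (n : ℕ) (M : T) (x z : ℕ → ℕ) (us : ℕ → List ℕ) (t : ℕ → T) (s : ℕ) : Set (T × Set ℕ) :=
  {P | ∃ r ≤ s, ∃ c u v : ℕ, u ≠ v ∧
    P = Pc (DS n M x z us (trunc M x z us t r) (fun j => c.testBit j))
      (Cn (DS n M x z us (trunc M x z us t r) (fun j => c.testBit j)) u v)}

/-- Good fillings. -/
def GoodT (n : ℕ) (α : Ordinal.{0}) (M : T) (x z : ℕ → ℕ) (us : ℕ → List ℕ) (t : ℕ → T) : Prop :=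
  ∀ s, BF (od (pc M univ (Cn M (x (s / 2)) (z (s / 2)))) (us (s / 2))) (t s)
      (Cn M (x (s / 2)) (z (s / 2))) (Cn M (x (s / 2)) (z (s / 2))) α ∅ ∧
    ∀ P ∈ FF n M x z us t s, ¬ IsoOn P.1
      (pc (t s) (Cn M (x (s / 2)) (z (s / 2))) (Cn M (x (s / 2)) (z (s / 2)))) P.2
      (Cn M (x (s / 2)) (z (s / 2))) ∅

/-- The standing assumptions of the coding. -/
structure SU (n : ℕ) (α : Ordinal.{0}) (M : T) (x z : ℕ → ℕ) (us : ℕ → List ℕ) (t : ℕ → T) :
    Prop where
  om : Ordinal.omega0 ≤ α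
  cb : Cb n α M x z us
  gt : GoodT n α M x z us t

/-! ### Centred structures -/

/-- `B x y` means that `x` is in the cone at `y` towards the centre. -/
structure Ctr (n : ℕ) (S : Set (T × Set ℕ)) (N : T) (B : ℕ → ℕ → Prop) : Prop where
  cs : CsOn n N univ
  cone : ∀ x y, B x y → x ≠ y ∧ ∀ x', (B x' y ↔ D N x x' y)
  cmp : ∀ y y', (∃ x, B x y) → (∃ x, B x y') → ∃ x, B x y ∧ B x y'
  cen : ∀ v, (¬ ∃ x, B x v) → ∀ y, y ≠ v → B v y
  thin : ∀ x y, B x y → Pc N (Cn N y x) ∈ S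

/-- The two kinds of centres: a point `v`, or the end determined by the cones not in `S`. -/
def Be (S : Set (T × Set ℕ)) (b : Bool) (N : T) (v x y : ℕ) : Prop :=
  match b with
  | false => D N v x y
  | true => x ≠ y ∧ Pc N (Cn N x y) ∉ S

/-- `f` enumerates the types of `S`. -/
def Enu (S : Set (T × Set ℕ)) (f : ℕ → T × Set ℕ) : Prop :=
  ∀ M X, (M, X) ∈ S → ∃ n, f n ∈ S ∧ IsoOn (f n).1 M (f n).2 X ∅

end Pool.Agent.N643.TD
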