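import Pool.Agent.N643.TD.Def3

set_option autoImplicit false

/-!
# Classes of structures that are interdefinable with trees
-/

namespace Pool.Agent.N643.TD

open Set MeasureTheory
open Pool.Agent.H533R2.VO (RS RIso VC Dich)
open Pool.Agent.H533R2.VS (US UIso UDich VCu Coan Inv act)
open Pool.Agent.TH425.FF (PCanon PExp)

variable {a b : ℕ → ℕ}

/-- **The dichotomy**, general form. -/
theorem vc_gen (main : S_MAIN3) (hb : ∀ j, b j ≤ 2) (c : ℕ → List ℕ → RS a → RS (tt b))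
    (d : ℕ → List ℕ → RS (tt b) → RS a) (h : ∀ i, PCanon (c i) (d i)) :
    VC (fun x : RS a => ∃ i p n, Tk n (c i p x) ∧ d i p (c i p x) = x) := by
  have hu : VCu (fun x : RS a => ∃ m : ℕ, PExp (c m.unpair.1) (d m.unpair.1) (Tk m.unpair.2) x) :=
    Pool.Agent.TH425.FF.cun_vcu _
      (fun m => Pool.Agent.TH425.FF.pexp_vcu (h m.unpair.1) (vcu_Tk main hb) coan_Tk inv_Tk)
      (fun m => Pool.Agent.TH425.FF.pexp_coan (h m.unpair.1) coan_Tk)
      (fun m => Pool.Agent.TH425.FF.pexp_inv (h m.unpair.1) inv_Tk)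
  intro B hB hi hV
  refine Pool.Agent.H533R2.VS.vs_plain _ _ hu B hB hi fun x hx => ?_
  obtain ⟨i, p, n, h1, h2⟩ := hV x hx
  refine ⟨Nat.pair i n, p, ?_, ?_⟩
  · rw [Nat.unpair_pair]
    exact h1
  · rw [Nat.unpair_pair]
    exact h2

end Pool.Agent.N643.TD
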