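import Pool.Agent.N643.TD.CTE

set_option autoImplicit false

/-!
# Centred structures: decoding gives the structure back
-/

namespace Pool.Agent.N643.TD

open Set
open Pool.Agent.H899R2.VP (St PIso BF IsoOn)
open Pool.Agent.N643.MN (XS XI SL LocFin)

namespace KEY_

theorem lbl_eq {n k u : ℕ} {M : T} (hk : k < n) (h : ∀ j, lb M j u = decide (k = j)) :
    lbl n M u = k := by
  unfold lbl
  have e : (fun j => lb M j u) = fun j => decide (k = j) := funext h
  rw [e, List.findIdx_eq (by simpa using hk)]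
  constructor
  · simp
  · intro j hj
    have h1 : ¬ k = j := by omega
    simp [h1]

variable {n : ℕ} {S : Set (T × Set ℕ)} {N : T} {B : ℕ → ℕ → Prop} {f : ℕ → T × Set ℕ} {x : Q2}
  {π : ℕ → Fin (n + 1) → ℕ}

theorem rl_iff (hE : Enc n f N B x π) (k c q q' : ℕ) :
    rl x k c q q' = true ↔ val f N B π (Nat.pair k c) q q' := hE.rel _ _ _

theorem rl0 (hE : Enc n f N B x π) (q q' : ℕ) :
    rl x 0 0 q q' = true ↔ Lv B (π q 0) (π q' 0) := by
  rw [rl_iff hE]
  unfold val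
  rw [Nat.unpair_pair]
  exact Iff.rfl

theorem rl1 (hE : Enc n f N B x π) (q q' : ℕ) :
    rl x 1 0 q q' = true ↔ q = q' ∧ Sg N B (π q 0) := by
  rw [rl_iff hE]
  unfold val
  rw [Nat.unpair_pair]
  exact Iff.rfl

theorem rl2 (hE : Enc n f N B x π) (a b : Fin (n + 1)) (q q' : ℕ) :
    rl x 2 (Nat.pair a b) q q' = true ↔ Cl N B (π q a) (π q' b) := by
  rw [rl_iff hE]
  unfold val
  rw [Nat.unpair_pair]
  constructor
  · rintro ⟨a', b', h1, h2⟩
    obtain ⟨h3, h4⟩ := Nat.pair_eq_pair.1 h1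
    rw [Fin.ext h3, Fin.ext h4]
    exact h2
  · exact fun h => ⟨a, b, rfl, h⟩

theorem rl3 (hE : Enc n f N B x π) (i : ℕ) (a b : Fin (n + 1)) (q q' : ℕ) :
    rl x 3 (Nat.pair i (Nat.pair a b)) q q' = true ↔
      ¬ Lv B (π q 0) (π q' 0) ∧ R N i (π q a) (π q' b) = true := by
  rw [rl_iff hE]
  unfold val
  rw [Nat.unpair_pair]
  constructor
  · rintro ⟨i', a', b', h1, h2⟩
    obtain ⟨h3, h4⟩ := Nat.pair_eq_pair.1 h1
    obtain ⟨h5, h6⟩ := Nat.pair_eq_pair.1 h4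
    rw [Fin.ext h5, Fin.ext h6, h3]
    exact h2
  · exact fun h => ⟨i, a, b, rfl, h⟩

theorem rl4 (hE : Enc n f N B x π) (t q : ℕ) :
    rl x 4 t q q = true ↔ tp f (lp N B (π q)) (Ch B (π q 0)) = t := by
  rw [rl_iff hE]
  unfold val
  rw [Nat.unpair_pair]
  exact ⟨fun h => h.2, fun h => ⟨rfl, h⟩⟩

theorem rl5 (hE : Enc n f N B x π) (j : ℕ) (a : Fin (n + 1)) (q : ℕ) :
    rl x 5 (Nat.pair j a) q q = true ↔ lb N j (π q a) = true := by
  rw [rl_iff hE]
  unfold val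
  rw [Nat.unpair_pair]
  constructor
  · rintro ⟨-, j', a', h1, h2⟩
    obtain ⟨h3, h4⟩ := Nat.pair_eq_pair.1 h1
    rw [Fin.ext h4, h3]
    exact h2
  · exact fun h => ⟨rfl, j, a, rfl, h⟩

theorem ty_eq (hE : Enc n f N B x π) (q : ℕ) :
    ty x q = tp f (lp N B (π q)) (Ch B (π q 0)) := by
  unfold ty
  have h1 : tp f (lp N B (π q)) (Ch B (π q 0)) ∈ {t | rl x 4 t q q = true} := (rl4 hE _ q).2 rfl
  have h2 : sInf {t | rl x 4 t q q = true} ∈ {t | rl x 4 t q q = true} := Nat.sInf_mem ⟨_, h1⟩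
  exact ((rl4 hE _ q).1 h2).symm

theorem ex_child (hC : Ctr n S N B) (hE : Enc n f N B x π) (u : ℕ) :
    ∃ c, Lv B (π c 0) u := by
  obtain ⟨s, hs, h1⟩ := hC.ex_cov u
  obtain ⟨q, hq⟩ := hE.ex s hs
  exact ⟨q, hC.lv_trans (hq 0).1 h1.symm'⟩

/-- The values of the decoded structure. -/
theorem D_Rc (u v w : ℕ) : D (Rc n f x) u v w ↔ (Bd f x u w ∧ Bd f x v w) ∨
    (cu f x u = cu f x v ∧ ((cu f x u = cu f x w ∧
      D (f (ty x (cu f x u))).1 (eu f x u) (eu f x v) (eu f x w)) ∨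
        (Bd f x w u ∧ Sd f x u v))) := by
  classical
  exact decide_eq_true_iff

theorem lb_Rc (j u : ℕ) : lb (Rc n f x) j u =
    rl x 5 (Nat.pair j (lu n f x u)) (cu f x u) (cu f x u) := by
  show (if (2 * j) % 2 = 0 then decide (u = u) && rl x 5 (Nat.pair (2 * j / 2) (lu n f x u))
    (cu f x u) (cu f x u) else _) = _
  rw [if_pos (by omega), show 2 * j / 2 = j by omega]
  simp

theorem fl_Rc (j : ℕ) {u v : ℕ} (h : u ≠ v) : (Rc n f x).2 (2 * j + 1) ![u, v] = false := by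
  show (if (2 * j) % 2 = 0 then decide (u = v) && rl x 5 (Nat.pair (2 * j / 2) (lu n f x u))
    (cu f x u) (cu f x u) else _) = _
  rw [if_pos (by omega)]
  simp [h]

theorem R_Rc (i u v : ℕ) : R (Rc n f x) i u v =
    if cu f x u = cu f x v then R (f (ty x (cu f x u))).1 i (eu f x u) (eu f x v)
    else rl x 3 (Nat.pair i (Nat.pair (lu n f x u) (lu n f x v))) (cu f x u) (cu f x v) := by
  show (if (2 * i + 1) % 2 = 0 then _ else if cu f x u = cu f x v then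
    R (f (ty x (cu f x u))).1 ((2 * i + 1) / 2) (eu f x u) (eu f x v)
    else rl x 3 (Nat.pair ((2 * i + 1) / 2) (Nat.pair (lu n f x u) (lu n f x v))) (cu f x u)
      (cu f x v)) = _
  rw [if_neg (by omega), show (2 * i + 1) / 2 = i by omega]

end KEY_

open KEY_ in
/-- The decoded structure is isomorphic. -/
theorem t_KEY : S_KEY := by
  classical
  intro n S N B f x π hC hT hE
  have hcr := hC.cs.cr
  -- the least point that stands for the level of `u`
  have hkap : ∀ u, ∃ c, Lv B (π c 0) u ∧ ∀ c', Lv B (π c' 0) u → c ≤ c' := fun u =>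
    ⟨sInf {c | Lv B (π c 0) u}, Nat.sInf_mem (ex_child hC hE u), fun c' h => Nat.sInf_le h⟩
  choose kap kap1 kap2 using hkap
  have kap3 : ∀ u v, Lv B u v → kap u = kap v := fun u v h =>
    le_antisymm (kap2 u _ (hC.lv_trans (kap1 v) h.symm')) (kap2 v _ (hC.lv_trans (kap1 u) h))
  have kap4 : ∀ u v, kap u = kap v → Lv B u v := fun u v h =>
    hC.lv_trans (kap1 u).symm' (h ▸ kap1 v)
  have hmn1 : ∀ q, Lv B (π q 0) (π (mn x q) 0) := fun q =>
    (rl0 hE _ _).1 (Nat.sInf_mem (s := {q' | rl x 0 0 q q' = true})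
      ⟨q, (rl0 hE _ _).2 (hC.lv_refl _)⟩)
  have hmn2 : ∀ q q', Lv B (π q 0) (π q' 0) → mn x q ≤ q' := fun q q' h =>
    Nat.sInf_le ((rl0 hE _ _).2 h)
  have hmk : ∀ q u, Lv B (π q 0) u → kap u = mn x q := fun q u h =>
    le_antisymm (kap2 u _ (hC.lv_trans (hmn1 q).symm' h))
      (hmn2 q _ (hC.lv_trans h (kap1 u).symm'))
  have hmk' : ∀ u, mn x (kap u) = kap u := fun u => (hmk _ _ (kap1 u)).symm
  -- the isomorphisms of the pieces
  have hiso : ∀ c, ∃ q : Set (ℕ × ℕ), q ⊆ (f (ty x c)).2 ×ˢ Ch B (π c 0) ∧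
      PIso (f (ty x c)).1 (lp N B (π c)) q ∧ (∀ e ∈ (f (ty x c)).2, ∃ u, (e, u) ∈ q) ∧
      ∀ u ∈ Ch B (π c 0), ∃ e, (e, u) ∈ q := by
    intro c
    have h1 : IsoOn (f (ty x c)).1 (lp N B (π c)) (f (ty x c)).2 (Ch B (π c 0)) ∅ := by
      rw [ty_eq hE c]
      exact Nat.sInf_mem (s := {t | IsoOn (f t).1 (lp N B (π c)) (f t).2 (Ch B (π c 0)) ∅})
        (hT _ (hE.cov c))
    obtain ⟨q, -, h2, h3, h4, h5⟩ := h1
    exact ⟨q, h2, h3, h4, h5⟩
  choose Q Q1 Q2 Q3 Q4 using hiso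
  have hpsi : ∀ u, ∃ e, (e, u) ∈ Q (kap u) := fun u => Q4 _ u (kap1 u)
  choose psi hpsi using hpsi
  have hW : ∀ u, Nat.pair (kap u) (psi u) ∈ Wn f x := by
    intro u
    refine ⟨?_, ?_⟩
    · rw [Nat.unpair_pair]
      exact hmk' u
    · rw [Nat.unpair_pair]
      exact (Q1 _ (hpsi u)).1
  have hinj : Function.Injective fun u => Nat.pair (kap u) (psi u) := by
    intro u v huv
    obtain ⟨h1, h2⟩ := Nat.pair_eq_pair.1 huv
    have h3 := hpsi v
    rw [← h1] at h3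
    exact ((Q2 _).1 _ (hpsi u) _ h3).1 h2
  have hsurj : ∀ w ∈ Wn f x, ∃ u, Nat.pair (kap u) (psi u) = w := by
    rintro w ⟨h1, h2⟩
    obtain ⟨u, hu⟩ := Q3 _ _ h2
    have h3 : Lv B (π w.unpair.1 0) u := (Q1 _ hu).2
    have h4 : kap u = w.unpair.1 := (hmk _ _ h3).trans h1
    have h5 := hpsi u
    rw [h4] at h5
    have h6 : psi u = w.unpair.2 := ((Q2 _).1 _ h5 _ hu).2 rfl
    exact ⟨u, by rw [h4, h6, Nat.pair_unpair]⟩
  have hinf : (Wn f x).Infinite := Set.infinite_of_injective_forall_mem hinj hW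
  have hnu1 : Function.Injective (nu f x) := Nat.nth_injective hinf
  have hnu2 : Set.range (nu f x) = Wn f x := Nat.range_nth_of_infinite hinf
  have hsg : ∀ u, ∃ m, nu f x m = Nat.pair (kap u) (psi u) := fun u => by
    have h1 := hW u
    rw [← hnu2] at h1
    exact h1
  choose sg hsg using hsg
  have htu : ∀ m, ∃ u, Nat.pair (kap u) (psi u) = nu f x m := fun m =>
    hsurj _ (hnu2 ▸ Set.mem_range_self m)
  choose tu htu using htu
  let σ : Equiv.Perm ℕ := ⟨sg, tu, fun u => hinj ((htu _).trans (hsg u)), fun m =>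
    hnu1 ((hsg _).trans (htu m))⟩
  have hσ : ∀ u, nu f x (σ u) = Nat.pair (kap u) (psi u) := hsg
  have hcu : ∀ u, cu f x (σ u) = kap u := fun u => by
    unfold cu
    rw [hσ, Nat.unpair_pair]
  have heu : ∀ u, eu f x (σ u) = psi u := fun u => by
    unfold eu
    rw [hσ, Nat.unpair_pair]
  have hlu : ∀ u, ∃ a : Fin (n + 1), lu n f x (σ u) = a ∧ Cl N B (π (kap u) a) u := by
    intro u
    obtain ⟨a, h1, h2, -⟩ := hC.lp_lab (hE.cov (kap u)) (kap1 u)
    refine ⟨a, ?_, h2⟩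
    unfold lu
    rw [hcu, heu]
    refine lbl_eq a.2 fun j => ?_
    rw [PIso_lb (Q2 _) j (hpsi u), lb_lp, h1]
  have hkk : ∀ u v, Lv B (π (kap u) 0) (π (kap v) 0) ↔ Lv B u v := fun u v =>
    ⟨fun h => hC.lv_trans (kap1 u).symm' (hC.lv_trans h (kap1 v)),
      fun h => hC.lv_trans (kap1 u) (hC.lv_trans h (kap1 v).symm')⟩
  have hB1 : ∀ u v, B (π (kap u) 0) (π (kap v) 0) ↔ B u v := fun u v =>
    (hC.lvB' (kap1 u)).trans (hC.lvB (kap1 v))
  have hSg : ∀ u, Sg N B (π (kap u) 0) ↔ Sg N B u := fun u =>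
    ⟨fun h v w hv hw => h v w (hC.lv_trans (kap1 u) hv) (hC.lv_trans (kap1 u) hw),
      fun h v w hv hw => h v w (hC.lv_trans (kap1 u).symm' hv) (hC.lv_trans (kap1 u).symm' hw)⟩
  have hSd : ∀ u v, kap u = kap v → (Sd f x (σ u) (σ v) ↔ Sm N B u v) := by
    intro u v huv
    have hlv := kap4 u v huv
    rw [hC.sm_in hlv]
    unfold Sd
    rw [hcu, heu, heu, rl1 hE, hSg]
    refine or_congr ⟨fun h => h.2, fun h => ⟨rfl, h⟩⟩ (or_congr σ.injective.eq_iff ?_)
    have k1 := hpsi v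
    rw [← huv] at k1
    constructor
    · rintro ⟨e, he, h1⟩
      obtain ⟨w, hw⟩ := Q3 _ e he
      have h2 : Lv B (π (kap u) 0) w := (Q1 _ hw).2
      refine ⟨w, hC.lv_trans (kap1 u).symm' h2, ?_⟩
      have h5 := PIso_D (Q2 _) (hpsi u) k1 hw
      rw [D_lp] at h5
      exact h5.1 h1
    · rintro ⟨w, hw, h1⟩
      have k2 := hpsi w
      rw [← kap3 u w hw] at k2
      refine ⟨psi w, (Q1 _ k2).1, ?_⟩
      have h5 := PIso_D (Q2 _) (hpsi u) k1 k2
      rw [D_lp] at h5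
      exact h5.2 h1
  have hBd : ∀ u v, Bd f x (σ u) (σ v) ↔ B u v := by
    intro u v
    unfold Bd
    rw [hcu, hcu, ← hB1]
    constructor
    · rintro ⟨h1, h2⟩
      have h3 : ¬ Lv B (π (kap u) 0) (π (kap v) 0) := fun h => by
        rw [(rl0 hE _ _).2 h] at h2
        exact absurd h2 (by decide)
      by_contra h4
      apply h3
      refine ⟨h4, fun h5 => ?_⟩
      have h6 := hE.sl.tr _ _ _ h1 (hE.ord _ _ h5)
      exact hE.sl.nn h6
    · intro h1
      refine ⟨hE.ord _ _ h1, ?_⟩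
      by_contra h2
      rw [Bool.not_eq_false] at h2
      exact ((rl0 hE _ _).1 h2).1 h1
  have hD : ∀ u v w, D N u v w ↔ D (Rc n f x) (σ u) (σ v) (σ w) := by
    intro u v w
    rw [hC.D_lv, D_Rc, hBd, hBd, hBd, hcu, hcu, hcu, heu, heu, heu]
    have h1 : Lv B u v ↔ kap u = kap v := ⟨kap3 u v, kap4 u v⟩
    have h2 : Lv B u w ↔ kap u = kap w := ⟨kap3 u w, kap4 u w⟩
    rw [h1, h2]
    refine or_congr Iff.rfl (and_congr_right fun h3 => or_congr (and_congr_right fun h4 => ?_)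
      (and_congr_right fun _ => (hSd u v h3).symm))
    have k1 := hpsi v
    have k2 := hpsi w
    rw [← h3] at k1
    rw [← h4] at k2
    have h5 := PIso_D (Q2 _) (hpsi u) k1 k2
    rw [D_lp] at h5
    exact h5.symm
  have hlb : ∀ j u, lb N j u = lb (Rc n f x) j (σ u) := by
    intro j u
    obtain ⟨a, h1, h2⟩ := hlu u
    rw [lb_Rc, hcu, h1, Bool.eq_iff_iff, rl5 hE, h2.lab]
  have hR : ∀ i u v, R N i u v = R (Rc n f x) i (σ u) (σ v) := by
    intro i u v
    rw [R_Rc, hcu, hcu, heu, heu]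
    by_cases h1 : kap u = kap v
    · rw [if_pos h1]
      have k1 := hpsi v
      rw [← h1] at k1
      rw [PIso_R (Q2 _) i (hpsi u) k1, R_lp]
    · rw [if_neg h1]
      obtain ⟨a, h2, h3⟩ := hlu u
      obtain ⟨b, h4, h5⟩ := hlu v
      have h6 : ¬ Lv B u v := fun h => h1 (kap3 _ _ h)
      rw [h2, h4, Bool.eq_iff_iff, rl3 hE, hkk]
      have h7 : ¬ Lv B (π (kap u) a) v := fun h => h6 (hC.lv_trans h3.1.symm' h)
      have h8 : ¬ Lv B (π (kap v) b) (π (kap u) a) := fun h =>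
        h7 (hC.lv_trans h.symm' h5.1)
      have h9 := (h3.row h7 i).1
      have h10 := (h5.row h8 i).2
      rw [h10, h9]
      exact ⟨fun h => ⟨h6, h⟩, fun h => h.2⟩
  refine ⟨σ, ?_, hBd, ?_⟩
  · have hsub : ∀ u ∈ {w : ℕ × ℕ | w.2 = σ w.1}, u.2 = σ u.1 := fun u hu => hu
    refine PIso_mk ?_ ?_ ?_ ?_ ?_ ?_ ?_
    · intro u hu v hv
      rw [hsub u hu, hsub v hv]
      exact σ.injective.eq_iff.symm
    · intro u _ v _
      exact hC.cs.one u.1 (mem_univ _) v.1 (mem_univ _)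
    · intro u hu v hv w hw
      rw [hsub u hu, hsub v hv, hsub w hw]
      exact hD _ _ _
    · intro j u hu
      rw [hsub u hu]
      exact hlb _ _
    · intro j u _ v _ huv
      exact hC.cs.flat j u.1 (mem_univ _) v.1 (mem_univ _) huv
    · intro j u _ v _ huv
      exact fl_Rc j huv
    · intro i u hu v hv
      rw [hsub u hu, hsub v hv]
      exact hR _ _ _
  · intro q a
    have hne : {u | cu f x u = mn x q ∧
        rl x 2 (Nat.pair (lu n f x u) a) (mn x q) q = true}.Nonempty := by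
      refine ⟨σ (π q a), ?_⟩
      have h1 : kap (π q a) = mn x q := hmk q _ ((hE.cov q).1 0 a)
      obtain ⟨b, h2, h3⟩ := hlu (π q a)
      rw [h1] at h3
      refine ⟨(hcu _).trans h1, ?_⟩
      rw [h2]
      exact (rl2 hE b a _ _).2 h3
    have hmem := Nat.sInf_mem hne
    obtain ⟨h1, h2⟩ := hmem
    show Cl N B (σ.symm (sInf {u | cu f x u = mn x q ∧
        rl x 2 (Nat.pair (lu n f x u) a) (mn x q) q = true})) (π q a)
    generalize sInf {u | cu f x u = mn x q ∧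
        rl x 2 (Nat.pair (lu n f x u) a) (mn x q) q = true} = m at h1 h2 ⊢
    obtain ⟨w, rfl⟩ := σ.surjective m
    rw [σ.symm_apply_apply]
    obtain ⟨b, h3, h4⟩ := hlu w
    rw [hcu] at h1
    rw [h3] at h2
    have h5 := (rl2 hE b a _ _).1 h2
    rw [h1] at h4
    exact hC.cl_trans (hC.cl_symm h4) h5

end Pool.Agent.N643.TD
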