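import Pool.Agent.N643.TD.Lib

set_option autoImplicit false

/-! Lemmas on rows, pieces and labels. -/

namespace Pool.Agent.N643.TD

open Set
open Pool.Agent.H899R2.VP
open Pool.Agent.H533R2.VO (Lev resBF resIso iso_refl0 iso_symm0 iso_trans0 bf_comp0 bf_symm0
  iso_congr)

variable {M N K : T} {X Y Z : Set ℕ} {us vs : List ℕ} {u v w x z x' z' : ℕ} {n : ℕ}
  {p : Set (ℕ × ℕ)} {o : Ordinal.{0}}

/-! ### Rows -/

/-- The relation `M.1` with the labels is an equivalence relation. -/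
structure Eqv (M : T) (X : Set ℕ) : Prop where
  rfl' : ∀ u ∈ X, M.1 u u = true
  sym : ∀ u ∈ X, ∀ v ∈ X, M.1 u v = true → M.1 v u = true
  trs : ∀ u ∈ X, ∀ v ∈ X, ∀ w ∈ X, M.1 u v = true → M.1 v w = true → M.1 u w = true

theorem CsOn.eqv (h : CsOn n M X) : Eqv M X :=
  ⟨fun u hu => h.one u hu u hu, fun u hu v hv _ => h.one v hv u hu,
    fun u hu _ _ w hw _ _ => h.one u hu w hw⟩

theorem Eqv.mono (h : Eqv M X) (hY : Y ⊆ X) : Eqv M Y :=
  ⟨fun u hu => h.rfl' u (hY hu), fun u hu v hv => h.sym u (hY hu) v (hY hv),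
    fun u hu v hv w hw => h.trs u (hY hu) v (hY hv) w (hY hw)⟩

theorem er_refl (h : Eqv M X) (hu : u ∈ X) : er M X Y u u :=
  ⟨h.rfl' u hu, fun _ => rfl, fun _ _ _ _ => ⟨rfl, rfl⟩⟩

theorem er_symm (h : Eqv M X) (hu : u ∈ X) (hv : v ∈ X) (h1 : er M X Y u v) : er M X Y v u :=
  ⟨h.sym u hu v hv h1.1, fun j => (h1.2.1 j).symm, fun w hw hw' i =>
    ⟨(h1.2.2 w hw hw' i).1.symm, (h1.2.2 w hw hw' i).2.symm⟩⟩

theorem er_trans (h : Eqv M X) (hu : u ∈ X) (hv : v ∈ X) (hw : w ∈ X) (h1 : er M X Y u v)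
    (h2 : er M X Y v w) : er M X Y u w :=
  ⟨h.trs u hu v hv w hw h1.1 h2.1, fun j => (h1.2.1 j).trans (h2.2.1 j), fun t ht ht' i =>
    ⟨(h1.2.2 t ht ht' i).1.trans (h2.2.2 t ht ht' i).1,
      (h1.2.2 t ht ht' i).2.trans (h2.2.2 t ht ht' i).2⟩⟩

theorem eqv_pc (h : Eqv M X) (hY : Y ⊆ X) : Eqv (pc M X Y) Y := by
  refine ⟨fun u hu => pc1.2 (er_refl h (hY hu)), fun u hu v hv h1 => ?_,
    fun u hu v hv w hw h1 h2 => ?_⟩
  · exact pc1.2 (er_symm h (hY hu) (hY hv) (pc1.1 h1))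
  · exact pc1.2 (er_trans h (hY hu) (hY hv) (hY hw) (pc1.1 h1) (pc1.1 h2))

/-- Smaller pieces have finer rows. -/
theorem er_anti (hZ : Z ⊆ Y) (h : er M X Z u v) : er M X Y u v :=
  ⟨h.1, h.2.1, fun w hw hw' => h.2.2 w hw fun h1 => hw' (hZ h1)⟩

/-- Rows are transitive. -/
theorem er_er (hZ : Z ⊆ Y) (hY : Y ⊆ X) : er (pc M X Y) Y Z u v ↔ er M X Z u v := by
  constructor
  · rintro ⟨h1, -, h3⟩
    obtain ⟨h4, h5, h6⟩ := pc1.1 h1
    refine ⟨h4, h5, fun w hw hw' i => ?_⟩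
    by_cases hwY : w ∈ Y
    · have h7 := h3 w hwY hw' i
      rwa [R_pc, R_pc, R_pc, R_pc] at h7
    · exact h6 w hw hwY i
  · intro h
    refine ⟨pc1.2 (er_anti hZ h), fun j => by rw [lb_pc, lb_pc], fun w hw hw' i => ?_⟩
    rw [R_pc, R_pc, R_pc, R_pc]
    exact h.2.2 w (hY hw) hw' i

theorem pc_pc (hZ : Z ⊆ Y) (hY : Y ⊆ X) : pc (pc M X Y) Y Z = pc M X Z := by
  classical
  refine Prod.ext ?_ er0_pc
  funext u v
  exact decide_eq_decide.2 (er_er hZ hY)

/-! ### Indices -/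

theorem Rp.ex (h : Rp M X us) (hv : v ∈ X) : ∃ (i : ℕ) (hi : i < us.length), M.1 us[i] v = true := by
  obtain ⟨u, hu, h1⟩ := h.cov v hv
  obtain ⟨i, hi, rfl⟩ := List.getElem_of_mem hu
  exact ⟨i, hi, h1⟩

theorem Rp.ix_lt (h : Rp M X us) (hv : v ∈ X) : ix M us v < us.length := by
  obtain ⟨u, hu, h1⟩ := h.cov v hv
  exact List.findIdx_lt_length_of_exists ⟨u, hu, h1⟩

theorem Rp.ix_spec (h : Rp M X us) (hv : v ∈ X) : M.1 (us[ix M us v]'(h.ix_lt hv)) v = true :=
  List.findIdx_getElem (w := h.ix_lt hv)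

theorem Rp.mem (h : Rp M X us) {i : ℕ} (hi : i < us.length) : us[i] ∈ X :=
  h.sub _ (List.getElem_mem hi)

theorem Rp.sep' (h : Rp M X us) (he : Eqv M X) {i j : ℕ} (hi : i < us.length) (hj : j < us.length)
    (h1 : M.1 us[i] us[j] = true) : i = j := by
  by_contra hne
  rcases Nat.lt_or_gt_of_ne hne with h2 | h2
  · have h3 := List.pairwise_iff_getElem.1 h.sep i j hi hj h2
    rw [h3] at h1
    exact absurd h1 (by decide)
  · have h3 := List.pairwise_iff_getElem.1 h.sep j i hj hi h2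
    have h4 := he.sym _ (h.mem hi) _ (h.mem hj) h1
    rw [h3] at h4
    exact absurd h4 (by decide)

theorem Rp.ix_iff (h : Rp M X us) (he : Eqv M X) (hv : v ∈ X) {i : ℕ} (hi : i < us.length) :
    ix M us v = i ↔ M.1 us[i] v = true := by
  have h1 := h.ix_spec hv
  constructor
  · rintro rfl
    exact h1
  · intro h2
    have h3 := he.sym _ (h.mem hi) _ hv h2
    have h4 := he.trs _ (h.mem (h.ix_lt hv)) _ hv _ (h.mem hi) h1 h3
    exact h.sep' he _ _ h4

theorem Rp.ix_eq (h : Rp M X us) (he : Eqv M X) (hu : u ∈ X) (hv : v ∈ X) :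
    ix M us u = ix M us v ↔ M.1 u v = true := by
  rw [h.ix_iff he hu (h.ix_lt hv)]
  have h1 := h.ix_spec hv
  constructor
  · intro h2
    exact he.trs _ hu _ (h.mem (h.ix_lt hv)) _ hv (he.sym _ (h.mem (h.ix_lt hv)) _ hu h2) h1
  · intro h2
    exact he.trs _ (h.mem (h.ix_lt hv)) _ hv _ hu h1 (he.sym _ hu _ hv h2)

theorem Rp.ix_self (h : Rp M X us) (he : Eqv M X) {i : ℕ} (hi : i < us.length) :
    ix M us us[i] = i := (h.ix_iff he (h.mem hi) hi).2 (he.rfl' _ (h.mem hi))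

/-- Existence of representatives. -/
theorem exRp (he : Eqv M X) (n : ℕ)
    (h : ∀ e : Fin (n + 1) → ℕ, (∀ i, e i ∈ X) → ∃ i j, i ≠ j ∧ M.1 (e i) (e j) = true) :
    ∃ us, Rp M X us ∧ us.length ≤ n := by
  classical
  have hb : ∀ us : List ℕ, (∀ u ∈ us, u ∈ X) → (us.Pairwise fun u v => M.1 u v = false) →
      us.length ≤ n := by
    intro us h1 h2
    by_contra hlt
    obtain ⟨i, j, hij, h3⟩ := h (fun i => us[i.1]'(by omega)) fun i => h1 _ (List.getElem_mem _)
    rcases Nat.lt_or_gt_of_ne (fun h4 => hij (Fin.ext h4)) with h4 | h4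
    · have h5 := List.pairwise_iff_getElem.1 h2 i.1 j.1 (by omega) (by omega) h4
      rw [h5] at h3
      exact absurd h3 (by decide)
    · have h5 := List.pairwise_iff_getElem.1 h2 j.1 i.1 (by omega) (by omega) h4
      have h6 := he.sym _ (h1 _ (List.getElem_mem _)) _ (h1 _ (List.getElem_mem _)) h3
      rw [h5] at h6
      exact absurd h6 (by decide)
  have key : ∀ k : ℕ, ∀ us : List ℕ, (∀ u ∈ us, u ∈ X) →
      (us.Pairwise fun u v => M.1 u v = false) → n - us.length ≤ k →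
      ∃ us', Rp M X us' ∧ us'.length ≤ n := by
    intro k
    induction k with
    | zero =>
      intro us h1 h2 h3
      by_cases hc : ∀ v ∈ X, ∃ u ∈ us, M.1 u v = true
      · exact ⟨us, ⟨h1, hc, h2⟩, hb us h1 h2⟩
      · exfalso
        push Not at hc
        obtain ⟨v, hv, hc⟩ := hc
        have h4 := hb (v :: us) (by
          intro u hu
          rcases List.mem_cons.1 hu with rfl | hu
          · exact hv
          · exact h1 u hu) (List.pairwise_cons.2 ⟨fun u hu => by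
            by_contra h5
            exact hc u hu (he.sym _ hv _ (h1 u hu) (by simpa using h5)), h2⟩)
        simp only [List.length_cons] at h4
        omega
    | succ k ih =>
      intro us h1 h2 h3
      by_cases hc : ∀ v ∈ X, ∃ u ∈ us, M.1 u v = true
      · exact ⟨us, ⟨h1, hc, h2⟩, hb us h1 h2⟩
      · push Not at hc
        obtain ⟨v, hv, hc⟩ := hc
        refine ih (v :: us) ?_ (List.pairwise_cons.2 ⟨fun u hu => ?_, h2⟩) ?_
        · intro u hu
          rcases List.mem_cons.1 hu with rfl | hu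
          · exact hv
          · exact h1 u hu
        · by_contra h5
          exact hc u hu (he.sym _ hv _ (h1 u hu) (by simpa using h5))
        · simp only [List.length_cons]
          omega
  exact key n [] (by simp) List.Pairwise.nil (by simp)

/-- Representatives of the rows of a cone. -/
theorem CsOn.exRp (h : CsOn n M univ) (hxz : x ≠ z) :
    ∃ us, Rp (pc M univ (Cn M x z)) (Cn M x z) us ∧ us.length ≤ n := by
  refine TD.exRp (eqv_pc h.eqv (subset_univ _)) n fun e he => ?_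
  obtain ⟨i, j, hij, h1⟩ := h.row x (mem_univ _) z (mem_univ _) hxz e fun i => ⟨mem_univ _, he i⟩
  exact ⟨i, j, hij, pc1.2 h1⟩

/-- The number of representatives is bounded. -/
theorem CsOn.rp_le (h : CsOn n M univ) (hxz : x ≠ z)
    (hr : Rp (pc M univ (Cn M x z)) (Cn M x z) us) : us.length ≤ n := by
  by_contra hlt
  obtain ⟨i, j, hij, h1⟩ := h.row x (mem_univ _) z (mem_univ _) hxz
    (fun i => us[i.1]'(by omega)) fun i => ⟨mem_univ _, hr.mem _⟩
  exact hij (Fin.ext (hr.sep' (eqv_pc h.eqv (subset_univ _)) (by omega) (by omega) (pc1.2 h1)))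

/-! ### The structure with labels -/

/-- Rows of the structure with labels. -/
theorem er_od (he : Eqv M X) (h : Rp (pc M X Y) Y us) (hY : Y ⊆ X) (hZ : Z ⊆ Y) (hu : u ∈ Y)
    (hv : v ∈ Y) : er (od (pc M X Y) us) Y Z u v ↔ er M X Z u v := by
  rw [← er_er hZ hY]
  have he' := eqv_pc he hY
  constructor
  · rintro ⟨-, h2, h3⟩
    refine ⟨?_, fun j => by rw [lb_pc, lb_pc], fun w hw hw' i => ?_⟩
    · rw [← h.ix_eq he' hu hv]
      have h4 := h2 (ix (pc M X Y) us u)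
      rw [lb_od, lb_od] at h4
      have h5 : decide (ix (pc M X Y) us v = ix (pc M X Y) us u) = true := by
        rw [← h4]
        simp
      exact (of_decide_eq_true h5).symm
    · have h7 := h3 w hw hw' i
      rwa [R_od, R_od, R_od, R_od] at h7
  · rintro ⟨h1, -, h3⟩
    refine ⟨rfl, fun j => ?_, fun w hw hw' i => ?_⟩
    · rw [lb_od, lb_od, (h.ix_eq he' hu hv).2 h1]
    · rw [R_od, R_od, R_od, R_od]
      exact h3 w hw hw' i

/-- Pieces of the structure with labels. -/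
theorem pc_od (he : Eqv M X) (h : Rp (pc M X Y) Y us) (hY : Y ⊆ X) (hZ : Z ⊆ Y) :
    IsoOn (pc (od (pc M X Y) us) Y Z) (pc M X Z) Z Z (idOn Z) := by
  refine agree (fun u hu v hv => ?_) (fun u _ v _ w _ => Iff.rfl) (fun j u _ => by rw [lb_pc, lb_pc])
    (fun j u _ v _ _ => fl_pc j) (fun j u _ v _ _ => fl_pc j) (fun i u _ v _ => by
      rw [R_pc, R_pc, R_od, R_pc])
  rw [Bool.eq_iff_iff, pc1, pc1]
  exact er_od he h hY hZ (hZ hu) (hZ hv)

/-! ### Back-and-forth -/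

theorem one_add_lt {o' : Ordinal.{0}} (h : o' < o) : 1 + o' < 1 + o := by
  gcongr

theorem one_add_of_omega (h : Ordinal.omega0 ≤ o) : 1 + o = o := Ordinal.one_add_of_omega0_le h

/-- Partial isomorphisms of pieces. -/
theorem piso_pc {X' Y' : Set ℕ} {q : Set (ℕ × ℕ)} (h : PIso M N q)
    (h1 : ∀ u ∈ q, ∀ v ∈ q, (er M X X' u.1 v.1 ↔ er N Y Y' u.2 v.2)) :
    PIso (pc M X X') (pc N Y Y') q := by
  refine ⟨h.1, fun u hu v hv => ?_, fun i t ht => ?_⟩
  · rw [Bool.eq_iff_iff, pc1, pc1]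
    exact h1 u hu v hv
  · match i, t, ht with
    | 0, t, ht => exact h.2.2 0 t ht
    | i + 1, t, ht =>
      show (if i % 2 = 0 then false else M.2 (i + 1) fun k => (t k).1) =
        (if i % 2 = 0 then false else N.2 (i + 1) fun k => (t k).2)
      rw [h.2.2 (i + 1) t ht]

/-- Partial isomorphisms of structures with labels. -/
theorem piso_od {q : Set (ℕ × ℕ)} (h : PIso M N q)
    (h1 : ∀ u ∈ q, ix M us u.1 = ix N vs u.2) : PIso (od M us) (od N vs) q := by
  refine ⟨h.1, fun u _ v _ => rfl, fun i t ht => ?_⟩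
  match i, t, ht with
  | 0, t, ht => exact h.2.2 0 t ht
  | i + 1, t, ht =>
    show (if i % 2 = 0 then decide ((t (0 : Fin 2)).1 = (t (1 : Fin 2)).1 ∧
        ix M us (t (0 : Fin 2)).1 = i / 2) else M.2 (i + 1) fun k => (t k).1) =
      (if i % 2 = 0 then decide ((t (0 : Fin 2)).2 = (t (1 : Fin 2)).2 ∧
        ix N vs (t (0 : Fin 2)).2 = i / 2) else N.2 (i + 1) fun k => (t k).2)
    have ht' : ∀ k : Fin 2, t k ∈ q := ht
    rw [h.2.2 (i + 1) t ht, h1 _ (ht' 0)]
    have e := h.1 _ (ht' 0) _ (ht' 1)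
    by_cases hc : (t (0 : Fin 2)).1 = (t (1 : Fin 2)).1
    · simp only [hc, e.1 hc]
    · have hc' : ¬ (t (0 : Fin 2)).2 = (t (1 : Fin 2)).2 := fun h2 => hc (e.2 h2)
      simp only [hc, hc', false_and]

/-- Restriction to definable subsets preserves the rows. -/
theorem resPc {X' Y' : Set ℕ} (hX : X' ⊆ X) (hY : Y' ⊆ Y)
    (hXY : ∀ u ∈ X, ∀ v ∈ Y, PIso M N (insert (u, v) p) → (u ∈ X' ↔ v ∈ Y')) :
    ∀ (o : Ordinal.{0}) (q : Set (ℕ × ℕ)), q ⊆ X' ×ˢ Y' → BF M N X Y (1 + o) (p ∪ q) →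
      BF (pc M X X') (pc N Y Y') X' Y' o q := by
  intro o
  induction o using WellFoundedLT.induction with
  | ind o ih =>
    intro q hq hb
    have hpq : ∀ (b : ℕ × ℕ) (h : PIso M N (insert b (p ∪ q))), PIso M N (insert b p) := fun b h =>
      h.mono (insert_subset_insert subset_union_left)
    have h0 : (0 : Ordinal.{0}) < 1 + o := lt_of_lt_of_le zero_lt_one le_self_add
    have hin : ∀ u ∈ q, u ∈ p ∪ q := fun u hu => Or.inr hu
    rw [BF_iff]
    refine ⟨piso_pc (hb.piso.mono subset_union_right) fun u hu v hv => ?_, fun o' ho' => ⟨?_, ?_⟩⟩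
    · have hP := hb.piso
      constructor
      · rintro ⟨h1, h2, h3⟩
        refine ⟨?_, fun j => ?_, fun w hw hw' i => ?_⟩
        · rw [← hP.2.1 u (hin u hu) v (hin v hv)]
          exact h1
        · rw [← PIso_lb hP j (x := u.1) (x' := u.2) (hin u hu),
            ← PIso_lb hP j (x := v.1) (x' := v.2) (hin v hv)]
          exact h2 j
        · obtain ⟨t, ht, hb'⟩ := hb.back h0 hw
          have hP' := hb'.piso
          have ht' : t ∉ X' := fun h => hw' ((hXY t ht w hw (hpq _ hP')).1 h)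
          have h4 := h3 t ht ht' i
          have m1 : (t, w) ∈ insert (t, w) (p ∪ q) := mem_insert _ _
          have m2 : (u.1, u.2) ∈ insert (t, w) (p ∪ q) := Or.inr (hin u hu)
          have m3 : (v.1, v.2) ∈ insert (t, w) (p ∪ q) := Or.inr (hin v hv)
          rw [← PIso_R hP' i m2 m1, ← PIso_R hP' i m3 m1, ← PIso_R hP' i m1 m2,
            ← PIso_R hP' i m1 m3]
          exact h4
      · rintro ⟨h1, h2, h3⟩
        refine ⟨?_, fun j => ?_, fun w hw hw' i => ?_⟩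
        · rw [hP.2.1 u (hin u hu) v (hin v hv)]
          exact h1
        · rw [PIso_lb hP j (x := u.1) (x' := u.2) (hin u hu),
            PIso_lb hP j (x := v.1) (x' := v.2) (hin v hv)]
          exact h2 j
        · obtain ⟨t, ht, hb'⟩ := hb.forth h0 hw
          have hP' := hb'.piso
          have ht' : t ∉ Y' := fun h => hw' ((hXY w hw t ht (hpq _ hP')).2 h)
          have h4 := h3 t ht ht' i
          have m1 : (w, t) ∈ insert (w, t) (p ∪ q) := mem_insert _ _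
          have m2 : (u.1, u.2) ∈ insert (w, t) (p ∪ q) := Or.inr (hin u hu)
          have m3 : (v.1, v.2) ∈ insert (w, t) (p ∪ q) := Or.inr (hin v hv)
          rw [PIso_R hP' i m2 m1, PIso_R hP' i m3 m1, PIso_R hP' i m1 m2,
            PIso_R hP' i m1 m3]
          exact h4
    · intro a ha
      obtain ⟨b, hb1, hb2⟩ := hb.forth (one_add_lt ho') (hX ha)
      have h5 := (hXY a (hX ha) b hb1 (hpq _ hb2.piso)).1 ha
      refine ⟨b, h5, ih o' ho' _ (insert_subset ⟨ha, h5⟩ hq) ?_⟩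
      rw [union_insert]
      exact hb2
    · intro b hb1
      obtain ⟨a, ha, hb2⟩ := hb.back (one_add_lt ho') (hY hb1)
      have h5 := (hXY a ha b (hY hb1) (hpq _ hb2.piso)).2 hb1
      refine ⟨a, h5, ih o' ho' _ (insert_subset ⟨h5, hb1⟩ hq) ?_⟩
      rw [union_insert]
      exact hb2

theorem cn_iff (hx : (x, x') ∈ p) (hz : (z, z') ∈ p) :
    ∀ u ∈ X, ∀ v ∈ Y, PIso M N (insert (u, v) p) → (u ∈ X ∩ Cn M x z ↔ v ∈ Y ∩ Cn N x' z') := by
  intro u hu v hv hp
  have h1 := PIso_D hp (mem_insert_of_mem _ hx) (mem_insert (u, v) _) (mem_insert_of_mem _ hz)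
  exact ⟨fun h => ⟨hv, h1.1 h.2⟩, fun h => ⟨hu, h1.2 h.2⟩⟩

/-- Pieces of equivalent structures. -/
theorem resPcCn (ho : Ordinal.omega0 ≤ o) (hx : (x, x') ∈ p) (hz : (z, z') ∈ p)
    {q : Set (ℕ × ℕ)} (hq : q ⊆ (X ∩ Cn M x z) ×ˢ (Y ∩ Cn N x' z')) (hqp : q ⊆ p)
    (hb : BF M N X Y o p) : BF (pc M X (X ∩ Cn M x z)) (pc N Y (Y ∩ Cn N x' z'))
      (X ∩ Cn M x z) (Y ∩ Cn N x' z') o q := by
  refine resPc (p := p) inter_subset_left inter_subset_left (cn_iff hx hz) o q hq ?_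
  rw [one_add_of_omega ho, union_eq_self_of_subset_right hqp]
  exact hb

theorem resPcCn0 (ho : Ordinal.omega0 ≤ o) (hx : (x, x') ∈ p) (hz : (z, z') ∈ p)
    (hb : BF M N univ univ o p) :
    BF (pc M univ (Cn M x z)) (pc N univ (Cn N x' z')) (Cn M x z) (Cn N x' z') o ∅ := by
  have h := resPcCn ho hx hz (empty_subset _) (empty_subset _) hb
  rwa [univ_inter, univ_inter] at h

/-- The whole piece. -/
theorem resPcU (ho : Ordinal.omega0 ≤ o) (hb : BF M N X Y o ∅) :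
    BF (pc M X X) (pc N Y Y) X Y o ∅ := by
  refine resPc (p := ∅) Subset.rfl Subset.rfl (fun u hu v hv _ => ⟨fun _ => hv, fun _ => hu⟩) o ∅
    (empty_subset _) ?_
  rw [one_add_of_omega ho, union_empty]
  exact hb

/-- Isomorphisms of pieces. -/
theorem resIsoPc {X' Y' : Set ℕ} (hX : X' ⊆ X) (hY : Y' ⊆ Y)
    (hXY : ∀ u ∈ X, ∀ v ∈ Y, PIso M N (insert (u, v) p) → (u ∈ X' ↔ v ∈ Y'))
    (hb : IsoOn M N X Y p) : IsoOn (pc M X X') (pc N Y Y') X' Y' {u | u ∈ p ∧ u.1 ∈ X'} := by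
  obtain ⟨q, hpq, h2, h3, h4, h5⟩ := hb
  have key : ∀ u ∈ q, (u.1 ∈ X' ↔ u.2 ∈ Y') := by
    rintro ⟨u, v⟩ hu
    exact hXY u (h2 hu).1 v (h2 hu).2 (h3.mono (insert_subset hu hpq))
  refine ⟨{u | u ∈ q ∧ u.1 ∈ X'}, fun u hu => ⟨hpq hu.1, hu.2⟩, fun u hu => ⟨hu.2,
    (key u hu.1).1 hu.2⟩, piso_pc (h3.mono fun u hu => hu.1) ?_, ?_, ?_⟩
  · rintro u ⟨hu, hu'⟩ v ⟨hv, hv'⟩
    constructor
    · rintro ⟨k1, k2, k3⟩
      refine ⟨?_, fun j => ?_, fun w hw hw' i => ?_⟩
      · rw [← h3.2.1 u hu v hv]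
        exact k1
      · rw [← PIso_lb h3 j (x := u.1) (x' := u.2) hu, ← PIso_lb h3 j (x := v.1) (x' := v.2) hv]
        exact k2 j
      · obtain ⟨t, ht⟩ := h5 w hw
        have k4 := k3 t (h2 ht).1 (fun h => hw' ((key _ ht).1 h)) i
        have m2 : (u.1, u.2) ∈ q := hu
        have m3 : (v.1, v.2) ∈ q := hv
        rw [← PIso_R h3 i m2 ht, ← PIso_R h3 i m3 ht, ← PIso_R h3 i ht m2, ← PIso_R h3 i ht m3]
        exact k4
    · rintro ⟨k1, k2, k3⟩
      refine ⟨?_, fun j => ?_, fun w hw hw' i => ?_⟩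
      · rw [h3.2.1 u hu v hv]
        exact k1
      · rw [PIso_lb h3 j (x := u.1) (x' := u.2) hu, PIso_lb h3 j (x := v.1) (x' := v.2) hv]
        exact k2 j
      · obtain ⟨t, ht⟩ := h4 w hw
        have k4 := k3 t (h2 ht).2 (fun h => hw' ((key _ ht).2 h)) i
        have m2 : (u.1, u.2) ∈ q := hu
        have m3 : (v.1, v.2) ∈ q := hv
        rw [PIso_R h3 i m2 ht, PIso_R h3 i m3 ht, PIso_R h3 i ht m2, PIso_R h3 i ht m3]
        exact k4
  · intro a ha
    obtain ⟨b, hb⟩ := h4 a (hX ha)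
    exact ⟨b, hb, ha⟩
  · intro b hb
    obtain ⟨a, ha⟩ := h5 b (hY hb)
    exact ⟨a, ha, (key _ ha).2 hb⟩

theorem resIsoCn (hx : (x, x') ∈ p) (hz : (z, z') ∈ p) (hb : IsoOn M N X Y p) :
    IsoOn (pc M X (X ∩ Cn M x z)) (pc N Y (Y ∩ Cn N x' z')) (X ∩ Cn M x z) (Y ∩ Cn N x' z')
      {u | u ∈ p ∧ u.1 ∈ X ∩ Cn M x z} :=
  resIsoPc inter_subset_left inter_subset_left (cn_iff hx hz) hb

theorem resIsoU (hb : IsoOn M N X Y p) : IsoOn (pc M X X) (pc N Y Y) X Y p := by
  have h := resIsoPc Subset.rfl Subset.rfl (fun u hu v hv _ => ⟨fun _ => hv, fun _ => hu⟩) hb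
  refine h.mono fun u hu => ⟨hu, ?_⟩
  obtain ⟨q, hpq, h2, -⟩ := hb
  exact (h2 (hpq hu)).1

/-- Structures with labels given by corresponding representatives. -/
theorem bf_od (hl : us.length = vs.length) (hp : zipSet us vs ⊆ p) (hb : BF M N X Y o p) :
    BF (od M us) (od N vs) X Y o p := by
  have key : ∀ (q : Set (ℕ × ℕ)), zipSet us vs ⊆ q → PIso M N q →
      ∀ u ∈ q, ix M us u.1 = ix N vs u.2 := by
    intro q hq h u hu
    unfold ix
    have h1 : ∀ (us vs : List ℕ), us.length = vs.length → zipSet us vs ⊆ q →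
        us.findIdx (fun w => M.1 w u.1) = vs.findIdx (fun w => N.1 w u.2) := by
      intro us
      induction us with
      | nil =>
        intro vs hl _
        cases vs with
        | nil => rfl
        | cons _ _ => simp at hl
      | cons a us ih =>
        intro vs hl hz
        cases vs with
        | nil => simp at hl
        | cons b vs =>
          rw [zipSet_cons] at hz
          have h2 : M.1 a u.1 = N.1 b u.2 := h.2.1 (a, b) (hz (mem_insert _ _)) u hu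
          rw [List.findIdx_cons, List.findIdx_cons, h2,
            ih vs (by simpa using hl) ((subset_insert _ _).trans hz)]
    exact h1 us vs hl hq
  induction o using WellFoundedLT.induction generalizing p with
  | ind o ih =>
    rw [BF_iff]
    refine ⟨piso_od hb.piso (key p hp hb.piso), fun o' ho' => ⟨fun a ha => ?_, fun b hb' => ?_⟩⟩
    · obtain ⟨b, hb1, hb2⟩ := hb.forth ho' ha
      exact ⟨b, hb1, ih o' ho' (hp.trans (subset_insert _ _)) hb2⟩
    · obtain ⟨a, ha1, ha2⟩ := hb.back ho' hb'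
      exact ⟨a, ha1, ih o' ho' (hp.trans (subset_insert _ _)) ha2⟩

end Pool.Agent.N643.TD
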