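import Pool.Agent.N643.TD.Lib2

set_option autoImplicit false

/-! Lemmas on isomorphisms, families and classes. -/

namespace Pool.Agent.N643.TD

open Set
open Pool.Agent.H899R2.VP
open Pool.Agent.H533R2.VO (Lev resBF resIso iso_refl0 iso_symm0 iso_trans0 bf_comp0 bf_symm0
  iso_congr)

variable {M N K : T} {X Y Z : Set ℕ} {us vs : List ℕ} {u v w x z x' z' : ℕ} {n : ℕ}
  {p : Set (ℕ × ℕ)} {o : Ordinal.{0}}

/-! ### Labelled pieces of equivalent structures -/

theorem zip_sub {X Y : Set ℕ} (hu : ∀ u ∈ us, u ∈ X) (hv : ∀ v ∈ vs, v ∈ Y) :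
    zipSet us vs ⊆ X ×ˢ Y := by
  rintro ⟨a, b⟩ h
  exact ⟨hu a (mem_zipSet_left h), hv b (mem_zipSet_right h)⟩

theorem zip_get (hl : us.length = vs.length) {i : ℕ} (hi : i < us.length) :
    (us[i], vs[i]'(hl ▸ hi)) ∈ zipSet us vs := by
  show _ ∈ us.zip vs
  rw [List.mem_iff_getElem]
  exact ⟨i, by simp; omega, by simp⟩

/-- Labelled pieces. -/
theorem resOdCn (ho : Ordinal.omega0 ≤ o) (hx : (x, x') ∈ p) (hz : (z, z') ∈ p)
    (hl : us.length = vs.length) (hp : zipSet us vs ⊆ p) (hu : ∀ u ∈ us, u ∈ Cn M x z)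
    (hv : ∀ v ∈ vs, v ∈ Cn N x' z') (hb : BF M N univ univ o p) :
    BF (od (pc M univ (Cn M x z)) us) (od (pc N univ (Cn N x' z')) vs)
      (Cn M x z) (Cn N x' z') o ∅ := by
  have h := resPcCn (q := zipSet us vs) ho hx hz (by
    rw [univ_inter, univ_inter]
    exact zip_sub hu hv) hp hb
  rw [univ_inter, univ_inter] at h
  exact (bf_od hl Subset.rfl h).subset (empty_subset _)

/-- Representatives correspond. -/
theorem rp_of_bf {M' N' : T} {X' Y' : Set ℕ} (ho : Ordinal.omega0 ≤ o)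
    (hl : us.length = vs.length)
    (hv : ∀ v ∈ vs, v ∈ Y') (hb : BF M' N' X' Y' o (zipSet us vs)) (h : Rp M' X' us) :
    Rp N' Y' vs := by
  have h0 : (0 : Ordinal.{0}) < o := lt_of_lt_of_le Ordinal.omega0_pos ho
  refine ⟨hv, fun v hv => ?_, ?_⟩
  · obtain ⟨a, ha, hb'⟩ := hb.back h0 hv
    obtain ⟨i, hi, h1⟩ := h.ex ha
    have h2 := hb'.piso.2.1 _ (Or.inr (zip_get hl hi)) _ (mem_insert (a, v) _)
    exact ⟨vs[i]'(hl ▸ hi), List.getElem_mem _, h2.symm.trans h1⟩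
  · rw [List.pairwise_iff_getElem]
    intro i j hi hj hij
    have h1 := List.pairwise_iff_getElem.1 h.sep i j (hl ▸ hi) (hl ▸ hj) hij
    have h2 := hb.piso.2.1 _ (zip_get hl (hl ▸ hi)) _ (zip_get hl (hl ▸ hj))
    exact h2.symm.trans h1

/-- Representatives of cones correspond. -/
theorem rp_cn (ho : Ordinal.omega0 ≤ o) (hx : (x, x') ∈ p) (hz : (z, z') ∈ p)
    (hl : us.length = vs.length) (hp : zipSet us vs ⊆ p)
    (hb : BF M N univ univ o p) (h : Rp (pc M univ (Cn M x z)) (Cn M x z) us) :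
    (∀ v ∈ vs, v ∈ Cn N x' z') ∧ Rp (pc N univ (Cn N x' z')) (Cn N x' z') vs := by
  have hv : ∀ v ∈ vs, v ∈ Cn N x' z' := by
    intro v hv
    obtain ⟨u, hu⟩ := exists_zipSet_right hl hv
    have h1 := h.sub u (mem_zipSet_left hu)
    exact (PIso_D hb.piso hx (hp hu) hz).1 h1
  refine ⟨hv, ?_⟩
  have h2 := resPcCn (q := zipSet us vs) ho hx hz (by
    rw [univ_inter, univ_inter]
    exact zip_sub h.sub hv) hp hb
  rw [univ_inter, univ_inter] at h2
  exact rp_of_bf ho hl hv h2 h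

/-! ### Isomorphisms -/

section is

variable {e : Equiv.Perm ℕ}

theorem Is.D_iff (h : Is M N e) (x y z : ℕ) : D M x y z ↔ D N (e x) (e y) (e z) :=
  PIso_D h (by rfl) (by rfl) (by rfl)

theorem Is.symm (h : Is M N e) : Is N M e.symm := by
  have h1 := PIso.symm h
  have : inv {w : ℕ × ℕ | w.2 = e w.1} = {w | w.2 = e.symm w.1} := by
    ext ⟨u, v⟩
    simp only [inv, Set.mem_ofPred_eq]
    exact ⟨fun h2 => by rw [h2, Equiv.symm_apply_apply], fun h2 => by
      rw [h2, Equiv.apply_symm_apply]⟩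
  unfold Is
  rw [← this]
  exact h1

theorem Is.image_Cn (h : Is M N e) (x z : ℕ) : e '' Cn M x z = Cn N (e x) (e z) := by
  ext w
  constructor
  · rintro ⟨y, hy, rfl⟩
    exact (h.D_iff _ _ _).1 hy
  · intro hw
    refine ⟨e.symm w, ?_, e.apply_symm_apply w⟩
    apply (h.D_iff _ _ _).2
    rw [e.apply_symm_apply]
    exact hw

theorem Is.image_Nd (h : Is M N e) (x y : ℕ) : e '' Nd M x y = Nd N (e x) (e y) := by
  ext w
  constructor
  · rintro ⟨z, hz, rfl⟩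
    exact fun h1 => hz ((h.D_iff _ _ _).2 h1)
  · intro hw
    refine ⟨e.symm w, ?_, e.apply_symm_apply w⟩
    intro h1
    apply hw
    have := (h.D_iff _ _ _).1 h1
    rwa [e.apply_symm_apply] at this

theorem Is.isoOn (h : Is M N e) : IsoOn M N univ univ {w | w.2 = e w.1} := by
  refine ⟨_, Subset.rfl, fun u _ => ⟨mem_univ _, mem_univ _⟩, h, ?_, ?_⟩
  · intro x _
    exact ⟨e x, rfl⟩
  · intro y _
    exact ⟨e.symm y, (e.apply_symm_apply y).symm⟩

/-- Isomorphisms preserve the pieces. -/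
theorem Is.isoPc (h : Is M N e) (X : Set ℕ) :
    IsoOn (pc M univ X) (pc N univ (e '' X)) X (e '' X) ∅ := by
  refine (resIsoPc (subset_univ _) (subset_univ _) (fun u _ v _ hp => ?_) h.isoOn).mono
    (empty_subset _)
  have h1 : v = e u := by
    have h2 := hp.1 (u, v) (mem_insert _ _) (u, e u) (Or.inr rfl)
    exact h2.1 rfl
  rw [h1]
  exact (e.injective.mem_set_image).symm

theorem exists_is {p : Set (ℕ × ℕ)} (h : IsoOn M N univ univ p) :
    ∃ e : Equiv.Perm ℕ, Is M N e ∧ ∀ u ∈ p, u.2 = e u.1 := by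
  obtain ⟨q, hpq, -, h3, h4, h5⟩ := h
  choose f hf using fun x => h4 x (mem_univ x)
  choose g hg using fun x => h5 x (mem_univ x)
  have hq : ∀ x y, (x, y) ∈ q ↔ y = f x := by
    intro x y
    constructor
    · intro h
      exact h3.snd_eq h (hf x) rfl
    · rintro rfl
      exact hf x
  refine ⟨⟨f, g, fun x => h3.fst_eq (hg (f x)) (hf x) rfl, fun y => ?_⟩, ?_, ?_⟩
  · exact ((hq _ _).1 (hg y)).symm
  · refine PIso.mono h3 ?_
    rintro ⟨x, y⟩ hxy
    exact (hq x y).2 hxy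
  · rintro ⟨x, y⟩ hu
    exact (hq x y).1 (hpq hu)

end is

section families

variable {S : Set (T × Set ℕ)}

theorem CF.iso' (h : CF S) (hi : IsoOn M N X Y ∅) : (M, X) ∈ S ↔ (N, Y) ∈ S :=
  ⟨fun h1 => h.iso _ _ _ _ h1 hi, fun h1 => h.iso _ _ _ _ h1 (iso_symm0 hi)⟩

theorem CF.enu (h : CF S) : ∃ f : ℕ → T × Set ℕ, Enu S f := by
  obtain ⟨f, hf⟩ := h.cnt
  refine ⟨f, fun M X hMX => ?_⟩
  obtain ⟨n, hn⟩ := hf M X hMX
  exact ⟨n, (h.iso' hn).2 hMX, hn⟩

theorem CF.sub' (h : CF S) (hM : Cr M) (h1 : Pc M (Cn M x z) ∈ S)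
    (hx : x' ∈ Cn M x z) (hz : z' ∈ Cn M x z) : Pc M (Cn M x' z') ∈ S := by
  have h2 := h.sub _ _ h1 x' hx z' hz
  have h3 := hM.csub hx hz
  rw [Cn_pc, inter_eq_self_of_subset_right h3, pc_pc h3 (subset_univ _)] at h2
  exact h2

end families

theorem GC.iso {α : Ordinal.{0}} {K : Set T} (h : GC n α K) (hM : M ∈ K)
    (hi : IsoOn M N univ univ ∅) : N ∈ K := h.closed M hM N (hi.bf α)

end Pool.Agent.N643.TD
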