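import Pool.Agent.N643.TD.STD

set_option autoImplicit false

/-!
# Equivalent children are isomorphic (project TD, helper407)
-/

namespace Pool.Agent.N643.TD

open Set
open Pool.Agent.H899R2.VP
open Pool.Agent.H533R2.VO (Lev)

variable {M : T} {n y b k x g v w j : ℕ} {L : List ℕ}

theorem se_b (h : Cr M) (hyb : y ≠ b) : b ∉ Se M y b := fun h1 => h1.2 (h.refl b y (Ne.symm hyb))

/-- The children are contained in the level. -/
theorem cn_se (h : Cr M) (hx : x ∈ Se M y b) : Cn M x b ⊆ Se M y b := by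
  intro w hw
  have hxw : D M x w b := hw
  have hno : ¬ D M x b w := h.c2 _ _ _ hxw
  have hno' : ¬ D M w b x := h.c2 _ _ _ (h.symm _ _ _ hxw)
  refine ⟨fun h1 => ?_, fun h1 => ?_⟩
  · rcases h.c3 _ _ _ h1 x with h2 | h2
    · exact hx.1 h2
    · exact hno h2
  · rcases h.c3 _ _ _ (h.symm _ _ _ h1) x with h2 | h2
    · exact hno' h2
    · exact hx.2 (h.symm _ _ _ h2)

theorem cn_same (h : Cr M) (hg : g ∈ Cn M x b) (hv : v ∈ Cn M x b) : D M g v b :=
  h.trans (h.symm _ _ _ hg) hv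

/-- The properties depend only on the row over the child. -/
theorem pf_er (hM : CsOn n M univ) (hx : x ∈ Se M y b) (hg : g ∈ Cn M x b) (hv : v ∈ Cn M x b)
    (h : er M univ (Cn M x b) g v) (h1 : pf M y b k L j g) : pf M y b k L j v := by
  have hc := hM.cr
  have hgv : D M g v b := cn_same hc hg hv
  have hvg : D M v g b := hc.symm _ _ _ hgv
  have hD : ∀ {a : ℕ}, ¬ D M a g b → ¬ D M a v b := fun h2 h3 => h2 (hc.trans h3 hvg)
  have hout : ∀ {a : ℕ}, ¬ D M a g b → a ∉ Cn M x b := fun h2 h3 => h2 (cn_same hc h3 hg)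
  revert h1
  unfold pf
  rcases j.unpair.2.unpair.1 with _ | _ | _ | _ | _ | c
  · intro h1 w hw hE haw hvw i
    have h2 : ¬ D M g w b := fun h3 => hvw (hc.trans hvg h3)
    have h3 : w ∉ Cn M x b := fun h4 => hvw (cn_same hc hv h4)
    have h4 := h1 w hw hE haw h2 i
    have h5 := h.2.2 w (mem_univ _) h3 i
    exact ⟨h4.1.trans h5.1, h4.2.trans h5.2⟩
  · intro h1
    exact er_trans hM.eqv (mem_univ _) (mem_univ _) (mem_univ _) h1 (er_anti (cn_se hc hx) h)
  · intro h1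
    exact hc.trans h1 hgv
  · rintro ⟨h1, h2⟩
    have h5 := h.2.2 _ (mem_univ _) (hout h1) j.unpair.2.unpair.2
    exact ⟨hD h1, h5.2 ▸ h2⟩
  · rintro ⟨h1, h2⟩
    have h5 := h.2.2 _ (mem_univ _) (hout h1) j.unpair.2.unpair.2
    exact ⟨hD h1, h5.1 ▸ h2⟩
  · exact fun h1 => h1

theorem D_PL {u : ℕ} : D (PL M y b k L) u v w ↔ D M u v w := Iff.rfl

theorem R_PL {u : ℕ} (i : ℕ) : R (PL M y b k L) i u v = R M i u v := by
  show (if (2 * i + 1) % 2 = 0 then _ else M.2 (2 * i + 1 + 1) ![u, v]) = _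
  rw [if_neg (by omega)]
  rfl

open Classical in
theorem lb_PL {u : ℕ} (i : ℕ) : lb (PL M y b k L) i u = decide (pf M y b k L i u) := by
  show (if (2 * i) % 2 = 0 then decide (u = u ∧ pf M y b k L (2 * i / 2) u) else _) = _
  rw [if_pos (by omega), show 2 * i / 2 = i by omega]
  simp

theorem fl_PL {u : ℕ} (i : ℕ) (h : u ≠ v) : (PL M y b k L).2 (2 * i + 1) ![u, v] = false := by
  classical
  show (if (2 * i) % 2 = 0 then decide (u = v ∧ pf M y b k L (2 * i / 2) u) else _) = _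
  rw [if_pos (by omega)]
  simp [h]

/-- Equivalent children are isomorphic. -/
theorem t_ST1 (hT : S_TRF) : S_ST1 := by
  classical
  intro n S l M M' y b y' b' k L L' p hCF hLev hom hM hM' hyb hTh hl hfin hy hb hz hBF u hu hux
  have hc := hM.cr
  have hc' := hM'.cr
  obtain ⟨x, x'⟩ := u
  have hx : x ∈ Se M y b := hux
  have hxb : x ≠ b := fun h => se_b hc hyb (h ▸ hx)
  obtain ⟨us, hus, hlen⟩ := hM.exRp hxb
  obtain ⟨us', hl', -, hB⟩ := hBF.forth_list us hlen (fun _ _ => mem_univ _)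
  have hP := hB.piso
  have ex1 : (x, x') ∈ p ∪ zipSet us us' := Or.inl hu
  have eb1 : (b, b') ∈ p ∪ zipSet us us' := Or.inl hb
  have ey1 : (y, y') ∈ p ∪ zipSet us us' := Or.inl hy
  obtain ⟨q, hq⟩ : ∃ q : Set (ℕ × ℕ), q = {v | v ∈ p ∪ zipSet us us' ∧ v.1 ∈ Cn M x b} := ⟨_, rfl⟩
  have hqp : q ⊆ p ∪ zipSet us us' := by
    rw [hq]
    exact fun v hv => hv.1
  have hqX : q ⊆ Cn M x b ×ˢ Cn M' x' b' := by
    rw [hq]
    rintro ⟨v, v'⟩ ⟨hv, hv1⟩
    exact ⟨hv1, (PIso_D hP ex1 hv eb1).1 hv1⟩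
  have hfin1 : (p ∪ zipSet us us').Finite := hfin.union (List.finite_toSet _)
  have hB2 := resPcCn (q := q) hom ex1 eb1 (by rw [univ_inter, univ_inter]; exact hqX) hqp hB
  rw [univ_inter, univ_inter] at hB2
  obtain ⟨r, hqr, hr2, hr3, hr4, hr5⟩ := hLev _ _ _ _ q (hTh x hx) (hfin1.subset hqp) hqX hB2
  refine ⟨r, ?_, hr2, ?_, hr4, hr5⟩
  · intro v hv
    apply hqr
    rw [hq]
    exact ⟨Or.inl hv.1, hv.2⟩
  have hx' : x' ∈ Se M' y' b' := by
    have h1 := (hT n M M' y b y' b' k L L' (p ∪ zipSet us us') hM hM' hyb hl ey1 eb1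
      (hz.trans subset_union_left) (hB.mono (Ordinal.one_lt_omega0.le.trans hom))).1 (x, x') ex1
    exact h1.1 hx
  -- the properties
  have hpf : ∀ j, ∀ v ∈ r, (pf M y b k L j v.1 ↔ pf M' y' b' k L' j v.2) := by
    rintro j ⟨v, v'⟩ hv
    have hv1 : v ∈ Cn M x b := (hr2 hv).1
    have hv2 : v' ∈ Cn M' x' b' := (hr2 hv).2
    obtain ⟨i, hi, h1⟩ := hus.ex hv1
    have hg : us[i] ∈ Cn M x b := hus.mem hi
    have hmem : (us[i], us'[i]'(by omega)) ∈ p ∪ zipSet us us' := by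
      right
      show _ ∈ us.zip us'
      rw [List.mem_iff_getElem]
      exact ⟨i, by simp; omega, by simp⟩
    have hmq : (us[i], us'[i]'(by omega)) ∈ q := by
      rw [hq]
      exact ⟨hmem, hg⟩
    have h2 := hr3.2.1 _ (hqr hmq) _ hv
    simp only at h2
    have h3 : er M univ (Cn M x b) us[i] v := pc1.1 h1
    have h4 : er M' univ (Cn M' x' b') (us'[i]'(by omega)) v' := pc1.1 (h2 ▸ h1)
    have hg' : us'[i]'(by omega) ∈ Cn M' x' b' := (hqX hmq).2
    have h5 := (hT n M M' y b y' b' k L L' (p ∪ zipSet us us') hM hM' hyb hl ey1 eb1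
      (hz.trans subset_union_left) (hB.mono (Ordinal.one_lt_omega0.le.trans hom))).2.2.2.2.2 j _ hmem
    simp only at h5 ⊢
    constructor
    · intro h6
      have h7 := pf_er hM hx hv1 hg (er_symm hM.eqv (mem_univ _) (mem_univ _) h3) h6
      exact pf_er hM' hx' hg' hv2 h4 (h5.1 h7)
    · intro h6
      have h7 := pf_er hM' hx' hv2 hg' (er_symm hM'.eqv (mem_univ _) (mem_univ _) h4) h6
      exact pf_er hM hx hg hv1 h3 (h5.2 h7)
  have h1eq : ∀ (N : T) (y b k : ℕ) (L : List ℕ) (z : ℕ), Cr N → ∀ u ∈ Cn N z b, ∀ v ∈ Cn N z b,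
      (PL N y b k L).1 u v = (pc N univ (Cn N z b)).1 u v := by
    intro N y b k L z hN u hu v hv
    rw [Bool.eq_iff_iff, pc1]
    show decide (D N u v b ∧ er N univ (Cn N u b) u v) = true ↔ _
    rw [decide_eq_true_iff]
    have e1 : Cn N u b = Cn N z b := hN.Cn_eq (hN.symm _ _ _ hu)
    rw [e1]
    exact ⟨fun h => h.2, fun h => ⟨cn_same hN hu hv, h⟩⟩
  refine PIso_mk hr3.1 ?_ ?_ ?_ (fun j u _ v _ h => fl_PL j h) (fun j u _ v _ h => fl_PL j h) ?_
  · intro u hu v hv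
    rw [h1eq M y b k L x hc u.1 (hr2 hu).1 v.1 (hr2 hv).1,
      h1eq M' y' b' k L' x' hc' u.2 (hr2 hu).2 v.2 (hr2 hv).2]
    exact hr3.2.1 u hu v hv
  · intro u hu v hv w hw
    have h := PIso_D hr3 (x := u.1) (x' := u.2) (y := v.1) (y' := v.2) (z := w.1) (z' := w.2) hu hv hw
    exact h
  · intro j u hu
    rw [lb_PL, lb_PL]
    exact decide_eq_decide.2 (hpf j u hu)
  · intro i u hu v hv
    rw [R_PL, R_PL]
    have h := PIso_R hr3 i (x := u.1) (x' := u.2) (y := v.1) (y' := v.2) hu hv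
    rwa [R_pc, R_pc] at h

end Pool.Agent.N643.TD
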