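import Pool.Agent.N643.TD.TRF
import Pool.Agent.N643.TD.ST1

set_option autoImplicit false

/-!
# Local isomorphisms are partial isomorphisms of the level (project TD, helper407)
-/

namespace Pool.Agent.N643.TD

open Set
open Pool.Agent.H899R2.VP

variable {M : T} {n y b k x g v w a i u : ℕ} {L : List ℕ}

theorem se_mut (h : Cr M) (hv : v ∈ Se M y b) (hw : w ∈ Se M y b) : ¬ D M v b w := by
  intro h1
  rcases h.c3 _ _ _ h1 y with h2 | h2
  · exact hv.2 (h.symm _ _ _ h2)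
  · exact hw.1 h2

theorem pf_0 : pf M y b k L (Nat.pair a (Nat.pair 0 i)) u ↔ Ag M y b (L.take k) (L.getD a y) u := by
  unfold pf
  simp only [Nat.unpair_pair]

theorem pf_1 : pf M y b k L (Nat.pair a (Nat.pair 1 i)) u ↔ er M univ (Se M y b) (L.getD a y) u := by
  unfold pf
  simp only [Nat.unpair_pair]

theorem pf_3 : pf M y b k L (Nat.pair a (Nat.pair 3 i)) u ↔
    (¬ D M (L.getD a y) u b ∧ R M i (L.getD a y) u = true) := by
  unfold pf
  simp only [Nat.unpair_pair]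

theorem pf_4 : pf M y b k L (Nat.pair a (Nat.pair 4 i)) u ↔
    (¬ D M (L.getD a y) u b ∧ R M i u (L.getD a y) = true) := by
  unfold pf
  simp only [Nat.unpair_pair]

/-- Locally isomorphic sets of pairs are partial isomorphisms. -/
theorem t_ST2 : S_ST2 := by
  classical
  intro n M M' y b y' b' k L L' p hM hM' hyb hyb' hl hRf hRf' hz hpV hD hI
  have hc := hM.cr
  have hc' := hM'.cr
  have hV1 : ∀ u ∈ p, u.1 ∈ Se M y b := fun u hu => (hpV hu).1
  have hV2 : ∀ u ∈ p, u.2 ∈ Se M' y' b' := fun u hu => (hpV hu).2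
  have hn1 : ∀ u ∈ p, D M u.1 u.1 b := fun u hu => hc.refl _ _ (fun h => se_b hc hyb (h ▸ hV1 u hu))
  have hn2 : ∀ u ∈ p, D M' u.2 u.2 b' := fun u hu => hc'.refl _ _ (fun h => se_b hc' hyb' (h ▸ hV2 u hu))
  have hPu : ∀ u ∈ p, PIso (PL M y b k L) (PL M' y' b' k L') {v | v ∈ p ∧ v.1 ∈ Cn M u.1 b} := by
    intro u hu
    obtain ⟨q, hq1, -, hq3, -⟩ := hI u hu
    exact hq3.mono hq1
  have hself : ∀ u ∈ p, u ∈ {v | v ∈ p ∧ v.1 ∈ Cn M u.1 b} := fun u hu => ⟨hu, hn1 u hu⟩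
  have hpf : ∀ j, ∀ u ∈ p, (pf M y b k L j u.1 ↔ pf M' y' b' k L' j u.2) := by
    intro j u hu
    have h1 := PIso_lb (hPu u hu) j (x := u.1) (x' := u.2) (hself u hu)
    rw [lb_PL, lb_PL] at h1
    exact decide_eq_decide.1 h1
  have hget : ∀ (a : ℕ) (ha : a < L.length), L.getD a y = L[a] := fun a ha => List.getD_eq_getElem _ _ ha
  have hget' : ∀ (a : ℕ) (ha : a < L.length), L'.getD a y' = L'[a]'(hl ▸ ha) :=
    fun a ha => List.getD_eq_getElem _ _ (hl ▸ ha)
  have hk3 : ∀ (a : ℕ) (ha : a < L.length), ∀ v ∈ p, ¬ D M L[a] v.1 b → ∀ i,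
      R M i L[a] v.1 = R M' i (L'[a]'(hl ▸ ha)) v.2 := by
    intro a ha v hv hn i
    have h1 := hpf (Nat.pair a (Nat.pair 3 i)) v hv
    rw [pf_3, pf_3, hget a ha, hget' a ha] at h1
    have h2 := hD _ (zget hl hz ha) v hv
    simp only at h2
    rw [Bool.eq_iff_iff]
    constructor
    · intro h3
      exact (h1.1 ⟨hn, h3⟩).2
    · intro h3
      exact (h1.2 ⟨fun h4 => hn (h2.2 h4), h3⟩).2
  have hk4 : ∀ (a : ℕ) (ha : a < L.length), ∀ v ∈ p, ¬ D M L[a] v.1 b → ∀ i,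
      R M i v.1 L[a] = R M' i v.2 (L'[a]'(hl ▸ ha)) := by
    intro a ha v hv hn i
    have h1 := hpf (Nat.pair a (Nat.pair 4 i)) v hv
    rw [pf_4, pf_4, hget a ha, hget' a ha] at h1
    have h2 := hD _ (zget hl hz ha) v hv
    simp only at h2
    rw [Bool.eq_iff_iff]
    constructor
    · intro h3
      exact (h1.1 ⟨hn, h3⟩).2
    · intro h3
      exact (h1.2 ⟨fun h4 => hn (h2.2 h4), h3⟩).2
  -- exceptional children: a representative
  have hexc : ∀ v ∈ p, Ex M b (L.take k) v.1 → ∃ (a : ℕ) (ha : a < L.length), D M L[a] v.1 b ∧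
      er M univ (Cn M v.1 b) L[a] v.1 ∧ er M' univ (Cn M' v.2 b') (L'[a]'(hl ▸ ha)) v.2 := by
    intro v hv hE
    obtain ⟨g, hg, h1, h2⟩ := hRf.exc v.1 (hV1 v hv) hE
    obtain ⟨a, ha, rfl⟩ := List.getElem_of_mem hg
    refine ⟨a, ha, h1, h2, ?_⟩
    have m1 : (L[a], L'[a]'(hl ▸ ha)) ∈ {w | w ∈ p ∧ w.1 ∈ Cn M v.1 b} :=
      ⟨zget hl hz ha, hc.symm _ _ _ h1⟩
    have h3 := (hPu v hv).2.1 _ m1 v (hself v hv)
    have h4 : (PL M y b k L).1 L[a] v.1 = true := by
      show decide (D M L[a] v.1 b ∧ er M univ (Cn M L[a] b) L[a] v.1) = true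
      rw [decide_eq_true_iff]
      refine ⟨h1, ?_⟩
      rw [hc.Cn_eq h1]
      exact h2
    simp only at h3
    rw [h4] at h3
    have h5 : decide (D M' (L'[a]'(hl ▸ ha)) v.2 b' ∧ er M' univ (Cn M' (L'[a]'(hl ▸ ha)) b') (L'[a]'(hl ▸ ha)) v.2) =
        true := h3.symm
    rw [decide_eq_true_iff] at h5
    rw [← hc'.Cn_eq h5.1]
    exact h5.2
  have hExiff : ∀ v ∈ p, Ex M' b' (L'.take k) v.2 → Ex M b (L.take k) v.1 := by
    rintro v hv ⟨f', hf', h1⟩
    obtain ⟨f, hf, h2⟩ := ztake' hl hz k hf'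
    exact ⟨f, hf, (hD _ h2 v hv).2 h1⟩
  -- the relations
  have hRR : ∀ u ∈ p, ∀ v ∈ p, ∀ i, R M i u.1 v.1 = R M' i u.2 v.2 := by
    intro u hu v hv i
    by_cases huv : D M u.1 v.1 b
    · have h1 := PIso_R (hPu u hu) i (x := u.1) (x' := u.2) (y := v.1) (y' := v.2) (hself u hu) ⟨hv, huv⟩
      rwa [R_PL, R_PL] at h1
    have huv' : ¬ D M' u.2 v.2 b' := fun h => huv ((hD u hu v hv).2 h)
    have hvu : ¬ D M v.1 u.1 b := fun h => huv (hc.symm _ _ _ h)
    have hvu' : ¬ D M' v.2 u.2 b' := fun h => huv' (hc'.symm _ _ _ h)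
    by_cases hEv : Ex M b (L.take k) v.1
    · obtain ⟨a, ha, h1, h2, h3⟩ := hexc v hv hEv
      have h4 := (h2.2.2 u.1 (mem_univ _) hvu i).2
      have h5 := (h3.2.2 u.2 (mem_univ _) hvu' i).2
      have h6 : ¬ D M L[a] u.1 b := fun h => huv (hc.trans (hc.symm _ _ _ h) h1)
      rw [← h4, ← h5]
      exact hk4 a ha u hu h6 i
    by_cases hEu : Ex M b (L.take k) u.1
    · obtain ⟨a, ha, h1, h2, h3⟩ := hexc u hu hEu
      have h4 := (h2.2.2 v.1 (mem_univ _) huv i).1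
      have h5 := (h3.2.2 v.2 (mem_univ _) huv' i).1
      have h6 : ¬ D M L[a] v.1 b := fun h => huv (hc.trans (hc.symm _ _ _ h1) h)
      rw [← h4, ← h5]
      exact hk3 a ha v hv h6 i
    · have key : ∀ (a : ℕ) (ha : a < L.length), ¬ D M L[a] v.1 b → Ag M y b (L.take k) L[a] u.1 →
          R M i u.1 v.1 = R M' i u.2 v.2 := by
        intro a ha h1 h2
        have h3 := (h2 v.1 (hV1 v hv) hEv h1 huv i).1
        have h4 : Ag M' y' b' (L'.take k) (L'[a]'(hl ▸ ha)) u.2 := by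
          have h5 := hpf (Nat.pair a (Nat.pair 0 0)) u hu
          rw [pf_0, pf_0, hget a ha, hget' a ha] at h5
          exact h5.1 h2
        have h6 : ¬ D M' (L'[a]'(hl ▸ ha)) v.2 b' := fun h => h1 ((hD _ (zget hl hz ha) v hv).2 h)
        have h5 := (h4 v.2 (hV2 v hv) (fun h => hEv (hExiff v hv h)) h6 huv' i).1
        rw [← h3, ← h5]
        exact hk3 a ha v hv h1 i
      obtain ⟨g1, hg1, g2, hg2, g3, hg3, h12, h13, h23, a1, a2, a3⟩ := hRf.reg u.1 (hV1 u hu) hEu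
      by_cases hv1 : D M g1 v.1 b
      · obtain ⟨a, ha, rfl⟩ := List.getElem_of_mem hg2
        exact key a ha (fun h => h12 (hc.trans hv1 (hc.symm _ _ _ h))) a2
      · obtain ⟨a, ha, rfl⟩ := List.getElem_of_mem hg1
        exact key a ha hv1 a1
  refine PIso_mk ?_ ?_ ?_ (fun j u _ => by rw [lb_pc, lb_pc]) (fun j u _ v _ _ => fl_pc j)
    (fun j u _ v _ _ => fl_pc j) (fun i u hu v hv => by rw [R_pc, R_pc]; exact hRR u hu v hv i)
  · intro u hu v hv
    by_cases huv : D M u.1 v.1 b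
    · exact (hPu u hu).1 u (hself u hu) v ⟨hv, huv⟩
    · have huv' : ¬ D M' u.2 v.2 b' := fun h => huv ((hD u hu v hv).2 h)
      constructor
      · intro h
        exact absurd (h ▸ hn1 u hu) huv
      · intro h
        exact absurd (h ▸ hn2 u hu) huv'
  · intro u hu v hv
    rw [Bool.eq_iff_iff, pc1, pc1]
    obtain ⟨g, hg, h1⟩ := hRf.row u.1 (hV1 u hu)
    obtain ⟨a, ha, rfl⟩ := List.getElem_of_mem hg
    have h2 : ∀ w ∈ p, (er M univ (Se M y b) L[a] w.1 ↔ er M' univ (Se M' y' b') (L'[a]'(hl ▸ ha)) w.2) := by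
      intro w hw
      have h5 := hpf (Nat.pair a (Nat.pair 1 0)) w hw
      rwa [pf_1, pf_1, hget a ha, hget' a ha] at h5
    have h3 := (h2 u hu).1 h1
    constructor
    · intro h4
      exact er_trans hM'.eqv (mem_univ _) (mem_univ _) (mem_univ _)
        (er_symm hM'.eqv (mem_univ _) (mem_univ _) h3)
        ((h2 v hv).1 (er_trans hM.eqv (mem_univ _) (mem_univ _) (mem_univ _) h1 h4))
    · intro h4
      exact er_trans hM.eqv (mem_univ _) (mem_univ _) (mem_univ _)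
        (er_symm hM.eqv (mem_univ _) (mem_univ _) h1)
        ((h2 v hv).2 (er_trans hM'.eqv (mem_univ _) (mem_univ _) (mem_univ _) h3 h4))
  · intro u hu v hv w hw
    rw [D_pc, D_pc]
    by_cases huv : D M u.1 v.1 b
    · by_cases huw : D M u.1 w.1 b
      · have h1 := PIso_D (hPu u hu) (x := u.1) (x' := u.2) (y := v.1) (y' := v.2) (z := w.1) (z' := w.2)
          (hself u hu) ⟨hv, huv⟩ ⟨hw, huw⟩
        exact h1
      · have huv' := (hD u hu v hv).1 huv
        have huw' : ¬ D M' u.2 w.2 b' := fun h => huw ((hD u hu w hw).2 h)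
        exact ⟨fun _ => hc'.cin (x := u.2) (z := b') (hn2 u hu) huv' huw',
          fun _ => hc.cin (x := u.1) (z := b) (hn1 u hu) huv huw⟩
    · have huv' : ¬ D M' u.2 v.2 b' := fun h => huv ((hD u hu v hv).2 h)
      constructor
      · intro h
        exfalso
        rcases hc.c3 _ _ _ h b with h1 | h1
        · exact huv h1
        · exact se_mut hc (hV1 v hv) (hV1 w hw) (hc.symm _ _ _ h1)
      · intro h
        exfalso
        rcases hc'.c3 _ _ _ h b' with h1 | h1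
        · exact huv' h1
        · exact se_mut hc' (hV2 v hv) (hV2 w hw) (hc'.symm _ _ _ h1)

end Pool.Agent.N643.TD
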