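import Pool.Agent.N643.TD.STD

/-!
# STR: the structure of a level up to partial isomorphisms (leaf 4399, helper27)
-/

set_option autoImplicit false

namespace Pool.Agent.N643.TD

open Set
open Pool.Agent.H899R2.VP
open Pool.Agent.H533R2.VO (Lev)


/-! ### Children of a level -/

section se

variable {M M' : T} {y b y' b' u v w x : ℕ}

theorem str_ne (h : Cr M) (hyb : y ≠ b) (hw : w ∈ Se M y b) : w ≠ b := by
  rintro rfl
  exact hw.2 (h.refl w y hyb.symm)

/-- The children are contained in the level. -/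
theorem str_mem (h : Cr M) (hw : w ∈ Se M y b) (hv : D M w v b) : v ∈ Se M y b := by
  refine ⟨fun h1 => ?_, fun h1 => ?_⟩
  · rcases h.c3 _ _ _ h1 w with h2 | h2
    · exact hw.1 h2
    · exact h.c2 _ _ _ hv h2
  · rcases h.c3 _ _ _ hv y with h2 | h2
    · exact hw.2 (h.trans h1 (h.symm _ _ _ h2))
    · exact h.c2 _ _ _ (h.symm _ _ _ h1) (h.symm _ _ _ h2)

theorem str_Cn_sub (h : Cr M) (hw : w ∈ Se M y b) : Cn M w b ⊆ Se M y b := fun _ hv =>
  str_mem h hw hv

theorem str_iff {p : Set (ℕ × ℕ)} (h : PIso M M' p) (hy : (y, y') ∈ p) (hb : (b, b') ∈ p)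
    (hu : (u, v) ∈ p) : u ∈ Se M y b ↔ v ∈ Se M' y' b' :=
  and_congr (not_congr (PIso_D h hy hb hu)) (not_congr (PIso_D h hb hu hy))

end se

/-! ### The system -/

/-- The system of partial isomorphisms. -/
structure Sys (M M' : T) (y b y' b' k : ℕ) (L L' : List ℕ) (q0 q : Set (ℕ × ℕ)) : Prop where
  fin : q.Finite
  sub : q0 ⊆ q
  dom : q ⊆ Se M y b ×ˢ Se M' y' b'
  D : ∀ u ∈ q, ∀ v ∈ q, (D M u.1 v.1 b ↔ D M' u.2 v.2 b')
  iso : ∀ u ∈ q, IsoOn (PL M y b k L) (PL M' y' b' k L') (Cn M u.1 b) (Cn M' u.2 b')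
    {v | v ∈ q ∧ v.1 ∈ Cn M u.1 b}

theorem Sys.symm {M M' : T} {y b y' b' k : ℕ} {L L' : List ℕ} {q0 q : Set (ℕ × ℕ)}
    (h : Sys M M' y b y' b' k L L' q0 q) :
    Sys M' M y' b' y b k L' L (inv q0) (inv q) where
  fin := by
    have : inv q = Prod.swap ⁻¹' q := rfl
    rw [this]
    exact h.fin.preimage Prod.swap_injective.injOn
  sub := inv_mono h.sub
  dom := fun u hu => ⟨(h.dom hu).2, (h.dom hu).1⟩
  D := fun u hu v hv => (h.D _ hu _ hv).symm
  iso := by
    intro u hu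
    have h1 := (h.iso _ hu).symm
    refine h1.mono ?_
    rintro v ⟨hv1, hv2⟩
    exact ⟨hv1, (h.D _ hu _ hv1).2 hv2⟩

/-- The hypotheses. -/
structure SH (n : ℕ) (S : Set (T × Set ℕ)) (l : Ordinal.{0}) (M M' : T) (y b y' b' : ℕ)
    (L L' : List ℕ) (p : Set (ℕ × ℕ)) : Prop where
  cf : CF S
  lev : Lev S l
  om : Ordinal.omega0 ≤ l
  cs : CsOn n M univ
  cs' : CsOn n M' univ
  ne : y ≠ b
  ne' : y' ≠ b'
  th : Th S M y b
  th' : Th S M' y' b'
  len : L.length = L'.length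
  fin : p.Finite
  my : (y, y') ∈ p
  mb : (b, b') ∈ p
  mL : zipSet L L' ⊆ p
  bf : BF M M' univ univ (l + Ordinal.omega0) p

theorem SH.symm {n : ℕ} {S : Set (T × Set ℕ)} {l : Ordinal.{0}} {M M' : T} {y b y' b' : ℕ}
    {L L' : List ℕ} {p : Set (ℕ × ℕ)} (h : SH n S l M M' y b y' b' L L' p) :
    SH n S l M' M y' b' y b L' L (inv p) where
  cf := h.cf
  lev := h.lev
  om := h.om
  cs := h.cs'
  cs' := h.cs
  ne := h.ne'
  ne' := h.ne
  th := h.th'
  th' := h.th
  len := h.len.symm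
  fin := by
    have : inv p = Prod.swap ⁻¹' p := rfl
    rw [this]
    exact h.fin.preimage Prod.swap_injective.injOn
  my := h.my
  mb := h.mb
  mL := by
    rw [← inv_zipSet]
    exact inv_mono h.mL
  bf := h.bf.symm

theorem str_zip_fin (s t : List ℕ) : (zipSet s t).Finite := List.finite_toSet _

/-- A list of representatives. -/
theorem str_reps (r : ℕ → ℕ → Prop) (A : Set ℕ) (F : Finset ℕ) (hF : ∀ a ∈ F, a ∈ A)
    (hs : ∀ a ∈ A, ∀ c ∈ A, r a c → r c a) (hr : ∀ a ∈ A, r a a) :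
    ∃ vs : List ℕ, (∀ v ∈ vs, v ∈ F) ∧ vs.Pairwise (fun v w => ¬ r v w) ∧
      ∀ a ∈ F, ∃ v ∈ vs, r v a := by
  classical
  induction F using Finset.induction_on with
  | empty => exact ⟨[], by simp, List.Pairwise.nil, by simp⟩
  | insert a F ha ih =>
    obtain ⟨vs, h1, h2, h3⟩ := ih fun c hc => hF c (Finset.mem_insert_of_mem hc)
    have haA := hF a (Finset.mem_insert_self a F)
    by_cases h : ∃ v ∈ vs, r v a
    · refine ⟨vs, fun v hv => Finset.mem_insert_of_mem (h1 v hv), h2, fun c hc => ?_⟩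
      rcases Finset.mem_insert.1 hc with rfl | hc
      · exact h
      · exact h3 c hc
    · push Not at h
      refine ⟨a :: vs, ?_, ?_, ?_⟩
      · intro v hv
        rcases List.mem_cons.1 hv with rfl | hv
        · exact Finset.mem_insert_self _ _
        · exact Finset.mem_insert_of_mem (h1 v hv)
      · refine List.Pairwise.cons (fun v hv h4 => h v hv ?_) h2
        exact hs a haA v (hF v (Finset.mem_insert_of_mem (h1 v hv))) h4
      · intro c hc
        rcases Finset.mem_insert.1 hc with rfl | hc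
        · exact ⟨c, List.mem_cons_self, hr c haA⟩
        · obtain ⟨v, hv, h4⟩ := h3 c hc
          exact ⟨v, List.mem_cons_of_mem _ hv, h4⟩

section forth

variable {n : ℕ} {S : Set (T × Set ℕ)} {l : Ordinal.{0}} {M M' : T} {y b y' b' k : ℕ}
    {L L' : List ℕ} {p q0 q : Set (ℕ × ℕ)} {x : ℕ}

/-- Adding a pair in a new child. -/
theorem str_new (H : SH n S l M M' y b y' b' L L' p) (hq : Sys M M' y b y' b' k L L' q0 q)
    (hx : x ∈ Se M y b) (hnx : ∀ u ∈ q, ¬ D M u.1 x b) {z : ℕ} (hz : z ∈ Se M' y' b')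
    (hnz : ∀ u ∈ q, ¬ D M' u.2 z b')
    (hi : IsoOn (PL M y b k L) (PL M' y' b' k L') (Cn M x b) (Cn M' z b') ∅) :
    ∃ q', Sys M M' y b y' b' k L L' q0 q' ∧ q ⊆ q' ∧ ∃ x', (x, x') ∈ q' := by
  have hC := H.cs.cr
  have hC' := H.cs'.cr
  have hxb : x ≠ b := str_ne hC H.ne hx
  have hzb : z ≠ b' := str_ne hC' H.ne' hz
  obtain ⟨r, -, hr2, hr3, hr4, hr5⟩ := hi
  obtain ⟨x', hx'⟩ := hr4 x (hC.self_mem hxb)
  have hzx : D M' z x' b' := (hr2 hx').2
  have hCe : Cn M' z b' = Cn M' x' b' := hC'.Cn_eq hzx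
  have hx'V : x' ∈ Se M' y' b' := str_mem hC' hz hzx
  have hx'b : x' ≠ b' := str_ne hC' H.ne' hx'V
  have hnx' : ∀ u ∈ q, ¬ D M' u.2 x' b' := fun u hu h =>
    hnz u hu (hC'.trans h (hC'.symm _ _ _ hzx))
  refine ⟨insert (x, x') q, ⟨hq.fin.insert _, hq.sub.trans (subset_insert _ _), ?_, ?_, ?_⟩,
    subset_insert _ _, x', mem_insert _ _⟩
  · rintro u (rfl | hu)
    · exact ⟨hx, hx'V⟩
    · exact hq.dom hu
  · rintro u (rfl | hu) v (rfl | hv)
    · exact ⟨fun _ => hC'.refl _ _ hx'b, fun _ => hC.refl _ _ hxb⟩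
    · exact ⟨fun h => absurd (hC.symm _ _ _ h) (hnx v hv),
        fun h => absurd (hC'.symm _ _ _ h) (hnx' v hv)⟩
    · exact ⟨fun h => absurd h (hnx u hu), fun h => absurd h (hnx' u hu)⟩
    · exact hq.D u hu v hv
  · rintro u (rfl | hu)
    · rw [hCe] at hr2 hr5
      refine ⟨r, ?_, hr2, hr3, hr4, hr5⟩
      rintro v ⟨hv1, hv2⟩
      rcases hv1 with rfl | hv1
      · exact hx'
      · exact absurd (hC.symm _ _ _ hv2) (hnx v hv1)
    · refine (hq.iso u hu).mono ?_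
      rintro v ⟨hv1, hv2⟩
      rcases hv1 with rfl | hv1
      · exact absurd hv2 (hnx u hu)
      · exact ⟨hv1, hv2⟩

/-- Adding a pair in an old child. -/
theorem str_old (H : SH n S l M M' y b y' b' L L' p) (hq : Sys M M' y b y' b' k L L' q0 q)
    (hx : x ∈ Se M y b) {u : ℕ × ℕ} (hu : u ∈ q) (hux : D M u.1 x b) :
    ∃ q', Sys M M' y b y' b' k L L' q0 q' ∧ q ⊆ q' ∧ ∃ x', (x, x') ∈ q' := by
  have hC := H.cs.cr
  have hC' := H.cs'.cr
  have hxb : x ≠ b := str_ne hC H.ne hx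
  obtain ⟨r, hr1, hr2, hr3, hr4, hr5⟩ := hq.iso u hu
  obtain ⟨x', hx'⟩ := hr4 x hux
  have hux' : D M' u.2 x' b' := (hr2 hx').2
  have hx'V : x' ∈ Se M' y' b' := str_mem hC' (hq.dom hu).2 hux'
  have hx'b : x' ≠ b' := str_ne hC' H.ne' hx'V
  have key : ∀ v ∈ q, (D M v.1 x b ↔ D M' v.2 x' b') := by
    intro v hv
    constructor
    · intro h
      have h1 : D M v.1 u.1 b := hC.trans h (hC.symm _ _ _ hux)
      exact hC'.trans ((hq.D v hv u hu).1 h1) hux'
    · intro h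
      have h1 : D M' v.2 u.2 b' := hC'.trans h (hC'.symm _ _ _ hux')
      exact hC.trans ((hq.D v hv u hu).2 h1) hux
  refine ⟨insert (x, x') q, ⟨hq.fin.insert _, hq.sub.trans (subset_insert _ _), ?_, ?_, ?_⟩,
    subset_insert _ _, x', mem_insert _ _⟩
  · rintro w (rfl | hw)
    · exact ⟨hx, hx'V⟩
    · exact hq.dom hw
  · rintro w (rfl | hw) v (rfl | hv)
    · exact ⟨fun _ => hC'.refl _ _ hx'b, fun _ => hC.refl _ _ hxb⟩
    · exact ⟨fun h => hC'.symm _ _ _ ((key v hv).1 (hC.symm _ _ _ h)),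
        fun h => hC.symm _ _ _ ((key v hv).2 (hC'.symm _ _ _ h))⟩
    · exact key w hw
    · exact hq.D w hw v hv
  · -- the child of `u`
    have hgood : ∀ w : ℕ × ℕ, D M u.1 w.1 b → D M' u.2 w.2 b' →
        IsoOn (PL M y b k L) (PL M' y' b' k L') (Cn M w.1 b) (Cn M' w.2 b')
          {v | v ∈ insert (x, x') q ∧ v.1 ∈ Cn M w.1 b} := by
      intro w h1 h2
      rw [← hC.Cn_eq h1, ← hC'.Cn_eq h2]
      refine ⟨r, ?_, hr2, hr3, hr4, hr5⟩
      rintro v ⟨hv1, hv2⟩
      rcases hv1 with rfl | hv1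
      · exact hx'
      · exact hr1 ⟨hv1, hv2⟩
    rintro w (rfl | hw)
    · exact hgood _ hux hux'
    · by_cases h : D M u.1 w.1 b
      · exact hgood w h ((hq.D u hu w hw).1 h)
      · refine (hq.iso w hw).mono ?_
        rintro v ⟨hv1, hv2⟩
        rcases hv1 with rfl | hv1
        · exact absurd (hC.trans hux (hC.symm _ _ _ hv2)) h
        · exact ⟨hv1, hv2⟩

theorem str_forth (h4 : S_ST1) (H : SH n S l M M' y b y' b' L L' p)
    (hq : Sys M M' y b y' b' k L L' q0 q) (hx : x ∈ Se M y b) :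
    ∃ q', Sys M M' y b y' b' k L L' q0 q' ∧ q ⊆ q' ∧ ∃ x', (x, x') ∈ q' := by
  classical
  have hC := H.cs.cr
  have hC' := H.cs'.cr
  by_cases hold : ∃ u ∈ q, D M u.1 x b
  · obtain ⟨u, hu, hux⟩ := hold
    exact str_old H hq hx hu hux
  push Not at hold
  have hxb : x ≠ b := str_ne hC H.ne hx
  -- the points of `q` of the type of `x`
  have hfst : (Prod.fst '' q).Finite := hq.fin.image _
  set F : Finset ℕ := hfst.toFinset.filter fun v =>
    IsoOn (PL M y b k L) (PL M y b k L) (Cn M v b) (Cn M x b) ∅ with hF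
  have hFm : ∀ v, v ∈ F ↔ (∃ u ∈ q, u.1 = v) ∧
      IsoOn (PL M y b k L) (PL M y b k L) (Cn M v b) (Cn M x b) ∅ := by
    intro v
    rw [hF, Finset.mem_filter, Set.Finite.mem_toFinset]
    rfl
  have hFV : ∀ v ∈ F, v ∈ Se M y b := by
    intro v hv
    obtain ⟨⟨u, hu, rfl⟩, -⟩ := (hFm v).1 hv
    exact (hq.dom hu).1
  obtain ⟨vs, hv1, hv2, hv3⟩ := str_reps (fun v w => D M v w b) (Se M y b) F hFV
    (fun a _ c _ h => hC.symm _ _ _ h) (fun a ha => hC.refl _ _ (str_ne hC H.ne ha))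
  -- the list `x :: vs`
  have hws : (x :: vs).Pairwise fun v w => ¬ D M v w b := by
    refine List.Pairwise.cons (fun v hv h => ?_) hv2
    obtain ⟨⟨u, hu, rfl⟩, -⟩ := (hFm v).1 (hv1 v hv)
    exact hold u hu (hC.symm _ _ _ h)
  have hwV : ∀ v ∈ x :: vs, v ∈ Se M y b := by
    intro v hv
    rcases List.mem_cons.1 hv with rfl | hv
    · exact hx
    · exact hFV v (hv1 v hv)
  have hwT : ∀ v ∈ x :: vs,
      IsoOn (PL M y b k L) (PL M y b k L) (Cn M v b) (Cn M x b) ∅ := by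
    intro v hv
    rcases List.mem_cons.1 hv with rfl | hv
    · exact (IsoOn.refl _ _).mono (empty_subset _)
    · exact ((hFm v).1 (hv1 v hv)).2
  set ws := x :: vs with hwsd
  have hbf : BF M M' univ univ ((l + (n : Ordinal.{0})) + (ws.length : Ordinal.{0})) p := by
    apply H.bf.mono
    rw [add_assoc, ← Nat.cast_add]
    gcongr
    exact (Ordinal.natCast_lt_omega0 _).le
  obtain ⟨ws', hl, -, hb⟩ := hbf.forth_list ws le_rfl (fun _ _ => mem_univ _)
  set p1 := p ∪ zipSet ws ws' with hp1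
  have hpi : PIso M M' p1 := hb.piso
  have hi1 : ∀ u ∈ p1, u.1 ∈ Se M y b →
      IsoOn (PL M y b k L) (PL M' y' b' k L') (Cn M u.1 b) (Cn M' u.2 b') ∅ := by
    intro u hu huV
    refine (h4 n S l M M' y b y' b' k L L' p1 H.cf H.lev H.om H.cs H.cs' H.ne H.th H.len
      (H.fin.union (str_zip_fin _ _)) (Or.inl H.my) (Or.inl H.mb)
      (H.mL.trans subset_union_left) hb u hu huV).mono (empty_subset _)
  -- pairs by index
  have hpair : ∀ i : Fin ws.length, (ws[i.1], ws'[i.1]'(by rw [hl]; exact i.2)) ∈ p1 := by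
    intro i
    right
    have h1 : i.1 < (ws.zip ws').length := by
      rw [List.length_zip, hl, min_self]
      exact i.2
    have h2 := List.getElem_mem h1
    rw [List.getElem_zip] at h2
    exact h2
  by_cases hex : ∃ i : Fin ws.length, ∀ u ∈ q, ¬ D M' u.2 (ws'[i.1]'(by rw [hl]; exact i.2)) b'
  · obtain ⟨i, hi⟩ := hex
    have hiV : ws[i.1] ∈ Se M y b := hwV _ (List.getElem_mem _)
    refine str_new H hq hx hold
      ((str_iff hpi (Or.inl H.my) (Or.inl H.mb) (hpair i)).1 hiV) hi ?_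
    have h1 := hi1 _ (hpair i) hiV
    have h2 := hwT _ (List.getElem_mem i.2)
    exact ((h2.symm.mono (empty_subset _)).trans h1).mono (empty_subset _)
  · exfalso
    push Not at hex
    choose w hwq hwD using hex
    have hwF : ∀ i, (w i).1 ∈ F := by
      intro i
      rw [hFm]
      refine ⟨⟨w i, hwq i, rfl⟩, ?_⟩
      have hiV : ws[i.1] ∈ Se M y b := hwV _ (List.getElem_mem _)
      have h1 := hi1 _ (hpair i) hiV
      have h2 := hwT _ (List.getElem_mem i.2)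
      have h3 := hq.iso (w i) (hwq i)
      rw [hC'.Cn_eq (hwD i)] at h3
      exact ((h3.trans h1.symm).trans h2).mono (empty_subset _)
    have hj : ∀ i, ∃ j : Fin vs.length, D M vs[j.1] (w i).1 b := by
      intro i
      obtain ⟨v, hv, h⟩ := hv3 _ (hwF i)
      obtain ⟨j, hj, rfl⟩ := List.getElem_of_mem hv
      exact ⟨⟨j, hj⟩, h⟩
    choose j hj using hj
    obtain ⟨i1, i2, hne, heq⟩ := Fintype.exists_ne_map_eq_of_card_lt j (by
      rw [Fintype.card_fin, Fintype.card_fin, hwsd, List.length_cons]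
      exact Nat.lt_succ_self _)
    have h1 : D M (w i1).1 (w i2).1 b := by
      refine hC.trans (hC.symm _ _ _ (hj i1)) ?_
      rw [heq]
      exact hj i2
    have h2 := (hq.D _ (hwq i1) _ (hwq i2)).1 h1
    have h3 : D M' (ws'[i1.1]'(by rw [hl]; exact i1.2)) (ws'[i2.1]'(by rw [hl]; exact i2.2)) b' :=
      hC'.trans (hC'.symm _ _ _ (hwD i1)) (hC'.trans h2 (hwD i2))
    have h4 : D M ws[i1.1] ws[i2.1] b :=
      (PIso_D hpi (hpair i1) (hpair i2) (Or.inl H.mb)).2 h3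
    rw [List.pairwise_iff_getElem] at hws
    rcases lt_trichotomy i1.1 i2.1 with h | h | h
    · exact hws i1.1 i2.1 i1.2 i2.2 h h4
    · exact hne (Fin.ext h)
    · exact hws i2.1 i1.1 i2.2 i1.2 h (hC.symm _ _ _ h4)

end forth

theorem t_STR (h1 : S_REF) (_h2 : S_TRF) (h3 : S_TRR) (h4 : S_ST1) (h5 : S_ST2) (h6 : S_LEV3) :
    S_STR := by
  intro n S hS
  obtain ⟨l, hl1, hl2, hlev⟩ := h6 S hS
  have hp : Ordinal.IsPrincipal (· + ·) (Ordinal.omega 1 : Ordinal.{0}) :=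
    Ordinal.isPrincipal_add_omega 1
  have hω : Ordinal.omega0 < (Ordinal.omega 1 : Ordinal.{0}) := Ordinal.omega0_lt_omega_one
  refine ⟨l + Ordinal.omega0 + Ordinal.omega0, hp (hp hl1 hω) hω,
    hl2.trans (le_self_add.trans le_self_add), ?_⟩
  intro M M' y b y' b' s s' hM hM' hyb hT hT' hs hsV hb
  obtain ⟨k, L, hL⟩ := h1 n M y b hM hyb
  have hb1 : BF M M' univ univ (l + Ordinal.omega0 + (L.length : Ordinal.{0}))
      (insert (y, y') (insert (b, b') (zipSet s s'))) := by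
    apply hb.mono
    gcongr
    exact (Ordinal.natCast_lt_omega0 _).le
  obtain ⟨L', hl', -, hb2⟩ := hb1.forth_list L le_rfl (fun _ _ => mem_univ _)
  set p0 := insert (y, y') (insert (b, b') (zipSet s s')) ∪ zipSet L L' with hp0
  have hmy : (y, y') ∈ p0 := Or.inl (Or.inl rfl)
  have hmb : (b, b') ∈ p0 := Or.inl (Or.inr (Or.inl rfl))
  have hmL : zipSet L L' ⊆ p0 := subset_union_right
  have hms : zipSet s s' ⊆ p0 := fun u hu => Or.inl (Or.inr (Or.inr hu))
  have hpi : PIso M M' p0 := hb2.piso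
  have hyb' : y' ≠ b' := fun h => hyb (hpi.fst_eq hmy hmb h)
  have h2ω : (2 : Ordinal.{0}) ≤ l + Ordinal.omega0 := by
    refine le_trans ?_ (hl2.trans le_self_add)
    have := (Ordinal.natCast_lt_omega0 2).le
    exact_mod_cast this
  have hL' : Ref M' y' b' k L' := h3 n M M' y b y' b' k L L' p0 hM hM' hyb hl'.symm hmy hmb hmL
    (hb2.mono h2ω) hL
  have H : SH n S l M M' y b y' b' L L' p0 :=
    ⟨hS, hlev, hl2, hM, hM', hyb, hyb', hT, hT', hl'.symm,
      (((str_zip_fin s s').insert _).insert _).union (str_zip_fin L L'), hmy, hmb, hmL, hb2⟩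
  set q0 := zipSet s s' ∪ zipSet L L' with hq0
  have hq0p : q0 ⊆ p0 := union_subset hms hmL
  have hq0V : ∀ u ∈ q0, u.1 ∈ Se M y b := by
    rintro u (hu | hu)
    · exact hsV _ (mem_zipSet_left hu)
    · exact hL.sub _ (mem_zipSet_left hu)
  have hSys : Sys M M' y b y' b' k L L' q0 q0 := by
    refine ⟨(str_zip_fin s s').union (str_zip_fin L L'), Subset.rfl, fun u hu =>
      ⟨hq0V u hu, (str_iff hpi hmy hmb (hq0p hu)).1 (hq0V u hu)⟩, fun u hu v hv =>
      PIso_D hpi (hq0p hu) (hq0p hv) hmb, fun u hu => ?_⟩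
    refine (h4 n S l M M' y b y' b' k L L' p0 hS hlev hl2 hM hM' hyb hT hl'.symm H.fin hmy hmb
      hmL (hb2.mono (by gcongr; exact (Ordinal.natCast_lt_omega0 _).le)) u (hq0p hu)
      (hq0V u hu)).mono ?_
    rintro v ⟨hv1, hv2⟩
    exact ⟨hq0p hv1, hv2⟩
  refine (isoOn_of_system {q | Sys M M' y b y' b' k L L' q0 q} hSys ?_ ?_ ?_).mono
    (subset_union_left : zipSet s s' ⊆ q0)
  · intro q hq
    have hq' : Sys M M' y b y' b' k L L' q0 q := hq
    exact ⟨h5 n M M' y b y' b' k L L' q hM hM' hyb hyb' hl'.symm hL hL'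
      ((subset_union_right : zipSet L L' ⊆ q0).trans hq'.sub) hq'.dom hq'.D hq'.iso, hq'.dom⟩
  · intro q hq x hx
    exact str_forth h4 H hq hx
  · intro q hq x hx
    have hq' : Sys M M' y b y' b' k L L' q0 q := hq
    obtain ⟨q', h7, h8, x', h9⟩ := str_forth h4 H.symm hq'.symm hx
    refine ⟨inv q', ?_, ?_, x', h9⟩
    · have := h7.symm
      rwa [inv_inv] at this
    · have := inv_mono h8
      rwa [inv_inv] at this

end Pool.Agent.N643.TD
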