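import Pool.Agent.N643.TD.STD

set_option autoImplicit false

/-!
# Transfer of properties of levels (project TD, helper407)
-/

namespace Pool.Agent.N643.TD

open Set
open Pool.Agent.H899R2.VP

variable {M M' : T} {y b y' b' k : ℕ} {L L' : List ℕ} {p : Set (ℕ × ℕ)} {u u' v v' x x' g g' : ℕ}

theorem zget (hl : L.length = L'.length) (hz : zipSet L L' ⊆ p) {i : ℕ} (hi : i < L.length) :
    (L[i], L'[i]'(hl ▸ hi)) ∈ p := by
  apply hz
  show _ ∈ L.zip L'
  rw [List.mem_iff_getElem]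
  exact ⟨i, by simp; omega, by simp⟩

theorem ztake (hl : L.length = L'.length) (hz : zipSet L L' ⊆ p) (k : ℕ) {f : ℕ}
    (hf : f ∈ L.take k) : ∃ f' ∈ L'.take k, (f, f') ∈ p := by
  obtain ⟨i, hi, rfl⟩ := List.getElem_of_mem hf
  rw [List.length_take] at hi
  refine ⟨(L'.take k)[i]'(by rw [List.length_take]; omega), List.getElem_mem _, ?_⟩
  rw [List.getElem_take, List.getElem_take]
  exact zget hl hz (by omega)

theorem ztake' (hl : L.length = L'.length) (hz : zipSet L L' ⊆ p) (k : ℕ) {f' : ℕ}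
    (hf : f' ∈ L'.take k) : ∃ f ∈ L.take k, (f, f') ∈ p := by
  obtain ⟨i, hi, rfl⟩ := List.getElem_of_mem hf
  rw [List.length_take] at hi
  refine ⟨(L.take k)[i]'(by rw [List.length_take]; omega), List.getElem_mem _, ?_⟩
  rw [List.getElem_take, List.getElem_take]
  exact zget hl hz (by omega)

theorem zmem (hl : L.length = L'.length) (hz : zipSet L L' ⊆ p) {f : ℕ} (hf : f ∈ L) :
    ∃ f' ∈ L', (f, f') ∈ p := by
  obtain ⟨f', h⟩ := exists_zipSet_left hl hf
  exact ⟨f', mem_zipSet_right h, hz h⟩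

theorem zmem' (hl : L.length = L'.length) (hz : zipSet L L' ⊆ p) {f' : ℕ} (hf : f' ∈ L') :
    ∃ f ∈ L, (f, f') ∈ p := by
  obtain ⟨f, h⟩ := exists_zipSet_right hl hf
  exact ⟨f, mem_zipSet_left h, hz h⟩

theorem zgetD (hl : L.length = L'.length) (hz : zipSet L L' ⊆ p) (hy : (y, y') ∈ p) (a : ℕ) :
    (L.getD a y, L'.getD a y') ∈ p := by
  by_cases ha : a < L.length
  · rw [List.getD_eq_getElem _ _ ha, List.getD_eq_getElem _ _ (hl ▸ ha)]
    exact zget hl hz ha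
  · rw [List.getD_eq_default _ _ (not_lt.1 ha), List.getD_eq_default _ _ (hl ▸ not_lt.1 ha)]
    exact hy

theorem se_iff (h : PIso M M' p) (hy : (y, y') ∈ p) (hb : (b, b') ∈ p) (hu : (u, u') ∈ p) :
    u ∈ Se M y b ↔ u' ∈ Se M' y' b' :=
  and_congr (not_congr (PIso_D h hy hb hu)) (not_congr (PIso_D h hb hu hy))

theorem ex_iff (h : PIso M M' p) (hb : (b, b') ∈ p) (hl : L.length = L'.length)
    (hz : zipSet L L' ⊆ p) (hu : (u, u') ∈ p) :
    Ex M b (L.take k) u ↔ Ex M' b' (L'.take k) u' := by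
  constructor
  · rintro ⟨f, hf, h1⟩
    obtain ⟨f', hf', h2⟩ := ztake hl hz k hf
    exact ⟨f', hf', (PIso_D h h2 hu hb).1 h1⟩
  · rintro ⟨f', hf', h1⟩
    obtain ⟨f, hf, h2⟩ := ztake' hl hz k hf'
    exact ⟨f, hf, (PIso_D h h2 hu hb).2 h1⟩

theorem zero_lt_one' : (0 : Ordinal.{0}) < 1 := zero_lt_one

theorem ag_iff (h : BF M M' univ univ 1 p) (hy : (y, y') ∈ p) (hb : (b, b') ∈ p)
    (hl : L.length = L'.length) (hz : zipSet L L' ⊆ p) (hg : (g, g') ∈ p) (hu : (u, u') ∈ p) :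
    Ag M y b (L.take k) g u ↔ Ag M' y' b' (L'.take k) g' u' := by
  constructor
  · intro h1 w' hw' hx hgw huw i
    obtain ⟨w, -, hb'⟩ := h.back zero_lt_one' (mem_univ w')
    have hP := hb'.piso
    have m0 : (w, w') ∈ insert (w, w') p := mem_insert _ _
    have m : ∀ {s s' : ℕ}, (s, s') ∈ p → (s, s') ∈ insert (w, w') p := fun h => mem_insert_of_mem _ h
    have hz' : zipSet L L' ⊆ insert (w, w') p := hz.trans (subset_insert _ _)
    have h2 := h1 w ((se_iff hP (m hy) (m hb) m0).2 hw') (fun h3 => hx ((ex_iff hP (m hb) hl hz' m0).1 h3))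
      (fun h3 => hgw ((PIso_D hP (m hg) m0 (m hb)).1 h3)) (fun h3 => huw ((PIso_D hP (m hu) m0 (m hb)).1 h3)) i
    rw [← PIso_R hP i (m hg) m0, ← PIso_R hP i (m hu) m0, ← PIso_R hP i m0 (m hg), ← PIso_R hP i m0 (m hu)]
    exact h2
  · intro h1 w hw hx hgw huw i
    obtain ⟨w', -, hb'⟩ := h.forth zero_lt_one' (mem_univ w)
    have hP := hb'.piso
    have m0 : (w, w') ∈ insert (w, w') p := mem_insert _ _
    have m : ∀ {s s' : ℕ}, (s, s') ∈ p → (s, s') ∈ insert (w, w') p := fun h => mem_insert_of_mem _ h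
    have hz' : zipSet L L' ⊆ insert (w, w') p := hz.trans (subset_insert _ _)
    have h2 := h1 w' ((se_iff hP (m hy) (m hb) m0).1 hw) (fun h3 => hx ((ex_iff hP (m hb) hl hz' m0).2 h3))
      (fun h3 => hgw ((PIso_D hP (m hg) m0 (m hb)).2 h3)) (fun h3 => huw ((PIso_D hP (m hu) m0 (m hb)).2 h3)) i
    rw [PIso_R hP i (m hg) m0, PIso_R hP i (m hu) m0, PIso_R hP i m0 (m hg), PIso_R hP i m0 (m hu)]
    exact h2

theorem er_iff {Y Y' : Set ℕ} (h : BF M M' univ univ 1 p)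
    (hY : ∀ w w', PIso M M' (insert (w, w') p) → (w ∈ Y ↔ w' ∈ Y')) (hu : (u, u') ∈ p)
    (hv : (v, v') ∈ p) : er M univ Y u v ↔ er M' univ Y' u' v' := by
  have hP := h.piso
  constructor
  · rintro ⟨h1, h2, h3⟩
    refine ⟨?_, fun j => ?_, fun w' _ hw' i => ?_⟩
    · rw [← hP.2.1 (u, u') hu (v, v') hv]
      exact h1
    · rw [← PIso_lb hP j hu, ← PIso_lb hP j hv]
      exact h2 j
    · obtain ⟨w, -, hb'⟩ := h.back zero_lt_one' (mem_univ w')
      have hP' := hb'.piso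
      have m0 : (w, w') ∈ insert (w, w') p := mem_insert _ _
      have mu : (u, u') ∈ insert (w, w') p := mem_insert_of_mem _ hu
      have mv : (v, v') ∈ insert (w, w') p := mem_insert_of_mem _ hv
      rw [← PIso_R hP' i mu m0, ← PIso_R hP' i mv m0, ← PIso_R hP' i m0 mu, ← PIso_R hP' i m0 mv]
      exact h3 w (mem_univ _) (fun h4 => hw' ((hY w w' hP').1 h4)) i
  · rintro ⟨h1, h2, h3⟩
    refine ⟨?_, fun j => ?_, fun w _ hw i => ?_⟩
    · rw [hP.2.1 (u, u') hu (v, v') hv]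
      exact h1
    · rw [PIso_lb hP j hu, PIso_lb hP j hv]
      exact h2 j
    · obtain ⟨w', -, hb'⟩ := h.forth zero_lt_one' (mem_univ w)
      have hP' := hb'.piso
      have m0 : (w, w') ∈ insert (w, w') p := mem_insert _ _
      have mu : (u, u') ∈ insert (w, w') p := mem_insert_of_mem _ hu
      have mv : (v, v') ∈ insert (w, w') p := mem_insert_of_mem _ hv
      rw [PIso_R hP' i mu m0, PIso_R hP' i mv m0, PIso_R hP' i m0 mu, PIso_R hP' i m0 mv]
      exact h3 w' (mem_univ _) (fun h4 => hw ((hY w w' hP').2 h4)) i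

theorem er_se (h : BF M M' univ univ 1 p) (hy : (y, y') ∈ p) (hb : (b, b') ∈ p) (hu : (u, u') ∈ p)
    (hv : (v, v') ∈ p) : er M univ (Se M y b) u v ↔ er M' univ (Se M' y' b') u' v' :=
  er_iff h (fun _ _ hP => se_iff hP (mem_insert_of_mem _ hy) (mem_insert_of_mem _ hb) (mem_insert _ _)) hu hv

theorem er_cn (h : BF M M' univ univ 1 p) (hx : (x, x') ∈ p) (hb : (b, b') ∈ p) (hu : (u, u') ∈ p)
    (hv : (v, v') ∈ p) : er M univ (Cn M x b) u v ↔ er M' univ (Cn M' x' b') u' v' :=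
  er_iff h (fun _ _ hP => PIso_D hP (mem_insert_of_mem _ hx) (mem_insert _ _) (mem_insert_of_mem _ hb)) hu hv

theorem pf_iff (h : BF M M' univ univ 1 p) (hy : (y, y') ∈ p) (hb : (b, b') ∈ p)
    (hl : L.length = L'.length) (hz : zipSet L L' ⊆ p) (hu : (u, u') ∈ p) (j : ℕ) :
    pf M y b k L j u ↔ pf M' y' b' k L' j u' := by
  have hP := h.piso
  have hg := zgetD hl hz hy j.unpair.1
  unfold pf
  rcases j.unpair.2.unpair.1 with _ | _ | _ | _ | _ | c
  · exact ag_iff h hy hb hl hz hg hu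
  · exact er_se h hy hb hg hu
  · exact PIso_D hP hg hu hb
  · exact and_congr (not_congr (PIso_D hP hg hu hb)) (by rw [PIso_R hP _ hg hu])
  · exact and_congr (not_congr (PIso_D hP hg hu hb)) (by rw [PIso_R hP _ hu hg])
  · exact Iff.rfl

/-- Transfer of properties. -/
theorem t_TRF : S_TRF := by
  intro n M M' y b y' b' k L L' p _ _ _ hl hy hb hz h
  refine ⟨fun u hu => se_iff h.piso hy hb hu, fun u hu => ex_iff h.piso hb hl hz hu,
    fun g hg u hu => ag_iff h hy hb hl hz hg hu, fun u hu v hv => er_se h hy hb hu hv,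
    fun x hx u hu v hv => er_cn h hx hb hu hv, fun j u hu => pf_iff h hy hb hl hz hu j⟩

theorem one_lt_two' : (1 : Ordinal.{0}) < 2 := one_lt_two

/-- Transfer of references. -/
theorem t_TRR : S_TRR := by
  intro n M M' y b y' b' k L L' p _ _ _ hl hy hb hz h hR
  have key : ∀ u' ∈ Se M' y' b', ∃ u ∈ Se M y b, BF M M' univ univ 1 (insert (u, u') p) := by
    intro u' hu'
    obtain ⟨u, -, hb'⟩ := h.back one_lt_two' (mem_univ u')
    exact ⟨u, (se_iff hb'.piso (mem_insert_of_mem _ hy) (mem_insert_of_mem _ hb) (mem_insert _ _)).2 hu', hb'⟩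
  refine ⟨fun g' hg' => ?_, fun u' hu' hE => ?_, fun u' hu' hE => ?_, fun u' hu' => ?_⟩
  · obtain ⟨g, hg, h1⟩ := zmem' hl hz hg'
    exact (se_iff h.piso hy hb h1).1 (hR.sub g hg)
  · obtain ⟨u, hu, hB⟩ := key u' hu'
    have hP := hB.piso
    have m0 : (u, u') ∈ insert (u, u') p := mem_insert _ _
    have m : ∀ {s s' : ℕ}, (s, s') ∈ p → (s, s') ∈ insert (u, u') p := fun h => mem_insert_of_mem _ h
    have hz' : zipSet L L' ⊆ insert (u, u') p := hz.trans (subset_insert _ _)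
    obtain ⟨g, hg, h1, h2⟩ := hR.exc u hu ((ex_iff hP (m hb) hl hz' m0).2 hE)
    obtain ⟨g', hg', h3⟩ := zmem hl hz hg
    exact ⟨g', hg', (PIso_D hP (m h3) m0 (m hb)).1 h1, (er_cn hB m0 (m hb) (m h3) m0).1 h2⟩
  · obtain ⟨u, hu, hB⟩ := key u' hu'
    have hP := hB.piso
    have m0 : (u, u') ∈ insert (u, u') p := mem_insert _ _
    have m : ∀ {s s' : ℕ}, (s, s') ∈ p → (s, s') ∈ insert (u, u') p := fun h => mem_insert_of_mem _ h
    have hz' : zipSet L L' ⊆ insert (u, u') p := hz.trans (subset_insert _ _)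
    obtain ⟨g1, hg1, g2, hg2, g3, hg3, h12, h13, h23, a1, a2, a3⟩ :=
      hR.reg u hu (fun h3 => hE ((ex_iff hP (m hb) hl hz' m0).1 h3))
    obtain ⟨g1', hg1', k1⟩ := zmem hl hz hg1
    obtain ⟨g2', hg2', k2⟩ := zmem hl hz hg2
    obtain ⟨g3', hg3', k3⟩ := zmem hl hz hg3
    exact ⟨g1', hg1', g2', hg2', g3', hg3', fun h4 => h12 ((PIso_D hP (m k1) (m k2) (m hb)).2 h4),
      fun h4 => h13 ((PIso_D hP (m k1) (m k3) (m hb)).2 h4),
      fun h4 => h23 ((PIso_D hP (m k2) (m k3) (m hb)).2 h4),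
      (ag_iff hB (m hy) (m hb) hl hz' (m k1) m0).1 a1, (ag_iff hB (m hy) (m hb) hl hz' (m k2) m0).1 a2,
      (ag_iff hB (m hy) (m hb) hl hz' (m k3) m0).1 a3⟩
  · obtain ⟨u, hu, hB⟩ := key u' hu'
    have m0 : (u, u') ∈ insert (u, u') p := mem_insert _ _
    have m : ∀ {s s' : ℕ}, (s, s') ∈ p → (s, s') ∈ insert (u, u') p := fun h => mem_insert_of_mem _ h
    obtain ⟨g, hg, h1⟩ := hR.row u hu
    obtain ⟨g', hg', h3⟩ := zmem hl hz hg
    exact ⟨g', hg', (er_se hB (m hy) (m hb) (m h3) m0).1 h1⟩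

end Pool.Agent.N643.TD
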