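import Pool.Agent.N643.TD.STD

set_option autoImplicit false

/-!
# Countably many types of levels with labels

After `TC/TRN.lean` of the project TC; new part by helper222.
-/

namespace Pool.Agent.N643.TD

open Set
open Pool.Agent.H899R2.VP (St Adj PIso BF IsoOn idOn inv comp zipSet zipSet_cons)
open Pool.Agent.H533R2.VO (iso_symm0 iso_trans0 iso_congr)

theorem typ_findIdx {k : ℕ} (s t : Fin k → ℕ) (P Q : ℕ → Bool) (h : ∀ a, P (s a) = Q (t a)) :
    (List.ofFn s).findIdx P = (List.ofFn t).findIdx Q := by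
  induction k with
  | zero => simp
  | succ k ih =>
    rw [List.ofFn_succ, List.ofFn_succ, List.findIdx_cons, List.findIdx_cons, h 0,
      ih (fun i => s i.succ) (fun i => t i.succ) fun a => h a.succ]

theorem typ_ix {M M' : T} {k : ℕ} (s t : Fin k → ℕ) (u v : ℕ)
    (h : ∀ a, M.1 (s a) u = M'.1 (t a) v) : ix M (List.ofFn s) u = ix M' (List.ofFn t) v :=
  typ_findIdx s t _ _ h

theorem typ_zip {k : ℕ} (s t : Fin k → ℕ) (a : Fin k) :
    (s a, t a) ∈ zipSet (List.ofFn s) (List.ofFn t) := by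
  show (s a, t a) ∈ (List.ofFn s).zip (List.ofFn t)
  rw [List.mem_iff_getElem]
  refine ⟨a, by simp, ?_⟩
  rw [List.getElem_zip]
  simp

/-- the data of a level -/
structure TypD (n : ℕ) where
  N : T
  B : ℕ → ℕ → Prop
  s : Fin (n + 1) → ℕ
  b : ℕ

theorem t_TYP (h : S_LAB3) (hst : S_STR) : S_TYP := by
  classical
  intro n α K S hK hS
  obtain ⟨β, hβ, -, hST⟩ := hst n S hS
  obtain ⟨c, hc⟩ := h n α K hK β hβ
  let Q : ℕ → TypD n → Prop := fun m p => p.N ∈ K ∧ Ctr n S p.N p.B ∧ Cov n p.N p.B p.s ∧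
    p.B p.b (p.s 0) ∧ c p.N (p.s 0 :: p.b :: List.ofFn p.s) = m
  let rep1 : ℕ → T × Set ℕ := fun m =>
    if hm : ∃ p, Q m p then (lp hm.choose.N hm.choose.B hm.choose.s, Ch hm.choose.B (hm.choose.s 0))
    else ((fun _ _ => true, fun _ _ => true), ∅)
  let rep : ℕ → T × Set ℕ := fun m =>
    if hm : ∃ p : T × ℕ, p.1 ∈ K ∧ c p.1 [p.2] = m then
      (od (pc hm.choose.1 univ {hm.choose.2}) (List.ofFn fun _ : Fin (n + 1) => hm.choose.2),
        {hm.choose.2})
    else ((fun _ _ => true, fun _ _ => true), ∅)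
  let F : ℕ ⊕ ℕ → T × Set ℕ := fun t => match t with
    | Sum.inl m => rep1 m
    | Sum.inr m => rep m
  obtain ⟨e, he⟩ := exists_surjective_nat (ℕ ⊕ ℕ)
  refine ⟨fun t => F (e t), fun N hN B hC s hs => ?_⟩
  by_cases hb : ∃ b, B b (s 0)
  · obtain ⟨b, hb⟩ := hb
    have hm : ∃ p, Q (c N (s 0 :: b :: List.ofFn s)) p := ⟨⟨N, B, s, b⟩, hN, hC, hs, hb, rfl⟩
    obtain ⟨t, ht⟩ := he (Sum.inl (c N (s 0 :: b :: List.ofFn s)))
    refine ⟨t, ?_⟩
    show IsoOn (F (e t)).1 (lp N B s) (F (e t)).2 (Ch B (s 0)) ∅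
    rw [ht]
    show IsoOn (rep1 (c N (s 0 :: b :: List.ofFn s))).1 (lp N B s)
      (rep1 (c N (s 0 :: b :: List.ofFn s))).2 (Ch B (s 0)) ∅
    have hrep : rep1 (c N (s 0 :: b :: List.ofFn s)) =
        (lp hm.choose.N hm.choose.B hm.choose.s, Ch hm.choose.B (hm.choose.s 0)) := dif_pos hm
    rw [hrep]
    obtain ⟨hK0, hC0, hs0, hb0, hc0⟩ := hm.choose_spec
    generalize hm.choose = p at hK0 hC0 hs0 hb0 hc0 ⊢
    obtain ⟨N0, B0, s0, b0⟩ := p
    simp only at hK0 hC0 hs0 hb0 hc0 ⊢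
    have hBF := hc N0 hK0 N hN _ _ (by simp) hc0
    rw [zipSet_cons, zipSet_cons] at hBF
    have hth : ∀ (N : T) (B : ℕ → ℕ → Prop) (s : Fin (n + 1) → ℕ) (b : ℕ), Ctr n S N B →
        B b (s 0) → Th S N (s 0) b := by
      intro N B s b hC hb w hw
      rw [← hC.ch_eq hb] at hw
      exact hC.thin _ _ ((hC.lvB hw).1 hb)
    have hne : s0 0 ≠ b0 := fun h' => hC0.irr (h' ▸ hb0)
    have hI := hST N0 N (s0 0) b0 (s 0) b (List.ofFn s0) (List.ofFn s) hC0.cs hC.cs hne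
      (hth N0 B0 s0 b0 hC0 hb0) (hth N B s b hC hb) (by simp) (by
        intro u hu
        rw [List.mem_ofFn] at hu
        obtain ⟨a, rfl⟩ := hu
        rw [← hC0.ch_eq hb0]
        exact hs0.1 0 a) hBF
    rw [← hC0.ch_eq hb0, ← hC.ch_eq hb] at hI
    obtain ⟨q, hq1, hq2, hq3, hq4, hq5⟩ := hI
    refine ⟨q, empty_subset _, hq2, piso_od hq3 ?_, hq4, hq5⟩
    intro u hu
    exact typ_ix _ _ _ _ fun a => hq3.2.1 _ (hq1 (typ_zip s0 s a)) u hu
  · have hcen := hC.ch_cen hb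
    set v := s 0 with hv
    have hconst : s = fun _ => v := by
      funext a
      have h1 : s a ∈ Ch B v := hs.1 0 a
      rw [hcen] at h1
      exact h1
    have hm : ∃ p : T × ℕ, p.1 ∈ K ∧ c p.1 [p.2] = c N [v] := ⟨(N, v), hN, rfl⟩
    obtain ⟨t, ht⟩ := he (Sum.inr (c N [v]))
    refine ⟨t, ?_⟩
    show IsoOn (F (e t)).1 (lp N B s) (F (e t)).2 (Ch B v) ∅
    rw [ht]
    show IsoOn (rep (c N [v])).1 (lp N B s) (rep (c N [v])).2 (Ch B v) ∅
    have hrep : rep (c N [v]) =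
        (od (pc hm.choose.1 univ {hm.choose.2}) (List.ofFn fun _ : Fin (n + 1) => hm.choose.2),
          {hm.choose.2}) := dif_pos hm
    rw [hrep]
    obtain ⟨hK0, hc0⟩ := hm.choose_spec
    set N0 := hm.choose.1 with hN0
    set v0 := hm.choose.2 with hv0
    have hBF := hc N0 hK0 N hN [v0] [v] rfl hc0
    have hP : PIso N0 N {(v0, v)} := hBF.piso.mono (by
      intro u hu
      rw [hu]
      show (v0, v) ∈ [v0].zip [v]
      simp)
    have hlp : lp N B s = od (pc N univ {v}) (List.ofFn fun _ : Fin (n + 1) => v) := by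
      unfold lp
      rw [← hv, hcen]
      congr 1
      rw [hconst]
    rw [hlp, hcen]
    show IsoOn (od (pc N0 univ {v0}) (List.ofFn fun _ : Fin (n + 1) => v0))
      (od (pc N univ {v}) (List.ofFn fun _ : Fin (n + 1) => v)) {v0} {v} ∅
    have hEr : er N0 univ {v0} v0 v0 ↔ er N univ {v} v v :=
      ⟨fun _ => er_refl hC.cs.eqv (mem_univ _), fun _ => er_refl (hK.cs N0 hK0).eqv (mem_univ _)⟩
    refine ⟨{(v0, v)}, empty_subset _, ?_, ?_, ?_, ?_⟩
    · intro u hu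
      rw [hu]
      exact ⟨rfl, rfl⟩
    · refine piso_od (piso_pc hP ?_) ?_
      · intro u hu w hw
        rw [hu, hw]
        exact hEr
      · intro u hu
        rw [hu]
        refine typ_ix _ _ _ _ fun a => ?_
        rw [Bool.eq_iff_iff, pc1, pc1]
        exact hEr
    · intro u hu
      rw [hu]
      exact ⟨v, rfl⟩
    · intro u hu
      rw [hu]
      exact ⟨v0, rfl⟩

end Pool.Agent.N643.TD
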