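import Pool.Agent.N643.TD.CTE

set_option autoImplicit false

/-!
# Uniqueness of the encoding
-/

namespace Pool.Agent.N643.TD

open Set
open Pool.Agent.H899R2.VP
open Pool.Agent.H533R2.VO (iso_symm0 iso_trans0)
open Pool.Agent.N643.MN (XS XI SL SL_iso)

namespace Unq

variable {n : ℕ} {S : Set (T × Set ℕ)} {N : T} {B : ℕ → ℕ → Prop} {f : ℕ → T × Set ℕ}
  {x x' : Q2} {π π' : ℕ → Fin (n + 1) → ℕ} {s s' : Fin (n + 1) → ℕ}

/-! ### Orders -/

theorem asym {o : ℕ → ℕ → Bool} (h : SL o) {u v : ℕ} (h1 : o u v = true) : o v u = false := by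
  by_contra h2
  have h3 : o v u = true := by simpa using h2
  exact h.nn (h.tr _ _ _ h1 h3)

theorem neo {o : ℕ → ℕ → Bool} (h : SL o) {u v : ℕ} (h1 : o u v = true) : u ≠ v := by
  rintro rfl
  exact h.nn h1

theorem exists_max {o : ℕ → ℕ → Bool} (h : SL o) {A : Set (ℕ × ℕ)} (hA : A.Finite) :
    A.Nonempty → ∃ m ∈ A, ∀ v ∈ A, v.1 = m.1 ∨ o v.1 m.1 = true := by
  induction A, hA using Set.Finite.induction_on with
  | empty => exact fun h1 => absurd h1 Set.not_nonempty_empty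
  | insert ha hs ih =>
    rename_i a s
    intro _
    by_cases hne : s.Nonempty
    · obtain ⟨m, hm, h2⟩ := ih hne
      rcases h.tot a.1 m.1 with h3 | h3 | h3
      · refine ⟨m, Or.inr hm, ?_⟩
        rintro v (rfl | hv)
        · exact Or.inl h3
        · exact h2 v hv
      · refine ⟨m, Or.inr hm, ?_⟩
        rintro v (rfl | hv)
        · exact Or.inr h3
        · exact h2 v hv
      · refine ⟨a, Or.inl rfl, ?_⟩
        rintro v (rfl | hv)
        · exact Or.inl rfl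
        · rcases h2 v hv with h4 | h4
          · rw [h4]
            exact Or.inr h3
          · exact Or.inr (h.tr _ _ _ h4 h3)
    · refine ⟨a, Or.inl rfl, ?_⟩
      rintro v (rfl | hv)
      · exact Or.inl rfl
      · exact absurd ⟨v, hv⟩ hne

theorem flip {o : ℕ → ℕ → Bool} (h : SL o) : SL (fun u v => o v u) :=
  ⟨h.irr, fun u v w h1 h2 => h.tr w v u h2 h1, fun u v => by
    rcases h.tot u v with h1 | h1 | h1
    · exact Or.inl h1
    · exact Or.inr (Or.inr h1)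
    · exact Or.inr (Or.inl h1)⟩

theorem exists_min {o : ℕ → ℕ → Bool} (h : SL o) {A : Set (ℕ × ℕ)} (hA : A.Finite)
    (hne : A.Nonempty) : ∃ m ∈ A, ∀ v ∈ A, v.1 = m.1 ∨ o m.1 v.1 = true :=
  exists_max (flip h) hA hne

/-! ### Values -/

theorem eqs_lv (_ : Ctr n S N B) (h : Eqs N B s s') : Lv B (s 0) (s' 0) := (h 0).1

/-- equivalent lists give the same labelled children -/
theorem lp_iso (hC : Ctr n S N B) (hs : Cov n N B s) (hs' : Cov n N B s') (h : Eqs N B s s') :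
    IsoOn (lp N B s) (lp N B s') (Ch B (s 0)) (Ch B (s 0)) (idOn (Ch B (s 0))) := by
  refine agree (fun u _ v _ => rfl) (fun u _ v _ w _ => Iff.rfl) (fun j u hu => ?_)
    (fun j u _ v _ hne => fl_od j hne) (fun j u _ v _ hne => fl_od j hne)
    (fun i u _ v _ => by rw [R_lp, R_lp])
  rw [lb_lp, lb_lp]
  obtain ⟨a, h1, h2, h3⟩ := hC.lp_lab hs hu
  obtain ⟨c, h4, h5, h6⟩ := hC.lp_lab hs' (hC.lv_trans (h 0).1.symm' hu)
  have h7 : a = c := le_antisymm (h3 c (hC.cl_trans (h c) h5))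
    (h6 a (hC.cl_trans (hC.cl_symm (h a)) h2))
  rw [h1, h4, h7]

theorem tp_eq (hC : Ctr n S N B) (hs : Cov n N B s) (hs' : Cov n N B s') (h : Eqs N B s s') :
    tp f (lp N B s) (Ch B (s 0)) = tp f (lp N B s') (Ch B (s' 0)) := by
  rw [← hC.ch_lv (h 0).1]
  have h1 : IsoOn (lp N B s) (lp N B s') (Ch B (s 0)) (Ch B (s 0)) ∅ :=
    (lp_iso hC hs hs' h).mono (empty_subset _)
  unfold tp
  congr 1
  ext t
  exact ⟨fun h2 => iso_trans0 h2 h1, fun h2 => iso_trans0 h2 (iso_symm0 h1)⟩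

/-- the relations depend only on the classes -/
theorem val_congr (hC : Ctr n S N B) {q r q' r' : ℕ} (hq : Cov n N B (π q))
    (hq' : Cov n N B (π' q')) (hr : Cov n N B (π r))
    (h1 : Eqs N B (π q) (π' q')) (h2 : Eqs N B (π r) (π' r')) (h3 : q = r ↔ q' = r') (m : ℕ) :
    val f N B π m q r ↔ val f N B π' m q' r' := by
  have e1 : Lv B (π q 0) (π r 0) ↔ Lv B (π' q' 0) (π' r' 0) :=
    ⟨fun h => hC.lv_trans (eqs_lv hC h1).symm' (hC.lv_trans h (eqs_lv hC h2)),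
      fun h => hC.lv_trans (eqs_lv hC h1) (hC.lv_trans h (eqs_lv hC h2).symm')⟩
  have e2 : Sg N B (π q 0) ↔ Sg N B (π' q' 0) :=
    ⟨fun h u v hu hv => h u v (hC.lv_trans (h1 0).1 hu) (hC.lv_trans (h1 0).1 hv),
      fun h u v hu hv => h u v (hC.lv_trans (h1 0).1.symm' hu) (hC.lv_trans (h1 0).1.symm' hv)⟩
  have e3 : ∀ a b, Cl N B (π q a) (π r b) ↔ Cl N B (π' q' a) (π' r' b) := fun a b =>
    ⟨fun h => hC.cl_trans (hC.cl_symm (h1 a)) (hC.cl_trans h (h2 b)),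
      fun h => hC.cl_trans (h1 a) (hC.cl_trans h (hC.cl_symm (h2 b)))⟩
  have e4 : ¬ Lv B (π q 0) (π r 0) → ∀ i a b, R N i (π q a) (π r b) = R N i (π' q' a) (π' r' b) := by
    intro h i a b
    have k1 : ¬ Lv B (π q a) (π r b) := fun k =>
      h (hC.lv_trans (hq.1 0 a) (hC.lv_trans k (hr.1 b 0)))
    have k2 : ¬ Lv B (π r b) (π' q' a) := fun k =>
      k1 (hC.lv_trans (h1 a).1 k.symm')
    rw [((h1 a).row k1 i).1, ((h2 b).row k2 i).2]
  have e5 := tp_eq (f := f) hC hq hq' h1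
  have e6 : ∀ j a, lb N j (π q a) = lb N j (π' q' a) := fun j a => (h1 a).lab j
  unfold val
  split
  · exact e1
  · exact and_congr h3 e2
  · exact exists_congr fun a => exists_congr fun b => and_congr_right fun _ => e3 a b
  · refine exists_congr fun i => exists_congr fun a => exists_congr fun b =>
      and_congr_right fun _ => ?_
    rw [← e1]
    exact and_congr_right fun h => by rw [e4 h i a b]
  · rw [h3, e5]
  · rw [h3]
    refine and_congr_right fun _ => exists_congr fun j => exists_congr fun a => ?_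
    rw [e6]
  · exact Iff.rfl

/-! ### The system -/

/-- finite sets of pairs -/
structure Sy (N : T) (B : ℕ → ℕ → Prop) (x x' : Q2) (π π' : ℕ → Fin (n + 1) → ℕ)
    (p : Set (ℕ × ℕ)) : Prop where
  fin : p.Finite
  lt : ∀ u ∈ p, ∀ v ∈ p, x.1 u.1 v.1 = x'.1 u.2 v.2
  eq : ∀ u ∈ p, ∀ v ∈ p, (u.1 = v.1 ↔ u.2 = v.2)
  qs : ∀ u ∈ p, Eqs N B (π u.1) (π' u.2)

theorem Sy.symm {p : Set (ℕ × ℕ)} (hC : Ctr n S N B) (h : Sy N B x x' π π' p) :
    Sy N B x' x π' π (inv p) := by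
  refine ⟨?_, fun u hu v hv => (h.lt _ hu _ hv).symm, fun u hu v hv => (h.eq _ hu _ hv).symm,
    fun u hu => hC.eqs_symm (h.qs _ hu)⟩
  have e : inv p = (fun u : ℕ × ℕ => (u.2, u.1)) '' p := by
    ext ⟨a, b⟩
    constructor
    · intro h1
      exact ⟨(b, a), h1, rfl⟩
    · rintro ⟨⟨c, d⟩, h1, h2⟩
      have h3 : d = a := congrArg Prod.fst h2
      have h4 : c = b := congrArg Prod.snd h2
      subst h3 h4
      exact h1
  rw [e]
  exact h.fin.image _

theorem Sy.piso {p : Set (ℕ × ℕ)} (hC : Ctr n S N B) (hE : Enc n f N B x π)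
    (hE' : Enc n f N B x' π') (h : Sy N B x x' π π' p) : PIso (a := a2) x x' p := by
  refine ⟨h.eq, h.lt, fun i t ht => ?_⟩
  have ht' : ∀ k : Fin 2, t k ∈ p := ht
  have e1 : (fun k => (t k).1) = ![(t (0 : Fin 2)).1, (t (1 : Fin 2)).1] := vec2 (fun k => (t k).1)
  have e2 : (fun k => (t k).2) = ![(t (0 : Fin 2)).2, (t (1 : Fin 2)).2] := vec2 (fun k => (t k).2)
  rw [e1, e2, Bool.eq_iff_iff]
  refine (hE.rel i _ _).trans (Iff.trans ?_ (hE'.rel i _ _).symm)
  exact val_congr hC (hE.cov _) (hE'.cov _) (hE.cov _) (h.qs _ (ht' 0)) (h.qs _ (ht' 1))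
    (h.eq _ (ht' 0) _ (ht' 1)) i

/-- the extension step -/
theorem Sy.forth {p : Set (ℕ × ℕ)} (hC : Ctr n S N B) (hE : Enc n f N B x π)
    (hE' : Enc n f N B x' π') (h : Sy N B x x' π π' p) (q : ℕ) :
    ∃ p', Sy N B x x' π π' p' ∧ p ⊆ p' ∧ ∃ r, (q, r) ∈ p' := by
  by_cases hq : ∃ r, (q, r) ∈ p
  · exact ⟨p, h, Subset.rfl, hq⟩
  -- the points of the same level
  set A : Set (ℕ × ℕ) := {u | u ∈ p ∧ Lv B (π u.1 0) (π q 0) ∧ x.1 u.1 q = true} with hA
  set A' : Set (ℕ × ℕ) := {u | u ∈ p ∧ Lv B (π u.1 0) (π q 0) ∧ x.1 q u.1 = true} with hA'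
  have hAf : A.Finite := h.fin.subset fun u hu => hu.1
  have hAf' : A'.Finite := h.fin.subset fun u hu => hu.1
  have hlv : ∀ u ∈ p, Lv B (π u.1 0) (π q 0) → Lv B (π' u.2 0) (π q 0) := fun u hu hl =>
    hC.lv_trans (eqs_lv hC (h.qs u hu)).symm' hl
  obtain ⟨r, hr1, hr2, hr3⟩ : ∃ r, Eqs N B (π' r) (π q) ∧
      (∀ u ∈ A, x'.1 u.2 r = true) ∧ ∀ u ∈ A', x'.1 r u.2 = true := by
    by_cases h1 : A.Nonempty
    · obtain ⟨m, hm, hm1⟩ := exists_max hE.sl hAf h1
      have hlow : ∀ r, x'.1 m.2 r = true → ∀ u ∈ A, x'.1 u.2 r = true := by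
        intro r hr u hu
        rcases hm1 u hu with h3 | h3
        · rw [(h.eq u hu.1 m hm.1).1 h3]
          exact hr
        · rw [h.lt u hu.1 m hm.1] at h3
          exact hE'.sl.tr _ _ _ h3 hr
      by_cases h2 : A'.Nonempty
      · obtain ⟨m', hm', hm1'⟩ := exists_min hE.sl hAf' h2
        have h3 : x'.1 m.2 m'.2 = true := by
          rw [← h.lt m hm.1 m' hm'.1]
          exact hE.sl.tr _ _ _ hm.2.2 hm'.2.2
        obtain ⟨r, k1, k2, k3⟩ := hE'.dn m.2 m'.2 (π q) h3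
          (hC.lv_trans (hlv m hm.1 hm.2.1) (hlv m' hm'.1 hm'.2.1).symm') (hE.cov q)
          (hlv m hm.1 hm.2.1)
        refine ⟨r, k3, hlow r k1, fun u hu => ?_⟩
        rcases hm1' u hu with h4 | h4
        · rw [(h.eq u hu.1 m' hm'.1).1 h4]
          exact k2
        · rw [h.lt m' hm'.1 u hu.1] at h4
          exact hE'.sl.tr _ _ _ k2 h4
      · obtain ⟨r, k1, k2⟩ := hE'.up m.2 (π q) (hE.cov q) (hlv m hm.1 hm.2.1)
        exact ⟨r, k2, hlow r k1, fun u hu => absurd ⟨u, hu⟩ h2⟩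
    · by_cases h2 : A'.Nonempty
      · obtain ⟨m', hm', hm1'⟩ := exists_min hE.sl hAf' h2
        obtain ⟨r, k1, k2⟩ := hE'.dw m'.2 (π q) (hE.cov q) (hlv m' hm'.1 hm'.2.1)
        refine ⟨r, k2, fun u hu => absurd ⟨u, hu⟩ h1, fun u hu => ?_⟩
        rcases hm1' u hu with h4 | h4
        · rw [(h.eq u hu.1 m' hm'.1).1 h4]
          exact k1
        · rw [h.lt m' hm'.1 u hu.1] at h4
          exact hE'.sl.tr _ _ _ k1 h4
      · obtain ⟨r, k1⟩ := hE'.ex (π q) (hE.cov q)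
        exact ⟨r, k1, fun u hu => absurd ⟨u, hu⟩ h1, fun u hu => absurd ⟨u, hu⟩ h2⟩
  have hrq : Lv B (π' r 0) (π q 0) := eqs_lv hC hr1
  have c1 : ∀ u ∈ p, x.1 u.1 q = true → x'.1 u.2 r = true := by
    intro u hu h1
    by_cases hl : Lv B (π u.1 0) (π q 0)
    · exact hr2 u ⟨hu, hl, h1⟩
    · have h2 : ¬ B (π q 0) (π u.1 0) := fun h3 => by
        have h4 := hE.ord _ _ h3
        rw [asym hE.sl h1] at h4
        exact absurd h4 (by decide)
      have h3 : B (π u.1 0) (π q 0) := by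
        by_contra h4
        exact hl ⟨h4, h2⟩
      apply hE'.ord
      rw [← hC.lvB' (eqs_lv hC (h.qs u hu)), hC.lvB hrq]
      exact h3
  have c2 : ∀ u ∈ p, x.1 q u.1 = true → x'.1 r u.2 = true := by
    intro u hu h1
    by_cases hl : Lv B (π u.1 0) (π q 0)
    · exact hr3 u ⟨hu, hl, h1⟩
    · have h2 : ¬ B (π u.1 0) (π q 0) := fun h3 => by
        have h4 := hE.ord _ _ h3
        rw [asym hE.sl h1] at h4
        exact absurd h4 (by decide)
      have h3 : B (π q 0) (π u.1 0) := by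
        by_contra h4
        exact hl ⟨h2, h4⟩
      apply hE'.ord
      rw [← hC.lvB (eqs_lv hC (h.qs u hu)), hC.lvB' hrq]
      exact h3
  have c3 : ∀ u ∈ p, x.1 u.1 q = x'.1 u.2 r ∧ x.1 q u.1 = x'.1 r u.2 ∧ u.1 ≠ q ∧ u.2 ≠ r := by
    intro u hu
    have hne : u.1 ≠ q := by
      rintro rfl
      exact hq ⟨u.2, hu⟩
    rcases hE.sl.tot u.1 q with h1 | h1 | h1
    · exact absurd h1 hne
    · have h2 := c1 u hu h1
      rw [h1, h2, asym hE.sl h1, asym hE'.sl h2]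
      exact ⟨rfl, rfl, hne, neo hE'.sl h2⟩
    · have h2 := c2 u hu h1
      rw [h1, h2, asym hE.sl h1, asym hE'.sl h2]
      exact ⟨rfl, rfl, hne, (neo hE'.sl h2).symm⟩
  refine ⟨insert (q, r) p, ⟨h.fin.insert _, ?_, ?_, ?_⟩, subset_insert _ _, r, mem_insert _ _⟩
  · rintro u (rfl | hu) v (rfl | hv)
    · show x.1 q q = x'.1 r r
      rw [hE.sl.irr, hE'.sl.irr]
    · exact (c3 v hv).2.1
    · exact (c3 u hu).1
    · exact h.lt u hu v hv
  · rintro u (rfl | hu) v (rfl | hv)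
    · exact ⟨fun _ => rfl, fun _ => rfl⟩
    · exact ⟨fun e => absurd e.symm (c3 v hv).2.2.1, fun e => absurd e.symm (c3 v hv).2.2.2⟩
    · exact ⟨fun e => absurd e (c3 u hu).2.2.1, fun e => absurd e (c3 u hu).2.2.2⟩
    · exact h.eq u hu v hv
  · rintro u (rfl | hu)
    · exact hC.eqs_symm hr1
    · exact h.qs u hu

/-- permutations from isomorphisms -/
theorem exists_perm {x x' : Q2} (h : IsoOn (a := a2) x x' univ univ ∅) :
    ∃ e : Equiv.Perm ℕ, XI e x x' := by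
  obtain ⟨q, -, -, h3, h4, h5⟩ := h
  choose g hg using fun y => h4 y (mem_univ y)
  choose g' hg' using fun y => h5 y (mem_univ y)
  refine ⟨⟨g, g', fun y => h3.fst_eq (hg' (g y)) (hg y) rfl,
    fun y => h3.snd_eq (hg (g' y)) (hg' y) rfl⟩, fun u v => ?_, fun j t => ?_⟩
  · exact (h3.2.1 (u, g u) (hg u) (v, g v) (hg v)).symm
  · exact (h3.2.2 j (fun k => (t k, g (t k))) fun k => hg (t k)).symm

theorem val_tau {τ : Equiv.Perm ℕ} (m q q' : ℕ) :
    val f N B (fun q => π (τ.symm q)) m q q' ↔ val f N B π m (τ.symm q) (τ.symm q') := by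
  have e : q = q' ↔ τ.symm q = τ.symm q' := τ.symm.injective.eq_iff.symm
  unfold val
  split
  · exact Iff.rfl
  · rw [e]
  · exact Iff.rfl
  · exact Iff.rfl
  · rw [e]
  · rw [e]
  · exact Iff.rfl

end Unq

open Unq

theorem t_UNQ : S_UNQ := by
  intro n S N B f x x' π π' hC hE hE'
  apply exists_perm
  refine isoOn_of_system {p | Sy N B x x' π π' p} ?_ ?_ ?_ ?_
  · exact ⟨finite_empty, fun u hu => hu.elim, fun u hu => hu.elim, fun u hu => hu.elim⟩
  · exact fun p hp => ⟨Sy.piso hC hE hE' hp, fun u _ => ⟨mem_univ _, mem_univ _⟩⟩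
  · intro p hp q _
    exact Sy.forth hC hE hE' hp q
  · intro p hp q _
    obtain ⟨p', h1, h2, r, hr⟩ := Sy.forth hC hE' hE (Sy.symm hC hp) q
    exact ⟨inv p', Sy.symm hC h1, fun u hu => h2 hu, r, hr⟩

theorem t_TRX2 : S_TRX2 := by
  intro n f N B x x' π τ h hE
  have h1 : ∀ u v, x'.1 u v = x.1 (τ.symm u) (τ.symm v) := fun u v => by
    have h2 := h.1 (τ.symm u) (τ.symm v)
    rwa [τ.apply_symm_apply, τ.apply_symm_apply] at h2
  have h2 : ∀ r q q', x'.2 r ![q, q'] = x.2 r ![τ.symm q, τ.symm q'] := fun r q q' => by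
    have h3 := h.2 r ![τ.symm q, τ.symm q']
    have e : (τ ∘ ![τ.symm q, τ.symm q'] : Fin 2 → ℕ) = ![q, q'] := by
      funext k
      fin_cases k
      · exact τ.apply_symm_apply q
      · exact τ.apply_symm_apply q'
    rw [← h3]
    exact congrArg (x'.2 r) e.symm
  refine ⟨SL_iso h hE.sl, fun q => hE.cov _, fun q q' hB => ?_, fun s hs => ?_,
    fun q q' s hq hl hs hl' => ?_, fun q s hs hl => ?_, fun q s hs hl => ?_, fun r q q' => ?_⟩
  · rw [h1]
    exact hE.ord _ _ hB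
  · obtain ⟨q, hq⟩ := hE.ex s hs
    refine ⟨τ q, ?_⟩
    show Eqs N B (π (τ.symm (τ q))) s
    rw [τ.symm_apply_apply]
    exact hq
  · rw [h1] at hq
    obtain ⟨r, k1, k2, k3⟩ := hE.dn _ _ s hq hl hs hl'
    refine ⟨τ r, ?_, ?_, ?_⟩
    · rw [h1, τ.symm_apply_apply]
      exact k1
    · rw [h1, τ.symm_apply_apply]
      exact k2
    · show Eqs N B (π (τ.symm (τ r))) s
      rw [τ.symm_apply_apply]
      exact k3
  · obtain ⟨r, k1, k3⟩ := hE.up _ s hs hl
    refine ⟨τ r, ?_, ?_⟩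
    · rw [h1, τ.symm_apply_apply]
      exact k1
    · show Eqs N B (π (τ.symm (τ r))) s
      rw [τ.symm_apply_apply]
      exact k3
  · obtain ⟨r, k1, k3⟩ := hE.dw _ s hs hl
    refine ⟨τ r, ?_, ?_⟩
    · rw [h1, τ.symm_apply_apply]
      exact k1
    · show Eqs N B (π (τ.symm (τ r))) s
      rw [τ.symm_apply_apply]
      exact k3
  · rw [h2]
    exact (hE.rel r _ _).trans (val_tau r q q').symm

end Pool.Agent.N643.TD
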