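import Pool.Agent.N643.TD.All0
import Pool.Agent.N643.TD.CT
import Pool.Agent.N643.TD.EXE
import Pool.Agent.N643.TD.UNQ
import Pool.Agent.N643.TD.LOC
import Pool.Agent.N643.TD.TRN
import Pool.Agent.N643.TD.KEY
import Pool.Agent.N643.TD.MRC
import Pool.Agent.N643.TD.MEN
import Pool.Agent.N643.TD.TYP
import Pool.Agent.N643.TD.TRF
import Pool.Agent.N643.TD.ST1
import Pool.Agent.N643.TD.ST2
import Pool.Agent.N643.TD.STR
import Pool.Agent.N738.TD.REF

set_option autoImplicit false

/-! Assembly of the main argument for structures over definable trees (C-relations) of arbitrary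
branching. -/

namespace Pool.Agent.N643.TD

theorem str : S_STR :=
  t_STR Pool.Agent.N738.TD.t_REF t_TRF t_TRR (t_ST1 t_TRF) t_ST2 t_LEV3

theorem main3 : S_MAIN3 :=
  main0 (t_CT t_CSBF t_EXE t_UNQ t_LOC t_TRN t_TRX2 t_CHG t_KEY t_MRC (t_MEN t_GENC t_LEV3)
    (t_MCT t_LEV3 t_MS) (t_TYP t_LAB3 str))

end Pool.Agent.N643.TD
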