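import Mathlib

set_option autoImplicit false

/-!
# Monadic second-order logic of a ternary relation: finitely many rows at each module
-/

namespace Pool.Agent.N643.TD.Mso

open Set

/-- Formulas of monadic second-order logic with `e` free element variables and `s` free set
variables. -/
inductive MSO : ℕ → ℕ → Type
  | eq {e s : ℕ} (i j : Fin e) : MSO e s
  | rel {e s : ℕ} (i j k : Fin e) : MSO e s
  | mem {e s : ℕ} (i : Fin e) (j : Fin s) : MSO e s
  | not {e s : ℕ} (φ : MSO e s) : MSO e s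
  | and {e s : ℕ} (φ ψ : MSO e s) : MSO e s
  | all1 {e s : ℕ} (φ : MSO (e + 1) s) : MSO e s
  | all2 {e s : ℕ} (φ : MSO e (s + 1)) : MSO e s

/-- Satisfaction in `ℕ` with the ternary relation `r`. -/
def MSO.Sat (r : ℕ → ℕ → ℕ → Prop) : {e s : ℕ} → MSO e s → (Fin e → ℕ) → (Fin s → Set ℕ) → Prop
  | _, _, .eq i j, v, _ => v i = v j
  | _, _, .rel i j k, v, _ => r (v i) (v j) (v k)
  | _, _, .mem i j, v, P => v i ∈ P j
  | _, _, .not φ, v, P => ¬ φ.Sat r v P
  | _, _, .and φ ψ, v, P => φ.Sat r v P ∧ ψ.Sat r v P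
  | _, _, .all1 φ, v, P => ∀ x : ℕ, φ.Sat r (Fin.snoc v x) P
  | _, _, .all2 φ, v, P => ∀ X : Set ℕ, φ.Sat r v (Fin.snoc P X)

/-- quantifier rank -/
def qr : {e s : ℕ} → MSO e s → ℕ
  | _, _, .eq _ _ => 0
  | _, _, .rel _ _ _ => 0
  | _, _, .mem _ _ => 0
  | _, _, .not φ => qr φ
  | _, _, .and φ ψ => max (qr φ) (qr ψ)
  | _, _, .all1 φ => qr φ + 1
  | _, _, .all2 φ => qr φ + 1

/-- The types of rank `q`. -/
def T : ℕ → ℕ → ℕ → Type
  | 0, e, s => (Fin e → Fin e → (Prop × Prop) × (Fin e → Prop)) × (Fin e → Fin s → Prop)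
  | q + 1, e, s => T q e s × Set (T q (e + 1) s) × T q (e + 1) s × Set (T q e (s + 1))

theorem finT : ∀ q e s, Finite (T q e s)
  | 0, e, s => by
    unfold T
    infer_instance
  | q + 1, e, s => by
    have h1 := finT q e s
    have h2 := finT q (e + 1) s
    have h3 := finT q e (s + 1)
    unfold T
    infer_instance

variable (r : ℕ → ℕ → ℕ → Prop) (sc : ℕ → ℕ → Prop) (c : Set ℕ)

/-- The type of a configuration in the module: the variables `i` with `σ i` are in `c`. -/
def ty : (q : ℕ) → (e s : ℕ) → (Fin e → Bool) → (Fin e → ℕ) → (Fin s → Set ℕ) → T q e s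
  | 0, _, _, σ, u, P => (fun i j => ((σ i = true ∧ σ j = true ∧ u i = u j,
      σ i = true ∧ σ j = true ∧ sc (u i) (u j)),
      fun k => σ i = true ∧ σ j = true ∧ σ k = true ∧ r (u i) (u j) (u k)),
      fun i j => σ i = true ∧ u i ∈ P j)
  | q + 1, e, s, σ, u, P => (ty q e s σ u P,
      {τ | ∃ z, z ∈ c ∧ τ = ty q (e + 1) s (Fin.snoc σ true) (Fin.snoc u z) P},
      ty q (e + 1) s (Fin.snoc σ false) (Fin.snoc u 0) P,
      {τ | ∃ X, τ = ty q e (s + 1) σ u (Fin.snoc P X)})

/-- the elements -/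
def mrg {e : ℕ} (σ : Fin e → Bool) (u w : Fin e → ℕ) (i : Fin e) : ℕ := if σ i = true then u i else w i

variable {r sc c}

theorem mrg_snoc_t {e : ℕ} (σ : Fin e → Bool) (u w : Fin e → ℕ) (z y : ℕ) :
    mrg (Fin.snoc σ true) (Fin.snoc u z) (Fin.snoc w y) = Fin.snoc (α := fun _ => ℕ) (mrg σ u w) z := by
  funext i
  refine Fin.lastCases ?_ (fun i => ?_) i
  · simp [mrg]
  · simp [mrg]

theorem mrg_snoc_f {e : ℕ} (σ : Fin e → Bool) (u w : Fin e → ℕ) (z y : ℕ) :
    mrg (Fin.snoc σ false) (Fin.snoc u z) (Fin.snoc w y) = Fin.snoc (α := fun _ => ℕ) (mrg σ u w) y := by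
  funext i
  refine Fin.lastCases ?_ (fun i => ?_) i
  · simp [mrg]
  · simp [mrg]

theorem ty_pred {q e s : ℕ} {σ : Fin e → Bool} {u u' : Fin e → ℕ} {P P' : Fin s → Set ℕ}
    (h : ty r sc c (q + 1) e s σ u P = ty r sc c (q + 1) e s σ u' P') :
    ty r sc c q e s σ u P = ty r sc c q e s σ u' P' := congrArg Prod.fst h

theorem ty_mono {q q' e s : ℕ} {σ : Fin e → Bool} {u u' : Fin e → ℕ} {P P' : Fin s → Set ℕ}
    (hq : q ≤ q') (h : ty r sc c q' e s σ u P = ty r sc c q' e s σ u' P') :
    ty r sc c q e s σ u P = ty r sc c q e s σ u' P' := by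
  induction hq with
  | refl => exact h
  | step _ ih => exact ih (ty_pred h)

/-- the type depends only on what is below the cut -/
theorem ty_congr : ∀ (q e s : ℕ) (σ : Fin e → Bool) (u u' : Fin e → ℕ) (P P' : Fin s → Set ℕ),
    (∀ i, σ i = true → u i ∈ c) → (∀ i, σ i = true → u i = u' i) →
    (∀ j x, x ∈ c → (x ∈ P j ↔ x ∈ P' j)) → ty r sc c q e s σ u P = ty r sc c q e s σ u' P'
  | 0, e, s, σ, u, u', P, P', hu, huu, hP => by
    have h1 : ∀ i j, ((σ i = true ∧ σ j = true ∧ u i = u j, σ i = true ∧ σ j = true ∧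
        sc (u i) (u j)) = (σ i = true ∧ σ j = true ∧ u' i = u' j,
          σ i = true ∧ σ j = true ∧ sc (u' i) (u' j))) ∧
        ∀ k, ((σ i = true ∧ σ j = true ∧ σ k = true ∧ r (u i) (u j) (u k)) =
        (σ i = true ∧ σ j = true ∧ σ k = true ∧ r (u' i) (u' j) (u' k))) := by
      intro i j
      by_cases hi : σ i = true <;> by_cases hj : σ j = true
      · rw [huu i hi, huu j hj]
        refine ⟨rfl, fun k => ?_⟩
        by_cases hk : σ k = true
        · rw [huu k hk]
        · simp [hk]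
      · simp [hj]
      · simp [hi]
      · simp [hi]
    have h2 : ∀ i j, (σ i = true ∧ u i ∈ P j) = (σ i = true ∧ u' i ∈ P' j) := by
      intro i j
      by_cases hi : σ i = true
      · rw [← huu i hi]
        exact propext (and_congr_right fun _ => hP j _ (hu i hi))
      · simp [hi]
    show ((fun i j => (_, _)), fun i j => _) = (((fun i j => (_, _)), fun i j => _) : T 0 e s)
    refine Prod.ext ?_ ?_
    · funext i j
      exact Prod.ext (h1 i j).1 (funext fun k => (h1 i j).2 k)
    · funext i j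
      exact h2 i j
  | q + 1, e, s, σ, u, u', P, P', hu, huu, hP => by
    have hu' : ∀ b : Bool, ∀ z, (b = true → z ∈ c) → ∀ i : Fin (e + 1),
        (Fin.snoc (α := fun _ => Bool) σ b) i = true →
        (Fin.snoc (α := fun _ => ℕ) u z) i ∈ c := by
      intro b z hz i
      refine Fin.lastCases ?_ (fun i => ?_) i
      · simp only [Fin.snoc_last]
        exact hz
      · simp only [Fin.snoc_castSucc]
        exact hu i
    have huu' : ∀ b : Bool, ∀ z, ∀ i : Fin (e + 1),
        (Fin.snoc (α := fun _ => Bool) σ b) i = true →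
        (Fin.snoc (α := fun _ => ℕ) u z) i = (Fin.snoc (α := fun _ => ℕ) u' z) i := by
      intro b z i
      refine Fin.lastCases ?_ (fun i => ?_) i
      · simp only [Fin.snoc_last]
        intro _
        trivial
      · simp only [Fin.snoc_castSucc]
        exact huu i
    have a1 := ty_congr q e s σ u u' P P' hu huu hP
    have a2 : {τ | ∃ z, z ∈ c ∧ τ = ty r sc c q (e + 1) s (Fin.snoc σ true) (Fin.snoc u z) P} =
        {τ | ∃ z, z ∈ c ∧ τ = ty r sc c q (e + 1) s (Fin.snoc σ true) (Fin.snoc u' z) P'} := by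
      ext τ
      refine exists_congr fun z => and_congr_right fun hz => ?_
      rw [ty_congr q (e + 1) s (Fin.snoc σ true) (Fin.snoc u z) (Fin.snoc u' z) P P'
        (hu' true z fun _ => hz) (huu' true z) hP]
    have a3 := ty_congr q (e + 1) s (Fin.snoc σ false) (Fin.snoc u 0) (Fin.snoc u' 0) P P'
        (hu' false 0 (fun h => absurd h (by simp))) (huu' false 0) hP
    have a4 : {τ | ∃ X, τ = ty r sc c q e (s + 1) σ u (Fin.snoc P X)} =
        {τ | ∃ X, τ = ty r sc c q e (s + 1) σ u' (Fin.snoc P' X)} := by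
      ext τ
      refine exists_congr fun X => ?_
      rw [ty_congr q e (s + 1) σ u u' (Fin.snoc P X) (Fin.snoc P' X) hu huu (fun j => by
        refine Fin.lastCases ?_ (fun j => ?_) j
        · intro x _
          simp only [Fin.snoc_last]
        · simp only [Fin.snoc_castSucc]
          exact hP j)]
    exact Prod.ext a1 (Prod.ext a2 (Prod.ext a3 a4))

/-- `c` is a module of the relation `r`, up to the relation `sc` -/
def Mod (r : ℕ → ℕ → ℕ → Prop) (sc : ℕ → ℕ → Prop) (c : Set ℕ) : Prop :=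
  ∀ v v' : Fin 3 → ℕ, (∃ i, v i ∉ c) → (∀ i, v i = v' i ∨ (v i ∈ c ∧ v' i ∈ c)) →
    (∀ i j, v i ∈ c → v j ∈ c → (sc (v i) (v j) ↔ sc (v' i) (v' j))) →
    (r (v 0) (v 1) (v 2) ↔ r (v' 0) (v' 1) (v' 2))

/-- composition -/
theorem comp (hmod : Mod r sc c) {e s : ℕ} (φ : MSO e s) :
    ∀ (q : ℕ) (σ : Fin e → Bool) (u u' w : Fin e → ℕ) (P P' : Fin s → Set ℕ), qr φ ≤ q →
      (∀ i, σ i = true → u i ∈ c ∧ u' i ∈ c) → (∀ i, σ i = false → w i ∉ c) →
      (∀ j x, ¬ x ∈ c → (x ∈ P j ↔ x ∈ P' j)) →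
      ty r sc c q e s σ u P = ty r sc c q e s σ u' P' →
      (φ.Sat r (mrg σ u w) P ↔ φ.Sat r (mrg σ u' w) P') := by
  have ne : ∀ x y, x ∈ c → ¬ y ∈ c → x ≠ y := by
    rintro x y hx hy rfl
    exact hy hx
  induction φ with
  | @eq e s i j =>
    intro q σ u u' w P P' _ hu hw _ h
    have h0 := ty_mono (Nat.zero_le q) h
    have h1 := congrArg (fun t => t.1.1) (congrFun (congrFun (congrArg Prod.fst h0) i) j)
    show mrg σ u w i = mrg σ u w j ↔ mrg σ u' w i = mrg σ u' w j
    unfold mrg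
    by_cases hi : σ i = true <;> by_cases hj : σ j = true
    · rw [if_pos hi, if_pos hj, if_pos hi, if_pos hj]
      have h2 : (σ i = true ∧ σ j = true ∧ u i = u j) ↔ (σ i = true ∧ σ j = true ∧ u' i = u' j) :=
        iff_of_eq h1
      tauto
    · rw [if_pos hi, if_neg hj, if_pos hi, if_neg hj]
      have hj' : σ j = false := by simpa using hj
      exact ⟨fun h3 => absurd h3 (ne _ _ (hu i hi).1 (hw j hj')),
        fun h3 => absurd h3 (ne _ _ (hu i hi).2 (hw j hj'))⟩
    · rw [if_neg hi, if_pos hj, if_neg hi, if_pos hj]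
      have hi' : σ i = false := by simpa using hi
      exact ⟨fun h3 => absurd h3.symm (ne _ _ (hu j hj).1 (hw i hi')),
        fun h3 => absurd h3.symm (ne _ _ (hu j hj).2 (hw i hi'))⟩
    · rw [if_neg hi, if_neg hj, if_neg hi, if_neg hj]
  | @rel e s i j k =>
    intro q σ u u' w P P' _ hu hw _ h
    have h0 := ty_mono (Nat.zero_le q) h
    have h1 := congrFun (congrArg Prod.snd (congrFun (congrFun (congrArg Prod.fst h0) i) j)) k
    have h2 : (σ i = true ∧ σ j = true ∧ σ k = true ∧ r (u i) (u j) (u k)) ↔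
      (σ i = true ∧ σ j = true ∧ σ k = true ∧ r (u' i) (u' j) (u' k)) := iff_of_eq h1
    show r (mrg σ u w i) (mrg σ u w j) (mrg σ u w k) ↔
      r (mrg σ u' w i) (mrg σ u' w j) (mrg σ u' w k)
    have hm : ∀ i, mrg σ u w i = mrg σ u' w i ∨ (mrg σ u w i ∈ c ∧ mrg σ u' w i ∈ c) := by
      intro i
      unfold mrg
      by_cases hi : σ i = true
      · rw [if_pos hi, if_pos hi]
        exact Or.inr (hu i hi)
      · rw [if_neg hi, if_neg hi]
        exact Or.inl rfl
    by_cases hall : σ i = true ∧ σ j = true ∧ σ k = true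
    · obtain ⟨hi, hj, hk⟩ := hall
      unfold mrg
      rw [if_pos hi, if_pos hj, if_pos hk, if_pos hi, if_pos hj, if_pos hk]
      tauto
    · have hw' : ∀ i, ¬ σ i = true → mrg σ u w i ∉ c := by
        intro i hi
        unfold mrg
        rw [if_neg hi]
        exact hw i (by simpa using hi)
      have hsc : ∀ i j, mrg σ u w i ∈ c → mrg σ u w j ∈ c →
          (sc (mrg σ u w i) (mrg σ u w j) ↔ sc (mrg σ u' w i) (mrg σ u' w j)) := by
        intro i j hi hj
        have hi' : σ i = true := by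
          by_contra h5
          exact hw' i h5 hi
        have hj' : σ j = true := by
          by_contra h5
          exact hw' j h5 hj
        have h6 : (σ i = true ∧ σ j = true ∧ sc (u i) (u j)) ↔
            (σ i = true ∧ σ j = true ∧ sc (u' i) (u' j)) :=
          iff_of_eq (congrArg (fun t => t.1.2) (congrFun (congrFun (congrArg Prod.fst h0) i) j))
        unfold mrg
        rw [if_pos hi', if_pos hj', if_pos hi', if_pos hj']
        tauto
      refine hmod ![mrg σ u w i, mrg σ u w j, mrg σ u w k]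
        ![mrg σ u' w i, mrg σ u' w j, mrg σ u' w k] ?_ ?_ ?_
      · by_cases hi : σ i = true
        · by_cases hj : σ j = true
          · exact ⟨2, hw' k fun hk => hall ⟨hi, hj, hk⟩⟩
          · exact ⟨1, hw' j hj⟩
        · exact ⟨0, hw' i hi⟩
      · intro l
        fin_cases l
        · exact hm i
        · exact hm j
        · exact hm k
      · intro l m
        fin_cases l <;> fin_cases m
        · exact hsc i i
        · exact hsc i j
        · exact hsc i k
        · exact hsc j i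
        · exact hsc j j
        · exact hsc j k
        · exact hsc k i
        · exact hsc k j
        · exact hsc k k
  | @mem e s i j =>
    intro q σ u u' w P P' _ hu hw hP h
    have h0 := ty_mono (Nat.zero_le q) h
    have h1 := congrFun (congrFun (congrArg Prod.snd h0) i) j
    show mrg σ u w i ∈ P j ↔ mrg σ u' w i ∈ P' j
    unfold mrg
    by_cases hi : σ i = true
    · rw [if_pos hi, if_pos hi]
      have h2 : (σ i = true ∧ u i ∈ P j) ↔ (σ i = true ∧ u' i ∈ P' j) := iff_of_eq h1
      tauto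
    · rw [if_neg hi, if_neg hi]
      exact hP j _ (hw i (by simpa using hi))
  | not φ ih =>
    intro q σ u u' w P P' hq hu hw hP h
    exact not_congr (ih q σ u u' w P P' hq hu hw hP h)
  | and φ ψ ih1 ih2 =>
    intro q σ u u' w P P' hq hu hw hP h
    exact and_congr (ih1 q σ u u' w P P' (le_trans (le_max_left _ _) hq) hu hw hP h)
      (ih2 q σ u u' w P P' (le_trans (le_max_right _ _) hq) hu hw hP h)
  | @all1 e s φ ih =>
    have key : ∀ (q : ℕ) (σ : Fin e → Bool) (u u' w : Fin e → ℕ) (P P' : Fin s → Set ℕ),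
        qr φ + 1 ≤ q → (∀ i, σ i = true → u i ∈ c ∧ u' i ∈ c) →
        (∀ i, σ i = false → w i ∉ c) → (∀ j x, ¬ x ∈ c → (x ∈ P j ↔ x ∈ P' j)) →
        ty r sc c q e s σ u P = ty r sc c q e s σ u' P' →
        (∀ x, φ.Sat r (Fin.snoc (mrg σ u w) x) P) → ∀ x, φ.Sat r (Fin.snoc (mrg σ u' w) x) P' := by
      intro q σ u u' w P P' hq hu hw hP h hall x
      obtain ⟨q, rfl⟩ : ∃ q', q = q' + 1 := ⟨q - 1, by omega⟩
      by_cases hx : x ∈ c
      · have h1 : ty r sc c q (e + 1) s (Fin.snoc σ true) (Fin.snoc u' x) P' ∈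
            {τ | ∃ z, z ∈ c ∧ τ = ty r sc c q (e + 1) s (Fin.snoc σ true) (Fin.snoc u z) P} := by
          have h2 : {τ | ∃ z, z ∈ c ∧ τ = ty r sc c q (e + 1) s (Fin.snoc σ true) (Fin.snoc u z) P} =
              {τ | ∃ z, z ∈ c ∧ τ = ty r sc c q (e + 1) s (Fin.snoc σ true) (Fin.snoc u' z) P'} :=
            congrArg (fun t => t.2.1) h
          rw [h2]
          exact ⟨x, hx, rfl⟩
        obtain ⟨z, hz, h3⟩ := h1
        have h4 := ih q (Fin.snoc σ true) (Fin.snoc u z) (Fin.snoc u' x) (Fin.snoc w 0) P P'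
          (by omega) (fun i => by
            refine Fin.lastCases ?_ (fun i => ?_) i
            · intro _
              simp only [Fin.snoc_last]
              exact ⟨hz, hx⟩
            · simp only [Fin.snoc_castSucc]
              exact hu i) (fun i => by
            refine Fin.lastCases ?_ (fun i => ?_) i
            · intro hf
              simp only [Fin.snoc_last] at hf
              exact absurd hf (by simp)
            · simp only [Fin.snoc_castSucc]
              exact hw i) hP h3.symm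
        rw [mrg_snoc_t, mrg_snoc_t] at h4
        exact h4.1 (hall z)
      · have h3 : ty r sc c q (e + 1) s (Fin.snoc σ false) (Fin.snoc u 0) P =
            ty r sc c q (e + 1) s (Fin.snoc σ false) (Fin.snoc u' 0) P' :=
          congrArg (fun t => t.2.2.1) h
        have h4 := ih q (Fin.snoc σ false) (Fin.snoc u 0) (Fin.snoc u' 0) (Fin.snoc w x) P P'
          (by omega) (fun i => by
            refine Fin.lastCases ?_ (fun i => ?_) i
            · intro hf
              simp only [Fin.snoc_last] at hf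
              exact absurd hf (by simp)
            · simp only [Fin.snoc_castSucc]
              exact hu i) (fun i => by
            refine Fin.lastCases ?_ (fun i => ?_) i
            · intro _
              simp only [Fin.snoc_last]
              exact hx
            · simp only [Fin.snoc_castSucc]
              exact hw i) hP h3
        rw [mrg_snoc_f, mrg_snoc_f] at h4
        exact h4.1 (hall x)
    intro q σ u u' w P P' hq hu hw hP h
    exact ⟨key q σ u u' w P P' hq hu hw hP h,
      key q σ u' u w P' P hq (fun i hi => (hu i hi).symm) hw (fun j x hx => (hP j x hx).symm) h.symm⟩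
  | @all2 e s φ ih =>
    have key : ∀ (q : ℕ) (σ : Fin e → Bool) (u u' w : Fin e → ℕ) (P P' : Fin s → Set ℕ),
        qr φ + 1 ≤ q → (∀ i, σ i = true → u i ∈ c ∧ u' i ∈ c) →
        (∀ i, σ i = false → w i ∉ c) → (∀ j x, ¬ x ∈ c → (x ∈ P j ↔ x ∈ P' j)) →
        ty r sc c q e s σ u P = ty r sc c q e s σ u' P' →
        (∀ X, φ.Sat r (mrg σ u w) (Fin.snoc P X)) → ∀ X, φ.Sat r (mrg σ u' w) (Fin.snoc P' X) := by
      intro q σ u u' w P P' hq hu hw hP h hall X
      obtain ⟨q, rfl⟩ : ∃ q', q = q' + 1 := ⟨q - 1, by omega⟩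
      have h1 : ty r sc c q e (s + 1) σ u' (Fin.snoc P' X) ∈
          {τ | ∃ X, τ = ty r sc c q e (s + 1) σ u (Fin.snoc P X)} := by
        have h2 : {τ | ∃ X, τ = ty r sc c q e (s + 1) σ u (Fin.snoc P X)} =
            {τ | ∃ X, τ = ty r sc c q e (s + 1) σ u' (Fin.snoc P' X)} :=
          congrArg (fun t => t.2.2.2) h
        rw [h2]
        exact ⟨X, rfl⟩
      obtain ⟨Y, h3⟩ := h1
      have h5 : ty r sc c q e (s + 1) σ u (Fin.snoc P Y) =
          ty r sc c q e (s + 1) σ u (Fin.snoc P {x | (x ∈ c ∧ x ∈ Y) ∨ (¬ x ∈ c ∧ x ∈ X)}) := by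
        refine ty_congr q e (s + 1) σ u u _ _ (fun i hi => (hu i hi).1) (fun _ _ => rfl) (fun j => ?_)
        refine Fin.lastCases ?_ (fun j => ?_) j
        · intro x hx
          simp only [Fin.snoc_last]
          show x ∈ Y ↔ (x ∈ c ∧ x ∈ Y) ∨ (¬ x ∈ c ∧ x ∈ X)
          tauto
        · intro x _
          simp only [Fin.snoc_castSucc]
      have h4 := ih q σ u u' w (Fin.snoc P {x | (x ∈ c ∧ x ∈ Y) ∨ (¬ x ∈ c ∧ x ∈ X)})
        (Fin.snoc P' X) (by omega) hu hw (fun j => by
          refine Fin.lastCases ?_ (fun j => ?_) j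
          · intro x hx
            simp only [Fin.snoc_last]
            show (x ∈ c ∧ x ∈ Y) ∨ (¬ x ∈ c ∧ x ∈ X) ↔ x ∈ X
            tauto
          · simp only [Fin.snoc_castSucc]
            exact hP j) (h5.symm.trans h3.symm)
      exact h4.1 (hall _)
    intro q σ u u' w P P' hq hu hw hP h
    exact ⟨key q σ u u' w P P' hq hu hw hP h,
      key q σ u' u w P' P hq (fun i hi => (hu i hi).symm) hw (fun j x hx => (hP j x hx).symm) h.symm⟩

theorem mrg_upd {e : ℕ} (k : Fin e) (u : ℕ) (t : Fin e → ℕ) :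
    mrg (fun j => decide (j = k)) (fun _ => u) t = Function.update t k u := by
  funext j
  unfold mrg
  by_cases h : j = k
  · subst h
    simp
  · simp [h]

/-- finitely many rows -/
theorem rows_mso {ι : Type} {ar : ι → ℕ} (R : (i : ι) → (Fin (ar i) → ℕ) → Prop)
    (r : ℕ → ℕ → ℕ → Prop) (hfin : {i | 2 ≤ ar i}.Finite)
    (h : ∀ i, 2 ≤ ar i → ∃ (s : ℕ) (φ : MSO (ar i) s) (P : Fin s → Set ℕ),
      ∀ v, R i v ↔ φ.Sat r v P) :
    ∃ n : ℕ, ∀ sc c, Mod r sc c → ∀ e : Fin (n + 1) → ℕ, (∀ i, e i ∈ c) → ∃ i j, i ≠ j ∧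
      ∀ (l : ι) (t : Fin (ar l) → ℕ) (k : Fin (ar l)), (∃ m, m ≠ k) → (∀ m, m ≠ k → t m ∉ c) →
        (R l (Function.update t k (e i)) ↔ R l (Function.update t k (e j))) := by
  classical
  have h' : ∀ i : {i // 2 ≤ ar i}, ∃ (s : ℕ) (φ : MSO (ar i) s) (P : Fin s → Set ℕ),
      ∀ v, R i v ↔ φ.Sat r v P := fun i => h i i.2
  choose S φ P hR using h'
  have : Finite {i // 2 ≤ ar i} := hfin
  have hT : ∀ i : {i // 2 ≤ ar i}, Finite (T (qr (φ i)) (ar i) (S i)) := fun i => finT _ _ _
  let W : Type := (i : {i // 2 ≤ ar i}) → Fin (ar i) → T (qr (φ i)) (ar i) (S i)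
  have hW : Finite W := by
    show Finite ((i : {i // 2 ≤ ar i}) → Fin (ar i) → T (qr (φ i)) (ar i) (S i))
    infer_instance
  let Θ : (ℕ → ℕ → Prop) → Set ℕ → ℕ → W := fun sc c s i k =>
    ty r sc c (qr (φ i)) (ar i) (S i) (fun j => decide (j = k)) (fun _ => s) (P i)
  obtain ⟨n, ⟨e0⟩⟩ := Finite.exists_equiv_fin W
  refine ⟨n, fun sc c hc e he => ?_⟩
  obtain ⟨i, j, hij, h1⟩ := Fintype.exists_ne_map_eq_of_card_lt (fun i => e0 (Θ sc c (e i)))
    (by simp)
  refine ⟨i, j, hij, fun l t k hk ht => ?_⟩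
  have h2 : Θ sc c (e i) = Θ sc c (e j) := e0.injective h1
  have hl : 2 ≤ ar l := by
    obtain ⟨m, hm⟩ := hk
    have h3 : m.val ≠ k.val := fun h4 => hm (Fin.ext h4)
    have := m.2
    have := k.2
    omega
  have h4 : ty r sc c (qr (φ ⟨l, hl⟩)) (ar l) (S ⟨l, hl⟩) (fun j => decide (j = k)) (fun _ => e i)
      (P ⟨l, hl⟩) = ty r sc c (qr (φ ⟨l, hl⟩)) (ar l) (S ⟨l, hl⟩) (fun j => decide (j = k))
      (fun _ => e j) (P ⟨l, hl⟩) := congrFun (congrFun h2 ⟨l, hl⟩) k
  have h5 := comp hc (φ ⟨l, hl⟩) (qr (φ ⟨l, hl⟩)) (fun j => decide (j = k))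
    (fun _ => e i) (fun _ => e j) t (P ⟨l, hl⟩) (P ⟨l, hl⟩) le_rfl
    (fun _ _ => ⟨he i, he j⟩) (fun m hm => ht m (by simpa using hm)) (fun _ _ _ => Iff.rfl) h4
  rw [mrg_upd, mrg_upd] at h5
  rw [hR ⟨l, hl⟩, hR ⟨l, hl⟩]
  exact h5

/-- unions of children of a node are modules up to the relation `same child` -/
theorem mod_sec (r : ℕ → ℕ → ℕ → Prop)
    (h3 : ∀ x y w, r x y w → r y x w) (h4 : ∀ x y w, r x y w → ¬ r x w y)
    (h5 : ∀ x y w, r x y w → ∀ v, r x y v ∨ r v y w) (x y : ℕ) (Y : Set ℕ)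
    (hY1 : ∀ u ∈ Y, ¬ r x y u) (hY2 : ∀ u ∈ Y, ∀ v, r u v x ∨ r u v y → v ∈ Y) :
    Mod r (fun u v => r u v x ∨ r u v y) Y := by
  have tr : ∀ a b c d, r d a c → r d b c → r a b c := by
    intro a b c d ha hb
    rcases h5 _ _ _ hb a with h | h
    · rcases h5 _ _ _ ha b with h' | h'
      · exact absurd h' (h4 _ _ _ h)
      · exact h3 _ _ _ h'
    · exact h
  -- two points of `Y` and a point outside of the node
  have hA : ∀ a b c, a ∈ Y → b ∈ Y → r x y c → r a b c := by
    intro a b c ha hb hc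
    have h6 : r a y c := by
      rcases h5 _ _ _ hc a with h | h
      · exact absurd h (hY1 a ha)
      · exact h
    have h7 : r b y c := by
      rcases h5 _ _ _ hc b with h | h
      · exact absurd h (hY1 b hb)
      · exact h
    exact tr a b c y (h3 _ _ _ h6) (h3 _ _ _ h7)
  have hB : ∀ a b a', a ∈ Y → b ∉ Y → a' ∈ Y → ¬ r a b a' := by
    intro a b a' ha hb ha' h
    have h6 : r x b a' := by
      rcases h5 _ _ _ h x with h' | h'
      · exact absurd (hY2 a ha b (Or.inl h')) hb
      · exact h'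
    have h7 : r y b a' := by
      rcases h5 _ _ _ h y with h' | h'
      · exact absurd (hY2 a ha b (Or.inr h')) hb
      · exact h'
    exact hY1 a' ha' (tr x y a' b (h3 _ _ _ h6) (h3 _ _ _ h7))
  have hC : ∀ a b c, a ∈ Y → b ∈ Y → c ∉ Y → (r a b c ↔ r x y c ∨ (r a b x ∨ r a b y)) := by
    intro a b c ha hb hc
    constructor
    · intro h
      by_contra h8
      have h6 : r x b c := by
        rcases h5 _ _ _ h x with h' | h'
        · exact absurd (Or.inr (Or.inl h')) h8
        · exact h'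
      have h7 : r y b c := by
        rcases h5 _ _ _ h y with h' | h'
        · exact absurd (Or.inr (Or.inr h')) h8
        · exact h'
      exact h8 (Or.inl (tr x y c b (h3 _ _ _ h6) (h3 _ _ _ h7)))
    · rintro (h | h | h)
      · exact hA a b c ha hb h
      · rcases h5 _ _ _ h c with h' | h'
        · exact h'
        · exact absurd (hY2 b hb c (Or.inl (h3 _ _ _ h'))) hc
      · rcases h5 _ _ _ h c with h' | h'
        · exact h'
        · exact absurd (hY2 b hb c (Or.inr (h3 _ _ _ h'))) hc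
  have hD : ∀ a a' b c, a ∈ Y → a' ∈ Y → b ∉ Y → r a b c → r a' b c := by
    intro a a' b c ha ha' hb h
    rcases h5 _ _ _ h a' with h' | h'
    · exact absurd h' (hB _ _ _ ha hb ha')
    · exact h'
  have hE : ∀ a b c c', b ∉ Y → c ∈ Y → c' ∈ Y → r a b c → r a b c' := by
    intro a b c c' hb hc hc' h
    rcases h5 _ _ _ h c' with h' | h'
    · exact h'
    · exact absurd h' (hB _ _ _ hc' hb hc)
  intro v v' hv hvv hsc
  have key : ∀ a b c a' b' c' : ℕ, (a = a' ∨ (a ∈ Y ∧ a' ∈ Y)) →
      (b = b' ∨ (b ∈ Y ∧ b' ∈ Y)) → (c = c' ∨ (c ∈ Y ∧ c' ∈ Y)) →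
      (a ∈ Y → b ∈ Y → ((r a b x ∨ r a b y) ↔ (r a' b' x ∨ r a' b' y))) →
      (a ∉ Y ∨ b ∉ Y ∨ c ∉ Y) → r a b c → r a' b' c' := by
    intro a b c a' b' c' ha hb hc hs hn h
    by_cases ya : a ∈ Y
    · have ya' : a' ∈ Y := by
        rcases ha with ha | ha
        · rw [← ha]
          exact ya
        · exact ha.2
      by_cases yb : b ∈ Y
      · have yb' : b' ∈ Y := by
          rcases hb with hb | hb
          · rw [← hb]
            exact yb
          · exact hb.2
        have yc : c ∉ Y := by tauto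
        have hcc : c = c' := by
          rcases hc with hc | hc
          · exact hc
          · exact absurd hc.1 yc
        rw [← hcc, hC _ _ _ ya' yb' yc, ← hs ya yb]
        exact (hC _ _ _ ya yb yc).1 h
      · have hbb : b = b' := by
          rcases hb with hb | hb
          · exact hb
          · exact absurd hb.1 yb
        rw [← hbb]
        by_cases yc : c ∈ Y
        · exact absurd h (hB _ _ _ ya yb yc)
        · have hcc : c = c' := by
            rcases hc with hc | hc
            · exact hc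
            · exact absurd hc.1 yc
          rw [← hcc]
          exact hD _ _ _ _ ya ya' yb h
    · have haa : a = a' := by
        rcases ha with ha | ha
        · exact ha
        · exact absurd ha.1 ya
      rw [← haa]
      by_cases yb : b ∈ Y
      · have yb' : b' ∈ Y := by
          rcases hb with hb | hb
          · rw [← hb]
            exact yb
          · exact hb.2
        by_cases yc : c ∈ Y
        · exact absurd (h3 _ _ _ h) (hB _ _ _ yb ya yc)
        · have hcc : c = c' := by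
            rcases hc with hc | hc
            · exact hc
            · exact absurd hc.1 yc
          rw [← hcc]
          exact h3 _ _ _ (hD _ _ _ _ yb yb' ya (h3 _ _ _ h))
      · have hbb : b = b' := by
          rcases hb with hb | hb
          · exact hb
          · exact absurd hb.1 yb
        rw [← hbb]
        by_cases yc : c ∈ Y
        · have yc' : c' ∈ Y := by
            rcases hc with hc | hc
            · rw [← hc]
              exact yc
            · exact hc.2
          exact hE _ _ _ _ yb yc yc' h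
        · have hcc : c = c' := by
            rcases hc with hc | hc
            · exact hc
            · exact absurd hc.1 yc
          rw [← hcc]
          exact h
  have hn : v 0 ∉ Y ∨ v 1 ∉ Y ∨ v 2 ∉ Y := by
    obtain ⟨i, hi⟩ := hv
    fin_cases i
    · exact Or.inl hi
    · exact Or.inr (Or.inl hi)
    · exact Or.inr (Or.inr hi)
  have hmem : ∀ i, v i ∈ Y ↔ v' i ∈ Y := by
    intro i
    rcases hvv i with h | h
    · rw [h]
    · exact ⟨fun _ => h.2, fun _ => h.1⟩
  have hn' : v' 0 ∉ Y ∨ v' 1 ∉ Y ∨ v' 2 ∉ Y := by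
    rw [← hmem, ← hmem, ← hmem]
    exact hn
  have hsy : ∀ i, v' i = v i ∨ (v' i ∈ Y ∧ v i ∈ Y) := by
    intro i
    rcases hvv i with h | h
    · exact Or.inl h.symm
    · exact Or.inr ⟨h.2, h.1⟩
  exact ⟨key _ _ _ _ _ _ (hvv 0) (hvv 1) (hvv 2) (hsc 0 1) hn,
    key _ _ _ _ _ _ (hsy 0) (hsy 1) (hsy 2)
      (fun h h' => (hsc 0 1 ((hmem 0).2 h) ((hmem 1).2 h')).symm) hn'⟩

end Pool.Agent.N643.TD.Mso
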