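import Pool.Agent.N643.TD.CTE

set_option autoImplicit false

/-!
# Levels: equivalent levels with thin children are isomorphic

`Se M y b` is the node generated by `y` and `b` without the child of `b`. Its children are the cones
`Cn M w b` for `w ∈ Se M y b`; two points `u`, `v` of it are in the same child iff `D M u v b`.
-/

namespace Pool.Agent.N643.TD

open Set
open Pool.Agent.H899R2.VP
open Pool.Agent.H533R2.VO (Lev)

/-- `u` is in an exceptional child: a child with a point in the list `F`. -/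
def Ex (M : T) (b : ℕ) (F : List ℕ) (u : ℕ) : Prop := ∃ f ∈ F, D M f u b

/-- No point of a further regular child distinguishes `g` and `u`. -/
def Ag (M : T) (y b : ℕ) (F : List ℕ) (g u : ℕ) : Prop :=
  ∀ w ∈ Se M y b, ¬ Ex M b F w → ¬ D M g w b → ¬ D M u w b →
    ∀ i, R M i g w = R M i u w ∧ R M i w g = R M i w u

/-- The list `L` of references: the first `k` members are in the exceptional children. -/
structure Ref (M : T) (y b k : ℕ) (L : List ℕ) : Prop where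
  sub : ∀ g ∈ L, g ∈ Se M y b
  exc : ∀ u ∈ Se M y b, Ex M b (L.take k) u → ∃ g ∈ L, D M g u b ∧ er M univ (Cn M u b) g u
  reg : ∀ u ∈ Se M y b, ¬ Ex M b (L.take k) u → ∃ g1 ∈ L, ∃ g2 ∈ L, ∃ g3 ∈ L,
    ¬ D M g1 g2 b ∧ ¬ D M g1 g3 b ∧ ¬ D M g2 g3 b ∧ Ag M y b (L.take k) g1 u ∧
      Ag M y b (L.take k) g2 u ∧ Ag M y b (L.take k) g3 u
  row : ∀ u ∈ Se M y b, ∃ g ∈ L, er M univ (Se M y b) g u

/-- The property number `j = (a, (c, i))` of the point `u`, where `g` is reference number `a`. -/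
def pf (M : T) (y b k : ℕ) (L : List ℕ) (j u : ℕ) : Prop :=
  match j.unpair.2.unpair.1 with
  | 0 => Ag M y b (L.take k) (L.getD j.unpair.1 y) u
  | 1 => er M univ (Se M y b) (L.getD j.unpair.1 y) u
  | 2 => D M (L.getD j.unpair.1 y) u b
  | 3 => ¬ D M (L.getD j.unpair.1 y) u b ∧
      R M j.unpair.2.unpair.2 (L.getD j.unpair.1 y) u = true
  | 4 => ¬ D M (L.getD j.unpair.1 y) u b ∧
      R M j.unpair.2.unpair.2 u (L.getD j.unpair.1 y) = true
  | _ => False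

open Classical in
/-- The structure of the children with the properties as labels. -/
noncomputable def PL (M : T) (y b k : ℕ) (L : List ℕ) : T :=
  (fun u v => decide (D M u v b ∧ er M univ (Cn M u b) u v),
    fun i => match i with
    | 0 => M.2 0
    | i + 1 => fun t => if i % 2 = 0 then
        decide (t (0 : Fin 2) = t (1 : Fin 2) ∧ pf M y b k L (i / 2) (t (0 : Fin 2)))
      else M.2 (i + 1) t)

/-- The children of `Se M y b` are in `S`. -/
def Th (S : Set (T × Set ℕ)) (M : T) (y b : ℕ) : Prop := ∀ w ∈ Se M y b, Pc M (Cn M w b) ∈ S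

/-! ### Statements -/

/-- Existence of references. -/
def S_REF : Prop := ∀ (n : ℕ) (M : T) (y b : ℕ), CsOn n M univ → y ≠ b →
  ∃ k L, Ref M y b k L

/-- Transfer of properties. -/
def S_TRF : Prop := ∀ (n : ℕ) (M M' : T) (y b y' b' k : ℕ) (L L' : List ℕ) (p : Set (ℕ × ℕ)),
  CsOn n M univ → CsOn n M' univ → y ≠ b → L.length = L'.length →
  (y, y') ∈ p → (b, b') ∈ p → zipSet L L' ⊆ p → BF M M' univ univ 1 p →
  (∀ u ∈ p, (u.1 ∈ Se M y b ↔ u.2 ∈ Se M' y' b')) ∧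
  (∀ u ∈ p, (Ex M b (L.take k) u.1 ↔ Ex M' b' (L'.take k) u.2)) ∧
  (∀ g ∈ p, ∀ u ∈ p, (Ag M y b (L.take k) g.1 u.1 ↔ Ag M' y' b' (L'.take k) g.2 u.2)) ∧
  (∀ u ∈ p, ∀ v ∈ p, (er M univ (Se M y b) u.1 v.1 ↔ er M' univ (Se M' y' b') u.2 v.2)) ∧
  (∀ x ∈ p, ∀ u ∈ p, ∀ v ∈ p, (er M univ (Cn M x.1 b) u.1 v.1 ↔
    er M' univ (Cn M' x.2 b') u.2 v.2)) ∧
  ∀ j, ∀ u ∈ p, (pf M y b k L j u.1 ↔ pf M' y' b' k L' j u.2)

/-- Transfer of references. -/
def S_TRR : Prop := ∀ (n : ℕ) (M M' : T) (y b y' b' k : ℕ) (L L' : List ℕ) (p : Set (ℕ × ℕ)),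
  CsOn n M univ → CsOn n M' univ → y ≠ b → L.length = L'.length →
  (y, y') ∈ p → (b, b') ∈ p → zipSet L L' ⊆ p → BF M M' univ univ 2 p →
  Ref M y b k L → Ref M' y' b' k L'

/-- Equivalent children are isomorphic. -/
def S_ST1 : Prop := ∀ (n : ℕ) (S : Set (T × Set ℕ)) (l : Ordinal.{0}) (M M' : T)
  (y b y' b' k : ℕ) (L L' : List ℕ) (p : Set (ℕ × ℕ)), CF S → Lev S l → Ordinal.omega0 ≤ l →
  CsOn n M univ → CsOn n M' univ → y ≠ b → Th S M y b → L.length = L'.length → p.Finite →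
  (y, y') ∈ p → (b, b') ∈ p → zipSet L L' ⊆ p → BF M M' univ univ (l + (n : Ordinal.{0})) p →
  ∀ u ∈ p, u.1 ∈ Se M y b → IsoOn (PL M y b k L) (PL M' y' b' k L') (Cn M u.1 b) (Cn M' u.2 b')
    {v | v ∈ p ∧ v.1 ∈ Cn M u.1 b}

/-- Locally isomorphic sets of pairs are partial isomorphisms. -/
def S_ST2 : Prop := ∀ (n : ℕ) (M M' : T) (y b y' b' k : ℕ) (L L' : List ℕ) (p : Set (ℕ × ℕ)),
  CsOn n M univ → CsOn n M' univ → y ≠ b → y' ≠ b' → L.length = L'.length →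
  Ref M y b k L → Ref M' y' b' k L' → zipSet L L' ⊆ p → p ⊆ Se M y b ×ˢ Se M' y' b' →
  (∀ u ∈ p, ∀ v ∈ p, (D M u.1 v.1 b ↔ D M' u.2 v.2 b')) →
  (∀ u ∈ p, IsoOn (PL M y b k L) (PL M' y' b' k L') (Cn M u.1 b) (Cn M' u.2 b')
    {v | v ∈ p ∧ v.1 ∈ Cn M u.1 b}) →
  PIso (pc M univ (Se M y b)) (pc M' univ (Se M' y' b')) p

/-- Equivalent levels are isomorphic. -/
def S_STR : Prop := ∀ (n : ℕ) (S : Set (T × Set ℕ)), CF S → ∃ β : Ordinal.{0},
  β < Ordinal.omega 1 ∧ Ordinal.omega0 ≤ β ∧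
  ∀ (M M' : T) (y b y' b' : ℕ) (s s' : List ℕ), CsOn n M univ → CsOn n M' univ → y ≠ b →
  Th S M y b → Th S M' y' b' → s.length = s'.length → (∀ u ∈ s, u ∈ Se M y b) →
  BF M M' univ univ β (insert (y, y') (insert (b, b') (zipSet s s'))) →
  IsoOn (pc M univ (Se M y b)) (pc M' univ (Se M' y' b')) (Se M y b) (Se M' y' b') (zipSet s s')

end Pool.Agent.N643.TD
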