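import Pool.Agent.N643.TD.Lib3
import Pool.Agent.H533R2.VD.Lib

set_option autoImplicit false

/-! Statements of the steps of the proof. -/

namespace Pool.Agent.N643.TD

open Set
open Pool.Agent.H899R2.VP
open Pool.Agent.H533R2.VO (Lev)

/-- The assumptions are preserved by equivalence. -/
def S_CSBF : Prop := ∀ (n : ℕ) (α : Ordinal.{0}) (M N : T) (X Y : Set ℕ), Ordinal.omega0 ≤ α →
  CsOn n M X → BF M N X Y α ∅ → CsOn n N Y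

/-- Cones with labels satisfy the assumptions. -/
def S_CSOD : Prop := ∀ (n : ℕ) (M : T) (x z : ℕ) (us : List ℕ), CsOn n M univ → x ≠ z →
  Rp (pc M univ (Cn M x z)) (Cn M x z) us →
  CsOn n (od (pc M univ (Cn M x z)) us) (Cn M x z)

/-! ### General facts -/

def S_LEV3 : Prop := ∀ S : Set (T × Set ℕ), CF S →
  ∃ l : Ordinal.{0}, l < Ordinal.omega 1 ∧ Ordinal.omega0 ≤ l ∧ Lev S l

def S_GENC : Prop := ∀ f : ℕ → T × Set ℕ, ∃ S : Set (T × Set ℕ), CF S ∧ ∀ n, f n ∈ S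

def S_GENUC : Prop := ∀ (ι : Type 1) [Countable ι] (F : ι → Set (T × Set ℕ)),
  (∀ i, CF (F i)) → ∃ S : Set (T × Set ℕ), CF S ∧ ∀ i, F i ⊆ S

def S_LAB3 : Prop := ∀ (n : ℕ) (α : Ordinal.{0}) (K : Set T), GC n α K →
  ∀ β : Ordinal.{0}, β < Ordinal.omega 1 → ∃ c : T → List ℕ → ℕ, ∀ M ∈ K, ∀ N ∈ K,
  ∀ s t : List ℕ, s.length = t.length → c M s = c N t → BF M N univ univ β (zipSet s t)

/-- Measurability of membership in a family and of types. -/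
def S_MS : Prop := ∀ (S : Set (T × Set ℕ)) (l : Ordinal.{0}), CF S → Lev S l →
  l < Ordinal.omega 1 → (∀ x z, MeasurableSet {M : T | Pc M (Cn M x z) ∈ S}) ∧
  ∀ P ∈ S, ∀ x z, MeasurableSet {M : T | IsoOn P.1 (pc M univ (Cn M x z)) P.2 (Cn M x z) ∅}

/-- Transport of an infinite piece to `ℕ`. -/
def S_TRX : Prop := ∀ (M : T) (X : Set ℕ), X.Infinite → ∃ N : T, IsoOn M N X univ ∅

/-- Transport of an equivalent piece. -/
def S_TRP3 : Prop := ∀ (M N : T) (X Y : Set ℕ) (α : Ordinal.{0}),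
  Ordinal.omega0 ≤ α → BF M N X Y α ∅ → ∃ t : T, IsoOn N t Y X ∅

def S_BASE3 : Prop := ∀ (n : ℕ) (α : Ordinal.{0}) (K : Set T), GC n α K →
  ∃ S : Set (T × Set ℕ), CF S ∧ ∀ M ∈ K, ∀ x z, x ≠ z → Pc M (Cn M x z) ∉ S →
    ∃ us, Big α (pc M univ (Cn M x z)) (Cn M x z) us

/-! ### Replacement -/

/-- The standing assumptions of gluing: disjoint cones, representatives and equivalent pieces with
labels. -/
structure GA (n : ℕ) {ι : Type} (α : Ordinal.{0}) (M : T) (x z : ι → ℕ) (us : ι → List ℕ)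
    (t : ι → T) : Prop where
  om : Ordinal.omega0 ≤ α
  cs : CsOn n M univ
  ne : ∀ j, x j ≠ z j
  dj : ∀ i j, i ≠ j → Disjoint (Cn M (x i) (z i)) (Cn M (x j) (z j))
  rp : ∀ j, Rp (pc M univ (Cn M (x j) (z j))) (Cn M (x j) (z j)) (us j)
  bf : ∀ j, BF (od (pc M univ (Cn M (x j) (z j))) (us j)) (t j) (Cn M (x j) (z j))
    (Cn M (x j) (z j)) α ∅

/-- The glued structure is equivalent. -/
def S_GLB3 : Prop := ∀ (n : ℕ) (ι : Type) (α : Ordinal.{0}) (M : T) (x z : ι → ℕ)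
  (us : ι → List ℕ) (t : ι → T), GA n α M x z us t →
  BF M (Gl n M (fun j => Cn M (x j) (z j)) us t) univ univ α ∅

/-- Facts on the glued structure. -/
def S_GLF3 : Prop := ∀ (n : ℕ) (ι : Type) (α : Ordinal.{0}) (M : T) (x z : ι → ℕ)
  (us : ι → List ℕ) (t : ι → T), GA n α M x z us t →
  (∀ j, Cn (Gl n M (fun j => Cn M (x j) (z j)) us t) (x j) (z j) = Cn M (x j) (z j)) ∧
  (∀ j, IsoOn (pc (t j) (Cn M (x j) (z j)) (Cn M (x j) (z j)))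
    (pc (Gl n M (fun j => Cn M (x j) (z j)) us t) univ (Cn M (x j) (z j))) (Cn M (x j) (z j))
    (Cn M (x j) (z j)) (idOn (Cn M (x j) (z j)))) ∧
  ∀ u v w, (∀ j, u ∈ Cn M (x j) (z j) → v ∈ Cn M (x j) (z j) → w ∉ Cn M (x j) (z j)) →
    (D (Gl n M (fun j => Cn M (x j) (z j)) us t) u v w ↔ D M u v w)

/-- The class of the variations of an infinite cone. -/
def S_KCONE : Prop := ∀ (n : ℕ) (α : Ordinal.{0}) (K : Set T), GC n α K →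
  ∀ M ∈ K, ∀ x z, x ≠ z → (Cn M x z).Infinite → ∀ us,
  Rp (pc M univ (Cn M x z)) (Cn M x z) us →
  GC n α {N : T | BF (od (pc M univ (Cn M x z)) us) N (Cn M x z) univ α ∅}

/-! ### Coding -/

def S_FILL3 : Prop := ∀ (α : Ordinal.{0}) (M : T) (X : Set ℕ) (us : List ℕ),
  Ordinal.omega0 ≤ α → Big α M X us → ∀ F : Set (T × Set ℕ), F.Countable →
  ∃ t : T, BF (od M us) t X X α ∅ ∧ ∀ P ∈ F, ¬ IsoOn P.1 (pc t X X) P.2 X ∅

def S_SEQ3 : Prop := ∀ (n : ℕ) (α : Ordinal.{0}) (M : T) (x z : ℕ → ℕ) (us : ℕ → List ℕ),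
  Ordinal.omega0 ≤ α → Cb n α M x z us → ∃ t : ℕ → T, GoodT n α M x z us t

/-- Facts on combs. -/
def S_CBF : Prop := ∀ (n : ℕ) (α : Ordinal.{0}) (M : T) (x z : ℕ → ℕ) (us : ℕ → List ℕ),
  Cb n α M x z us →
  (∀ m n, m ≤ n → Nd M (x n) (x (n + 1)) ⊆ Nd M (x m) (x (m + 1))) ∧
  (∀ m n, m ≤ n → Cn M (x n) (z n) ⊆ Nd M (x m) (x (m + 1))) ∧
  (∀ m n, m < n → Disjoint (Cn M (x m) (z m)) (Nd M (x n) (x (n + 1)))) ∧
  (∀ k, z k ∉ Cn M (x k) (z k)) ∧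
  (∀ k, x k ∈ Cn M (x k) (z k))

/-- Facts on the filled structures. -/
def S_DSF : Prop := ∀ (n : ℕ) (α : Ordinal.{0}) (M : T) (x z : ℕ → ℕ) (us : ℕ → List ℕ)
  (t : ℕ → T), SU n α M x z us t → ∀ σ : ℕ → Bool,
  BF M (DS n M x z us t σ) univ univ α ∅ ∧ CsOn n (DS n M x z us t σ) univ ∧
  (∀ k, Cn (DS n M x z us t σ) (x k) (z k) = Cn M (x k) (z k)) ∧
  (∀ k, Nd (DS n M x z us t σ) (x k) (x (k + 1)) = Nd M (x k) (x (k + 1))) ∧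
  ∀ k, IsoOn (pc (t (2 * k + (σ k).toNat)) (Cn M (x k) (z k)) (Cn M (x k) (z k)))
    (pc (DS n M x z us t σ) univ (Cn M (x k) (z k))) (Cn M (x k) (z k)) (Cn M (x k) (z k)) ∅

/-- Cones disjoint from a node of the comb occur at an early stage. -/
def S_STG : Prop := ∀ (m : ℕ) (α : Ordinal.{0}) (M : T) (x z : ℕ → ℕ) (us : ℕ → List ℕ)
  (t : ℕ → T), SU m α M x z us t → ∀ (σ : ℕ → Bool) (n s : ℕ),
  (∀ k < n, 2 * k + (σ k).toNat < s) →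
  ∀ u v, u ≠ v → Disjoint (Cn (DS m M x z us t σ) u v) (Nd M (x n) (x (n + 1))) →
  ∃ P ∈ FF m M x z us t s, IsoOn P.1 (pc (DS m M x z us t σ) univ (Cn (DS m M x z us t σ) u v))
    P.2 (Cn (DS m M x z us t σ) u v) ∅

def S_DA : Prop := ∀ (n : ℕ) (α : Ordinal.{0}) (M : T) (x z : ℕ → ℕ) (us : ℕ → List ℕ)
  (t : ℕ → T), SU n α M x z us t → ∀ (σ τ : ℕ → Bool) (e : Equiv.Perm ℕ),
  Is (DS n M x z us t σ) (DS n M x z us t τ) e →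
  ∀ m, ¬ Disjoint (e '' Cn M (x m) (z m)) (Nd M (x m) (x (m + 1)))

def S_DB : Prop := ∀ (n : ℕ) (α : Ordinal.{0}) (M : T) (x z : ℕ → ℕ) (us : ℕ → List ℕ)
  (t : ℕ → T), SU n α M x z us t → ∀ (σ τ : ℕ → Bool) (e : Equiv.Perm ℕ),
  Is (DS n M x z us t σ) (DS n M x z us t τ) e →
  ∀ m, ¬ Nd M (x m) (x (m + 1)) ⊆ e '' Cn M (x m) (z m)

def S_DC : Prop := ∀ (n : ℕ) (α : Ordinal.{0}) (M : T) (x z : ℕ → ℕ) (us : ℕ → List ℕ)
  (t : ℕ → T), SU n α M x z us t → ∀ (σ τ : ℕ → Bool) (e : Equiv.Perm ℕ),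
  Is (DS n M x z us t σ) (DS n M x z us t τ) e →
  ∀ m, e '' Nd M (x m) (x (m + 1)) = Nd M (x m) (x (m + 1))

def S_DD : Prop := ∀ (n : ℕ) (α : Ordinal.{0}) (M : T) (x z : ℕ → ℕ) (us : ℕ → List ℕ)
  (t : ℕ → T), SU n α M x z us t → ∀ (σ τ : ℕ → Bool) (e : Equiv.Perm ℕ),
  Is (DS n M x z us t σ) (DS n M x z us t τ) e → σ = τ

def S_CODE3 : Prop := ∀ (n : ℕ) (α : Ordinal.{0}) (K : Set T), GC n α K →
  ∀ M ∈ K, ∀ (x z : ℕ → ℕ) (us : ℕ → List ℕ), ¬ Cb n α M x z us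

def S_COMB : Prop := ∀ (n : ℕ) (α : Ordinal.{0}) (M : T) (S : Set (T × Set ℕ))
  (P : List Bool → ℕ), CsOn n M univ →
  (∀ p, Bc S M p → ∃ us, Big α (pc M univ (Cc M p)) (Cc M p) us) → (∀ s, Bc S M (P s)) →
  (∀ s, Sc M (P s) (P (s ++ [false])) (P (s ++ [true]))) →
  ∃ (x z : ℕ → ℕ) (us : ℕ → List ℕ), Cb n α M x z us

/-! ### Centres -/

/-- A point centre. -/
def S_CTF : Prop := ∀ (n : ℕ) (S : Set (T × Set ℕ)) (N : T) (v : ℕ), CF S → CsOn n N univ →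
  (∀ y, y ≠ v → Pc N (Cn N y v) ∈ S) → Ctr n S N (Be S false N v)

/-- An end as centre. -/
def S_CTT : Prop := ∀ (n : ℕ) (S : Set (T × Set ℕ)) (N : T) (v : ℕ), CF S → CsOn n N univ →
  (∀ y, ∃ x, x ≠ y ∧ Pc N (Cn N x y) ∉ S) →
  (∀ x z x' z', x ≠ z → x' ≠ z' → Disjoint (Cn N x z) (Cn N x' z') →
    Pc N (Cn N x z) ∈ S ∨ Pc N (Cn N x' z') ∈ S) → Ctr n S N (Be S true N v)

def S_CT : Prop := ∀ (n : ℕ) (α : Ordinal.{0}) (K : Set T) (S : Set (T × Set ℕ)) (b : Bool),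
  GC n α K → CF S → ∃ h : ℕ → T, ∀ N ∈ K, ∀ v, Ctr n S N (Be S b N v) →
    ∃ m, IsoOn (h m) N univ univ ∅

/-! ### The main argument -/

/-- Finite cones. -/
def S_FINC : Prop := ∀ (n : ℕ) (α : Ordinal.{0}) (K : Set T), GC n α K →
  ∃ h : ℕ → T × Set ℕ, ∀ M ∈ K, ∀ x z, x ≠ z → (Cn M x z).Finite →
    ∃ m, IsoOn (h m).1 (pc M univ (Cn M x z)) (h m).2 (Cn M x z) ∅

/-- Infinite cones without two disjoint big subcones. -/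
def S_INFC : Prop := ∀ (n : ℕ) (α : Ordinal.{0}) (K : Set T)
  (S : Set (T × Set ℕ)), GC n α K → CF S → ∀ M ∈ K, ∀ x z, x ≠ z →
  (Cn M x z).Infinite → ∀ us, Rp (pc M univ (Cn M x z)) (Cn M x z) us →
  ∃ h : ℕ → T, ∀ N : T, BF (od (pc M univ (Cn M x z)) us) N (Cn M x z) univ α ∅ →
  (∀ x z x' z', x ≠ z → x' ≠ z' → Disjoint (Cn N x z) (Cn N x' z') →
    Pc N (Cn N x z) ∈ S ∨ Pc N (Cn N x' z') ∈ S) → ∃ m, IsoOn (h m) N univ univ ∅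

def S_SIM3 : Prop := ∀ (n : ℕ) (α : Ordinal.{0}) (K : Set T)
  (S : Set (T × Set ℕ)), GC n α K → CF S → ∃ S' : Set (T × Set ℕ),
  CF S' ∧ S ⊆ S' ∧ ∀ M ∈ K, ∀ p, Bc S' M p → ∃ q r, Sc M p q r ∧ Bc S M q ∧ Bc S M r

open Pool.Agent.H533R2.VD (Rk)

def S_CNT3 : Prop := ∀ (n : ℕ) (α : Ordinal.{0}) (K : Set T)
  (S : Set (T × Set ℕ)), GC n α K → CF S → ∀ ξ : Ordinal.{0}, ξ < Ordinal.omega 1 →
  ∃ S' : Set (T × Set ℕ),
  CF S' ∧ S ⊆ S' ∧ ∀ M ∈ K, ∀ p, Pr p → ¬ Rk (Bc S M) (Sc M) ξ p → Pc M (Cc M p) ∈ S'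

/-- Measurability of the splitting relation. -/
def S_MSC : Prop := ∀ p q r, MeasurableSet {M : T | Sc M p q r}

def S_BL3 : Prop := ∀ (K : Set T) (B : T → ℕ → Prop) (Sp : T → ℕ → ℕ → ℕ → Prop),
  MeasurableSet K → (∀ p, MeasurableSet {M : T | M ∈ K ∧ B M p}) →
  (∀ p q r, MeasurableSet {M : T | M ∈ K ∧ Sp M p q r}) →
  (∀ ξ : Ordinal.{0}, ξ < Ordinal.omega 1 → ∃ M ∈ K, ∃ p, Rk (B M) (Sp M) ξ p) →
  ∃ M ∈ K, ∃ P : List Bool → ℕ, (∀ s, B M (P s)) ∧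
    ∀ s, Sp M (P s) (P (s ++ [false])) (P (s ++ [true]))

def S_MAIN3 : Prop := ∀ (n : ℕ) (α : Ordinal.{0}) (K : Set T), GC n α K →
  ∃ h : ℕ → T, ∀ M ∈ K, ∃ m, IsoOn (h m) M univ univ ∅

end Pool.Agent.N643.TD
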