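import Pool.Agent.N643.TD.Mso4

set_option autoImplicit false

/-!
# Tree orders as C-relations
-/

namespace Pool.Agent.N643.TD.Ord

open Set FirstOrder FirstOrder.Language

/-- tree orders -/
structure TOrd (R : ℕ → ℕ → Prop) : Prop where
  refl : ∀ x, R x x
  trans : ∀ x y z, R x y → R y z → R x z
  antisymm : ∀ x y, R x y → R y x → x = y
  chain : ∀ x y z, R x z → R y z → R x y ∨ R y x

/-- the C-relation of a tree order -/
def cr (R : ℕ → ℕ → Prop) (x y z : ℕ) : Prop := (∃ t, R t x ∧ R t y ∧ ¬ R t z) ∨ (x = y ∧ x ≠ z)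

variable {R : ℕ → ℕ → Prop}

theorem cr_refl (x z : ℕ) (h : x ≠ z) : cr R x x z := Or.inr ⟨rfl, h⟩

theorem cr_irr (x y : ℕ) : ¬ cr R x y x := by
  rintro (⟨t, h1, _, h3⟩ | ⟨_, h2⟩)
  · exact h3 h1
  · exact h2 rfl

theorem cr_symm (x y z : ℕ) (h : cr R x y z) : cr R y x z := by
  rcases h with ⟨t, h1, h2, h3⟩ | ⟨h1, h2⟩
  · exact Or.inl ⟨t, h2, h1, h3⟩
  · exact Or.inr ⟨h1.symm, fun h3 => h2 (h1.trans h3)⟩

theorem cr_asymm (hR : TOrd R) (x y z : ℕ) (h : cr R x y z) : ¬ cr R x z y := by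
  rintro (⟨s, g1, g2, g3⟩ | ⟨g1, _⟩)
  · rcases h with ⟨t, h1, h2, h3⟩ | ⟨h1, _⟩
    · rcases hR.chain _ _ _ h1 g1 with h4 | h4
      · exact h3 (hR.trans _ _ _ h4 g2)
      · exact g3 (hR.trans _ _ _ h4 h2)
    · exact g3 (h1 ▸ g1)
  · exact cr_irr x y (by rw [← g1] at h; exact h)

theorem cr_trans (x y z : ℕ) (h : cr R x y z) (w : ℕ) : cr R x y w ∨ cr R w y z := by
  classical
  rcases h with ⟨t, h1, h2, h3⟩ | ⟨h1, h2⟩
  · by_cases h4 : R t w
    · exact Or.inr (Or.inl ⟨t, h4, h2, h3⟩)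
    · exact Or.inl (Or.inl ⟨t, h1, h2, h4⟩)
  · by_cases h4 : x = w
    · refine Or.inr (Or.inr ⟨h4.symm.trans h1, fun h5 => h2 (h4.trans h5)⟩)
    · exact Or.inl (Or.inr ⟨h1, h4⟩)

/-- the points that are not maximal -/
def nm (R : ℕ → ℕ → Prop) : Set ℕ := {x | ∃ v, v ≠ x ∧ R x v}

/-- the order is definable from the C-relation and the set of the points that are not maximal -/
theorem le_iff (hR : TOrd R) (x y : ℕ) :
    R x y ↔ x = y ∨ (x ∈ nm R ∧ ∀ v, v = x ∨ ¬ cr R x v y) := by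
  classical
  constructor
  · intro h
    by_cases hxy : x = y
    · exact Or.inl hxy
    · refine Or.inr ⟨⟨y, fun h1 => hxy h1.symm, h⟩, fun v => ?_⟩
      by_cases hv : v = x
      · exact Or.inl hv
      · refine Or.inr ?_
        rintro (⟨t, h1, _, h3⟩ | ⟨h1, _⟩)
        · exact h3 (hR.trans _ _ _ h1 h)
        · exact hv h1.symm
  · rintro (h | ⟨⟨v, hv, h1⟩, h2⟩)
    · rw [h]
      exact hR.refl y
    · rcases h2 v with h3 | h3
      · exact absurd h3 hv
      · by_contra h4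
        exact h3 (Or.inl ⟨x, hR.refl x, h1, h4⟩)

variable {L : FirstOrder.Language.{0, 0}} {m : ℕ}

/-- placing of the variables -/
def pl (m : ℕ) (k : Fin 3) : Fin m ⊕ Fin 2 → (Fin m ⊕ Fin 3) ⊕ Fin 1 :=
  Sum.elim (fun i => Sum.inl (Sum.inl i)) ![Sum.inr 0, Sum.inl (Sum.inr k)]

/-- the formula for the C-relation -/
noncomputable def crF (φ : L.Formula (Fin m ⊕ Fin 2)) : L.Formula (Fin m ⊕ Fin 3) :=
  (Formula.iExs (Fin 1) ((φ.relabel (pl m 0)) ⊓ ((φ.relabel (pl m 1)) ⊓ (φ.relabel (pl m 2)).not))) ⊔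
    ((Term.equal (Term.var (Sum.inr 0)) (Term.var (Sum.inr 1))) ⊓
      (Term.equal (Term.var (Sum.inr 0)) (Term.var (Sum.inr 2))).not)

theorem realize_crF (S : L.Structure ℕ) (φ : L.Formula (Fin m ⊕ Fin 2)) (p : Fin m → ℕ)
    (x y z : ℕ) :
    @Formula.Realize L ℕ S _ (crF φ) (Sum.elim p ![x, y, z]) ↔
      cr (fun u v => @Formula.Realize L ℕ S _ φ (Sum.elim p ![u, v])) x y z := by
  letI := S
  have key : ∀ (k : Fin 3) (i : Fin 1 → ℕ),
      (Sum.elim (Sum.elim p ![x, y, z]) i ∘ pl m k : Fin m ⊕ Fin 2 → ℕ) =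
        Sum.elim p ![i 0, ![x, y, z] k] := by
    intro k i
    funext j
    rcases j with j | j
    · rfl
    · fin_cases j
      · rfl
      · rfl
  unfold crF cr
  rw [Formula.realize_sup, Formula.realize_iExs, Formula.realize_inf, Formula.realize_not,
    Formula.realize_equal, Formula.realize_equal]
  refine or_congr ?_ Iff.rfl
  constructor
  · rintro ⟨i, h⟩
    rw [Formula.realize_inf, Formula.realize_inf, Formula.realize_not, Formula.realize_relabel,
      Formula.realize_relabel, Formula.realize_relabel, key, key, key] at h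
    exact ⟨i 0, h.1, h.2.1, h.2.2⟩
  · rintro ⟨t, h1, h2, h3⟩
    refine ⟨fun _ => t, ?_⟩
    rw [Formula.realize_inf, Formula.realize_inf, Formula.realize_not, Formula.realize_relabel,
      Formula.realize_relabel, Formula.realize_relabel, key, key, key]
    exact ⟨h1, h2, h3⟩

end Pool.Agent.N643.TD.Ord
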