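import Pool.Agent.N643.TD.Spec
import Pool.Agent.H899R2.VP.Borel
import Pool.Agent.H533R2.VS.All2
import Pool.Agent.TH425.FF.Cun

set_option autoImplicit false

/-!
# Structures with relations of arity at most two over a C-relation
-/

namespace Pool.Agent.N643.TD

open Set MeasureTheory
open Pool.Agent.H899R2.VP (St IsoOn BF closed_rank)
open Pool.Agent.H533R2.VO (RS RIso VC Dich)
open Pool.Agent.H533R2.VS (US UIso UDich VCu Coan Inv act)

variable {a : ℕ → ℕ} {n : ℕ}

/-- arities with a ternary relation in front -/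
def tt (a : ℕ → ℕ) : ℕ → ℕ
  | 0 => 3
  | j + 1 => a j

/-- the ternary relation -/
def C3 (z : RS (tt a)) (x y w : ℕ) : Prop := z 0 ![x, y, w] = true

/-- `u` and `v` have the same row over the complement of `Y` -/
def SRow (z : RS (tt a)) (Y : Set ℕ) (u v : ℕ) : Prop :=
  ∀ (j : ℕ) (t : Fin (a j) → ℕ) (k : Fin (a j)), (∃ l, l ≠ k) → (∀ l, l ≠ k → t l ∉ Y) →
    z (j + 1) (Function.update t k u) = z (j + 1) (Function.update t k v)

/-- the union of the children of the points `e k`, in the node of `x` and `y` -/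
def Un (z : RS (tt a)) (x y : ℕ) (e : Fin (n + 1) → ℕ) : Set ℕ :=
  {w | ∃ k, C3 z (e k) w x ∨ C3 z (e k) w y}

/-- the class -/
structure Tk (n : ℕ) (z : RS (tt a)) : Prop where
  refl : ∀ x w, x ≠ w → C3 z x x w
  irr : ∀ x y, ¬ C3 z x y x
  symm : ∀ x y w, C3 z x y w → C3 z y x w
  c2 : ∀ x y w, C3 z x y w → ¬ C3 z x w y
  c3 : ∀ x y w, C3 z x y w → ∀ v, C3 z x y v ∨ C3 z v y w
  sec : ∀ x y, x ≠ y → ∀ e : Fin (n + 1) → ℕ, (∀ i, ¬ C3 z x y (e i)) →
    ∃ i j, i ≠ j ∧ SRow z (Un z x y e) (e i) (e j)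

/-- a relation of arity at most two as a binary relation -/
def ex2 {m : ℕ} (r : (Fin m → ℕ) → Bool) (t : Fin 2 → ℕ) : Bool :=
  if h : m ≤ 2 then decide (m = 1 → t 0 = t 1) && r (fun j => t (Fin.castLE h j)) else false

/-- the argument tuple -/
def pd2 {m : ℕ} (v : Fin m → ℕ) (j : Fin 2) : ℕ :=
  if h : j.val < m then v ⟨j.val, h⟩ else if h0 : 0 < m then v ⟨0, h0⟩ else 0

theorem ex2_pd2 {m : ℕ} (hm : m ≤ 2) (r : (Fin m → ℕ) → Bool) (v : Fin m → ℕ) :
    ex2 r (pd2 v) = r v := by
  unfold ex2
  rw [dif_pos hm]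
  have h1 : (m = 1 → (pd2 v 0 : ℕ) = pd2 v 1) := by
    intro h
    subst h
    rfl
  have h2 : (fun j => pd2 v (Fin.castLE hm j)) = v := by
    funext j
    unfold pd2
    have h3 : (Fin.castLE hm j).val < m := j.2
    rw [dif_pos h3]
    rfl
  rw [h2, decide_eq_true h1, Bool.true_and]

/-- encoding -/
def cod (y : US (tt a)) : T :=
  (fun _ _ => true, fun i => match i with
    | 0 => y.1 0
    | i + 1 => fun t => if i % 2 = 0 then decide (i = 0 ∧ t (0 : Fin 2) = t (1 : Fin 2)) else
        if i / 2 % 2 = 0 then ex2 (y.1 (i / 2 / 2 + 1)) t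
        else decide (t (0 : Fin 2) = t (1 : Fin 2)) && y.2 (i / 2 / 2) (t (0 : Fin 2)))

/-- decoding -/
def dcd (M : T) : US (tt a) :=
  (fun i => match i with
    | 0 => M.2 0
    | j + 1 => fun v => M.2 (2 * (2 * j) + 1 + 1) (pd2 v),
   fun j u => M.2 (2 * (2 * j + 1) + 1 + 1) ![u, u])

theorem cod_r (y : US (tt a)) (i : ℕ) (t : Fin 2 → ℕ) : (cod y).2 (2 * i + 1 + 1) t =
    if i % 2 = 0 then ex2 (y.1 (i / 2 + 1)) t else decide (t 0 = t 1) && y.2 (i / 2) (t 0) := by
  show (if (2 * i + 1) % 2 = 0 then _ else if (2 * i + 1) / 2 % 2 = 0 then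
    ex2 (y.1 ((2 * i + 1) / 2 / 2 + 1)) t else decide (t 0 = t 1) && y.2 ((2 * i + 1) / 2 / 2) (t 0)) = _
  rw [if_neg (by omega), show (2 * i + 1) / 2 = i by omega]

theorem cod_l (y : US (tt a)) (j : ℕ) (t : Fin 2 → ℕ) : (cod y).2 (2 * j + 1) t =
    decide (2 * j = 0 ∧ t 0 = t 1) := by
  show (if (2 * j) % 2 = 0 then decide (2 * j = 0 ∧ t 0 = t 1) else _) = _
  rw [if_pos (by omega)]

theorem dcd_cod (ha : ∀ j, a j ≤ 2) (y : US (tt a)) : dcd (cod y) = y := by
  refine Prod.ext ?_ ?_
  · funext i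
    cases i with
    | zero => rfl
    | succ j =>
      funext v
      show (cod y).2 (2 * (2 * j) + 1 + 1) (pd2 v) = y.1 (j + 1) v
      refine (cod_r y (2 * j) (pd2 v)).trans ?_
      rw [if_pos (by omega), show 2 * j / 2 = j by omega]
      exact ex2_pd2 (ha j) _ v
  · funext j u
    show (cod y).2 (2 * (2 * j + 1) + 1 + 1) ![u, u] = y.2 j u
    refine (cod_r y (2 * j + 1) ![u, u]).trans ?_
    rw [if_neg (by omega), show (2 * j + 1) / 2 = j by omega]
    simp

/-- relabelling -/
def ua (e : Equiv.Perm ℕ) (y : US (tt a)) : US (tt a) :=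
  (fun i v => y.1 i (⇑e.symm ∘ v), fun i u => y.2 i (e.symm u))

/-- relabelling -/
def ta (e : Equiv.Perm ℕ) (M : T) : T :=
  (fun u v => M.1 (e.symm u) (e.symm v), fun i t => M.2 i (⇑e.symm ∘ t))

theorem ex2_act {m : ℕ} (r : (Fin m → ℕ) → Bool) (e : Equiv.Perm ℕ) (t : Fin 2 → ℕ) :
    ex2 (fun v => r (⇑e.symm ∘ v)) t = ex2 r (⇑e.symm ∘ t) := by
  unfold ex2
  split_ifs with h
  · congr 1
    refine decide_eq_decide.2 (imp_congr_right fun _ => ?_)
    exact (e.symm.injective.eq_iff).symm
  · rfl

theorem cod_act (e : Equiv.Perm ℕ) (y : US (tt a)) : cod (ua e y) = ta e (cod y) := by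
  refine Prod.ext rfl ?_
  funext i
  cases i with
  | zero => rfl
  | succ i =>
    funext t
    show (if i % 2 = 0 then _ else if i / 2 % 2 = 0 then ex2 ((ua e y).1 (i / 2 / 2 + 1)) t
      else _) = (if i % 2 = 0 then _ else if i / 2 % 2 = 0 then ex2 (y.1 (i / 2 / 2 + 1))
        (⇑e.symm ∘ t) else _)
    split_ifs with h1 h2
    · refine decide_eq_decide.2 (and_congr_right fun _ => ?_)
      exact (e.symm.injective.eq_iff).symm
    · exact ex2_act _ e t
    · show (decide (t (0 : Fin 2) = t (1 : Fin 2)) && y.2 (i / 2 / 2) (e.symm (t (0 : Fin 2)))) =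
        (decide (e.symm (t (0 : Fin 2)) = e.symm (t (1 : Fin 2))) && _)
      congr 1
      exact decide_eq_decide.2 (e.symm.injective.eq_iff).symm

theorem ua_iso (e : Equiv.Perm ℕ) (y : US (tt a)) : UIso y (ua e y) := by
  refine ⟨e, fun i v => ?_, fun i u => ?_⟩
  · show y.1 i (⇑e.symm ∘ (⇑e ∘ v)) = y.1 i v
    have e1 : (⇑e.symm ∘ (⇑e ∘ v)) = v := by
      funext j
      simp
    rw [e1]
  · show y.2 i (e.symm (e u)) = y.2 i u
    rw [e.symm_apply_apply]

theorem eq_ua {y y' : US (tt a)} (h : UIso y y') : ∃ e, y' = ua e y := by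
  obtain ⟨e, h1, h2⟩ := h
  refine ⟨e, Prod.ext ?_ ?_⟩
  · funext i v
    show y'.1 i v = y.1 i (⇑e.symm ∘ v)
    have e1 : (⇑e ∘ (⇑e.symm ∘ v)) = v := by
      funext j
      simp
    rw [← h1, e1]
  · funext i u
    show y'.2 i u = y.2 i (e.symm u)
    rw [← h2, e.apply_symm_apply]

theorem eq_ta {M N : T} (h : IsoOn M N univ univ ∅) : ∃ e, N = ta e M := by
  obtain ⟨e, he, -⟩ := exists_is h
  refine ⟨e, Prod.ext ?_ ?_⟩
  · funext u v
    have h1 := he.2.1 (e.symm u, u) (e.apply_symm_apply u).symm (e.symm v, v)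
      (e.apply_symm_apply v).symm
    exact h1.symm
  · funext i t
    have h1 := he.2.2 i (fun k => (e.symm (t k), t k)) (fun k => (e.apply_symm_apply (t k)).symm)
    exact h1.symm

theorem ta_iso (e : Equiv.Perm ℕ) (M : T) : IsoOn M (ta e M) univ univ ∅ := by
  refine ⟨{w | w.2 = e w.1}, empty_subset _, fun w _ => ⟨mem_univ _, mem_univ _⟩, ?_,
    fun x _ => ⟨e x, rfl⟩, fun x _ => ⟨e.symm x, (e.apply_symm_apply x).symm⟩⟩
  refine ⟨?_, ?_, ?_⟩
  · rintro ⟨u, u'⟩ hu ⟨v, v'⟩ hv
    cases (show u' = e u from hu)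
    cases (show v' = e v from hv)
    exact e.injective.eq_iff.symm
  · rintro ⟨u, u'⟩ hu ⟨v, v'⟩ hv
    cases (show u' = e u from hu)
    cases (show v' = e v from hv)
    show M.1 u v = M.1 (e.symm (e u)) (e.symm (e v))
    rw [e.symm_apply_apply, e.symm_apply_apply]
  · intro i t ht
    have e1 : (⇑e.symm ∘ fun k => (t k).2) = fun k => (t k).1 := by
      funext k
      show e.symm (t k).2 = (t k).1
      rw [show (t k).2 = e (t k).1 from ht k, e.symm_apply_apply]
    show M.2 i (fun k => (t k).1) = M.2 i (⇑e.symm ∘ fun k => (t k).2)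
    rw [e1]

theorem c_cod : Continuous (cod : US (tt a) → T) := by
  refine Continuous.prodMk continuous_const ?_
  refine continuous_pi fun i => continuous_pi fun t => ?_
  cases i with
  | zero => exact (continuous_apply t).comp ((continuous_apply 0).comp continuous_fst)
  | succ i =>
    show Continuous fun y : US (tt a) => if i % 2 = 0 then _ else _
    split_ifs with h1 h2
    · exact continuous_const
    · unfold ex2
      split_ifs with h3
      · have h4 : Continuous fun y : US (tt a) => (decide (tt a (i / 2 / 2 + 1) = 1 →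
            t (0 : Fin 2) = t (1 : Fin 2)), y.1 (i / 2 / 2 + 1) fun j => t (Fin.castLE h3 j)) :=
          continuous_const.prodMk ((continuous_apply _).comp ((continuous_apply _).comp
            continuous_fst))
        exact (continuous_of_discreteTopology (f := fun p : Bool × Bool => p.1 && p.2)).comp h4
      · exact continuous_const
    · have h4 : Continuous fun y : US (tt a) => (decide (t (0 : Fin 2) = t (1 : Fin 2)),
          y.2 (i / 2 / 2) (t (0 : Fin 2))) :=
        continuous_const.prodMk ((continuous_apply _).comp ((continuous_apply _).comp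
          continuous_snd))
      exact (continuous_of_discreteTopology (f := fun p : Bool × Bool => p.1 && p.2)).comp h4

theorem c_dcd : Continuous (dcd : T → US (tt a)) := by
  refine Continuous.prodMk ?_ ?_
  · refine continuous_pi fun i => ?_
    cases i with
    | zero => exact (continuous_apply 0).comp continuous_snd
    | succ j =>
      exact continuous_pi fun v => (continuous_apply (pd2 v)).comp
        ((continuous_apply (2 * (2 * j) + 1 + 1)).comp continuous_snd)
  · refine continuous_pi fun i => continuous_pi fun u => ?_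
    exact (continuous_apply (![u, u] : Fin 2 → ℕ)).comp
      ((continuous_apply (2 * (2 * i + 1) + 1 + 1)).comp continuous_snd)

theorem n_pos {z : RS (tt a)} (h : Tk n z) : 0 < n := by
  rcases Nat.eq_zero_or_pos n with h0 | h0
  · subst h0
    have hs : ∀ i j : Fin (0 + 1), i = j := fun i j => by omega
    obtain ⟨i, j, h1, _⟩ := h.sec 0 1 (by omega) (fun _ => 0) (fun i => h.irr _ _)
    exact absurd (hs i j) h1
  · exact h0

theorem cr_cod (y : US (tt a)) (h : Tk n y.1) : Cr (cod y) := by
  have hD : ∀ x v w, D (cod y) x v w ↔ C3 y.1 x v w := fun x v w => Iff.rfl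
  exact ⟨h.refl, h.irr, h.symm, h.c2, h.c3⟩

theorem er_of (y : US (tt a)) {Y : Set ℕ} {u0 v0 : ℕ} (hu : u0 ∈ Y) (hv0 : v0 ∈ Y)
    (hr : SRow y.1 Y u0 v0) : er (cod y) univ Y u0 v0 := by
  have hl : ∀ j u, lb (cod y) j u = decide (2 * j = 0 ∧ u = u) := fun j u => cod_l y j ![u, u]
  refine ⟨rfl, fun l => by rw [hl, hl]; simp, fun v _ hv l => ?_⟩
  have hi : u0 ≠ v := fun h2 => hv (h2 ▸ hu)
  have hj : v0 ≠ v := fun h2 => hv (h2 ▸ hv0)
  have key : ∀ p : Bool, (cod y).2 (2 * l + 1 + 1) (if p then ![u0, v] else ![v, u0]) =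
      (cod y).2 (2 * l + 1 + 1) (if p then ![v0, v] else ![v, v0]) := by
    intro p
    refine (cod_r y l _).trans ((?_ : _ = _).trans (cod_r y l _).symm)
    split_ifs with h2 hp hp
    · -- binary relation, first place
      unfold ex2
      split_ifs with h3
      · have h3' : a (l / 2) ≤ 2 := h3
        rcases Nat.lt_or_ge (a (l / 2)) 2 with h4 | h4
        · rcases Nat.eq_zero_or_pos (a (l / 2)) with h5 | h5
          · congr 1
            · rw [decide_eq_decide]
              constructor <;> intro _ h6 <;> (change a (l / 2) = 1 at h6; omega)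
            · refine congrArg (y.1 (l / 2 + 1)) (funext fun k => ?_)
              have := k.2
              change k.val < a (l / 2) at this
              omega
          · have h6 : a (l / 2) = 1 := by omega
            rw [decide_eq_false (fun h7 => hi (h7 h6)), decide_eq_false (fun h7 => hj (h7 h6))]
            rfl
        · have h5 : a (l / 2) = 2 := by omega
          have e0 : ∀ u, (fun k : Fin (a (l / 2)) => (![u, v] : Fin 2 → ℕ) (Fin.castLE h3' k)) =
              Function.update (fun _ => v) ⟨0, by omega⟩ u := by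
            intro u
            funext k
            by_cases hk : k = ⟨0, by omega⟩
            · subst hk
              rw [Function.update_self]
              rfl
            · rw [Function.update_of_ne hk]
              have h6 : k.val = 1 := by
                have h7 := k.2
                have h8 : k.val ≠ 0 := fun h9 => hk (Fin.ext h9)
                omega
              have h7 : Fin.castLE h3' k = 1 := Fin.ext h6
              rw [h7]
              rfl
          congr 1
          · rw [decide_eq_decide]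
            constructor <;> intro _ h6 <;> (change a (l / 2) = 1 at h6; omega)
          · refine (congrArg (y.1 (l / 2 + 1)) (e0 (u0))).trans
              (Eq.trans ?_ (congrArg (y.1 (l / 2 + 1)) (e0 (v0))).symm)
            exact hr (l / 2) (fun _ => v) ⟨0, by omega⟩ ⟨⟨1, by omega⟩, fun h6 => by
              have := congrArg Fin.val h6
              simp at this⟩ fun _ _ => hv
      · rfl
    · unfold ex2
      split_ifs with h3
      · have h3' : a (l / 2) ≤ 2 := h3
        rcases Nat.lt_or_ge (a (l / 2)) 2 with h4 | h4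
        · rcases Nat.eq_zero_or_pos (a (l / 2)) with h5 | h5
          · congr 1
            · rw [decide_eq_decide]
              constructor <;> intro _ h6 <;> (change a (l / 2) = 1 at h6; omega)
            · refine congrArg (y.1 (l / 2 + 1)) (funext fun k => ?_)
              have := k.2
              change k.val < a (l / 2) at this
              omega
          · have h6 : a (l / 2) = 1 := by omega
            rw [decide_eq_false (fun h7 => hi (h7 h6).symm),
              decide_eq_false (fun h7 => hj (h7 h6).symm)]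
            rfl
        · have h5 : a (l / 2) = 2 := by omega
          have e0 : ∀ u, (fun k : Fin (a (l / 2)) => (![v, u] : Fin 2 → ℕ) (Fin.castLE h3' k)) =
              Function.update (fun _ => v) ⟨1, by omega⟩ u := by
            intro u
            funext k
            by_cases hk : k = ⟨1, by omega⟩
            · subst hk
              rw [Function.update_self]
              rfl
            · rw [Function.update_of_ne hk]
              have h6 : k.val = 0 := by
                have h7 := k.2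
                have h8 : k.val ≠ 1 := fun h9 => hk (Fin.ext h9)
                omega
              have h7 : Fin.castLE h3' k = 0 := Fin.ext h6
              rw [h7]
              rfl
          congr 1
          · rw [decide_eq_decide]
            constructor <;> intro _ h6 <;> (change a (l / 2) = 1 at h6; omega)
          · refine (congrArg (y.1 (l / 2 + 1)) (e0 (u0))).trans
              (Eq.trans ?_ (congrArg (y.1 (l / 2 + 1)) (e0 (v0))).symm)
            exact hr (l / 2) (fun _ => v) ⟨1, by omega⟩ ⟨⟨0, by omega⟩, fun h6 => by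
              have := congrArg Fin.val h6
              simp at this⟩ fun _ _ => hv
      · rfl
    · show (decide (u0 = v) && _) = (decide (v0 = v) && _)
      rw [decide_eq_false hi, decide_eq_false hj]
      rfl
    · show (decide (v = u0) && _) = (decide (v = v0) && _)
      rw [decide_eq_false (Ne.symm hi), decide_eq_false (Ne.symm hj)]
      rfl
  exact ⟨key true, key false⟩

theorem cs_cod (y : US (tt a)) (h : Tk n y.1) : CsOn n (cod y) univ := by
  have hD : ∀ x v w, D (cod y) x v w ↔ C3 y.1 x v w := fun x v w => Iff.rfl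
  have hcr := cr_cod y h
  have hl : ∀ j u, lb (cod y) j u = decide (2 * j = 0 ∧ u = u) := fun j u => cod_l y j ![u, u]
  have hsec : ∀ x w, x ≠ w → ∀ e : Fin (n + 1) → ℕ, (∀ i, ¬ D (cod y) x w (e i)) →
      ∃ i j, i ≠ j ∧ er (cod y) univ {v | ∃ k, D (cod y) (e k) v x ∨ D (cod y) (e k) v w}
        (e i) (e j) := by
    intro x w hxw e he
    obtain ⟨i, j, hij, hr⟩ := h.sec x w hxw e he
    have hm : ∀ i, e i ∈ {v | ∃ k, D (cod y) (e k) v x ∨ D (cod y) (e k) v w} := by
      intro i
      refine ⟨i, ?_⟩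
      by_cases hx : e i = x
      · exact Or.inr (hcr.refl _ _ (by rw [hx]; exact hxw))
      · exact Or.inl (hcr.refl _ _ hx)
    exact ⟨i, j, hij, er_of y (hm i) (hm j) hr⟩
  refine ⟨fun _ _ _ _ => rfl, fun j x _ v _ hxv => ?_, fun x _ => ⟨0, n_pos h, ?_, ?_⟩,
    fun x _ w _ h1 => h.refl x w h1, fun x _ v _ => h.irr x v, fun x _ v _ w _ => h.symm x v w,
    fun x _ v _ w _ => h.c2 x v w, fun x _ v _ w _ h1 u _ => h.c3 x v w h1 u,
    fun x _ w _ h1 e he => hsec x w h1 e fun i => (he i).2, fun x _ w _ h1 e he => ?_⟩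
  · refine (cod_l y j ![x, v]).trans ?_
    exact decide_eq_false fun h1 => hxv h1.2
  · rw [hl]
    exact decide_eq_true ⟨rfl, rfl⟩
  · intro j' hj'
    rw [hl, decide_eq_true_iff] at hj'
    omega
  · obtain ⟨i, j, hij, hr⟩ := hsec x w h1 e fun i => hcr.c2 _ _ _ (he i).2
    refine ⟨i, j, hij, hr.1, hr.2.1, fun v hv hv' => hr.2.2 v hv ?_⟩
    rintro ⟨k, hk | hk⟩
    · exact hv' (hcr.csub (he k).2 (hcr.self_mem h1) hk)
    · exact hv' (hcr.trans (he k).2 hk)

/-- the dichotomy for expansions by unary predicates -/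
theorem vcu_Tk (main : S_MAIN3) (ha : ∀ j, a j ≤ 2) : VCu (Tk n : RS (tt a) → Prop) := by
  intro B hBm hBi hB
  by_cases hg : ∃ g : (ℕ → Bool) → US (tt a), Continuous g ∧ (∀ c, g c ∈ B) ∧
      ∀ c d, UIso (g c) (g d) → c = d
  · exact Or.inr hg
  left
  have b1 : BorelSpace ((i : ℕ) → (Fin (aT i) → ℕ) → Bool) := inferInstance
  have b2 : BorelSpace (ℕ → ℕ → Bool) := inferInstance
  have s1 : SecondCountableTopology T := inferInstance
  have b3 : BorelSpace T := inferInstance
  have b4 : BorelSpace ((i : ℕ) → (Fin (tt a i) → ℕ) → Bool) := inferInstance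
  have b5 : BorelSpace (US (tt a)) := inferInstance
  let K : Set T := {M | cod (dcd M : US (tt a)) = M ∧ (dcd M : US (tt a)) ∈ B}
  have hKm : MeasurableSet K := by
    refine MeasurableSet.inter ?_ (c_dcd.measurable hBm)
    exact (isClosed_eq (c_cod.comp c_dcd) continuous_id).measurableSet
  have hmem : ∀ y ∈ B, cod y ∈ K := fun y hy => by
    refine ⟨?_, ?_⟩
    · rw [dcd_cod ha]
    · rw [dcd_cod ha]
      exact hy
  have hinv : ∀ M ∈ K, ∀ N : T, IsoOn M N univ univ ∅ → N ∈ K := by
    rintro M ⟨hM1, hM2⟩ N hMN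
    obtain ⟨e, he⟩ := eq_ta hMN
    rw [he, ← hM1, ← cod_act]
    exact hmem _ ((hBi _ _ (ua_iso e _)).1 hM2)
  obtain ⟨α₀, hα₀, hcl⟩ := closed_rank hKm hinv
  have hω : Ordinal.omega0 < Ordinal.omega.{0} 1 := by
    rw [← Ordinal.omega_zero]; exact Ordinal.omega_lt_omega.2 one_pos
  have hG : GC n (max α₀ Ordinal.omega0) K := by
    refine ⟨hKm, max_lt hα₀ hω, le_max_right _ _, ?_, ?_, ?_⟩
    · exact fun M hM N hb => hcl M hM N (hb.mono (le_max_left _ _))
    · rintro M ⟨hM1, hM2⟩
      rw [← hM1]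
      exact cs_cod _ (hB _ hM2)
    · rintro ⟨g, g1, g2, g3⟩
      refine hg ⟨fun c => dcd (g c), c_dcd.comp g1, fun c => (g2 c).2, fun c d h => g3 c d ?_⟩
      obtain ⟨e, he⟩ := eq_ua h
      have he' : (dcd (g d) : US (tt a)) = ua e (dcd (g c)) := he
      rw [← (g2 c).1, ← (g2 d).1, he', cod_act]
      exact ta_iso e _
  obtain ⟨f, hf⟩ := main n _ K hG
  refine ⟨fun m => dcd (f m), fun y hy => ?_⟩
  obtain ⟨m, hm⟩ := hf _ (hmem y hy)
  refine ⟨m, ?_⟩
  have h1 : f m ∈ K := hinv _ (hmem y hy) _ hm.symm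
  obtain ⟨e, he⟩ := eq_ta hm
  rw [← h1.1, ← cod_act] at he
  have h2 := congrArg (dcd : T → US (tt a)) he
  rw [dcd_cod ha, dcd_cod ha] at h2
  rw [h2]
  exact ua_iso e _

/-! ### The class is Borel and invariant -/

theorem m_C3 (x y w : ℕ) : Measurable fun z : RS (tt a) => C3 z x y w := by
  refine measurableSet_setOfPred.1 ?_
  have h : Measurable fun z : RS (tt a) => z 0 ![x, y, w] :=
    (measurable_pi_apply _).comp (measurable_pi_apply 0)
  exact h (MeasurableSet.singleton true)

theorem m_SRow (x y : ℕ) (e : Fin (n + 1) → ℕ) (u v : ℕ) :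
    Measurable fun z : RS (tt a) => SRow z (Un z x y e) u v := by
  unfold SRow Un
  refine Measurable.forall fun j => Measurable.forall fun t => Measurable.forall fun k =>
    measurable_const.imp ((Measurable.forall fun l => measurable_const.imp
      (Measurable.exists fun k => (m_C3 _ _ _).or (m_C3 _ _ _)).not).imp ?_)
  refine measurableSet_setOfPred.1 ?_
  have h : ∀ s : Fin (a j) → ℕ, Measurable fun z : RS (tt a) => z (j + 1) s := fun s =>
    (measurable_pi_apply s).comp (measurable_pi_apply (j + 1))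
  exact measurableSet_eq_fun (h _) (h _)

theorem m_Tk : MeasurableSet {z : RS (tt a) | Tk n z} := by
  have e : {z : RS (tt a) | Tk n z} = {z |
      (∀ x w, x ≠ w → C3 z x x w) ∧ (∀ x y, ¬ C3 z x y x) ∧
      (∀ x y w, C3 z x y w → C3 z y x w) ∧ (∀ x y w, C3 z x y w → ¬ C3 z x w y) ∧
      (∀ x y w, C3 z x y w → ∀ v, C3 z x y v ∨ C3 z v y w) ∧
      ∀ x w, x ≠ w → ∀ e : Fin (n + 1) → ℕ, (∀ i, ¬ C3 z x w (e i)) →
        ∃ i j, i ≠ j ∧ SRow z (Un z x w e) (e i) (e j)} := by
    ext z
    constructor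
    · intro h
      exact ⟨h.refl, h.irr, h.symm, h.c2, h.c3, h.sec⟩
    · rintro ⟨h1, h2, h3, h4, h5, h6⟩
      exact ⟨h1, h2, h3, h4, h5, h6⟩
  rw [e]
  refine measurableSet_setOfPred.2 ?_
  refine Measurable.and (Measurable.forall fun x => Measurable.forall fun w =>
    measurable_const.imp (m_C3 _ _ _)) ?_
  refine Measurable.and (Measurable.forall fun x => Measurable.forall fun w => (m_C3 _ _ _).not) ?_
  refine Measurable.and (Measurable.forall fun x => Measurable.forall fun y =>
    Measurable.forall fun w => (m_C3 _ _ _).imp (m_C3 _ _ _)) ?_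
  refine Measurable.and (Measurable.forall fun x => Measurable.forall fun y =>
    Measurable.forall fun w => (m_C3 _ _ _).imp (m_C3 _ _ _).not) ?_
  refine Measurable.and (Measurable.forall fun x => Measurable.forall fun y =>
    Measurable.forall fun w => (m_C3 _ _ _).imp (Measurable.forall fun v =>
    (m_C3 _ _ _).or (m_C3 _ _ _))) ?_
  exact Measurable.forall fun x => Measurable.forall fun w => measurable_const.imp
    (Measurable.forall fun e => (Measurable.forall fun i => (m_C3 _ _ _).not).imp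
    (Measurable.exists fun i => Measurable.exists fun j =>
      measurable_const.and (m_SRow _ _ _ _ _)))

theorem coan_Tk : Coan (Tk n : RS (tt a) → Prop) := by
  have hP : PolishSpace (RS (tt a)) := Pool.Agent.H533R2.VS.kis_pRS (tt a)
  exact MeasurableSet.analyticSet m_Tk.compl

theorem c3_iso {z z' : RS (tt a)} {σ : Equiv.Perm ℕ}
    (h : ∀ (i : ℕ) (v : Fin (tt a i) → ℕ), z' i (⇑σ ∘ v) = z i v) (x y w : ℕ) :
    C3 z' (σ x) (σ y) (σ w) ↔ C3 z x y w := by
  unfold C3
  have e : (![σ x, σ y, σ w] : Fin 3 → ℕ) = ⇑σ ∘ ![x, y, w] := by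
    funext t
    fin_cases t <;> rfl
  have h1 := h 0 ![x, y, w]
  rw [← h1]
  exact iff_of_eq (congrArg (fun t => z' 0 t = true) e)

theorem inv_Tk : Inv (Tk n : RS (tt a) → Prop) := by
  rintro z z' ⟨σ, hσ⟩ h
  have hC : ∀ x y w, C3 z' x y w ↔ C3 z (σ.symm x) (σ.symm y) (σ.symm w) := by
    intro x y w
    rw [← c3_iso hσ, σ.apply_symm_apply, σ.apply_symm_apply, σ.apply_symm_apply]
  refine ⟨fun x w hxw => ?_, fun x y => ?_, fun x y w => ?_, fun x y w => ?_,
    fun x y w h1 v => ?_, fun x w hxw e he => ?_⟩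
  · rw [hC]
    exact h.refl _ _ fun h1 => hxw (σ.symm.injective h1)
  · rw [hC]
    exact h.irr _ _
  · rw [hC, hC]
    exact h.symm _ _ _
  · rw [hC, hC]
    exact h.c2 _ _ _
  · rw [hC] at h1
    rw [hC, hC]
    exact h.c3 _ _ _ h1 _
  · obtain ⟨i, j, h1, h2⟩ := h.sec (σ.symm x) (σ.symm w) (fun h1 => hxw (σ.symm.injective h1))
      (⇑σ.symm ∘ e) fun i h3 => he i ((hC _ _ _).2 h3)
    refine ⟨i, j, h1, fun l t k hk ht => ?_⟩
    have h3 := h2 l (⇑σ.symm ∘ t) k hk fun m hm h4 => ht m hm (by
      obtain ⟨q, h5 | h5⟩ := h4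
      · exact ⟨q, Or.inl ((hC _ _ _).2 h5)⟩
      · exact ⟨q, Or.inr ((hC _ _ _).2 h5)⟩)
    rw [← hσ (l + 1), ← hσ (l + 1)] at h3
    have e1 : ∀ u, (⇑σ ∘ Function.update (⇑σ.symm ∘ t) k (σ.symm u)) = Function.update t k u := by
      intro u
      funext m
      by_cases hm : m = k
      · subst hm
        simp
      · simp [Function.update_of_ne hm]
    refine ((congrArg (z' (l + 1)) (e1 (e i))).symm.trans h3).trans (congrArg (z' (l + 1)) (e1 (e j)))

end Pool.Agent.N643.TD
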